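import Pool.Agent.Lib.MP_2eeeac_ag.G2.AInj

/-!
# Module AComb: `Mprod s` has codimension at most `card s`
-/

namespace G2

open Polynomial

variable {K : Type*} [Field K] {f : K[X]} [Quintic f]

omit [Quintic f] in
private lemma smul_eq_kc (c : K) (g : CR f) : c • g = (⟨C c, 0⟩ : CR f) * g := by
  ext1
  · simp [smul_eq_C_mul]
  · simp [smul_eq_C_mul]

omit [Quintic f] in
private lemma ev_kc (Q : APt f) (c : K) : ev Q (⟨C c, 0⟩ : CR f) = c := by
  simp [ev_apply]

omit [Quintic f] in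
private lemma mem_m_iff' (Q : APt f) (g : CR f) : g ∈ Q.m ↔ ev Q g = 0 := mem_m_iff Q g

omit [Quintic f] in
private lemma smul_mem_ideal (I : Ideal (CR f)) (c : K) {g : CR f} (hg : g ∈ I) : c • g ∈ I := by
  rw [smul_eq_kc]
  exact I.mul_mem_left _ hg

theorem exists_gen (s : Multiset (APt f)) (Q : APt f) :
    ∃ e ∈ Mprod s, ∀ g ∈ Mprod s, ∃ c : K, g - c • e ∈ Mprod (Q ::ₘ s) := by
  have hII := Mprod_mul_neg s (fun P _ => smooth_of_quintic P)
  have hh0 : (⟨(s.map fun P => X - C P.x).prod, 0⟩ : CR f) ≠ 0 := by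
    intro h0
    have h1 : (s.map fun P : APt f => (X - C P.x : K[X])).prod = 0 := by
      have := congrArg QuadraticAlgebra.re h0
      simpa using this
    rw [Multiset.prod_eq_zero_iff, Multiset.mem_map] at h1
    obtain ⟨P, _, hP⟩ := h1
    exact X_sub_C_ne_zero _ hP
  obtain ⟨h, hh⟩ : ∃ h : CR f, h = (⟨(s.map fun P => X - C P.x).prod, 0⟩ : CR f) := ⟨_, rfl⟩
  rw [← hh] at hII hh0
  have key : ∃ e ∈ Mprod s, ∃ u ∈ Mprod (s.map APt.neg), ∃ c₀ : CR f, e * u = h * c₀ ∧
      c₀ ∉ Q.m := by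
    by_contra hcon
    push Not at hcon
    have h1 : Mprod s * Mprod (s.map APt.neg) ≤ Ideal.span {h} * Q.m := by
      rw [Ideal.mul_le]
      intro e he u hu
      have h2 : e * u ∈ Ideal.span {h} := by
        rw [← hII]
        exact Ideal.mul_mem_mul he hu
      obtain ⟨c₀, hc₀⟩ := Ideal.mem_span_singleton.mp h2
      rw [hc₀]
      exact Ideal.mul_mem_mul (Ideal.mem_span_singleton_self h) (hcon e he u hu c₀ hc₀)
    rw [hII] at h1
    obtain ⟨c, hc, hc'⟩ := Ideal.mem_span_singleton_mul.mp (h1 (Ideal.mem_span_singleton_self h))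
    have h3 : c = 1 := mul_left_cancel₀ hh0 (by rw [hc', mul_one])
    rw [h3, mem_m_iff', map_one] at hc
    exact one_ne_zero hc
  obtain ⟨e, he, u, hu, c₀, hc₀, hc₀Q⟩ := key
  refine ⟨e, he, fun g hg => ?_⟩
  have h2 : g * u ∈ Ideal.span {h} := by
    rw [← hII]
    exact Ideal.mul_mem_mul hg hu
  obtain ⟨c₁, hc₁⟩ := Ideal.mem_span_singleton.mp h2
  have h3 : g * c₀ = c₁ * e := by
    apply mul_left_cancel₀ hh0
    linear_combination (e : CR f) * hc₁ - g * hc₀
  have hα : ev Q c₀ ≠ 0 := fun h0 => hc₀Q ((mem_m_iff' Q c₀).mpr h0)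
  refine ⟨ev Q c₁ / ev Q c₀, ?_⟩
  rw [Mprod_cons]
  have e1 : (⟨C (ev Q c₀), 0⟩ : CR f) * (g - (ev Q c₁ / ev Q c₀) • e) =
      ((⟨C (ev Q c₀), 0⟩ : CR f) - c₀) * g + (c₁ - (⟨C (ev Q c₁), 0⟩ : CR f)) * e := by
    have e2 : (⟨C (ev Q c₀), 0⟩ : CR f) * ((ev Q c₁ / ev Q c₀) • e) =
        (⟨C (ev Q c₁), 0⟩ : CR f) * e := by
      rw [← smul_eq_kc, ← smul_eq_kc, smul_smul, mul_div_cancel₀ _ hα]
    rw [mul_sub, e2]
    linear_combination h3
  have h4 : (⟨C (ev Q c₀), 0⟩ : CR f) * (g - (ev Q c₁ / ev Q c₀) • e) ∈ Q.m * Mprod s := by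
    rw [e1]
    refine Ideal.add_mem _ (Ideal.mul_mem_mul ?_ hg) (Ideal.mul_mem_mul ?_ he)
    · rw [mem_m_iff', map_sub, ev_kc, sub_self]
    · rw [mem_m_iff', map_sub, ev_kc, sub_self]
  have h5 := smul_mem_ideal _ (ev Q c₀)⁻¹ h4
  rw [← smul_eq_kc, smul_smul, inv_mul_cancel₀ hα, one_smul] at h5
  exact h5

/-- the space of coefficient vectors -/
private noncomputable def VV (s : Multiset (APt f)) {n : ℕ} (w : Fin n → CR f) :
    Submodule K (Fin n → K) where
  carrier := {c | ∑ i, c i • w i ∈ Mprod s}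
  add_mem' := by
    intro a b ha hb
    simp only [Set.mem_ofPred_eq, Pi.add_apply, add_smul, Finset.sum_add_distrib] at ha hb ⊢
    exact Ideal.add_mem _ ha hb
  zero_mem' := by
    simp
  smul_mem' := by
    intro a c hc
    simp only [Set.mem_ofPred_eq, Pi.smul_apply, smul_eq_mul, mul_smul] at hc ⊢
    rw [← Finset.smul_sum]
    exact smul_mem_ideal _ _ hc

private lemma finrank_VV {n : ℕ} (w : Fin n → CR f) (s : Multiset (APt f)) :
    n ≤ Module.finrank K (VV s w) + s.card := by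
  induction s using Multiset.induction with
  | empty =>
    have h1 : VV (0 : Multiset (APt f)) w = ⊤ := by
      rw [eq_top_iff]
      intro c _
      change ∑ i, c i • w i ∈ Mprod 0
      rw [Mprod_zero]
      exact Submodule.mem_top
    rw [h1, finrank_top, Module.finrank_fin_fun, Multiset.card_zero, add_zero]
  | cons Q s ih =>
    rw [Multiset.card_cons]
    have hle : VV (Q ::ₘ s) w ≤ VV s w := by
      intro c hc
      have hc' : ∑ i, c i • w i ∈ Mprod (Q ::ₘ s) := hc
      rw [Mprod_cons] at hc'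
      exact Ideal.mul_le_right hc'
    obtain ⟨e, _, he⟩ := exists_gen s Q
    by_cases hall : VV s w ≤ VV (Q ::ₘ s) w
    · rw [le_antisymm hle hall]
      omega
    · obtain ⟨c₀, hc₀, hc₀'⟩ := SetLike.not_le_iff_exists.mp hall
      obtain ⟨l₀, hl₀⟩ := he _ hc₀
      have hl₀0 : l₀ ≠ 0 := by
        rintro rfl
        rw [zero_smul, sub_zero] at hl₀
        exact hc₀' hl₀
      have hsup : VV s w ≤ VV (Q ::ₘ s) w ⊔ Submodule.span K {c₀} := by
        intro c hc
        obtain ⟨l, hl⟩ := he _ hc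
        have h1 : c - (l / l₀) • c₀ ∈ VV (Q ::ₘ s) w := by
          change ∑ i, (c - (l / l₀) • c₀) i • w i ∈ Mprod (Q ::ₘ s)
          have h2 : ∑ i, (c - (l / l₀) • c₀) i • w i =
              (∑ i, c i • w i - l • e) - (l / l₀) • (∑ i, c₀ i • w i - l₀ • e) := by
            simp only [Pi.sub_apply, Pi.smul_apply, smul_eq_mul, sub_smul, mul_smul,
              Finset.sum_sub_distrib, smul_sub, Finset.smul_sum]
            rw [smul_smul (l / l₀) l₀ e, div_mul_cancel₀ _ hl₀0]
            abel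
          rw [h2]
          exact Ideal.sub_mem _ hl (smul_mem_ideal _ _ hl₀)
        have h3 : c = (c - (l / l₀) • c₀) + (l / l₀) • c₀ := by abel
        rw [h3]
        exact Submodule.add_mem_sup h1
          (Submodule.smul_mem _ _ (Submodule.mem_span_singleton_self c₀))
      have h4 := Submodule.finrank_mono hsup
      have h5 := Submodule.finrank_add_le_finrank_add_finrank (VV (Q ::ₘ s) w)
        (Submodule.span K {c₀})
      have h6 : Module.finrank K (Submodule.span K {c₀}) ≤ 1 := by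
        have := finrank_span_le_card (R := K) ({c₀} : Set (Fin n → K))
        simpa using this
      omega

theorem exists_comb (s : Multiset (APt f)) (n : ℕ) (hn : s.card < n) (w : Fin n → CR f) :
    ∃ c : Fin n → K, c ≠ 0 ∧ ∑ i, c i • w i ∈ Mprod s := by
  have h1 := finrank_VV w s
  have h2 : VV s w ≠ ⊥ := by
    intro h0
    rw [h0, finrank_bot] at h1
    omega
  obtain ⟨c, hc, hc0⟩ := Submodule.exists_mem_ne_zero_of_ne_bot h2
  exact ⟨c, hc0, hc⟩

end G2
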