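import Pool.Agent.Lib.MP_2eeeac_ag.G2.Fun

/-!
# Module AMul: `𝔪_P 𝔪_{ιP} = (x - a)` over a commutative ring

PROOF. Let `P = (a, b)`, `b² = F(a)`. `F - F(a) = (X - a) F₁` with `F₁(a) = F'(a)`, and
`F₁ - F'(a) = (X - a) F₂`. In `CR F` (with `y² = F`): `(y - b)(y + b) = F - b² = (x - a) F₁`.
`⊆`: the products of the generators `(x-a)², (x-a)(y+b), (y-b)(x-a), (y-b)(y+b)` are all multiples
of `x - a`. `⊇`: the product contains `(x-a)(y+b) - (y-b)(x-a) = 2b (x-a)` and
`(y-b)(y+b) - (x-a)² F₂ = (x-a) F'(a)`; if `u (2b) + w F'(a) = 1` it contains `x - a`.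
(`Ideal.span_mul_span`, `Ideal.span_pair_mul_span_pair`.) The second theorem follows by induction
on the multiset.
-/

namespace G2

open Polynomial

variable {A : Type*} [CommRing A] {F : A[X]}

theorem m_mul_neg (P : APt F) (hP : P.Smooth) :
    P.m * P.neg.m = Ideal.span {(⟨X - C P.x, 0⟩ : CR F)} := by
  obtain ⟨q, hq⟩ : (X - C P.x) ∣ F - C (F.eval P.x) := by
    rw [dvd_iff_isRoot]
    simp
  have hqx : q.eval P.x = (derivative F).eval P.x := by
    have h1 := congrArg derivative hq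
    rw [derivative_sub, derivative_C, sub_zero, derivative_mul, derivative_sub, derivative_X,
      derivative_C, sub_zero, one_mul] at h1
    rw [h1]
    simp
  apply le_antisymm
  · unfold APt.m
    rw [Ideal.span_mul_span', Ideal.span_le]
    rintro z ⟨a, ha, b, hb, rfl⟩
    simp only [Set.mem_insert_iff, Set.mem_singleton_iff] at ha hb
    rw [SetLike.mem_coe, Ideal.mem_span_singleton]
    rcases ha with rfl | rfl <;> rcases hb with rfl | rfl
    · exact ⟨⟨X - C P.x, 0⟩, by simp⟩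
    · exact ⟨⟨-C P.neg.y, 1⟩, by simp⟩
    · refine ⟨⟨-C P.y, 1⟩, ?_⟩
      rw [mul_comm]
      simp
    · refine ⟨⟨q, 0⟩, ?_⟩
      ext1
      · simp only [QuadraticAlgebra.re_mul, APt.neg_y]
        have h1 : C P.y * C P.y = C (F.eval P.x) := by
          rw [← C_mul, ← sq, P.eq]
        rw [C_neg]
        linear_combination hq - h1
      · simp [APt.neg_y]
  · rw [Ideal.span_singleton_le_iff_mem]
    have hX : (⟨X - C P.x, 0⟩ : CR F) ∈ P.m := Ideal.subset_span (by simp)
    have hY : (⟨-C P.y, 1⟩ : CR F) ∈ P.m := Ideal.subset_span (by simp)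
    have hX' : (⟨X - C P.x, 0⟩ : CR F) ∈ P.neg.m := Ideal.subset_span (by simp)
    have hY' : (⟨-C P.neg.y, 1⟩ : CR F) ∈ P.neg.m := Ideal.subset_span (by simp)
    obtain ⟨u, w, huw⟩ := hP
    obtain ⟨q', hq'⟩ : (X - C P.x) ∣ q - C (q.eval P.x) := by
      rw [dvd_iff_isRoot]
      simp
    have e : (⟨X - C P.x, 0⟩ : CR F) =
        ⟨C u, 0⟩ * (⟨X - C P.x, 0⟩ * ⟨-C P.neg.y, 1⟩ - ⟨-C P.y, 1⟩ * ⟨X - C P.x, 0⟩)
        + ⟨C w, 0⟩ * (⟨-C P.y, 1⟩ * ⟨-C P.neg.y, 1⟩)
        - ⟨C w * q', 0⟩ * (⟨X - C P.x, 0⟩ * ⟨X - C P.x, 0⟩) := by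
      have h1 : C P.y * C P.y = C (F.eval P.x) := by
        rw [← C_mul, ← sq, P.eq]
      have h3 : C u * (2 * C P.y) + C w * C (q.eval P.x) = (1 : A[X]) := by
        rw [hqx, ← C_1, ← huw]
        simp only [C_add, C_mul]
        rfl
      ext1
      · simp only [QuadraticAlgebra.re_add, QuadraticAlgebra.re_sub, QuadraticAlgebra.re_mul,
          QuadraticAlgebra.im_mul, QuadraticAlgebra.im_sub, APt.neg_y, C_neg]
        linear_combination (-(X - C P.x)) * h3 - C w * hq + C w * h1 - C w * (X - C P.x) * hq'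
      · simp only [QuadraticAlgebra.im_add, QuadraticAlgebra.re_sub, QuadraticAlgebra.re_mul,
          QuadraticAlgebra.im_mul, QuadraticAlgebra.im_sub, APt.neg_y, C_neg]
        ring
    rw [e]
    refine Ideal.sub_mem _ (Ideal.add_mem _ (Ideal.mul_mem_left _ _ (Ideal.sub_mem _ ?_ ?_))
      (Ideal.mul_mem_left _ _ ?_)) (Ideal.mul_mem_left _ _ ?_)
    · exact Ideal.mul_mem_mul hX hY'
    · exact Ideal.mul_mem_mul hY hX'
    · exact Ideal.mul_mem_mul hY hY'
    · exact Ideal.mul_mem_mul hX hX'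

theorem Mprod_mul_neg (s : Multiset (APt F)) (hs : ∀ P ∈ s, P.Smooth) :
    Mprod s * Mprod (s.map APt.neg) =
      Ideal.span {(⟨(s.map fun P => X - C P.x).prod, 0⟩ : CR F)} := by
  induction s using Multiset.induction with
  | empty =>
    rw [Multiset.map_zero, Mprod_zero, Multiset.map_zero, Multiset.prod_zero, Ideal.top_mul]
    symm
    rw [Ideal.eq_top_iff_one]
    exact Ideal.mem_span_singleton_self (1 : CR F)
  | cons P s ih =>
    have h1 := ih fun Q hQ => hs Q (Multiset.mem_cons_of_mem hQ)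
    have h2 := m_mul_neg P (hs P (Multiset.mem_cons_self P s))
    rw [Multiset.map_cons, Mprod_cons, Mprod_cons, mul_mul_mul_comm, h1, h2,
      Ideal.span_singleton_mul_span_singleton, Multiset.map_cons, Multiset.prod_cons]
    congr 2
    ext1 <;> simp

end G2
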