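import Pool.Agent.Lib.MP_2eeeac_ag.G2.ANm
import Pool.Agent.Lib.MP_2eeeac_ag.G2.AMul

/-!
# Module AFac: every nonzero ideal is a product of ideals of points

PROOF. `smooth_of_quintic`: if `2b ≠ 0` take `u = (2b)⁻¹, w = 0`; otherwise `b = 0`, `f(a) = 0` and
`f'(a) ≠ 0` because `f` is separable (`Polynomial.Separable.aeval_derivative_ne_zero` or the Bezout
identity), take `w = f'(a)⁻¹`.

`Mprod_ne_bot`: by induction; `𝔪_P` contains `x - a ≠ 0` and `CR f` is a domain.

`exists_Mprod`. `CR f` is a finite module over `K[x]`, hence noetherian. Noetherian induction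
(`IsNoetherian.induction` or well-foundedness of `>` on ideals): let `I ≠ 0`, and assume the
statement for all ideals `J > I`. If `I = ⊤` take `s = 0`. Otherwise `I ≤ M` with `M` maximal.
`M ∩ K[x]` (comap of `algebraMap K[X] (CR f)`) is a prime ideal; it is `≠ 0` since it contains the
norm `nm g = g * star g` of a nonzero `g ∈ I` (`nm_ne_zero_odd`). `K[x]` is a PID and `K` is
algebraically closed, so some `x - a ∈ M` (factor `nm g = c ∏ (x - a_i)`, `IsAlgClosed.splits`, and
use that `M` is prime). Let `b² = f(a)` (`IsAlgClosed.exists_pow_nat_eq`). Then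
`(y - b)(y + b) = f - f(a) ∈ (x - a) ⊆ M`, so `y - b ∈ M` or `y + b ∈ M`: hence `𝔪_P ≤ M` for
`P = (a, b)` or `(a, -b)`; `𝔪_P` is maximal (it is the kernel of the surjective `ev P`,
`mem_m_iff`), so `M = 𝔪_P` and `I ≤ 𝔪_P`. Now `I 𝔪_{ιP} ≤ 𝔪_P 𝔪_{ιP} = (x - a)`, so
`I 𝔪_{ιP} = (x - a) J` for the ideal `J = {z | (x - a) z ∈ I 𝔪_{ιP}}`
(`Ideal.span_singleton_mul...`); multiply by `𝔪_P`: `(x - a) I = (x - a) J 𝔪_P`, and cancel
(`Ideal.span_singleton_mul_right_inj`): `I = J 𝔪_P`. So `I ≤ J`; `J ≠ I`, because `I = I 𝔪_P`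
with `I` finitely generated and `≠ 0` in a domain contradicts Nakayama
(`Submodule.exists_sub_one_mem_and_smul_eq_zero_of_fg_of_le_smul`: there is `r ∈ 1 + 𝔪_P` with
`r I = 0`, so `r = 0` and `1 ∈ 𝔪_P`). By induction `J = Mprod s`, so `I = Mprod (P ::ₘ s)`.
-/

namespace G2

open Polynomial

variable {K : Type*} [Field K] {f : K[X]}

theorem smooth_of_quintic [Quintic f] (P : APt f) : P.Smooth := by
  by_cases hy : P.y = 0
  · have h0 : f.eval P.x = 0 := by rw [← P.eq, hy]; simp
    have h1 : (derivative f).eval P.x ≠ 0 := by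
      intro h2
      obtain ⟨a, b, hab⟩ := Quintic.sep (f := f)
      have h3 := congrArg (eval P.x) hab
      simp [h0, h2] at h3
    exact ⟨0, ((derivative f).eval P.x)⁻¹, by rw [zero_mul, zero_add, inv_mul_cancel₀ h1]⟩
  · have h2 : (2 : K) * P.y ≠ 0 := mul_ne_zero (Quintic.two (f := f)) hy
    exact ⟨(2 * P.y)⁻¹, 0, by rw [inv_mul_cancel₀ h2, zero_mul, add_zero]⟩

theorem Mprod_ne_bot [Quintic f] (s : Multiset (APt f)) : Mprod s ≠ ⊥ := by
  induction s using Multiset.induction with
  | empty => rw [Mprod_zero]; exact top_ne_bot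
  | cons P s ih =>
    rw [Mprod_cons]
    intro h
    rcases Ideal.mul_eq_bot.1 h with h1 | h1
    · have h2 : (⟨X - C P.x, 0⟩ : CR f) ∈ P.m := Ideal.subset_span (by simp)
      rw [h1, Ideal.mem_bot] at h2
      have h3 := congrArg QuadraticAlgebra.re h2
      exact X_sub_C_ne_zero P.x h3
    · exact ih h1

/-- A prime ideal of `K[X]` with a nonzero element contains some `X - a`. -/
private lemma AFac_exists_root [IsAlgClosed K] (p : Ideal K[X]) (hp : p.IsPrime) :
    ∀ (n : ℕ) (q : K[X]), q ∈ p → q ≠ 0 → q.natDegree = n → ∃ a : K, X - C a ∈ p := by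
  intro n
  induction n with
  | zero =>
    intro q hq hq0 hn
    exfalso
    apply hp.ne_top
    rw [Ideal.eq_top_iff_one]
    obtain ⟨c, hc⟩ := natDegree_eq_zero.1 hn
    have hc0 : c ≠ 0 := by
      rintro rfl
      exact hq0 (by rw [← hc, C_0])
    have h1 : C c⁻¹ * q ∈ p := p.mul_mem_left _ hq
    rwa [← hc, ← C_mul, inv_mul_cancel₀ hc0, C_1] at h1
  | succ n ih =>
    intro q hq hq0 hn
    have hd : q.degree ≠ 0 := by
      intro h
      rw [natDegree_eq_of_degree_eq_some h] at hn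
      simp at hn
    obtain ⟨a, ha⟩ := IsAlgClosed.exists_root q hd
    obtain ⟨q', hq'⟩ := dvd_iff_isRoot.2 ha
    rw [hq'] at hq
    rcases hp.mem_or_mem hq with h | h
    · exact ⟨a, h⟩
    · have hq'0 : q' ≠ 0 := by
        rintro rfl
        exact hq0 (by rw [hq', mul_zero])
      refine ih q' h hq'0 ?_
      have h2 := natDegree_mul (X_sub_C_ne_zero a) hq'0
      rw [← hq', hn, natDegree_X_sub_C] at h2
      omega

/-- The ideal of a point is maximal. -/
private lemma AFac_m_maximal (P : APt f) : P.m.IsMaximal := by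
  have h1 : P.m = RingHom.ker (ev P) := by
    ext g
    rw [mem_m_iff, RingHom.mem_ker, ev_apply]
  rw [h1]
  refine RingHom.ker_isMaximal_of_surjective _ ?_
  intro c
  exact ⟨⟨C c, 0⟩, by simp [ev_apply]⟩

/-- A proper nonzero ideal is contained in the ideal of a point. -/
private lemma AFac_exists_le [IsAlgClosed K] [Quintic f] (I : Ideal (CR f)) (hI : I ≠ ⊥)
    (htop : I ≠ ⊤) : ∃ P : APt f, I ≤ P.m := by
  obtain ⟨M, hM, hIM⟩ := Ideal.exists_le_maximal I htop
  have hMp : M.IsPrime := hM.isPrime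
  obtain ⟨g, hgI, hg0⟩ := Submodule.exists_mem_ne_zero_of_ne_bot hI
  have hnm : nm g ≠ 0 := nm_ne_zero_odd (by rw [Quintic.deg (f := f)]; decide) hg0
  let ι : K[X] →+* CR f :=
    { toFun := fun p => ⟨p, 0⟩
      map_one' := rfl
      map_zero' := rfl
      map_add' := fun p q => by ext1 <;> simp
      map_mul' := fun p q => by ext1 <;> simp }
  have hι : ∀ p, ι p = ⟨p, 0⟩ := fun _ => rfl
  have hnM : nm g ∈ M.comap ι := by
    rw [Ideal.mem_comap, hι]
    have e : (⟨nm g, 0⟩ : CR f) = ⟨g.re, -g.im⟩ * g := by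
      ext1
      · simp only [nm, QuadraticAlgebra.re_mul]; ring
      · simp only [QuadraticAlgebra.im_mul]; ring
    rw [e]
    exact M.mul_mem_left _ (hIM hgI)
  obtain ⟨a, ha⟩ := AFac_exists_root (M.comap ι) (Ideal.IsPrime.comap ι) _ (nm g) hnM hnm rfl
  rw [Ideal.mem_comap, hι] at ha
  obtain ⟨b, hb⟩ := IsAlgClosed.exists_pow_nat_eq (f.eval a) (n := 2) two_pos
  have hfa : (⟨f - C (f.eval a), 0⟩ : CR f) ∈ M := by
    have h1 : (X - C a) ∣ f - C (f.eval a) := by
      rw [dvd_iff_isRoot]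
      simp
    obtain ⟨q, hq⟩ := h1
    have h2 : (⟨f - C (f.eval a), 0⟩ : CR f) = ⟨q, 0⟩ * ⟨X - C a, 0⟩ := by
      rw [hq]
      ext1
      · simp [mul_comm]
      · simp
    rw [h2]
    exact M.mul_mem_left _ ha
  have hprod : (⟨-C b, 1⟩ : CR f) * ⟨C b, 1⟩ ∈ M := by
    have h2 : (⟨-C b, 1⟩ : CR f) * ⟨C b, 1⟩ = ⟨f - C (f.eval a), 0⟩ := by
      rw [← hb]
      ext1
      · simp only [QuadraticAlgebra.re_mul, map_pow]; ring
      · simp only [QuadraticAlgebra.im_mul]; ring
    rw [h2]
    exact hfa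
  rcases hMp.mem_or_mem hprod with h | h
  · let P : APt f := ⟨a, b, hb⟩
    have hle : P.m ≤ M := by
      rw [APt.m, Ideal.span_le]
      rintro z (rfl | rfl)
      · exact ha
      · exact h
    exact ⟨P, by rw [(AFac_m_maximal P).eq_of_le hM.ne_top hle]; exact hIM⟩
  · let P : APt f := ⟨a, -b, by rw [neg_sq, hb]⟩
    have hle : P.m ≤ M := by
      rw [APt.m, Ideal.span_le]
      rintro z (rfl | rfl)
      · exact ha
      · change (⟨-C (-b), 1⟩ : CR f) ∈ M
        rw [C_neg, neg_neg]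
        exact h
    exact ⟨P, by rw [(AFac_m_maximal P).eq_of_le hM.ne_top hle]; exact hIM⟩

/-- Noetherian induction in an abstract domain. -/
private theorem AFac_generic {R : Type*} [CommRing R] [IsDomain R] [IsNoetherianRing R]
    {ι : Type*} (m n : ι → Ideal R) (t : ι → R) (ht : ∀ i, t i ≠ 0)
    (hmn : ∀ i, m i * n i = Ideal.span {t i}) (hm : ∀ i, m i ≠ ⊤)
    (hle : ∀ I : Ideal R, I ≠ ⊥ → I ≠ ⊤ → ∃ i, I ≤ m i) (I : Ideal R) (hI : I ≠ ⊥) :
    ∃ s : Multiset ι, I = (s.map m).prod := by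
  revert hI
  refine IsNoetherian.induction (R := R) (M := R)
    (P := fun I : Ideal R => I ≠ ⊥ → ∃ s : Multiset ι, I = (s.map m).prod) ?_ I
  intro I ih hI
  by_cases htop : I = ⊤
  · exact ⟨0, by rw [Multiset.map_zero, Multiset.prod_zero, htop, Ideal.one_eq_top]⟩
  obtain ⟨i, hi⟩ := hle I hI htop
  have hle1 : I * n i ≤ Ideal.span {t i} := by
    rw [← hmn i]
    exact Ideal.mul_mono_left hi
  let J : Ideal R :=
    { carrier := {z | t i * z ∈ I * n i}
      add_mem' := by
        intro a b ha hb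
        change t i * (a + b) ∈ I * n i
        rw [mul_add]
        exact Ideal.add_mem _ ha hb
      zero_mem' := by
        change t i * 0 ∈ I * n i
        rw [mul_zero]
        exact Ideal.zero_mem _
      smul_mem' := by
        intro c a ha
        change t i * (c * a) ∈ I * n i
        rw [mul_left_comm]
        exact Ideal.mul_mem_left _ _ ha }
  have hJ : I * n i = Ideal.span {t i} * J := by
    apply le_antisymm
    · intro x hx
      obtain ⟨z, hz⟩ := Ideal.mem_span_singleton'.1 (hle1 hx)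
      rw [Ideal.mem_span_singleton_mul]
      have hz' : t i * z = x := by rw [mul_comm]; exact hz
      refine ⟨z, ?_, hz'⟩
      change t i * z ∈ I * n i
      rw [hz']
      exact hx
    · intro x hx
      rw [Ideal.mem_span_singleton_mul] at hx
      obtain ⟨z, hz, rfl⟩ := hx
      exact hz
  have hIJ : I = J * m i := by
    have h1 : Ideal.span {t i} * I = Ideal.span {t i} * (J * m i) := by
      calc Ideal.span {t i} * I = I * (m i * n i) := by rw [hmn, mul_comm]
        _ = (I * n i) * m i := by rw [mul_comm (m i), mul_assoc]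
        _ = Ideal.span {t i} * (J * m i) := by rw [hJ, mul_assoc]
    exact (Ideal.span_singleton_mul_right_inj (ht i)).1 h1
  have hIleJ : I ≤ J := by
    conv_lhs => rw [hIJ]
    exact Ideal.mul_le_left
  have hne : I ≠ J := by
    intro h
    rw [← h] at hIJ
    have hfg : (I : Submodule R R).FG := IsNoetherian.noetherian I
    have hle2 : (I : Submodule R R) ≤ m i • (I : Submodule R R) := by
      rw [smul_eq_mul, mul_comm]
      exact hIJ.le
    obtain ⟨r, hr1, hr2⟩ :=
      Submodule.exists_sub_one_mem_and_smul_eq_zero_of_fg_of_le_smul (m i) I hfg hle2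
    obtain ⟨g, hgI, hg0⟩ := Submodule.exists_mem_ne_zero_of_ne_bot hI
    have h3 : r = 0 := by
      have h4 := hr2 g hgI
      rw [smul_eq_mul] at h4
      exact (mul_eq_zero.1 h4).resolve_right hg0
    rw [h3, zero_sub] at hr1
    have h5 : (1 : R) ∈ m i := by
      have := (m i).neg_mem hr1
      rwa [neg_neg] at this
    exact hm i ((Ideal.eq_top_iff_one _).2 h5)
  have hJ0 : J ≠ ⊥ := by
    intro h
    apply hI
    rw [eq_bot_iff, ← h]
    exact hIleJ
  obtain ⟨s, hs⟩ := ih J (lt_of_le_of_ne hIleJ hne) hJ0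
  exact ⟨i ::ₘ s, by rw [Multiset.map_cons, Multiset.prod_cons, ← hs, mul_comm]; exact hIJ⟩

private lemma AFac_noeth : IsNoetherianRing (CR f) := IsNoetherianRing.of_finite K[X] (CR f)

theorem exists_Mprod [IsAlgClosed K] [Quintic f] (I : Ideal (CR f)) (hI : I ≠ ⊥) :
    ∃ s : Multiset (APt f), I = Mprod s := by
  have hnoeth : IsNoetherianRing (CR f) := AFac_noeth
  exact AFac_generic (R := CR f) APt.m (fun P => P.neg.m) (fun P => ⟨X - C P.x, 0⟩)
    (fun P h => X_sub_C_ne_zero P.x (congrArg QuadraticAlgebra.re h))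
    (fun P => m_mul_neg P (smooth_of_quintic P)) (fun P => (AFac_m_maximal P).ne_top)
    (fun I hI htop => AFac_exists_le I hI htop) I hI

end G2
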