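import Pool.Agent.Lib.MP_2eeeac_ag.G2.AFac

/-!
# Module AInj: uniqueness of the factorisation

PROOF. `𝔪_P` is a prime ideal (kernel of `ev P : CR f → K`, a field; `mem_m_iff`), and
`𝔪_Q ≤ 𝔪_P` implies `Q = P` (evaluate the generators `x - a_Q` and `y - b_Q` at `P`).
`mem_of_le`: `∏ 𝔪_Q ≤ 𝔪_P` implies `𝔪_Q ≤ 𝔪_P` for some `Q ∈ s` (`Ideal.IsPrime.multiset_prod_le`
or induction on `s`, `Ideal.IsPrime.mul_le`), so `P = Q ∈ s`; the converse is clear.
`cancel_m`: `𝔪_P I = 𝔪_P J ⟹ I = J`: multiply by `𝔪_{ιP}` and use `m_mul_neg`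
(`smooth_of_quintic`) and `Ideal.span_singleton_mul_right_inj` (`x - a ≠ 0` in a domain).
`cancel_Mprod` by induction. `Mprod_inj`: induction on `s`: for `s = 0`: `Mprod t = ⊤`, so `t` has
no element `P` (otherwise `Mprod t ≤ 𝔪_P ≠ ⊤`). For `P ::ₘ s`: `P ∈ t` by `mem_of_le`,
`t = P ::ₘ t'` (`Multiset.exists_cons_of_mem`), cancel `𝔪_P`.
`Mprod_le_exists`: if `0 ≠ g ∈ Mprod s` then `span {g} = Mprod (s + t)` for some `t`: use the
factorisation `span {g} = Mprod u` and show `s ≤ u` by induction with `mem_of_le` and cancellation.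
`neg_prin`: apply the automorphism `star` (`y ↦ -y`), i.e. from `Mprod s = (g)` we get
`Mprod (s.map neg) = (star g)`.
-/

namespace G2

open Polynomial

variable {K : Type*} [Field K] [IsAlgClosed K] {f : K[X]} [Quintic f]

omit [IsAlgClosed K] [Quintic f] in
private lemma isPrime_m (P : APt f) : P.m.IsPrime := by
  have h1 : P.m = RingHom.ker (ev P) := by
    ext g
    rw [mem_m_iff, RingHom.mem_ker, ev_apply]
  rw [h1]
  exact RingHom.ker_isPrime _

omit [IsAlgClosed K] [Quintic f] in
private lemma eq_of_m_le {P Q : APt f} (h : Q.m ≤ P.m) : Q = P := by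
  have hX : (⟨X - C Q.x, 0⟩ : CR f) ∈ P.m := h (Ideal.subset_span (by simp))
  have hY : (⟨-C Q.y, 1⟩ : CR f) ∈ P.m := h (Ideal.subset_span (by simp))
  rw [mem_m_iff] at hX hY
  simp only [eval_sub, eval_X, eval_C, eval_zero, zero_mul, add_zero, eval_neg, eval_one,
    one_mul] at hX hY
  ext
  · exact (sub_eq_zero.1 hX).symm
  · linear_combination -hY

omit [IsAlgClosed K] in
theorem mem_of_le (s : Multiset (APt f)) (P : APt f) : Mprod s ≤ P.m ↔ P ∈ s := by
  constructor
  · induction s using Multiset.induction with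
    | empty =>
      intro h
      rw [Mprod_zero, top_le_iff] at h
      exact absurd h (isPrime_m P).ne_top
    | cons Q s ih =>
      intro h
      rw [Mprod_cons, (isPrime_m P).mul_le] at h
      rcases h with h | h
      · rw [eq_of_m_le h]
        exact Multiset.mem_cons_self P s
      · exact Multiset.mem_cons_of_mem (ih h)
  · intro h
    obtain ⟨t, rfl⟩ := Multiset.exists_cons_of_mem h
    rw [Mprod_cons]
    exact (Ideal.mul_le_left : P.m * Mprod t ≤ P.m)

omit [IsAlgClosed K] in
theorem cancel_Mprod (s : Multiset (APt f)) {I J : Ideal (CR f)}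
    (h : Mprod s * I = Mprod s * J) : I = J := by
  have h1 := Mprod_mul_neg s fun P _ => smooth_of_quintic P
  have h2 : Mprod s * Mprod (s.map APt.neg) ≠ ⊥ := by
    intro h3
    rw [Ideal.mul_eq_bot] at h3
    rcases h3 with h3 | h3
    · exact Mprod_ne_bot _ h3
    · exact Mprod_ne_bot _ h3
  rw [h1] at h2
  have h4 : (⟨(s.map fun P => X - C P.x).prod, 0⟩ : CR f) ≠ 0 := by
    intro h5
    apply h2
    rw [h5, Ideal.span_singleton_eq_bot]
  have h6 : Ideal.span {(⟨(s.map fun P => X - C P.x).prod, 0⟩ : CR f)} * I =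
      Ideal.span {(⟨(s.map fun P => X - C P.x).prod, 0⟩ : CR f)} * J := by
    rw [← h1, mul_comm (Mprod s), mul_assoc, mul_assoc, h]
  exact (Ideal.span_singleton_mul_right_inj h4).1 h6

omit [IsAlgClosed K] in
private lemma cancel_m (P : APt f) {I J : Ideal (CR f)} (h : P.m * I = P.m * J) : I = J := by
  apply cancel_Mprod {P}
  have h1 : Mprod ({P} : Multiset (APt f)) = P.m := by
    simp [Mprod]
  rw [h1]
  exact h

omit [IsAlgClosed K] in
theorem Mprod_inj {s t : Multiset (APt f)} (h : Mprod s = Mprod t) : s = t := by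
  induction s using Multiset.induction generalizing t with
  | empty =>
    rw [Mprod_zero] at h
    symm
    rw [Multiset.eq_zero_iff_forall_notMem]
    intro P hP
    have h1 := (mem_of_le t P).2 hP
    rw [← h, top_le_iff] at h1
    exact (isPrime_m P).ne_top h1
  | cons P s ih =>
    have h1 : P ∈ t := by
      rw [← mem_of_le, ← h, Mprod_cons]
      exact (Ideal.mul_le_left : P.m * Mprod s ≤ P.m)
    obtain ⟨t', rfl⟩ := Multiset.exists_cons_of_mem h1
    rw [Mprod_cons, Mprod_cons] at h
    rw [ih (cancel_m P h)]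

theorem Mprod_le_exists (s : Multiset (APt f)) (g : CR f) (hg : g ≠ 0) (h : g ∈ Mprod s) :
    ∃ t : Multiset (APt f), Ideal.span {g} = Mprod (s + t) := by
  obtain ⟨u, hu⟩ := exists_Mprod (Ideal.span {g}) (by
    rw [Ne, Ideal.span_singleton_eq_bot]
    exact hg)
  have hle : Mprod u ≤ Mprod s := by
    rw [← hu, Ideal.span_singleton_le_iff_mem]
    exact h
  have key : ∀ (s u : Multiset (APt f)), Mprod u ≤ Mprod s → ∃ t, u = s + t := by
    intro s
    induction s using Multiset.induction with
    | empty => exact fun u _ => ⟨u, (zero_add u).symm⟩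
    | cons P s ih =>
      intro u hu
      have h1 : P ∈ u := by
        rw [← mem_of_le]
        refine hu.trans ?_
        rw [Mprod_cons]
        exact (Ideal.mul_le_left : P.m * Mprod s ≤ P.m)
      obtain ⟨u', rfl⟩ := Multiset.exists_cons_of_mem h1
      have h2 : Mprod u' ≤ Mprod s := by
        have h3 : P.m * (Mprod u' ⊔ Mprod s) = P.m * Mprod s := by
          rw [Ideal.mul_sup, ← Mprod_cons, ← Mprod_cons]
          exact sup_eq_right.2 hu
        exact sup_eq_right.1 (cancel_m P h3)
      obtain ⟨t, ht⟩ := ih u' h2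
      exact ⟨t, by rw [ht, Multiset.cons_add]⟩
  obtain ⟨t, ht⟩ := key s u hle
  exact ⟨t, by rw [hu, ht]⟩

omit [IsAlgClosed K] [Quintic f] in
private lemma star_m (P : APt f) :
    P.m.map (starRingEnd (CR f)) = P.neg.m := by
  rw [APt.m, APt.m, Ideal.map_span, Set.image_pair]
  have h1 : starRingEnd (CR f) (⟨X - C P.x, 0⟩ : CR f) = ⟨X - C P.neg.x, 0⟩ := by
    ext1 <;> simp [starRingEnd_apply]
  have h2 : starRingEnd (CR f) (⟨-C P.y, 1⟩ : CR f) = -⟨-C P.neg.y, 1⟩ := by
    ext1 <;> simp [starRingEnd_apply]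
  rw [h1, h2]
  apply le_antisymm
  · rw [Ideal.span_le]
    rintro z (rfl | rfl)
    · exact Ideal.subset_span (by simp)
    · exact (Ideal.neg_mem_iff _).2 (Ideal.subset_span (by simp))
  · rw [Ideal.span_le]
    rintro z (rfl | rfl)
    · exact Ideal.subset_span (by simp)
    · rw [SetLike.mem_coe, ← Ideal.neg_mem_iff]
      exact Ideal.subset_span (by simp)

omit [IsAlgClosed K] [Quintic f] in
private lemma star_Mprod (s : Multiset (APt f)) :
    (Mprod s).map (starRingEnd (CR f)) = Mprod (s.map APt.neg) := by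
  induction s using Multiset.induction with
  | empty => rw [Multiset.map_zero, Mprod_zero, Ideal.map_top]
  | cons P s ih => rw [Multiset.map_cons, Mprod_cons, Mprod_cons, Ideal.map_mul, ih, star_m]

omit [IsAlgClosed K] in
theorem neg_prin {s : Multiset (APt f)} {g : CR f} (h : Mprod s = Ideal.span {g}) :
    Mprod (s.map APt.neg) = Ideal.span {star g} := by
  rw [← star_Mprod, h, Ideal.map_span, Set.image_singleton, starRingEnd_apply]

end G2
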