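import Pool.Agent.Lib.MP_2eeeac_ag.G2.AInj

/-!
# Module ANmP: the norm of a generator

PROOF. `nm_of_Mprod`: multiply `Mprod s = (g)` and `Mprod (s.map neg) = (star g)` (`neg_prin`):
by `Mprod_mul_neg`, `(h) = (g * star g) = (nm g)` in `CR f`, where `h = ∏ (x - x_P)` and
`g * star g = ⟨nm g, 0⟩`. In a domain: `⟨nm g, 0⟩ = u * ⟨h, 0⟩` with a unit `u`
(`Ideal.span_singleton_eq_span_singleton`, `Associated`). Comparing the imaginary parts,
`u.im * h = 0`, so `u.im = 0`; the same for `u⁻¹`, so `u.re` is a unit of `K[x]`, `u.re = C c`,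
`c ≠ 0`. Hence `nm g = C c * h`. `card_eq`: degrees.
`exists_normalised`: `c = d²` (`IsAlgClosed`), replace `g` by `C d⁻¹ g` (as ideal the same).
`card_le`: from `Mprod_le_exists` and `card_eq`.
-/

namespace G2

open Polynomial

variable {K : Type*} [Field K] [IsAlgClosed K] {f : K[X]} [Quintic f]

omit [IsAlgClosed K] [Quintic f] in
private theorem anmp_star (g : CR f) : g * star g = (⟨nm g, 0⟩ : CR f) := by
  ext1
  · simp only [nm, QuadraticAlgebra.re_mul, QuadraticAlgebra.re_star, QuadraticAlgebra.im_star]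
    ring
  · simp only [QuadraticAlgebra.im_mul, QuadraticAlgebra.re_star, QuadraticAlgebra.im_star]
    ring

omit [IsAlgClosed K] in
private theorem anmp_ne {s : Multiset (APt f)} {g : CR f} (h : Mprod s = Ideal.span {g}) :
    g ≠ 0 := by
  rintro rfl
  apply Mprod_ne_bot s
  rw [h, Ideal.span_singleton_eq_bot]

omit [IsAlgClosed K] in
theorem nm_of_Mprod {s : Multiset (APt f)} {g : CR f} (h : Mprod s = Ideal.span {g}) :
    ∃ c : K, c ≠ 0 ∧ nm g = C c * (s.map fun P => X - C P.x).prod := by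
  have hodd : Odd f.natDegree := by
    rw [Quintic.deg (f := f)]
    decide
  have h1 : nm g ≠ 0 := nm_ne_zero_odd hodd (anmp_ne h)
  have h3 := Mprod_mul_neg s (fun P _ => smooth_of_quintic P)
  rw [h, neg_prin h, Ideal.span_singleton_mul_span_singleton, anmp_star,
    Ideal.span_singleton_eq_span_singleton] at h3
  obtain ⟨u, hu⟩ := h3
  have h4 : nm g * (u : CR f).re = (s.map fun P => X - C P.x).prod := by
    have := congrArg QuadraticAlgebra.re hu
    simp only [QuadraticAlgebra.re_mul] at this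
    rw [← this]
    ring
  have h5 : nm g * (u : CR f).im = 0 := by
    have := congrArg QuadraticAlgebra.im hu
    simp only [QuadraticAlgebra.im_mul] at this
    linear_combination this
  have h6 : (u : CR f).im = 0 := by
    rcases mul_eq_zero.1 h5 with h | h
    · exact absurd h h1
    · exact h
  have h7 : IsUnit ((u : CR f).re) := by
    have h8 : nm ((u : CR f) * ((u⁻¹ : (CR f)ˣ) : CR f)) = 1 := by
      rw [Units.mul_inv]
      simp [nm, QuadraticAlgebra.re_one, QuadraticAlgebra.im_one]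
    rw [nm_mul] at h8
    have h9 : nm (u : CR f) = (u : CR f).re * (u : CR f).re := by
      rw [nm, h6]
      ring
    rw [h9, mul_assoc] at h8
    exact IsUnit.of_mul_eq_one _ h8
  obtain ⟨c, hc, hc'⟩ := Polynomial.isUnit_iff.1 h7
  have hc0 : c ≠ 0 := hc.ne_zero
  refine ⟨c⁻¹, inv_ne_zero hc0, ?_⟩
  rw [← h4, ← hc', mul_comm (nm g), ← mul_assoc, ← C_mul, inv_mul_cancel₀ hc0, C_1, one_mul]

omit [IsAlgClosed K] in
theorem card_eq {s : Multiset (APt f)} {g : CR f} (h : Mprod s = Ideal.span {g}) :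
    s.card = (nm g).natDegree := by
  obtain ⟨c, hc, h1⟩ := nm_of_Mprod h
  rw [h1, natDegree_C_mul hc]
  have h2 : (s.map fun P => X - C P.x) = (s.map fun P => P.x).map fun a => X - C a := by
    rw [Multiset.map_map]
    rfl
  rw [h2, natDegree_multiset_prod_X_sub_C_eq_card, Multiset.card_map]

theorem exists_normalised {s : Multiset (APt f)} {g : CR f} (h : Mprod s = Ideal.span {g}) :
    ∃ g' : CR f, Mprod s = Ideal.span {g'} ∧ nm g' = (s.map fun P => X - C P.x).prod := by
  obtain ⟨c, hc, h1⟩ := nm_of_Mprod h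
  obtain ⟨z, hz⟩ := IsAlgClosed.exists_pow_nat_eq c (n := 2) (by norm_num)
  have hz0 : z ≠ 0 := by
    rintro rfl
    apply hc
    rw [← hz]
    norm_num
  have hu : IsUnit (⟨C z⁻¹, 0⟩ : CR f) := by
    refine IsUnit.of_mul_eq_one (⟨C z, 0⟩ : CR f) ?_
    ext1
    · simp only [QuadraticAlgebra.re_mul, QuadraticAlgebra.re_one]
      rw [← C_mul, inv_mul_cancel₀ hz0, C_1]
      ring
    · simp [QuadraticAlgebra.im_one]
  refine ⟨⟨C z⁻¹, 0⟩ * g, ?_, ?_⟩
  · rw [Ideal.span_singleton_mul_left_unit hu, h]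
  · rw [nm_mul, h1]
    have h2 : nm (⟨C z⁻¹, 0⟩ : CR f) = C (z⁻¹ * z⁻¹) := by
      rw [nm, C_mul]
      ring
    rw [h2, ← mul_assoc, ← C_mul, ← hz]
    have h3 : z⁻¹ * z⁻¹ * z ^ 2 = 1 := by
      field_simp
    rw [h3, C_1, one_mul]

theorem exists_rest (s : Multiset (APt f)) (g : CR f) (hg : g ≠ 0) (h : g ∈ Mprod s) :
    ∃ t : Multiset (APt f), Ideal.span {g} = Mprod (s + t) ∧
      s.card + t.card = (nm g).natDegree := by
  obtain ⟨t, ht⟩ := Mprod_le_exists s g hg h
  refine ⟨t, ht, ?_⟩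
  rw [← card_eq ht.symm, Multiset.card_add]

end G2
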