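import Pool.Agent.Lib.MP_2eeeac_ag.G2.AComb
import Pool.Agent.Lib.MP_2eeeac_ag.G2.ANmP

/-!
# Module AJInv: Jacobi inversion
-/

namespace G2

open Polynomial

variable {K : Type*} [Field K] [IsAlgClosed K] {f : K[X]} [Quintic f]

omit [IsAlgClosed K] [Quintic f] in
theorem sum_v_of_prin {s : Multiset (APt f)} {g : CR f} (h : Mprod s = Ideal.span {g}) :
    (s.map fun P => v (some P)).sum = 0 := by
  rw [← cls_divOf, cls_eq_zero_iff]
  exact AddSubgroup.subset_closure ⟨s, g, h, rfl⟩

omit [IsAlgClosed K] in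
theorem v_neg (P : HPt f) : v (HPt.neg P) = -v P := by
  rcases P with _ | P
  · change v (none : HPt f) = -v (none : HPt f)
    rw [v_none, neg_zero]
  · change v (some P.neg) = -v (some P)
    have h1 : Mprod (P ::ₘ P.neg ::ₘ 0) = Ideal.span {(⟨X - C P.x, 0⟩ : CR f)} := by
      rw [Mprod_cons, Mprod_cons, Mprod_zero, Ideal.mul_top, m_mul_neg P (smooth_of_quintic P)]
    have h2 := sum_v_of_prin h1
    rw [Multiset.map_cons, Multiset.map_cons, Multiset.map_zero, Multiset.sum_cons,
      Multiset.sum_cons, Multiset.sum_zero, add_zero] at h2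
    exact (neg_eq_of_add_eq_zero_right h2).symm

private lemma three_aux (P₁ P₂ P₃ : APt f) : ∃ P Q : HPt f,
    v (some P₁) + v (some P₂) + v (some P₃) = v P + v Q := by
  obtain ⟨c, hc, hmem⟩ := exists_comb (f := f) (P₁ ::ₘ P₂ ::ₘ P₃ ::ₘ 0) 4 (by simp)
    ![1, ⟨X, 0⟩, ⟨X ^ 2, 0⟩, ⟨0, 1⟩]
  set g : CR f := ⟨C (c 0) + C (c 1) * X + C (c 2) * X ^ 2, C (c 3)⟩ with hg
  have hsum : ∑ i, c i • (![1, ⟨X, 0⟩, ⟨X ^ 2, 0⟩, ⟨0, 1⟩] : Fin 4 → CR f) i = g := by
    rw [Fin.sum_univ_four]
    ext1
    · simp [hg, smul_eq_C_mul, QuadraticAlgebra.re_one]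
    · simp [hg, smul_eq_C_mul, QuadraticAlgebra.im_one]
  rw [hsum] at hmem
  have hg0 : g ≠ 0 := by
    intro h0
    apply hc
    have h1 : g.re = 0 := by rw [h0]; rfl
    have h2 : g.im = 0 := by rw [h0]; rfl
    simp only [hg] at h1 h2
    have e0 : c 0 = 0 := by simpa using congrArg (fun p => p.coeff 0) h1
    have e1 : c 1 = 0 := by
      have := congrArg (fun p => p.coeff 1) h1
      simpa [coeff_X, coeff_C] using this
    have e2 : c 2 = 0 := by
      have := congrArg (fun p => p.coeff 2) h1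
      simpa [coeff_X, coeff_C] using this
    have e3 : c 3 = 0 := by simpa using h2
    funext i
    fin_cases i
    · exact e0
    · exact e1
    · exact e2
    · exact e3
  have hre : g.re.natDegree ≤ 2 := by
    simp only [hg]
    compute_degree
  have him : g.im.natDegree = 0 := by
    simp only [hg]
    exact natDegree_C _
  have hdeg : (nm g).natDegree ≤ 5 := by
    by_cases h0 : g.im = 0
    · rw [natDegree_nm_zero g h0]
      omega
    · rw [natDegree_nm_ne (Quintic.deg (f := f)) g h0, him]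
      omega
  obtain ⟨t, ht, htc⟩ := exists_rest _ g hg0 hmem
  have ht2 : t.card ≤ 2 := by
    simp only [Multiset.card_cons, Multiset.card_zero] at htc
    omega
  have hs := sum_v_of_prin ht.symm
  rw [Multiset.map_add, Multiset.sum_add] at hs
  have hs2 : v (some P₁) + v (some P₂) + v (some P₃) = -(t.map fun P => v (some P)).sum := by
    have h3 : ((P₁ ::ₘ P₂ ::ₘ P₃ ::ₘ 0).map fun P => v (some P)).sum =
        v (some P₁) + v (some P₂) + v (some P₃) := by
      simp only [Multiset.map_cons, Multiset.map_zero, Multiset.sum_cons, Multiset.sum_zero]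
      abel
    rw [h3] at hs
    exact eq_neg_of_add_eq_zero_left hs
  rw [hs2]
  have hcases : t.card = 0 ∨ t.card = 1 ∨ t.card = 2 := by omega
  rcases hcases with h | h | h
  · rw [Multiset.card_eq_zero] at h
    subst h
    exact ⟨none, none, by simp⟩
  · rw [Multiset.card_eq_one] at h
    obtain ⟨P, rfl⟩ := h
    refine ⟨HPt.neg (some P), none, ?_⟩
    rw [v_neg]
    simp
  · rw [Multiset.card_eq_two] at h
    obtain ⟨P, Q, rfl⟩ := h
    refine ⟨HPt.neg (some P), HPt.neg (some Q), ?_⟩
    rw [v_neg, v_neg]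
    simp only [Multiset.insert_eq_cons, Multiset.map_cons, Multiset.map_singleton,
      Multiset.sum_cons, Multiset.sum_singleton]
    abel

private lemma three_pts (P₁ P₂ P₃ : HPt f) : ∃ P Q : HPt f, v P₁ + v P₂ + v P₃ = v P + v Q := by
  rcases P₁ with _ | P₁
  · exact ⟨P₂, P₃, by rw [v_none, zero_add]⟩
  rcases P₂ with _ | P₂
  · exact ⟨some P₁, P₃, by rw [v_none, add_zero]⟩
  rcases P₃ with _ | P₃
  · exact ⟨some P₁, some P₂, by rw [v_none, add_zero]⟩
  exact three_aux P₁ P₂ P₃

theorem jacobi_sum (s : Multiset (HPt f)) : ∃ P Q : HPt f, (s.map v).sum = v P + v Q := by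
  induction s using Multiset.induction with
  | empty => exact ⟨none, none, by simp⟩
  | cons R s ih =>
    obtain ⟨P, Q, h⟩ := ih
    obtain ⟨P', Q', h'⟩ := three_pts R P Q
    refine ⟨P', Q', ?_⟩
    rw [Multiset.map_cons, Multiset.sum_cons, h, ← h', add_assoc]

/-- the classes of degree 0 -/
theorem jacobi_add (P Q P' Q' : HPt f) : ∃ R S : HPt f, v P + v Q + v P' + v Q' = v R + v S := by
  obtain ⟨R, S, h⟩ := three_pts P Q P'
  obtain ⟨R', S', h'⟩ := three_pts R S Q'
  exact ⟨R', S', by rw [h, h']⟩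

omit [IsAlgClosed K] [Quintic f] in
private lemma dg_add (D E : Dv f) : dg (D + E) = dg D + dg E := by
  unfold dg
  exact Finsupp.sum_add_index' (fun _ => rfl) (fun _ _ _ => rfl)

omit [IsAlgClosed K] [Quintic f] in
private lemma dg_single (P : HPt f) (n : ℤ) : dg (Finsupp.single P n : Dv f) = n := by
  unfold dg
  exact Finsupp.sum_single_index rfl

private lemma jacobi_gen (D : Dv f) :
    ∃ P Q : HPt f, cls (D - dg D • Finsupp.single none 1) = v P + v Q := by
  induction D using Finsupp.induction_linear with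
  | zero =>
    refine ⟨none, none, ?_⟩
    have : dg (0 : Dv f) = 0 := by
      unfold dg
      exact Finsupp.sum_zero_index
    rw [this, v_none, zero_smul, sub_zero, add_zero]
    rfl
  | add D E hD hE =>
    obtain ⟨P, Q, h1⟩ := hD
    obtain ⟨P', Q', h2⟩ := hE
    obtain ⟨R, S, h3⟩ := jacobi_add P Q P' Q'
    refine ⟨R, S, ?_⟩
    rw [← h3, ← h1, add_assoc, ← h2, ← cls_add, dg_add, add_smul]
    congr 1
    abel
  | single P n =>
    have h1 : cls ((Finsupp.single P n : Dv f) - dg (Finsupp.single P n : Dv f) •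
        Finsupp.single none 1) = n • v P := by
      rw [dg_single, v, ← cls_zsmul, smul_sub]
      congr 2
      rw [Finsupp.smul_single, smul_eq_mul, mul_one]
    rw [h1]
    rcases le_total 0 n with h | h
    · obtain ⟨m, rfl⟩ := Int.eq_ofNat_of_zero_le h
      obtain ⟨R, S, h2⟩ := jacobi_sum (Multiset.replicate m P)
      refine ⟨R, S, ?_⟩
      rw [← h2, Multiset.map_replicate, Multiset.sum_replicate]
      exact natCast_zsmul _ _
    · obtain ⟨m, hm⟩ := Int.eq_ofNat_of_zero_le (neg_nonneg.2 h)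
      obtain ⟨R, S, h2⟩ := jacobi_sum (Multiset.replicate m (HPt.neg P))
      refine ⟨R, S, ?_⟩
      rw [← h2, Multiset.map_replicate, Multiset.sum_replicate, v_neg]
      have : n = -(m : ℤ) := by omega
      rw [this, neg_zsmul, natCast_zsmul]
      exact (neg_nsmul (v P) m).symm

theorem jacobi_inversion (D : Dv f) (hD : dg D = 0) : ∃ P Q : HPt f, cls D = v P + v Q := by
  have h := jacobi_gen D
  rwa [hD, zero_smul, sub_zero] at h

end G2
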