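import Pool.Agent.Lib.MP_2eeeac_ag.G2.Fun

/-!
# Module ANm: the norm of `CR f` over a field

PROOF. (1) `natDegree_nm_zero`, `natDegree_nm_ne`. Write `A = g.re`, `B = g.im`, `nm g = A² - f B²`. If `B = 0` then
`nm g = A²`. If `B ≠ 0`, `natDegree (f B²) = 5 + 2 natDegree B` is odd and `natDegree (A²)` is even
(or `A = 0`), so the two degrees are different and the degree of the difference is the maximum
(`Polynomial.natDegree_sub_eq_left_of_natDegree_lt` and its right version).
(2) `nm_ne_zero_odd`: if `A² = f B²` then for `B ≠ 0` the degrees `2 natDegree A` and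
`natDegree f + 2 natDegree B` are equal, which contradicts the parity; for `B = 0` we get `A = 0`.
(3) `CR f` has no zero divisors: `nm (g h) = nm g * nm h` (`nm_mul`).
-/

namespace G2

open Polynomial

variable {K : Type*} [Field K] {f : K[X]}

theorem natDegree_nm_zero (g : CR f) (hg : g.im = 0) :
    (nm g).natDegree = 2 * g.re.natDegree := by
  unfold nm
  rw [hg, zero_pow two_ne_zero, mul_zero, sub_zero, natDegree_pow]

theorem natDegree_nm_ne (hf : f.natDegree = 5) (g : CR f) (hg : g.im ≠ 0) :
    (nm g).natDegree = max (2 * g.re.natDegree) (2 * g.im.natDegree + 5) := by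
  have hf0 : f ≠ 0 := by
    intro h
    rw [h, natDegree_zero] at hf
    omega
  have h1 : (f * g.im ^ 2).natDegree = 2 * g.im.natDegree + 5 := by
    rw [natDegree_mul hf0 (pow_ne_zero _ hg), natDegree_pow, hf]
    ring
  have h2 : (g.re ^ 2).natDegree = 2 * g.re.natDegree := natDegree_pow _ _
  unfold nm
  rcases lt_or_gt_of_ne (show 2 * g.re.natDegree ≠ 2 * g.im.natDegree + 5 by omega) with h | h
  · rw [natDegree_sub_eq_right_of_natDegree_lt (by rw [h1, h2]; exact h), h1, max_eq_right h.le]
  · rw [natDegree_sub_eq_left_of_natDegree_lt (by rw [h1, h2]; exact h), h2, max_eq_left h.le]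

theorem nm_ne_zero_odd (hf : Odd f.natDegree) {g : CR f} (hg : g ≠ 0) : nm g ≠ 0 := by
  intro h
  have hf0 : f ≠ 0 := by
    intro h
    rw [h, natDegree_zero] at hf
    exact absurd hf (by decide)
  unfold nm at h
  rw [sub_eq_zero] at h
  by_cases hB : g.im = 0
  · rw [hB, zero_pow two_ne_zero, mul_zero] at h
    have hA : g.re = 0 := pow_eq_zero_iff two_ne_zero |>.1 h
    apply hg
    ext1
    · exact hA
    · exact hB
  · have h1 := congrArg natDegree h
    rw [natDegree_mul hf0 (pow_ne_zero _ hB), natDegree_pow, natDegree_pow] at h1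
    obtain ⟨m, hm⟩ := hf
    omega

theorem isDomain_CR (hf : Odd f.natDegree) : IsDomain (CR f) := by
  have h1 : NoZeroDivisors (CR f) := ⟨fun {a b} h => by
    by_contra hcon
    push Not at hcon
    have h2 := nm_mul a b
    rw [h] at h2
    have h3 : nm (0 : CR f) = 0 := by simp [nm]
    rw [h3] at h2
    exact mul_ne_zero (nm_ne_zero_odd hf hcon.1) (nm_ne_zero_odd hf hcon.2) h2.symm⟩
  have h2 : Nontrivial (CR f) := ⟨⟨0, 1, fun h => by
    have h3 := congrArg QuadraticAlgebra.re h
    rw [QuadraticAlgebra.re_one, QuadraticAlgebra.re_zero] at h3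
    exact zero_ne_one h3⟩⟩
  exact NoZeroDivisors.to_isDomain _

instance instIsDomainCR [Quintic f] : IsDomain (CR f) :=
  isDomain_CR (by rw [Quintic.deg (f := f)]; decide)

end G2
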