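import Pool.Agent.Lib.MP_2eeeac_ag.G2.AJInv

/-!
# Module APicZ: `∑_{P ∈ s} v P = 0` iff `∏ 𝔪_P` is principal

PROOF. (⇐) is `sum_v_of_prin`. (⇒): `cls (divOf s) = 0`, so `divOf s ∈ PrinDiv f`. Show by
`AddSubgroup.closure_induction` that every `D ∈ PrinDiv f` is `divOf s₁ - divOf s₂` with `Mprod s₁`,
`Mprod s₂` principal (sums: `divOf_add`, `Mprod_add`, products of principal ideals are principal;
negatives: exchange; zero: `s = 0`, `Mprod 0 = ⊤ = (1)`). So
`divOf (s + s₂) = divOf s₁`; the coefficient of `divOf s` at `some P` is `count P s`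
(classical), so `s + s₂ = s₁` (`Multiset.ext`). Hence `Mprod s * (g₂) = (g₁)`, where `g₂ ≠ 0`
(`Mprod_ne_bot`); `g₁ ∈ (g₂)`, `g₁ = g₂ g'`, and `Mprod s = (g')` by cancellation of `(g₂)`
(`Ideal.span_singleton_mul_right_inj`, `mul_comm`).
`cls_eq_zero_deg`: a principal divisor has degree 0 (clear on generators).
-/

namespace G2

open Polynomial

variable {K : Type*} [Field K] {f : K[X]} [Quintic f]

omit [Quintic f] in
open Classical in
private lemma APicZ_coeff (s : Multiset (APt f)) (P : APt f) :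
    divOf s (some P) = (s.count P : ℤ) := by
  induction s using Multiset.induction with
  | empty => simp [divOf_zero]
  | cons Q s ih =>
    rw [divOf_cons, Finsupp.add_apply, ih, Finsupp.sub_apply, Finsupp.single_apply,
      Finsupp.single_apply, Multiset.count_cons]
    by_cases h : P = Q
    · subst h
      simp
      ring
    · rw [if_neg (fun h' => h (Option.some.inj h').symm), if_neg (Option.some_ne_none P).symm,
        if_neg h]
      simp

omit [Quintic f] in
open Classical in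
private lemma APicZ_inj {s t : Multiset (APt f)} (h : divOf s = divOf t) : s = t := by
  ext P
  have h1 := DFunLike.congr_fun h (some P)
  rw [APicZ_coeff, APicZ_coeff] at h1
  exact_mod_cast h1

omit [Quintic f] in
private lemma APicZ_mem {D : Dv f} (h : D ∈ PrinDiv f) :
    ∃ (s₁ s₂ : Multiset (APt f)) (g₁ g₂ : CR f), Mprod s₁ = Ideal.span {g₁} ∧
      Mprod s₂ = Ideal.span {g₂} ∧ D = divOf s₁ - divOf s₂ := by
  rw [PrinDiv] at h
  induction h using AddSubgroup.closure_induction with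
  | mem D hD =>
    obtain ⟨s, g, hg, rfl⟩ := hD
    refine ⟨s, 0, g, 1, hg, ?_, ?_⟩
    · rw [Mprod_zero, Ideal.span_singleton_one]
    · rw [divOf_zero, sub_zero]
  | zero =>
    refine ⟨0, 0, 1, 1, ?_, ?_, ?_⟩
    · rw [Mprod_zero, Ideal.span_singleton_one]
    · rw [Mprod_zero, Ideal.span_singleton_one]
    · rw [sub_self]
  | add D E _ _ ihD ihE =>
    obtain ⟨s₁, s₂, g₁, g₂, h₁, h₂, rfl⟩ := ihD
    obtain ⟨t₁, t₂, k₁, k₂, l₁, l₂, rfl⟩ := ihE
    refine ⟨s₁ + t₁, s₂ + t₂, g₁ * k₁, g₂ * k₂, ?_, ?_, ?_⟩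
    · rw [Mprod_add, h₁, l₁, Ideal.span_singleton_mul_span_singleton]
    · rw [Mprod_add, h₂, l₂, Ideal.span_singleton_mul_span_singleton]
    · rw [divOf_add, divOf_add, sub_add_sub_comm]
  | neg D _ ihD =>
    obtain ⟨s₁, s₂, g₁, g₂, h₁, h₂, rfl⟩ := ihD
    exact ⟨s₂, s₁, g₂, g₁, h₂, h₁, neg_sub _ _⟩

theorem prin_of_sum_v {s : Multiset (APt f)} (h : (s.map fun P => v (some P)).sum = 0) :
    ∃ g : CR f, Mprod s = Ideal.span {g} := by
  rw [← cls_divOf, cls_eq_zero_iff] at h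
  obtain ⟨s₁, s₂, g₁, g₂, h₁, h₂, hD⟩ := APicZ_mem h
  have h3 : s + s₂ = s₁ := by
    apply APicZ_inj
    rw [divOf_add, hD, sub_add_cancel]
  have h4 : Mprod s * Ideal.span {g₂} = Ideal.span {g₁} := by
    rw [← h₁, ← h₂, ← Mprod_add, h3]
  have hg₂ : g₂ ≠ 0 := by
    intro h0
    apply Mprod_ne_bot s₂
    rw [h₂, h0, Ideal.span_singleton_eq_bot.2 rfl]
  have h5 : g₁ ∈ Ideal.span {g₂} := by
    have h6 : g₁ ∈ Mprod s * Ideal.span {g₂} := by
      rw [h4]
      exact Ideal.mem_span_singleton_self g₁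
    exact Ideal.mul_le_left (mul_comm (Mprod s) (Ideal.span {g₂}) ▸ h6)
  obtain ⟨g', hg'⟩ := Ideal.mem_span_singleton.1 h5
  refine ⟨g', ?_⟩
  rw [← Ideal.span_singleton_mul_right_inj hg₂, mul_comm, h4, hg',
    Ideal.span_singleton_mul_span_singleton]

omit [Quintic f] in
private lemma APicZ_dg_add (D E : Dv f) : dg (D + E) = dg D + dg E := by
  rw [dg, dg, dg, Finsupp.sum_add_index']
  · intro _; rfl
  · intro _ _ _; rfl

omit [Quintic f] in
private lemma APicZ_dg_neg (D : Dv f) : dg (-D) = -dg D := by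
  have h := APicZ_dg_add D (-D)
  rw [add_neg_cancel] at h
  have h0 : dg (0 : Dv f) = 0 := by rw [dg, Finsupp.sum_zero_index]
  rw [h0] at h
  linarith

omit [Quintic f] in
private lemma APicZ_dg_single (P : HPt f) (n : ℤ) : dg (Finsupp.single P n : Dv f) = n := by
  rw [dg, Finsupp.sum_single_index rfl]

omit [Quintic f] in
private lemma APicZ_dg_divOf (s : Multiset (APt f)) : dg (divOf s) = 0 := by
  induction s using Multiset.induction with
  | empty => rw [divOf_zero, dg, Finsupp.sum_zero_index]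
  | cons Q s ih =>
    rw [divOf_cons, APicZ_dg_add, ih, sub_eq_add_neg, APicZ_dg_add, APicZ_dg_neg,
      APicZ_dg_single, APicZ_dg_single]
    ring

omit [Quintic f] in
theorem dg_of_mem_PrinDiv {D : Dv f} (h : D ∈ PrinDiv f) : dg D = 0 := by
  obtain ⟨s₁, s₂, g₁, g₂, h₁, h₂, rfl⟩ := APicZ_mem h
  rw [sub_eq_add_neg, APicZ_dg_add, APicZ_dg_neg, APicZ_dg_divOf, APicZ_dg_divOf]
  ring

end G2
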