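import Pool.Agent.Lib.MP_2eeeac_ag.G2.APicZ

/-!
# Module AUniq: uniqueness of the representation `v P + v Q`

PROOF. `ReFac`: if `Mprod s = (⟨A, 0⟩)` (`g = A ∈ K[x]`, `A ≠ 0`), then `s = t + t.map neg` for some
`t`: `A = c ∏ (x - a_i)`, choose points `R_i` over `a_i` (`IsAlgClosed`), `(A) = ∏ 𝔪_{R_i} 𝔪_{ιR_i}`
(`Mprod_mul_neg`), and `Mprod_inj`. In particular: if `P ∈ s` then `s = P ::ₘ P.neg ::ₘ s'` where
`s'` is again of this form.

`v_add_unique`: from `v P + v Q = v P' + v Q'` and `v_neg`: `v P + v Q + v (ιP') + v (ιQ') = 0`.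
Let `s` be the multiset of the affine points among `P, Q, ιP', ιQ'` (`card s ≤ 4`; the infinite
points contribute `0`). By `prin_of_sum_v`, `Mprod s = (g)`, and `natDegree (nm g) = card s ≤ 4`
(`card_eq`), so `g.im = 0` (`natDegree_nm_ne`: otherwise the degree is `≥ 5`). By `ReFac`,
`s = t + t.map neg` with `card t ≤ 2`.
Cases. (1) `P = ∞ = Q`: then `s` = affine points among `ιP', ιQ'` has even cardinality: both
infinite (first alternative), or both affine and `{ιP', ιQ'} = {R, ιR}`, so `Q' = ιP'` and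
`Q = ιP`: third alternative. (2) exactly one of `P, Q` is `∞`; by symmetry `P = ∞`, `Q` affine:
`card s` is even and `≥ 1`, so exactly one of `P', Q'` is infinite (card 2) - then
`{Q, ιQ'} = {R, ιR}` gives `ιQ' = ιQ`, `Q = Q'` (if `P' = ∞`) - alternatives 1 or 2.
(3) `P, Q` affine: if `P' = Q' = ∞`: `{P, Q} = {R, ιR}`: third alternative. If exactly one of
`P', Q'` is infinite the cardinality is `3`, impossible. If all are affine: `s` has 4 elements and
`P ∈ s = t + t.map neg`, so `s - {P} ∋ ιP` and the two remaining elements are `{R, ιR}`. Either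
`ιP = Q` and `{ιP', ιQ'} = {R, ιR}`: third; or `ιP = ιP'`, `P = P'`, `{Q, ιQ'} = {R, ιR}`, `Q = Q'`:
first; or `ιP = ιQ'`: second.
-/

set_option linter.unusedSimpArgs false

namespace G2

open Polynomial

variable {K : Type*} [Field K] [IsAlgClosed K] {f : K[X]} [Quintic f]

omit [Quintic f] in
private lemma au_exists_y (a : K) : ∃ b : K, b ^ 2 = f.eval a :=
  IsAlgClosed.exists_pow_nat_eq (f.eval a) (by norm_num)

/-- a point over `a` -/
private noncomputable def au_pt (f : K[X]) (a : K) : APt f :=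
  ⟨a, (au_exists_y (f := f) a).choose, (au_exists_y (f := f) a).choose_spec⟩

theorem re_fac {s : Multiset (APt f)} {A : K[X]} (h : Mprod s = Ideal.span {(⟨A, 0⟩ : CR f)}) :
    ∃ t : Multiset (APt f), s = t + t.map APt.neg := by
  have hA : A ≠ 0 := by
    intro hA
    apply Mprod_ne_bot s
    rw [h, hA]
    exact Ideal.span_singleton_eq_bot.2 rfl
  have hsplit : A = C A.leadingCoeff * (A.roots.map fun a => X - C a).prod :=
    (IsAlgClosed.splits A).eq_prod_roots
  refine ⟨A.roots.map (au_pt f), Mprod_inj ?_⟩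
  rw [h, Mprod_add, Mprod_mul_neg _ (fun P _ => smooth_of_quintic P), Multiset.map_map]
  have h1 : (⟨A, 0⟩ : CR f) = ⟨C A.leadingCoeff, 0⟩ *
      ⟨(A.roots.map ((fun P : APt f => X - C P.x) ∘ au_pt f)).prod, 0⟩ := by
    ext1
    · simp only [QuadraticAlgebra.re_mul, mul_zero, add_zero]
      exact hsplit
    · simp
  rw [h1]
  apply Ideal.span_singleton_mul_left_unit
  have hl : A.leadingCoeff ≠ 0 := leadingCoeff_ne_zero.2 hA
  refine IsUnit.of_mul_eq_one (⟨C A.leadingCoeff⁻¹, 0⟩ : CR f) ?_
  ext1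
  · simp only [QuadraticAlgebra.re_mul, mul_zero, add_zero, QuadraticAlgebra.re_one]
    rw [← C_mul, mul_inv_cancel₀ hl, C_1]
  · simp [QuadraticAlgebra.im_one]

private lemma au_key {s : Multiset (APt f)} (hs : s.card ≤ 4)
    (h : (s.map fun P => v (some P)).sum = 0) :
    ∃ t : Multiset (APt f), s = t + t.map APt.neg := by
  obtain ⟨g, hg⟩ := prin_of_sum_v h
  have h1 := card_eq hg
  have h2 : g.im = 0 := by
    by_contra h2
    have h3 := natDegree_nm_ne (Quintic.deg (f := f)) g h2
    have h4 : 5 ≤ max (2 * g.re.natDegree) (2 * g.im.natDegree + 5) :=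
      le_trans (by omega) (le_max_right _ _)
    omega
  have h3 : g = ⟨g.re, 0⟩ := by
    ext1
    · rfl
    · exact h2
  rw [h3] at hg
  exact re_fac hg

omit [IsAlgClosed K] [Quintic f] in
private lemma au_even {s t : Multiset (APt f)} (h : s = t + t.map APt.neg) :
    s.card = 2 * t.card := by
  rw [h, Multiset.card_add, Multiset.card_map]
  ring

omit [IsAlgClosed K] [Quintic f] in
private lemma au_step {a : APt f} {s t : Multiset (APt f)} (h : a ::ₘ s = t + t.map APt.neg) :
    ∃ t' : Multiset (APt f), s = a.neg ::ₘ (t' + t'.map APt.neg) := by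
  have h1 : a ∈ t + t.map APt.neg := by rw [← h]; exact Multiset.mem_cons_self _ _
  rcases Multiset.mem_add.1 h1 with h2 | h2
  · obtain ⟨t', rfl⟩ := Multiset.exists_cons_of_mem h2
    refine ⟨t', ?_⟩
    rw [Multiset.map_cons, Multiset.cons_add, Multiset.add_cons] at h
    exact (Multiset.cons_inj_right a).1 h
  · obtain ⟨b, hb, hba⟩ := Multiset.mem_map.1 h2
    obtain ⟨t', rfl⟩ := Multiset.exists_cons_of_mem hb
    refine ⟨t', ?_⟩
    have hb' : b = a.neg := by rw [← hba, APt.neg_neg]
    rw [Multiset.map_cons, Multiset.cons_add, Multiset.add_cons, hba, Multiset.cons_swap] at h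
    rw [← hb']
    exact (Multiset.cons_inj_right a).1 h

omit [IsAlgClosed K] [Quintic f] in
private lemma au_pair {a b : APt f} {t : Multiset (APt f)}
    (h : a ::ₘ b ::ₘ 0 = t + t.map APt.neg) : b = a.neg := by
  obtain ⟨t', ht'⟩ := au_step h
  have h1 : a.neg ∈ b ::ₘ (0 : Multiset (APt f)) := by
    rw [ht']; exact Multiset.mem_cons_self _ _
  have h2 : a.neg = b := by simpa using h1
  exact h2.symm

omit [IsAlgClosed K] [Quintic f] in
private lemma au_quad {a b c d : APt f} {t : Multiset (APt f)}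
    (h : a ::ₘ b ::ₘ c ::ₘ d ::ₘ 0 = t + t.map APt.neg) :
    (b = a.neg ∧ d = c.neg) ∨ (c = a.neg ∧ d = b.neg) ∨ (d = a.neg ∧ c = b.neg) := by
  obtain ⟨t', ht'⟩ := au_step h
  have h1 : a.neg ∈ b ::ₘ c ::ₘ d ::ₘ (0 : Multiset (APt f)) := by
    rw [ht']; exact Multiset.mem_cons_self _ _
  have h2 : a.neg = b ∨ a.neg = c ∨ a.neg = d := by simpa using h1
  rcases h2 with h2 | h2 | h2
  · left
    rw [h2] at ht'
    exact ⟨h2.symm, au_pair ((Multiset.cons_inj_right b).1 ht')⟩
  · right; left
    rw [h2, Multiset.cons_swap] at ht'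
    exact ⟨h2.symm, au_pair ((Multiset.cons_inj_right c).1 ht')⟩
  · right; right
    rw [h2, Multiset.cons_swap c d, Multiset.cons_swap b d] at ht'
    exact ⟨h2.symm, au_pair ((Multiset.cons_inj_right d).1 ht')⟩

omit [IsAlgClosed K] in
private lemma au_neg (a : APt f) : v (some a.neg) = -v (some a) := v_neg (some a)

theorem v_add_unique {P Q P' Q' : HPt f} (h : v P + v Q = v P' + v Q') :
    (P = P' ∧ Q = Q') ∨ (P = Q' ∧ Q = P') ∨ (Q = HPt.neg P ∧ Q' = HPt.neg P') := by
  have hn : HPt.neg (none : HPt f) = none := rfl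
  have hs : ∀ a : APt f, HPt.neg (some a) = some a.neg := fun a => rfl
  have nn : ∀ {a b : APt f}, a.neg = b.neg → a = b := by
    intro a b hab
    rw [← APt.neg_neg a, hab, APt.neg_neg]
  have odd1 : ∀ a : APt f, v (some a) ≠ 0 := by
    intro a ha
    obtain ⟨t, ht⟩ := au_key (s := a ::ₘ 0) (by simp) (by simpa using ha)
    have := au_even ht
    simp at this
    omega
  have two : ∀ a b : APt f, v (some a) + v (some b) = 0 → b = a.neg := by
    intro a b hab
    obtain ⟨t, ht⟩ := au_key (s := a ::ₘ b ::ₘ 0) (by simp) (by simpa using hab)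
    exact au_pair ht
  have odd3 : ∀ a b c : APt f, v (some a) + v (some b) + v (some c) ≠ 0 := by
    intro a b c ha
    obtain ⟨t, ht⟩ := au_key (s := a ::ₘ b ::ₘ c ::ₘ 0) (by simp)
      (by simpa [add_assoc] using ha)
    have := au_even ht
    simp at this
    omega
  have four : ∀ a b c d : APt f, v (some a) + v (some b) + v (some c) + v (some d) = 0 →
      (b = a.neg ∧ d = c.neg) ∨ (c = a.neg ∧ d = b.neg) ∨ (d = a.neg ∧ c = b.neg) := by
    intro a b c d ha
    obtain ⟨t, ht⟩ := au_key (s := a ::ₘ b ::ₘ c ::ₘ d ::ₘ 0) (by simp)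
      (by simpa [add_assoc] using ha)
    exact au_quad ht
  rcases P with _ | p <;> rcases Q with _ | q <;> rcases P' with _ | p' <;> rcases Q' with _ | q'
  · exact Or.inl ⟨rfl, rfl⟩
  · exfalso
    simp only [v_none, zero_add, add_zero] at h
    exact odd1 q' h.symm
  · exfalso
    simp only [v_none, zero_add, add_zero] at h
    exact odd1 p' h.symm
  · right; right
    simp only [v_none, zero_add, add_zero] at h
    refine ⟨rfl, ?_⟩
    rw [hs, two p' q' h.symm]
  · exfalso
    simp only [v_none, zero_add, add_zero] at h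
    exact odd1 q h
  · left
    simp only [v_none, zero_add, add_zero] at h
    refine ⟨rfl, ?_⟩
    have h1 : v (some q) + v (some q'.neg) = 0 := by rw [au_neg, h]; abel
    rw [nn (two _ _ h1)]
  · right; left
    simp only [v_none, zero_add, add_zero] at h
    refine ⟨rfl, ?_⟩
    have h1 : v (some q) + v (some p'.neg) = 0 := by rw [au_neg, h]; abel
    rw [nn (two _ _ h1)]
  · exfalso
    simp only [v_none, zero_add, add_zero] at h
    refine odd3 q p'.neg q'.neg ?_
    rw [au_neg, au_neg, h]; abel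
  · exfalso
    simp only [v_none, zero_add, add_zero] at h
    exact odd1 p h
  · right; left
    simp only [v_none, zero_add, add_zero] at h
    refine ⟨?_, rfl⟩
    have h1 : v (some p) + v (some q'.neg) = 0 := by rw [au_neg, h]; abel
    rw [nn (two _ _ h1)]
  · left
    simp only [v_none, zero_add, add_zero] at h
    refine ⟨?_, rfl⟩
    have h1 : v (some p) + v (some p'.neg) = 0 := by rw [au_neg, h]; abel
    rw [nn (two _ _ h1)]
  · exfalso
    simp only [v_none, zero_add, add_zero] at h
    refine odd3 p p'.neg q'.neg ?_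
    rw [au_neg, au_neg, h]; abel
  · right; right
    simp only [v_none, zero_add, add_zero] at h
    refine ⟨?_, rfl⟩
    rw [hs, two p q h]
  · exfalso
    simp only [v_none, zero_add, add_zero] at h
    refine odd3 p q q'.neg ?_
    rw [au_neg, h]; abel
  · exfalso
    simp only [v_none, zero_add, add_zero] at h
    refine odd3 p q p'.neg ?_
    rw [au_neg, h]; abel
  · have h1 : v (some p) + v (some q) + v (some p'.neg) + v (some q'.neg) = 0 := by
      rw [au_neg, au_neg, h]; abel
    rcases four _ _ _ _ h1 with ⟨h2, h3⟩ | ⟨h2, h3⟩ | ⟨h2, h3⟩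
    · right; right
      refine ⟨by rw [hs, h2], ?_⟩
      rw [hs]
      rw [nn h3]
    · left
      exact ⟨by rw [nn h2], by rw [nn h3]⟩
    · right; left
      exact ⟨by rw [nn h2], by rw [nn h3]⟩

end G2
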