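import Pool.Agent.Lib.MP_2eeeac_ag.G2.NDefs

/-!
# The arithmetic interface: a decomposition group and its fixed field

`Arith p K`: `K` is a normed field (an algebraic closure of `ℚ` with a `p`-adic norm in the
application), `K0` is a subfield with value group `p^ℤ` (the decomposition field) and `G` a set of
isometric automorphisms with fixed field `K0`.
-/

namespace G2

open Polynomial

structure Arith (p : ℕ) (K : Type*) [NormedField K] where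
  K0 : Subfield K
  G : Set (K ≃+* K)
  norm_p : ‖(p : K)‖ = (p : ℝ)⁻¹
  norm_q : ∀ q : ℕ, q.Prime → q ≠ p → ‖(q : K)‖ = 1
  norm_eq : ∀ σ ∈ G, ∀ x, ‖σ x‖ = ‖x‖
  fix : ∀ σ ∈ G, ∀ x ∈ K0, σ x = x
  mem_of_fix : ∀ x, (∀ σ ∈ G, σ x = x) → x ∈ K0
  val : ∀ x ∈ K0, x ≠ 0 → ∃ n : ℤ, ‖x‖ = (p : ℝ) ^ n
  conj : ∀ (x c : K) (Ψ : K[X]), c ∈ K0 → Ψ ≠ 0 → (∀ i, Ψ.coeff i ∈ K0) → Ψ.natDegree < p →
    Ψ.eval x = 0 → (∀ n : ℤ, ‖x - c‖ ≠ (p : ℝ) ^ n) → x ≠ c → ∃ σ ∈ G, ‖σ x - x‖ = ‖x - c‖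
  frob : ∀ x ∈ K0, ‖x‖ ≤ 1 → ‖x ^ p - x‖ < 1

/-- A point with coordinates in `K0`. -/
def RatPt {K : Type*} [Field K] (K0 : Subfield K) {f : K[X]} (P : HPt f) : Prop :=
  ∀ Q : APt f, P = some Q → Q.x ∈ K0 ∧ Q.y ∈ K0

lemma map_of_fix {K : Type*} [Field K] {f : K[X]} (K0 : Subfield K) (σ : K ≃+* K)
    (hσ : ∀ x ∈ K0, σ x = x) (hf : ∀ i, f.coeff i ∈ K0) : f.map (σ : K →+* K) = f := by
  ext i
  rw [coeff_map]
  exact hσ _ (hf i)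

end G2
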