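import Pool.Agent.Lib.MP_2eeeac_ag.G2.ArDefs
import Pool.Agent.Lib.MP_2eeeac_ag.EM
import Pool.Agent.Lib.MP_2eeeac_ag.AL

/-!
# Module ArEx: the decomposition group of an embedding `ℚ̄ → ℚ̄_p`
-/

namespace G2

open Polynomial

private theorem arEx_range {L : Type*} [Field L] (φ ι : AlgebraicClosure ℚ →+* L)
    (x : AlgebraicClosure ℚ) : ∃ r, ι r = φ x := by
  have hint : IsIntegral ℚ x := AlbCH.EM.isInt x
  set Q : (AlgebraicClosure ℚ)[X] := (minpoly ℚ x).map (algebraMap ℚ (AlgebraicClosure ℚ)) with hQ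
  have hs : Q.Splits := IsAlgClosed.splits _
  have hm : Q.Monic := (minpoly.monic hint).map _
  have h1 : φ.comp (algebraMap ℚ (AlgebraicClosure ℚ)) =
      ι.comp (algebraMap ℚ (AlgebraicClosure ℚ)) := Subsingleton.elim _ _
  have h2 : (Q.map ι).eval (φ x) = 0 := by
    rw [hQ, map_map, ← h1, ← map_map, ← hQ, eval_map, eval₂_at_apply]
    have : Q.eval x = 0 := by
      rw [hQ, eval_map_algebraMap, minpoly.aeval]
    rw [this, map_zero]
  have h3 : φ x ∈ (Q.map ι).roots := by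
    rw [mem_roots (hm.map ι).ne_zero]
    exact h2
  rw [hs.roots_map ι, Multiset.mem_map] at h3
  obtain ⟨r, _, hr⟩ := h3
  exact ⟨r, hr⟩

private theorem arEx_sigma {L : Type*} [Field L] (ι : AlgebraicClosure ℚ →+* L) (τ : L ≃+* L) :
    ∃ σ : AlgebraicClosure ℚ ≃+* AlgebraicClosure ℚ, ∀ x, ι (σ x) = τ (ι x) := by
  choose g hg using fun x => arEx_range ((τ : L →+* L).comp ι) ι x
  have hg' : ∀ x, ι (g x) = τ (ι x) := fun x => hg x
  have hinj := ι.injective
  let σ₀ : AlgebraicClosure ℚ →+* AlgebraicClosure ℚ :=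
    { toFun := g
      map_one' := hinj (by rw [hg', map_one, map_one])
      map_zero' := hinj (by rw [hg', map_zero, map_zero])
      map_mul' := fun a b => hinj (by rw [map_mul, hg', hg', hg', map_mul, map_mul])
      map_add' := fun a b => hinj (by rw [map_add, hg', hg', hg', map_add, map_add]) }
  have hsurj : Function.Surjective σ₀ := by
    intro y
    obtain ⟨x, hx⟩ := arEx_range ((τ.symm : L →+* L).comp ι) ι y
    refine ⟨x, hinj ?_⟩
    change ι (g x) = ι y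
    rw [hg', hx]
    exact τ.apply_symm_apply _
  exact ⟨RingEquiv.ofBijective σ₀ ⟨σ₀.injective, hsurj⟩, fun x => hg' x⟩

section

variable (p : ℕ) [Fact p.Prime]

private theorem arEx_norm (τ : PadicAlgCl p ≃ₐ[ℚ_[p]] PadicAlgCl p) (z : PadicAlgCl p) :
    ‖τ z‖ = ‖z‖ := by
  rw [← PadicAlgCl.spectralNorm_eq, ← PadicAlgCl.spectralNorm_eq]
  exact (spectralNorm_eq_of_equiv τ z).symm

private theorem arEx_ext (q : ℚ_[p]) : ‖algebraMap ℚ_[p] (PadicAlgCl p) q‖ = ‖q‖ :=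
  PadicAlgCl.norm_extends p q

private theorem arEx_zpow (q : ℚ_[p]) (hq : q ≠ 0) : ∃ n : ℤ, ‖q‖ = (p : ℝ) ^ n :=
  ⟨-q.valuation, Padic.norm_eq_zpow_neg_valuation hq⟩

private theorem arEx_frob (q : ℚ_[p]) (hq : ‖q‖ ≤ 1) : ‖q ^ p - q‖ < 1 := by
  obtain ⟨z, hz⟩ : ∃ z : ℤ_[p], (z : ℚ_[p]) = q := ⟨⟨q, hq⟩, rfl⟩
  have h1 : z ^ p - z ∈ IsLocalRing.maximalIdeal ℤ_[p] := by
    rw [← PadicInt.ker_toZMod, RingHom.mem_ker, map_sub, map_pow, ZMod.pow_card, sub_self]
  rw [IsLocalRing.mem_maximalIdeal, PadicInt.mem_nonunits, PadicInt.norm_def] at h1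
  rw [← hz]
  simpa using h1

private theorem arEx_natnorm (n : ℕ) (h0 : 0 < n) (hn : n < p) : ‖(n : PadicAlgCl p)‖ = 1 := by
  have h1 : (n : PadicAlgCl p) = algebraMap ℚ_[p] (PadicAlgCl p) (n : ℚ_[p]) := by
    rw [map_natCast]
  rw [h1, arEx_ext]
  have h2 := AlbCH.EM.norm_intCast_eq_one p n (by
    intro h
    have := Int.natCast_dvd_natCast.1 h
    exact absurd (Nat.le_of_dvd h0 this) (by omega))
  simpa using h2

/-- the main step: a conjugate at the maximal distance -/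
private theorem arEx_conj (y : PadicAlgCl p) (d : ℚ_[p]) (P : ℚ_[p][X]) (hP : P ≠ 0)
    (hdeg : P.natDegree < p) (hy : aeval y P = 0)
    (hval : ∀ n : ℤ, ‖y - algebraMap ℚ_[p] (PadicAlgCl p) d‖ ≠ (p : ℝ) ^ n)
    (hne : y ≠ algebraMap ℚ_[p] (PadicAlgCl p) d) :
    ∃ τ : PadicAlgCl p ≃ₐ[ℚ_[p]] PadicAlgCl p,
      ‖τ y - y‖ = ‖y - algebraMap ℚ_[p] (PadicAlgCl p) d‖ := by
  by_contra hcon
  push Not at hcon
  set D : PadicAlgCl p := algebraMap ℚ_[p] (PadicAlgCl p) d with hD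
  set δ : ℝ := ‖y - D‖ with hδ
  have hδ0 : 0 < δ := norm_pos_iff.2 (sub_ne_zero.2 hne)
  have hlt : ∀ τ : PadicAlgCl p ≃ₐ[ℚ_[p]] PadicAlgCl p, ‖τ y - y‖ < δ := by
    intro τ
    refine lt_of_le_of_ne ?_ (hcon τ)
    have h1 : τ y - y = τ (y - D) - (y - D) := by
      rw [map_sub, hD, τ.commutes]
      ring
    rw [h1]
    calc ‖τ (y - D) - (y - D)‖ ≤ max ‖τ (y - D)‖ ‖-(y - D)‖ := by
          rw [sub_eq_add_neg]
          exact IsUltrametricDist.norm_add_le_max _ _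
      _ = δ := by rw [arEx_norm, norm_neg, max_self]
  have halg : IsAlgebraic ℚ_[p] y := Algebra.IsAlgebraic.isAlgebraic y
  have hint : IsIntegral ℚ_[p] y := halg.isIntegral
  set μ := minpoly ℚ_[p] y with hμ
  set Q : (PadicAlgCl p)[X] := μ.map (algebraMap ℚ_[p] (PadicAlgCl p)) with hQ
  have hmon : μ.Monic := minpoly.monic hint
  have hsp : Q.Splits := IsAlgClosed.splits _
  have hroot : ∀ r ∈ Q.roots, ‖r - y‖ < δ := by
    intro r hr
    have h1 : aeval r μ = 0 := by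
      have h2 := (mem_roots (hmon.map (algebraMap ℚ_[p] (PadicAlgCl p))).ne_zero).1 hr
      rw [IsRoot.def, eval_map_algebraMap] at h2
      exact h2
    obtain ⟨τ, hτ⟩ := minpoly.exists_algEquiv_of_root' halg h1
    rw [← hτ]
    exact hlt τ
  set n := μ.natDegree with hn
  have hn0 : 0 < n := minpoly.natDegree_pos hint
  have hnp : n < p := by
    refine lt_of_le_of_lt ?_ hdeg
    exact natDegree_le_of_dvd (minpoly.dvd _ _ hy) hP
  have hcard : Q.roots.card = n := by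
    rw [← hsp.natDegree_eq_card_roots, hQ, natDegree_map]
  have hsum : Q.roots.sum = algebraMap ℚ_[p] (PadicAlgCl p) (-μ.nextCoeff) := by
    have h1 := hsp.nextCoeff_eq_neg_sum_roots_of_monic (hmon.map _)
    rw [map_neg, ← nextCoeff_map (algebraMap ℚ_[p] (PadicAlgCl p)).injective, ← hQ, h1, neg_neg]
  -- the sum of the differences is small
  have hsmall : ∀ s : Multiset (PadicAlgCl p), (∀ r ∈ s, ‖r - y‖ < δ) →
      ‖s.sum - s.card • y‖ < δ := by
    intro s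
    induction s using Multiset.induction_on with
    | empty => intro _; simpa using hδ0
    | cons a s ih =>
      intro h
      have h1 := h a (Multiset.mem_cons_self a s)
      have h2 := ih (fun r hr => h r (Multiset.mem_cons_of_mem hr))
      have h3 : (a ::ₘ s).sum - (a ::ₘ s).card • y = (a - y) + (s.sum - s.card • y) := by
        rw [Multiset.sum_cons, Multiset.card_cons, add_smul, one_smul]
        ring
      rw [h3]
      exact lt_of_le_of_lt (IsUltrametricDist.norm_add_le_max _ _) (max_lt h1 h2)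
  have h4 := hsmall _ hroot
  rw [hcard, hsum] at h4
  have h5 : ‖(n : PadicAlgCl p) * (y - D)‖ = δ := by
    rw [norm_mul, arEx_natnorm p n hn0 hnp, one_mul]
  have h6 : algebraMap ℚ_[p] (PadicAlgCl p) (-μ.nextCoeff - n * d) =
      (algebraMap ℚ_[p] (PadicAlgCl p) (-μ.nextCoeff) - n • y) + (n : PadicAlgCl p) * (y - D) := by
    rw [map_sub, map_mul, map_natCast, nsmul_eq_mul, ← hD]
    ring
  have h7 : ‖algebraMap ℚ_[p] (PadicAlgCl p) (-μ.nextCoeff - n * d)‖ = δ := by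
    rw [h6, IsUltrametricDist.norm_add_eq_max_of_norm_ne_norm (by rw [h5]; exact h4.ne), h5]
    exact max_eq_right h4.le
  rw [arEx_ext] at h7
  have h8 : (-μ.nextCoeff - n * d : ℚ_[p]) ≠ 0 := by
    intro h0
    rw [h0, norm_zero] at h7
    exact hδ0.ne h7
  obtain ⟨k, hk⟩ := arEx_zpow p _ h8
  exact hval k (h7.symm.trans hk)

end

theorem exists_arith (S : Finset (AlgebraicClosure ℚ)) (N₀ : ℕ) :
    ∃ (p : ℕ) (_ : Fact p.Prime) (ι : AlgebraicClosure ℚ →+* PadicAlgCl p), N₀ < p ∧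
      letI : NormedField (AlgebraicClosure ℚ) :=
        NormedField.induced (AlgebraicClosure ℚ) (PadicAlgCl p) ι ι.injective
      ∃ A : Arith p (AlgebraicClosure ℚ), ∀ s ∈ S, s ∈ A.K0 ∧ (s ≠ 0 → ‖ι s‖ = 1) := by
  obtain ⟨p, hp, ι, hN, hS⟩ := AlbCH.exists_embedding S N₀
  refine ⟨p, hp, ι, hN, ?_⟩
  letI : NormedField (AlgebraicClosure ℚ) :=
    NormedField.induced (AlgebraicClosure ℚ) (PadicAlgCl p) ι ι.injective
  have hnorm : ∀ x : AlgebraicClosure ℚ, ‖x‖ = ‖ι x‖ := fun x => rfl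
  let K0 : Subfield (AlgebraicClosure ℚ) :=
    (algebraMap ℚ_[p] (PadicAlgCl p)).fieldRange.comap ι
  have hK0 : ∀ x, x ∈ K0 ↔ ∃ q : ℚ_[p], algebraMap ℚ_[p] (PadicAlgCl p) q = ι x := by
    intro x
    rfl
  let G : Set (AlgebraicClosure ℚ ≃+* AlgebraicClosure ℚ) :=
    {σ | ∃ τ : PadicAlgCl p ≃ₐ[ℚ_[p]] PadicAlgCl p, ∀ x, ι (σ x) = τ (ι x)}
  refine ⟨⟨K0, G, ?_, ?_, ?_, ?_, ?_, ?_, ?_, ?_⟩, ?_⟩
  · -- norm_p
    rw [hnorm, map_natCast]
    have h1 : (p : PadicAlgCl p) = algebraMap ℚ_[p] (PadicAlgCl p) (p : ℚ_[p]) := by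
      rw [map_natCast]
    rw [h1, arEx_ext, Padic.norm_p]
  · -- norm_q
    intro q hq hqp
    rw [hnorm, map_natCast]
    have h1 : (q : PadicAlgCl p) = algebraMap ℚ_[p] (PadicAlgCl p) (q : ℚ_[p]) := by
      rw [map_natCast]
    rw [h1, arEx_ext]
    have h2 := AlbCH.EM.norm_intCast_eq_one p q (by
      intro h
      have h3 := Int.natCast_dvd_natCast.1 h
      exact hqp ((Nat.prime_dvd_prime_iff_eq hp.out hq).1 h3).symm)
    simpa using h2
  · -- norm_eq
    rintro σ ⟨τ, hτ⟩ x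
    rw [hnorm, hnorm, hτ, arEx_norm]
  · -- fix
    rintro σ ⟨τ, hτ⟩ x hx
    obtain ⟨q, hq⟩ := (hK0 x).1 hx
    apply ι.injective
    rw [hτ, ← hq, τ.commutes]
  · -- mem_of_fix
    intro x hx
    rw [hK0]
    refine (InfiniteGalois.mem_range_algebraMap_iff_fixed (k := ℚ_[p]) (K := PadicAlgCl p)
      (ι x)).2 ?_
    intro τ
    obtain ⟨σ, hσ⟩ := arEx_sigma ι (τ : PadicAlgCl p ≃+* PadicAlgCl p)
    have h1 := hx σ ⟨τ, hσ⟩
    have h2 := hσ x
    rw [h1] at h2
    exact h2.symm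
  · -- val
    intro x hx hx0
    obtain ⟨q, hq⟩ := (hK0 x).1 hx
    rw [hnorm, ← hq, arEx_ext]
    apply arEx_zpow
    intro h0
    apply hx0
    apply ι.injective
    rw [← hq, h0, map_zero, map_zero]
  · -- conj
    intro x c Ψ hc hΨ hcoef hdeg hroot hval hne
    obtain ⟨d, hd⟩ := (hK0 c).1 hc
    have hlift : Ψ.map ι ∈ lifts (algebraMap ℚ_[p] (PadicAlgCl p)) := by
      rw [lifts_iff_coeff_lifts]
      intro i
      rw [coeff_map]
      exact (hK0 _).1 (hcoef i)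
    obtain ⟨P, hP⟩ := (mem_lifts _).1 hlift
    have hPdeg : P.natDegree = Ψ.natDegree := by
      rw [← natDegree_map (algebraMap ℚ_[p] (PadicAlgCl p)), hP, natDegree_map]
    have hP0 : P ≠ 0 := by
      intro h0
      rw [h0, Polynomial.map_zero] at hP
      exact hΨ ((Polynomial.map_eq_zero ι).1 hP.symm)
    have hy : aeval (ι x) P = 0 := by
      rw [← eval_map_algebraMap, hP, eval_map, eval₂_at_apply, hroot, map_zero]
    obtain ⟨τ, hτ⟩ := arEx_conj p (ι x) d P hP0 (by rw [hPdeg]; exact hdeg) hy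
      (by
        intro n h
        apply hval n
        rw [hnorm, map_sub, ← hd]
        exact h)
      (by
        intro h
        apply hne
        apply ι.injective
        rw [h, hd])
    obtain ⟨σ, hσ⟩ := arEx_sigma ι (τ : PadicAlgCl p ≃+* PadicAlgCl p)
    refine ⟨σ, ⟨τ, hσ⟩, ?_⟩
    have h1 : ι (σ x) = τ (ι x) := hσ x
    rw [hnorm, hnorm, map_sub, map_sub, h1, hτ, ← hd]
  · -- frob
    intro x hx hx1
    obtain ⟨q, hq⟩ := (hK0 x).1 hx
    rw [hnorm, ← hq, arEx_ext] at hx1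
    rw [hnorm, map_sub, map_pow, ← hq, ← map_pow, ← map_sub, arEx_ext]
    exact arEx_frob p q hx1
  · intro s hs
    exact ⟨(hK0 s).2 (hS s hs).1, (hS s hs).2⟩

end G2
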