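import Pool.Agent.Lib.MP_2eeeac_ag.G2.DetDefs
import Pool.Agent.Lib.MP_2eeeac_ag.G2.ANm

/-!
# Module DetDeg: degree and field of definition of the determinant

PROOF. `natDegree_Dgen`: say that `g : CR f` has weight `≤ n` if `2 natDegree g.re ≤ n` and
(`g.im = 0` or `2 natDegree g.im + 5 ≤ n`). Weights `≤ n` are stable under sums and negation, and
weights `≤ n`, `≤ m` give a product of weight `≤ n + m` (`f` has degree 5: for `im * im * f`:
`2(α + β + 5) = (2α + 5) + (2β + 5)`), and then `natDegree (nm g) ≤ n`. The entries of the first row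
of the matrix (`⟨X - C b, 0⟩`, …, `⟨0, 1⟩`) have weight `≤ 6`, those of the second row
(`⟨0, 2⟩`, `⟨0, 2((X-a)+(X-b))⟩`, `⟨0, 2(2(X-b)(X-a)+(X-a)²)⟩`, `⟨f', 0⟩`) weight `≤ 9`, the others `0`.
Use `Matrix.det_apply'` (sum over permutations of products of entries, one in each row; transpose
if necessary, `Matrix.det_transpose`): every product has weight `≤ 15`.
`Dgen_coeff_mem`: the elements `g : CR f` such that all coefficients of `g.re` and `g.im` are in `K0`
form a subring (products: `Polynomial.coeff_mul`, or use that they are the range of `CRmap` from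
`CR f₀`, `f₀ : K0[X]` with `f₀.map K0.subtype = f`, and `RingHom.map_det`); all the entries are in it,
so the determinant is, and so is `nm g = g.re² - f g.im²`.
-/

namespace G2

open Polynomial

section entries

variable {A : Type*} [CommRing A]

private theorem evRow_all {P : A → Prop} {a b x y : A} (h0 : P (x - b))
    (h1 : P ((x - b) * (x - a))) (h2 : P ((x - b) * (x - a) ^ 2)) (h3 : P y) :
    ∀ j, P (evRow a b x y j) := by
  intro j
  fin_cases j
  · exact h0
  · exact h1
  · exact h2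
  · exact h3

private theorem dRow_all {P : A → Prop} {a b x y d : A} (h0 : P (2 * y))
    (h1 : P (2 * y * ((x - a) + (x - b))))
    (h2 : P (2 * y * (2 * (x - b) * (x - a) + (x - a) ^ 2))) (h3 : P d) :
    ∀ j, P (dRow a b x y d j) := by
  intro j
  fin_cases j
  · exact h0
  · exact h1
  · exact h2
  · exact h3

private theorem Nmat_all {P : Fin 4 → A → Prop} {a b x₁ y₁ x₂ y₂ x y d : A}
    (h0 : ∀ j, P 0 (evRow a b x y j)) (h1 : ∀ j, P 1 (dRow a b x y d j))
    (h2 : ∀ j, P 2 (evRow a b x₁ (-y₁) j)) (h3 : ∀ j, P 3 (evRow a b x₂ (-y₂) j)) :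
    ∀ i j, P i (Nmat a b x₁ y₁ x₂ y₂ x y d i j) := by
  intro i j
  fin_cases i
  · exact h0 j
  · exact h1 j
  · exact h2 j
  · exact h3 j

end entries

variable {K : Type*} [Field K] {f : K[X]}

/-- `g` has weight at most `n`. -/
private def Wg (n : ℕ) (g : CR f) : Prop :=
  2 * g.re.natDegree ≤ n ∧ (g.im = 0 ∨ 2 * g.im.natDegree + 5 ≤ n)

private theorem Wg.mono {n m : ℕ} {g : CR f} (h : Wg n g) (hnm : n ≤ m) : Wg m g := by
  refine ⟨h.1.trans hnm, ?_⟩
  rcases h.2 with h2 | h2
  · exact Or.inl h2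
  · exact Or.inr (h2.trans hnm)

private theorem Wg.add {n : ℕ} {g h : CR f} (hg : Wg n g) (hh : Wg n h) : Wg n (g + h) := by
  constructor
  · rw [QuadraticAlgebra.re_add]
    have h1 := natDegree_add_le g.re h.re
    have h2 := hg.1
    have h3 := hh.1
    omega
  · rw [QuadraticAlgebra.im_add]
    rcases hg.2 with h1 | h1
    · rw [h1, zero_add]
      exact hh.2
    · rcases hh.2 with h2 | h2
      · rw [h2, add_zero]
        exact Or.inr h1
      · right
        have h3 := natDegree_add_le g.im h.im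
        omega

private theorem Wg.neg {n : ℕ} {g : CR f} (hg : Wg n g) : Wg n (-g) := by
  constructor
  · rw [QuadraticAlgebra.re_neg, natDegree_neg]
    exact hg.1
  · rw [QuadraticAlgebra.im_neg, natDegree_neg]
    rcases hg.2 with h1 | h1
    · exact Or.inl (by rw [h1, neg_zero])
    · exact Or.inr h1

private theorem Wg.sub {n : ℕ} {g h : CR f} (hg : Wg n g) (hh : Wg n h) : Wg n (g - h) := by
  rw [sub_eq_add_neg]
  exact hg.add hh.neg

private theorem Wg.zero (n : ℕ) : Wg n (0 : CR f) := by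
  constructor <;> simp

private theorem Wg.one : Wg 0 (1 : CR f) := by
  constructor
  · rw [QuadraticAlgebra.re_one, natDegree_one]
  · left
    rw [QuadraticAlgebra.im_one]

private theorem Wg.kst (c : K) : Wg 0 (G2.kst c : CR f) := by
  constructor
  · change 2 * (C c).natDegree ≤ 0
    rw [natDegree_C]
  · exact Or.inl rfl

private theorem Wg.two : Wg 0 (2 : CR f) := by
  have h : (2 : CR f) = 1 + 1 := by norm_num
  rw [h]
  exact Wg.one.add Wg.one

private theorem Wg.mul (hf : f.natDegree = 5) {n m : ℕ} {g h : CR f} (hg : Wg n g)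
    (hh : Wg m h) : Wg (n + m) (g * h) := by
  have a1 := hg.1
  have a2 := hh.1
  constructor
  · rw [QuadraticAlgebra.re_mul]
    have h1 : 2 * (g.re * h.re).natDegree ≤ n + m := by
      have := natDegree_mul_le (p := g.re) (q := h.re)
      omega
    have h2 : 2 * (f * g.im * h.im).natDegree ≤ n + m := by
      rcases hg.2 with h3 | h3
      · rw [h3]
        simp
      · rcases hh.2 with h4 | h4
        · rw [h4]
          simp
        · have h5 := natDegree_mul_le (p := f * g.im) (q := h.im)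
          have h6 := natDegree_mul_le (p := f) (q := g.im)
          omega
    have h3 := natDegree_add_le (g.re * h.re) (f * g.im * h.im)
    omega
  · rw [QuadraticAlgebra.im_mul, zero_mul, zero_mul, add_zero]
    have e1 : g.re * h.im = 0 ∨ 2 * (g.re * h.im).natDegree + 5 ≤ n + m := by
      rcases hh.2 with h4 | h4
      · left
        rw [h4, mul_zero]
      · right
        have := natDegree_mul_le (p := g.re) (q := h.im)
        omega
    have e2 : g.im * h.re = 0 ∨ 2 * (g.im * h.re).natDegree + 5 ≤ n + m := by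
      rcases hg.2 with h4 | h4
      · left
        rw [h4, zero_mul]
      · right
        have := natDegree_mul_le (p := g.im) (q := h.re)
        omega
    rcases e1 with h1 | h1
    · rw [h1, zero_add]
      exact e2
    · rcases e2 with h2 | h2
      · rw [h2, add_zero]
        exact Or.inr h1
      · right
        have h3 := natDegree_add_le (g.re * h.im) (g.im * h.re)
        omega

private theorem Wg.sum {ι : Type*} (s : Finset ι) (n : ℕ) (F : ι → CR f)
    (h : ∀ i ∈ s, Wg n (F i)) : Wg n (∑ i ∈ s, F i) := by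
  classical
  induction s using Finset.induction_on with
  | empty => rw [Finset.sum_empty]; exact Wg.zero n
  | insert a s ha ih =>
    rw [Finset.sum_insert ha]
    exact (h a (Finset.mem_insert_self a s)).add
      (ih fun i hi => h i (Finset.mem_insert_of_mem hi))

private theorem Wg.prod (hf : f.natDegree = 5) {ι : Type*} (s : Finset ι) (w : ι → ℕ)
    (F : ι → CR f) (h : ∀ i ∈ s, Wg (w i) (F i)) : Wg (∑ i ∈ s, w i) (∏ i ∈ s, F i) := by
  classical
  induction s using Finset.induction_on with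
  | empty => rw [Finset.prod_empty, Finset.sum_empty]; exact Wg.one
  | insert a s ha ih =>
    rw [Finset.prod_insert ha, Finset.sum_insert ha]
    exact (h a (Finset.mem_insert_self a s)).mul hf
      (ih fun i hi => h i (Finset.mem_insert_of_mem hi))

private theorem Wg.det (hf : f.natDegree = 5) (M : Matrix (Fin 4) (Fin 4) (CR f))
    (w : Fin 4 → ℕ) (h : ∀ i j, Wg (w i) (M i j)) : Wg (∑ i, w i) M.det := by
  rw [← Matrix.det_transpose, Matrix.det_apply']
  refine Wg.sum _ _ _ fun σ _ => ?_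
  have h1 : Wg (∑ i, w i) (∏ i, M.transpose (σ i) i) :=
    Wg.prod hf _ w _ fun i _ => h i (σ i)
  rcases Int.units_eq_one_or (Equiv.Perm.sign σ) with h2 | h2
  · rw [h2]
    simpa using h1
  · rw [h2]
    simpa using h1.neg

private theorem Wg.nm (hf : f.natDegree = 5) {n : ℕ} {g : CR f} (h : Wg n g) :
    (G2.nm g).natDegree ≤ n := by
  unfold G2.nm
  refine (natDegree_sub_le _ _).trans (max_le ?_ ?_)
  · have h1 := natDegree_pow_le (p := g.re) (n := 2)
    have h2 := h.1
    omega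
  · rcases h.2 with h3 | h3
    · rw [h3]
      simp
    · have h4 := natDegree_mul_le (p := f) (q := g.im ^ 2)
      have h5 := natDegree_pow_le (p := g.im) (n := 2)
      omega

theorem natDegree_Dgen (hf : f.natDegree = 5) (a b : K) (T₁ T₂ : APt f) :
    (nm (Dgen f a b T₁ T₂)).natDegree ≤ 15 := by
  have hX : Wg 2 (⟨X, 0⟩ : CR f) := ⟨by
    change 2 * (X : K[X]).natDegree ≤ 2
    have := natDegree_X_le (R := K)
    omega, Or.inl rfl⟩
  have hY : Wg 5 (⟨0, 1⟩ : CR f) := ⟨by
    change 2 * (0 : K[X]).natDegree ≤ 5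
    rw [natDegree_zero]
    norm_num, Or.inr (by
    change 2 * (1 : K[X]).natDegree + 5 ≤ 5
    rw [natDegree_one])⟩
  have hD : Wg 8 (⟨derivative f, 0⟩ : CR f) := ⟨by
    change 2 * (derivative f).natDegree ≤ 8
    have := natDegree_derivative_le f
    omega, Or.inl rfl⟩
  have hXc : ∀ c : K, Wg 2 ((⟨X, 0⟩ : CR f) - kst c) := fun c =>
    hX.sub ((Wg.kst c).mono (by norm_num))
  have h2 : Wg 0 (2 : CR f) := Wg.two
  have hk : ∀ c : K, Wg 0 (kst c : CR f) := Wg.kst
  have hrow : ∀ x₁ y₁ : K, ∀ j, Wg 0 (evRow (kst a : CR f) (kst b) (kst x₁) (-kst y₁) j) := by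
    intro x₁ y₁
    have e1 : Wg 0 ((kst x₁ : CR f) - kst b) := (hk x₁).sub (hk b)
    have e2 : Wg 0 ((kst x₁ : CR f) - kst a) := (hk x₁).sub (hk a)
    have e3 : Wg 0 (((kst x₁ : CR f) - kst a) ^ 2) := by
      rw [pow_two]
      exact e2.mul hf e2
    exact evRow_all e1 (e1.mul hf e2) (e1.mul hf e3) (hk y₁).neg
  have q1 := hXc a
  have q2 := hXc b
  have q3 : Wg 4 (((⟨X, 0⟩ : CR f) - kst a) ^ 2) := by
    rw [pow_two]
    exact q1.mul hf q1
  have q4 : Wg 5 (2 * (⟨0, 1⟩ : CR f)) := (h2.mul hf hY).mono (by norm_num)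
  have q5 : Wg 4 (2 * ((⟨X, 0⟩ : CR f) - kst b) * (⟨X, 0⟩ - kst a)) :=
    ((h2.mul hf q2).mul hf q1).mono (by norm_num)
  have r0 : ∀ j, Wg 6 (evRow (kst a : CR f) (kst b) ⟨X, 0⟩ ⟨0, 1⟩ j) :=
    evRow_all (q2.mono (by norm_num)) ((q2.mul hf q1).mono (by norm_num)) (q2.mul hf q3)
      (hY.mono (by norm_num))
  have r1 : ∀ j, Wg 9 (dRow (kst a : CR f) (kst b) ⟨X, 0⟩ ⟨0, 1⟩ ⟨derivative f, 0⟩ j) :=
    dRow_all (q4.mono (by norm_num)) ((q4.mul hf (q1.add q2)).mono (by norm_num))
      (q4.mul hf (q5.add q3)) (hD.mono (by norm_num))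
  have key : Wg (∑ i : Fin 4, ![6, 9, 0, 0] i) (Dgen f a b T₁ T₂) := by
    unfold Dgen
    exact Wg.det hf _ _ (Nmat_all (P := fun i g => Wg (![6, 9, 0, 0] i) g) r0 r1
      (hrow T₁.x T₁.y) (hrow T₂.x T₂.y))
  have h15 : (∑ i : Fin 4, ![6, 9, 0, 0] i) = 15 := by
    simp [Fin.sum_univ_four]
  rw [h15] at key
  exact key.nm hf

section coeff

variable (K0 : Subfield K)

private def Pc (p : K[X]) : Prop := ∀ n, p.coeff n ∈ K0

private theorem Pc.add {p q : K[X]} (hp : Pc K0 p) (hq : Pc K0 q) : Pc K0 (p + q) := by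
  intro n
  rw [coeff_add]
  exact K0.add_mem (hp n) (hq n)

private theorem Pc.neg {p : K[X]} (hp : Pc K0 p) : Pc K0 (-p) := by
  intro n
  rw [coeff_neg]
  exact K0.neg_mem (hp n)

private theorem Pc.mul {p q : K[X]} (hp : Pc K0 p) (hq : Pc K0 q) : Pc K0 (p * q) := by
  intro n
  rw [coeff_mul]
  exact K0.sum_mem fun x _ => K0.mul_mem (hp x.1) (hq x.2)

private theorem Pc.C {c : K} (hc : c ∈ K0) : Pc K0 (Polynomial.C c) := by
  intro n
  rw [coeff_C]
  split_ifs
  · exact hc
  · exact K0.zero_mem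

private theorem Pc.zero : Pc K0 (0 : K[X]) := fun n => by
  rw [coeff_zero]
  exact K0.zero_mem

private theorem Pc.one : Pc K0 (1 : K[X]) := by
  rw [← C_1]
  exact Pc.C K0 K0.one_mem

private theorem Pc.X : Pc K0 (Polynomial.X : K[X]) := by
  intro n
  rw [coeff_X]
  split_ifs
  · exact K0.one_mem
  · exact K0.zero_mem

private theorem Pc.deriv {p : K[X]} (hp : Pc K0 p) : Pc K0 (derivative p) := by
  intro n
  rw [coeff_derivative]
  refine K0.mul_mem (hp _) (K0.add_mem ?_ K0.one_mem)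
  exact natCast_mem K0 n

/-- The elements of the coordinate ring with coefficients in `K0`. -/
private def Sc (hf : Pc K0 f) : Subring (CR f) where
  carrier := {g | Pc K0 g.re ∧ Pc K0 g.im}
  mul_mem' := by
    rintro g h ⟨h1, h2⟩ ⟨h3, h4⟩
    constructor
    · rw [QuadraticAlgebra.re_mul]
      exact (h1.mul K0 h3).add K0 ((hf.mul K0 h2).mul K0 h4)
    · rw [QuadraticAlgebra.im_mul, zero_mul, zero_mul, add_zero]
      exact (h1.mul K0 h4).add K0 (h2.mul K0 h3)
  one_mem' := by
    constructor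
    · rw [QuadraticAlgebra.re_one]
      exact Pc.one K0
    · rw [QuadraticAlgebra.im_one]
      exact Pc.zero K0
  add_mem' := by
    rintro g h ⟨h1, h2⟩ ⟨h3, h4⟩
    constructor
    · rw [QuadraticAlgebra.re_add]
      exact h1.add K0 h3
    · rw [QuadraticAlgebra.im_add]
      exact h2.add K0 h4
  zero_mem' := by
    constructor
    · rw [QuadraticAlgebra.re_zero]
      exact Pc.zero K0
    · rw [QuadraticAlgebra.im_zero]
      exact Pc.zero K0
  neg_mem' := by
    rintro g ⟨h1, h2⟩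
    constructor
    · rw [QuadraticAlgebra.re_neg]
      exact h1.neg K0
    · rw [QuadraticAlgebra.im_neg]
      exact h2.neg K0

private theorem det_mem (S : Subring (CR f)) (M : Matrix (Fin 4) (Fin 4) (CR f))
    (h : ∀ i j, M i j ∈ S) : M.det ∈ S := by
  rw [Matrix.det_apply']
  exact S.sum_mem fun σ _ => S.mul_mem (intCast_mem S _) (S.prod_mem fun i _ => h _ _)

end coeff

theorem Dgen_coeff_mem (K0 : Subfield K) (hf : ∀ n, f.coeff n ∈ K0) (a b : K) (ha : a ∈ K0)
    (hb : b ∈ K0) (T₁ T₂ : APt f) (h₁ : T₁.x ∈ K0) (h₁' : T₁.y ∈ K0) (h₂ : T₂.x ∈ K0)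
    (h₂' : T₂.y ∈ K0) (n : ℕ) : (nm (Dgen f a b T₁ T₂)).coeff n ∈ K0 := by
  have hf' : Pc K0 f := hf
  set S := Sc K0 hf' with hS
  have hk : ∀ c : K, c ∈ K0 → (kst c : CR f) ∈ S := fun c hc => ⟨Pc.C K0 hc, Pc.zero K0⟩
  have hX : (⟨X, 0⟩ : CR f) ∈ S := ⟨Pc.X K0, Pc.zero K0⟩
  have hY : (⟨0, 1⟩ : CR f) ∈ S := ⟨Pc.zero K0, Pc.one K0⟩
  have hD : (⟨derivative f, 0⟩ : CR f) ∈ S := ⟨hf'.deriv K0, Pc.zero K0⟩
  have h2 : (2 : CR f) ∈ S := by
    have h : (2 : CR f) = 1 + 1 := by norm_num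
    rw [h]
    exact S.add_mem S.one_mem S.one_mem
  have hrow : ∀ x y : CR f, x ∈ S → y ∈ S → ∀ j, evRow (kst a : CR f) (kst b) x y j ∈ S := by
    intro x y hx hy
    have e1 : x - kst b ∈ S := S.sub_mem hx (hk b hb)
    have e2 : x - kst a ∈ S := S.sub_mem hx (hk a ha)
    exact evRow_all (P := fun g => g ∈ S) e1 (S.mul_mem e1 e2) (S.mul_mem e1 (S.pow_mem e2 2)) hy
  have e1 : (⟨X, 0⟩ : CR f) - kst b ∈ S := S.sub_mem hX (hk b hb)
  have e2 : (⟨X, 0⟩ : CR f) - kst a ∈ S := S.sub_mem hX (hk a ha)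
  have e3 := S.mul_mem h2 hY
  have r1 : ∀ j, dRow (kst a : CR f) (kst b) ⟨X, 0⟩ ⟨0, 1⟩ ⟨derivative f, 0⟩ j ∈ S :=
    dRow_all (P := fun g => g ∈ S) e3 (S.mul_mem e3 (S.add_mem e2 e1))
      (S.mul_mem e3 (S.add_mem (S.mul_mem (S.mul_mem h2 e1) e2) (S.pow_mem e2 2))) hD
  have key : Dgen f a b T₁ T₂ ∈ S := by
    unfold Dgen
    exact det_mem S _ (Nmat_all (P := fun _ g => g ∈ S) (hrow _ _ hX hY) r1
      (hrow _ _ (hk _ h₁) (S.neg_mem (hk _ h₁'))) (hrow _ _ (hk _ h₂) (S.neg_mem (hk _ h₂'))))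
  have hfin : Pc K0 (nm (Dgen f a b T₁ T₂)) := by
    unfold nm
    rw [sub_eq_add_neg, pow_two, pow_two]
    exact (key.1.mul K0 key.1).add K0 ((hf'.mul K0 (key.2.mul K0 key.2)).neg K0)
  exact hfin n

end G2
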