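import Pool.Agent.Lib.MP_2eeeac_ag.G2.Defs

/-!
# Elementary properties of the definitions; functoriality of the Picard group
-/

namespace G2

open Polynomial

variable {A B : Type*} [CommRing A] [CommRing B] {F : A[X]} {F' : B[X]}

/-- evaluation at a point -/
noncomputable def ev (P : APt F) : CR F →+* A where
  toFun g := g.re.eval P.x + g.im.eval P.x * P.y
  map_one' := by simp [QuadraticAlgebra.re_one, QuadraticAlgebra.im_one]
  map_zero' := by simp
  map_add' g h := by simp; ring
  map_mul' g h := by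
    simp only [QuadraticAlgebra.re_mul, QuadraticAlgebra.im_mul, eval_add, eval_mul, eval_zero]
    have := P.eq
    linear_combination (-(g.im.eval P.x) * (h.im.eval P.x)) * this

lemma ev_apply (P : APt F) (g : CR F) : ev P g = g.re.eval P.x + g.im.eval P.x * P.y := rfl

/-- `𝔪_P` is the kernel of the evaluation at `P`. -/
theorem mem_m_iff (P : APt F) (g : CR F) : g ∈ P.m ↔ g.re.eval P.x + g.im.eval P.x * P.y = 0 := by
  constructor
  · intro h
    change ev P g = 0
    have h1 : P.m ≤ RingHom.ker (ev P) := by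
      rw [APt.m, Ideal.span_le]
      intro z hz
      rcases hz with rfl | rfl
      · simp [RingHom.mem_ker, ev_apply]
      · simp [RingHom.mem_ker, ev_apply]
    exact h1 h
  · intro h
    have key : ∀ p : A[X], (⟨p, 0⟩ : CR F) - ⟨C (p.eval P.x), 0⟩ ∈ P.m := by
      intro p
      have h1 : (X - C P.x) ∣ p - C (p.eval P.x) := by
        rw [dvd_iff_isRoot]
        simp
      obtain ⟨q, hq⟩ := h1
      have h2 : (⟨p, 0⟩ : CR F) - ⟨C (p.eval P.x), 0⟩ = ⟨q, 0⟩ * ⟨X - C P.x, 0⟩ := by
        ext1
        · simp [hq, mul_comm]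
        · simp
      rw [h2]
      exact Ideal.mul_mem_left _ _ (Ideal.subset_span (by simp))
    have hy : (⟨-C P.y, 1⟩ : CR F) ∈ P.m := Ideal.subset_span (by simp)
    have e : g = ((⟨g.re, 0⟩ : CR F) - ⟨C (g.re.eval P.x), 0⟩)
        + ((⟨g.im, 0⟩ : CR F) - ⟨C (g.im.eval P.x), 0⟩) * ⟨0, 1⟩
        + ⟨C (g.im.eval P.x), 0⟩ * ⟨-C P.y, 1⟩ := by
      ext1
      · simp only [QuadraticAlgebra.re_add, QuadraticAlgebra.re_sub, QuadraticAlgebra.re_mul,
          QuadraticAlgebra.im_sub]
        have h3 : C (g.re.eval P.x) + C (g.im.eval P.x) * C P.y = (0 : A[X]) := by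
          rw [← C_mul, ← C_add, h, C_0]
        linear_combination h3
      · simp
    rw [e]
    exact Ideal.add_mem _ (Ideal.add_mem _ (key _) (Ideal.mul_mem_right _ _ (key _)))
      (Ideal.mul_mem_left _ _ hy)

theorem m_map (φ : A →+* B) (h : F.map φ = F') (P : APt F) :
    P.m.map (CRmap φ h) = (P.map φ h).m := by
  rw [APt.m, APt.m, Ideal.map_span, Set.image_pair]
  congr 2
  · ext1 <;> simp
  · congr 1
    ext1 <;> simp

lemma Mprod_zero : Mprod (0 : Multiset (APt F)) = ⊤ := by
  simp [Mprod]

lemma Mprod_cons (P : APt F) (s : Multiset (APt F)) : Mprod (P ::ₘ s) = P.m * Mprod s := by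
  simp [Mprod]

lemma Mprod_add (s t : Multiset (APt F)) : Mprod (s + t) = Mprod s * Mprod t := by
  simp [Mprod]

theorem Mprod_map (φ : A →+* B) (h : F.map φ = F') (s : Multiset (APt F)) :
    (Mprod s).map (CRmap φ h) = Mprod (s.map (APt.map φ h)) := by
  induction s using Multiset.induction with
  | empty => rw [Multiset.map_zero, Mprod_zero, Mprod_zero, Ideal.map_top]
  | cons P s ih => rw [Multiset.map_cons, Mprod_cons, Mprod_cons, Ideal.map_mul, ih, m_map]

lemma divOf_zero : divOf (0 : Multiset (APt F)) = 0 := by simp [divOf]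

lemma divOf_cons (P : APt F) (s : Multiset (APt F)) :
    divOf (P ::ₘ s) = (Finsupp.single (some P) 1 - Finsupp.single none 1) + divOf s := by
  simp [divOf]

lemma divOf_add (s t : Multiset (APt F)) : divOf (s + t) = divOf s + divOf t := by
  simp [divOf]

/-- the pushforward of divisors -/
noncomputable def dvMap (φ : A →+* B) (h : F.map φ = F') : Dv F →+ Dv F' :=
  Finsupp.mapDomain.addMonoidHom (HPt.map φ h)

@[simp] lemma dvMap_single (φ : A →+* B) (h : F.map φ = F') (P : HPt F) (n : ℤ) :
    dvMap φ h (Finsupp.single P n) = Finsupp.single (HPt.map φ h P) n := by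
  simp [dvMap]

theorem dvMap_divOf (φ : A →+* B) (h : F.map φ = F') (s : Multiset (APt F)) :
    dvMap φ h (divOf s) = divOf (s.map (APt.map φ h)) := by
  induction s using Multiset.induction with
  | empty => rw [Multiset.map_zero, divOf_zero, divOf_zero, map_zero]
  | cons P s ih =>
    rw [Multiset.map_cons, divOf_cons, divOf_cons, map_add, ih, map_sub, dvMap_single,
      dvMap_single]
    rfl

theorem dvMap_mem (φ : A →+* B) (h : F.map φ = F') :
    PrinDiv F ≤ (PrinDiv F').comap (dvMap φ h) := by
  rw [PrinDiv, AddSubgroup.closure_le]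
  rintro D ⟨s, g, hg, rfl⟩
  refine AddSubgroup.subset_closure ⟨s.map (APt.map φ h), CRmap φ h g, ?_, dvMap_divOf φ h s⟩
  rw [← Mprod_map, hg, Ideal.map_span, Set.image_singleton]

/-- The homomorphism of Picard groups induced by a homomorphism of the ground rings. -/
noncomputable def picMap (φ : A →+* B) (h : F.map φ = F') : Pic F →+ Pic F' :=
  QuotientAddGroup.map _ _ (dvMap φ h) (dvMap_mem φ h)

@[simp] lemma picMap_cls (φ : A →+* B) (h : F.map φ = F') (D : Dv F) :
    picMap φ h (cls D) = cls (dvMap φ h D) := rfl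

@[simp] lemma picMap_v (φ : A →+* B) (h : F.map φ = F') (P : HPt F) :
    picMap φ h (v P) = v (HPt.map φ h P) := by
  rw [v, picMap_cls, map_sub, dvMap_single, dvMap_single]
  rfl

@[simp] lemma v_none : v (none : HPt F) = 0 := by
  rw [v, sub_self]
  rfl

lemma cls_add (D E : Dv F) : cls (D + E) = cls D + cls E := rfl
lemma cls_sub (D E : Dv F) : cls (D - E) = cls D - cls E := rfl
lemma cls_neg (D : Dv F) : cls (-D) = -cls D := rfl
lemma cls_zsmul (n : ℤ) (D : Dv F) : cls (n • D) = n • cls D := rfl
lemma cls_nsmul (n : ℕ) (D : Dv F) : cls (n • D) = n • cls D := rfl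

lemma cls_eq_zero_iff (D : Dv F) : cls D = 0 ↔ D ∈ PrinDiv F := by
  rw [cls]
  exact QuotientAddGroup.eq_zero_iff D

lemma cls_divOf (s : Multiset (APt F)) : cls (divOf s) = (s.map fun P => v (some P)).sum := by
  induction s using Multiset.induction with
  | empty => rw [divOf_zero]; simp; rfl
  | cons P s ih => rw [divOf_cons, cls_add, ih, Multiset.map_cons, Multiset.sum_cons]; rfl

end G2
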