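import Pool.Agent.Lib.MP_2eeeac_ag.G2.BRoot
import Pool.Agent.Lib.MP_2eeeac_ag.G2.Fun

/-!
# Module BZL: lifting of zeros

PROOF. Let `N = nm G = G.re² - F G.im² ∈ O[X]`, `N.map res = nm (CRmap res _ G) ≠ 0` (`CRmap_nm`).
Over `K` (algebraically closed) `N.map O.subtype = C c * ∏ (X - a_i)` (`IsAlgClosed.splits`). By
`rootRed`, `x₀` is a root of `C c' ∏ (X - a)` over the integral part, `c' ≠ 0`, so `x₀ = res X₀`
for some integral root `X₀ = a_i` of `N` (`Multiset.mem_filterMap`, `redK`). Let `y ∈ K` with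
`y² = F(X₀)`; `y` is integral over `O`, so in `O` (or: `y ∈ O` or `y⁻¹ ∈ O`, and
`y = y² y⁻¹`). `0 = N(X₀) = (re(X₀) + im(X₀) y)(re(X₀) - im(X₀) y)`, so one of `Y₀ = ± y` works.
-/

namespace G2

open Polynomial

theorem zero_lift {K κ : Type*} [Field K] [IsAlgClosed K] [Field κ]
    (O : ValuationSubring K) (res : O →+* κ) (hres : Function.Surjective res)
    (F : O[X]) (f' : κ[X]) (hf' : F.map res = f') (G : CR F)
    (hG : nm (CRmap res hf' G) ≠ 0) (x₀ : κ) (h₀ : (nm (CRmap res hf' G)).eval x₀ = 0) :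
    ∃ X₀ Y₀ : O, res X₀ = x₀ ∧ Y₀ ^ 2 = F.eval X₀ ∧
      G.re.eval X₀ + G.im.eval X₀ * Y₀ = 0 := by
  have hNr : (nm G).map res = nm (CRmap res hf' G) := (CRmap_nm res hf' G).symm
  have hsp := (IsAlgClosed.splits ((nm G).map O.subtype)).eq_prod_roots
  obtain ⟨c', hc', hc⟩ := rootRed O res hres (nm G) (by rw [hNr]; exact hG) _ _ hsp
  rw [← hNr, hc, eval_mul, eval_C, eval_multiset_prod, Multiset.map_map] at h₀
  have h1 := (mul_eq_zero.1 h₀).resolve_left hc'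
  rw [Multiset.prod_eq_zero_iff, Multiset.mem_map] at h1
  obtain ⟨b, hb, hb0⟩ := h1
  simp only [Function.comp, eval_sub, eval_X, eval_C] at hb0
  rw [Multiset.mem_filterMap] at hb
  obtain ⟨a, ha, hab⟩ := hb
  have haO : a ∈ O := by
    by_contra hcon
    rw [redK, dif_neg hcon] at hab
    simp at hab
  rw [redK, dif_pos haO] at hab
  have hres0 : res ⟨a, haO⟩ = x₀ := by
    rw [Option.some.inj hab]
    exact (sub_eq_zero.1 hb0).symm
  obtain ⟨y, hy⟩ := IsAlgClosed.exists_pow_nat_eq ((F.map O.subtype).eval a) (n := 2) (by norm_num)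
  have hyO : y ∈ O := y_mem O F _ rfl (⟨a, y, hy⟩ : APt (F.map O.subtype)) haO
  have hroot : (nm G).eval (⟨a, haO⟩ : O) = 0 := by
    apply Subtype.ext
    have h3 := (mem_roots'.1 ha).2
    rw [IsRoot.def, eval_eq_O O (nm G) _ rfl a haO] at h3
    exact h3
  have hyF : (⟨y, hyO⟩ : O) ^ 2 = F.eval (⟨a, haO⟩ : O) := by
    apply Subtype.ext
    have h3 := hy
    rw [eval_eq_O O F _ rfl a haO] at h3
    exact h3
  have hprod : (G.re.eval (⟨a, haO⟩ : O) + G.im.eval (⟨a, haO⟩ : O) * ⟨y, hyO⟩)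
      * (G.re.eval (⟨a, haO⟩ : O) + G.im.eval (⟨a, haO⟩ : O) * (-⟨y, hyO⟩)) = 0 := by
    rw [nm, eval_sub, eval_mul, eval_pow, eval_pow, ← hyF] at hroot
    linear_combination hroot
  rcases mul_eq_zero.1 hprod with h | h
  · exact ⟨⟨a, haO⟩, ⟨y, hyO⟩, hres0, hyF, h⟩
  · exact ⟨⟨a, haO⟩, -⟨y, hyO⟩, hres0, by rw [neg_sq]; exact hyF, h⟩

end G2
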