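import Pool.Agent.Lib.MP_2eeeac_ag.G2.NDefs

/-!
# Module NBas: basic facts on good reduction and on points close to `W_i`
-/

namespace G2

open Polynomial

theorem rf_algClosed (K : Type*) [NormedField K] [IsUltrametricDist K] [IsAlgClosed K] :
    IsAlgClosed (RF K) := by
  apply IsAlgClosed.of_exists_root
  intro p hp hirr
  have hlift : p ∈ Polynomial.lifts (rs K) := by
    rw [Polynomial.mem_lifts]
    exact Polynomial.map_surjective (rs K) rs_surj p
  obtain ⟨q, hq, hdeg, hmon⟩ := Polynomial.lifts_and_natDegree_eq_and_monic hlift hp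
  have hqd : (q.map (algebraMap (VR K) K)).degree ≠ 0 := by
    rw [hmon.degree_map]
    have h1 : p.natDegree ≠ 0 := hirr.natDegree_pos.ne'
    intro h2
    apply h1
    rw [← hdeg]
    exact natDegree_eq_of_degree_eq_some h2
  obtain ⟨x, hx⟩ := IsAlgClosed.exists_root _ hqd
  have hint : IsIntegral (VR K) x := ⟨q, hmon, by
    have hx' := hx.eq_zero
    rw [eval_map] at hx'
    exact hx'⟩
  obtain ⟨y, hy⟩ := IsIntegrallyClosed.isIntegral_iff.1 hint
  refine ⟨rs K y, ?_⟩
  have hy0 : q.eval y = 0 := by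
    have h3 : (algebraMap (VR K) K) (q.eval y) = 0 := by
      rw [← eval₂_at_apply, hy, ← eval_map]
      exact hx.eq_zero
    exact (FaithfulSMul.algebraMap_injective (VR K) K) (by rw [h3, map_zero])
  rw [← hq, eval_map, eval₂_at_apply, hy0, map_zero]

section

variable {K : Type*} [NormedField K] [IsUltrametricDist K] {f : K[X]} {e : Fin 5 → K}

omit [IsUltrametricDist K] in
private lemma NBas_inj (hg : Good f e) : Function.Injective e := by
  intro i j hij
  by_contra hne
  have := hg.sep i j hne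
  rw [hij, sub_self, norm_zero] at this
  exact zero_ne_one this

private lemma NBas_quintic {L : Type*} [Field L] (c : Fin 5 → L) (hc : Function.Injective c)
    (h2 : (2 : L) ≠ 0) : Quintic (∏ i, (X - C (c i))) := by
  refine ⟨?_, ?_, ?_, h2⟩
  · exact monic_prod_of_monic _ _ fun i _ => monic_X_sub_C _
  · rw [natDegree_prod_of_monic _ _ fun i _ => monic_X_sub_C _]
    simp
  · exact separable_prod_X_sub_C_iff.2 hc

omit [IsUltrametricDist K] in
theorem Good.quintic (hg : Good f e) : Quintic f := by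
  have h2 : (2 : K) ≠ 0 := by
    intro h
    have := hg.two
    rw [h, norm_zero] at this
    exact zero_ne_one this
  have := NBas_quintic e (NBas_inj hg) h2
  rwa [← hg.prod] at this

theorem Good.quintic_bar (hg : Good f e) : Quintic (fbar hg) := by
  rw [fbar_eq]
  apply NBas_quintic
  · intro i j hij
    by_contra hne
    have h1 : rs K (⟨e i, (mem_VR _).2 (hg.le i)⟩ - ⟨e j, (mem_VR _).2 (hg.le j)⟩) = 0 := by
      rw [map_sub]
      exact sub_eq_zero.2 hij
    rw [rs_eq_zero] at h1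
    have h3 := hg.sep i j hne
    have h4 : ‖e i - e j‖ < 1 := h1
    linarith
  · intro h
    have h1 : rs K (2 : VR K) = 0 := by rw [map_ofNat]; exact h
    rw [rs_eq_zero] at h1
    have h4 : ‖(2 : K)‖ < 1 := h1
    have h3 := hg.two
    linarith

private lemma NBas_other (hg : Good f e) {i j : Fin 5} (hij : j ≠ i) (x : K)
    (h : ‖x - e i‖ < 1) : ‖x - e j‖ = 1 := by
  have h1 : ‖e i - e j‖ = 1 := hg.sep i j hij.symm
  have h2 : x - e j = (x - e i) + (e i - e j) := by ring
  rw [h2, IsUltrametricDist.norm_add_eq_max_of_norm_ne_norm (by rw [h1]; exact h.ne), h1]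
  exact max_eq_right h.le

theorem near_norm (hg : Good f e) (i : Fin 5) (P : APt f) (h : ‖P.x - e i‖ < 1) :
    ‖P.x - e i‖ = ‖P.y‖ ^ 2 := by
  have h1 : ‖P.y‖ ^ 2 = ∏ l, ‖P.x - e l‖ := by
    have h0 : f.eval P.x = (∏ i, (X - C (e i))).eval P.x :=
      congrArg (fun q : K[X] => q.eval P.x) hg.prod
    rw [← norm_pow, P.eq, h0, eval_prod, norm_prod]
    apply Finset.prod_congr rfl
    intro l _
    rw [eval_sub, eval_X, eval_C]
  rw [h1, Finset.prod_eq_single i]
  · intro l _ hl
    exact NBas_other hg hl P.x h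
  · intro hi
    exact absurd (Finset.mem_univ i) hi

theorem near_y_lt (hg : Good f e) (i : Fin 5) (P : APt f) (h : ‖P.x - e i‖ < 1) :
    ‖P.y‖ < 1 := by
  have h1 := near_norm hg i P h
  by_contra h2
  have h3 : 1 ≤ ‖P.y‖ := not_lt.1 h2
  have h4 : 1 ≤ ‖P.y‖ ^ 2 := one_le_pow₀ h3
  linarith

theorem near_excl (hg : Good f e) {i j : Fin 5} (hij : i ≠ j) (x : K) (h : ‖x - e i‖ < 1)
    (h' : ‖x - e j‖ < 1) : False := by
  have := NBas_other hg hij.symm x h
  linarith

/-- the reduction of an integral point -/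
private noncomputable def NBasPt (hg : Good f e) (P : APt f) (hx : P.x ∈ VR K) : APt (fbar hg) :=
  (toO (VR K) (FO hg) f (FO_map hg) P hx).map (rs K) rfl

private lemma NBas_pt_x (hg : Good f e) (P : APt f) (hx : P.x ∈ VR K) :
    (NBasPt hg P hx).x = rs K ⟨P.x, hx⟩ := rfl

private lemma NBas_pt_y (hg : Good f e) (P : APt f) (hx : P.x ∈ VR K) :
    (NBasPt hg P hx).y = rs K ⟨P.y, y_mem (VR K) (FO hg) f (FO_map hg) P hx⟩ := rfl

private lemma NBas_red (hg : Good f e) (P : APt f) (hx : P.x ∈ VR K) :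
    redN hg (some P) = some (NBasPt hg P hx) := dif_pos hx

private lemma NBas_red_none (hg : Good f e) (P : APt f) (hx : P.x ∉ VR K) :
    redN hg (some P) = none := dif_neg hx

private lemma NBas_Wx (hg : Good f e) (i : Fin 5) : (Wp hg i).x ∈ VR K :=
  (mem_VR _).2 (hg.le i)

theorem red_W_ne_none (hg : Good f e) (i : Fin 5) : redN hg (some (Wp hg i)) ≠ none := by
  rw [NBas_red hg _ (NBas_Wx hg i)]
  exact Option.some_ne_none _

theorem red_W_neg (hg : Good f e) (i : Fin 5) :
    HPt.neg (redN hg (some (Wp hg i))) = redN hg (some (Wp hg i)) := by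
  rw [NBas_red hg _ (NBas_Wx hg i)]
  change some (APt.neg _) = _
  congr 1
  ext
  · rfl
  · rw [APt.neg_y, NBas_pt_y]
    have h0 : (⟨(Wp hg i).y, y_mem (VR K) (FO hg) f (FO_map hg) (Wp hg i) (NBas_Wx hg i)⟩ :
        VR K) = 0 := rfl
    rw [h0, map_zero, neg_zero]

theorem red_W_ne (hg : Good f e) {i j : Fin 5} (hij : i ≠ j) :
    redN hg (some (Wp hg i)) ≠ redN hg (some (Wp hg j)) := by
  rw [NBas_red hg _ (NBas_Wx hg i), NBas_red hg _ (NBas_Wx hg j)]
  intro h
  have h1 := congrArg APt.x (Option.some.inj h)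
  rw [NBas_pt_x, NBas_pt_x] at h1
  have h2 : rs K ((⟨(Wp hg i).x, NBas_Wx hg i⟩ : VR K) - ⟨(Wp hg j).x, NBas_Wx hg j⟩) = 0 := by
    rw [map_sub, h1, sub_self]
  rw [rs_eq_zero] at h2
  have h3 : ‖e i - e j‖ < 1 := h2
  have h4 := hg.sep i j hij
  linarith

theorem redN_eq_iff (hg : Good f e) (i : Fin 5) (T : HPt f) :
    redN hg T = redN hg (some (Wp hg i)) ↔ NearH (e i) T := by
  constructor
  · intro h
    cases T with
    | none => exact absurd h.symm (red_W_ne_none hg i)
    | some P =>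
      by_cases hx : P.x ∈ VR K
      · refine ⟨P, rfl, ?_⟩
        rw [NBas_red hg _ hx, NBas_red hg _ (NBas_Wx hg i)] at h
        have h1 := congrArg APt.x (Option.some.inj h)
        rw [NBas_pt_x, NBas_pt_x] at h1
        have h2 : rs K ((⟨P.x, hx⟩ : VR K) - ⟨(Wp hg i).x, NBas_Wx hg i⟩) = 0 := by
          rw [map_sub, h1, sub_self]
        rw [rs_eq_zero] at h2
        exact h2
      · rw [NBas_red_none hg P hx] at h
        exact absurd h.symm (red_W_ne_none hg i)
  · rintro ⟨P, rfl, hP⟩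
    have hx : P.x ∈ VR K := by
      rw [mem_VR]
      have h1 : P.x = (P.x - e i) + e i := by ring
      rw [h1]
      exact (IsUltrametricDist.norm_add_le_max _ _).trans (max_le hP.le (hg.le i))
    rw [NBas_red hg _ hx, NBas_red hg _ (NBas_Wx hg i)]
    congr 1
    ext
    · rw [NBas_pt_x, NBas_pt_x, ← sub_eq_zero, ← map_sub, rs_eq_zero]
      exact hP
    · rw [NBas_pt_y, NBas_pt_y, ← sub_eq_zero, ← map_sub, rs_eq_zero]
      change ‖P.y - 0‖ < 1
      rw [sub_zero]
      exact near_y_lt hg i P hP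

end

end G2
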