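import Pool.Agent.Lib.MP_2eeeac_ag.G2.NDefs

/-!
# Rescaling of the curve near a Weierstrass point

`x = e_i + l² X`, `y = l Y`: the equation `y² = f(x)` becomes `Y² = F₀(X)`,
`F₀ = X * ∏_{m ≠ i} (l² X + e_i - e_m)`.
-/

namespace G2

open Polynomial

namespace Scal

variable {K : Type*} [NormedField K] [IsUltrametricDist K] {f : K[X]} {e : Fin 5 → K}

/-- `e_i` in the valuation ring -/
noncomputable def eO (hg : Good f e) (i : Fin 5) : VR K := ⟨e i, (mem_VR _).2 (hg.le i)⟩

lemma coe_eO (hg : Good f e) (i : Fin 5) : ((eO hg i : VR K) : K) = e i := rfl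

lemma FO_eq (hg : Good f e) : FO hg = ∏ i, (X - C (eO hg i)) := rfl

/-- the rescaled polynomial over the valuation ring -/
noncomputable def F0 (hg : Good f e) (i : Fin 5) (l : VR K) : (VR K)[X] :=
  X * ∏ m ∈ Finset.univ.erase i, (C (l ^ 2) * X + C (eO hg i - eO hg m))

/-- the product of the differences -/
noncomputable def ph (hg : Good f e) (i : Fin 5) : VR K :=
  ∏ m ∈ Finset.univ.erase i, (eO hg i - eO hg m)

/-- the rescaled polynomial over the field -/
noncomputable def F1 (hg : Good f e) (i : Fin 5) (l : VR K) : K[X] :=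
  (F0 hg i l).map (VR K).subtype

lemma FO_comp (hg : Good f e) (i : Fin 5) (l : VR K) :
    (FO hg).comp (C (l ^ 2) * X + C (eO hg i)) = C (l ^ 2) * F0 hg i l := by
  rw [FO_eq, prod_comp, ← Finset.mul_prod_erase _ _ (Finset.mem_univ i), F0]
  have h1 : (X - C (eO hg i)).comp (C (l ^ 2) * X + C (eO hg i)) = C (l ^ 2) * X := by
    simp
  rw [h1, mul_assoc]
  congr 2
  refine Finset.prod_congr rfl fun m _ => ?_
  simp only [sub_comp, X_comp, C_comp, C_sub]
  ring

lemma f_comp (hg : Good f e) (i : Fin 5) (l : VR K) :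
    f.comp (C ((l : K) ^ 2) * X + C (e i)) = C ((l : K) ^ 2) * F1 hg i l := by
  have h := congrArg (Polynomial.map (VR K).subtype) (FO_comp hg i l)
  rw [Polynomial.map_comp, FO_map, Polynomial.map_mul, Polynomial.map_C] at h
  simpa [coe_eO, F1] using h

/-- the substitution `x = e_i + l² X`, `y = l Y` -/
noncomputable def S (hg : Good f e) (i : Fin 5) (l : VR K) : CR f →+* CR (F1 hg i l) where
  toFun g := ⟨g.re.comp (C ((l : K) ^ 2) * X + C (e i)),
    C (l : K) * g.im.comp (C ((l : K) ^ 2) * X + C (e i))⟩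
  map_one' := by
    ext1 <;> simp [QuadraticAlgebra.re_one, QuadraticAlgebra.im_one]
  map_zero' := by ext1 <;> simp
  map_add' g h := by
    ext1
    · simp
    · simp [mul_add]
  map_mul' g h := by
    have hf := f_comp hg i l
    ext1
    · simp only [QuadraticAlgebra.re_mul, add_comp, mul_comp, hf]
      rw [show C ((l : K) ^ 2) = C (l : K) * C (l : K) by rw [← C_mul, sq]]
      ring
    · simp only [QuadraticAlgebra.im_mul, add_comp, mul_comp, zero_mul, add_zero]
      ring

lemma S_re (hg : Good f e) (i : Fin 5) (l : VR K) (g : CR f) :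
    (S hg i l g).re = g.re.comp (C ((l : K) ^ 2) * X + C (e i)) := rfl

lemma S_im (hg : Good f e) (i : Fin 5) (l : VR K) (g : CR f) :
    (S hg i l g).im = C (l : K) * g.im.comp (C ((l : K) ^ 2) * X + C (e i)) := rfl

lemma F1_eval (hg : Good f e) (i : Fin 5) (l : VR K) (x : VR K) :
    (F1 hg i l).eval (x : K) = ((F0 hg i l).eval x : VR K) := by
  rw [F1]
  change (((F0 hg i l).map (VR K).subtype)).eval ((VR K).subtype x) = _
  rw [eval_map, eval₂_at_apply]
  rfl

lemma f_eval (hg : Good f e) (i : Fin 5) (l : VR K) (x : VR K) :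
    f.eval (e i + (l : K) ^ 2 * x) = (l : K) ^ 2 * ((F0 hg i l).eval x : VR K) := by
  have h := congrArg (Polynomial.eval (x : K)) (f_comp hg i l)
  rw [eval_comp] at h
  simp only [eval_add, eval_mul, eval_C, eval_X, F1_eval] at h
  rw [add_comm] at h
  exact h

/-- an integral point in the new coordinates -/
lemma point_O (hg : Good f e) (i : Fin 5) (l : VR K) (hl : (l : K) ≠ 0) (P : APt f) (x y : VR K)
    (hx : P.x = e i + (l : K) ^ 2 * x) (hy : P.y = (l : K) * y) :
    y ^ 2 = (F0 hg i l).eval x := by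
  have h1 := P.eq
  rw [hx, hy, f_eval hg i l x, mul_pow] at h1
  have h2 := mul_left_cancel₀ (pow_ne_zero 2 hl) h1
  exact Subtype.ext (by simpa using h2)

/-- and back -/
lemma point_K (hg : Good f e) (i : Fin 5) (l : VR K) (x y : VR K)
    (h : y ^ 2 = (F0 hg i l).eval x) :
    ((l : K) * y) ^ 2 = f.eval (e i + (l : K) ^ 2 * x) := by
  rw [f_eval hg i l x, ← h, mul_pow]
  simp

lemma F0_map {T : Type*} [CommRing T] (hg : Good f e) (i : Fin 5) (l : VR K) (φ : VR K →+* T)
    (h : φ (l ^ 2) = 0) : (F0 hg i l).map φ = C (φ (ph hg i)) * X := by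
  rw [F0, Polynomial.map_mul, Polynomial.map_X, Polynomial.map_prod, mul_comm, ph, map_prod,
    map_prod]
  congr 1
  refine Finset.prod_congr rfl fun m _ => ?_
  rw [Polynomial.map_add, Polynomial.map_mul, Polynomial.map_C, Polynomial.map_C, h, C_0,
    zero_mul, zero_add]

lemma norm_ph (hg : Good f e) (i : Fin 5) : ‖((ph hg i : VR K) : K)‖ = 1 := by
  have h1 : ((ph hg i : VR K) : K) = ∏ m ∈ Finset.univ.erase i, (e i - e m) := by
    change (VR K).subtype (ph hg i) = _
    rw [ph, map_prod]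
    rfl
  rw [h1, norm_prod]
  refine Finset.prod_eq_one fun m hm => ?_
  rw [Finset.mem_erase] at hm
  exact hg.sep i m hm.1.symm

lemma isUnit_of_norm {u : VR K} (h : ‖(u : K)‖ = 1) : IsUnit u := by
  by_contra hu
  have h1 : rs K u = 0 := by
    rw [IsLocalRing.residue_eq_zero_iff, IsLocalRing.mem_maximalIdeal, mem_nonunits_iff]
    exact hu
  rw [rs_eq_zero, h] at h1
  exact lt_irrefl _ h1

lemma isUnit_ph (hg : Good f e) (i : Fin 5) : IsUnit (ph hg i) := isUnit_of_norm (norm_ph hg i)

end Scal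

end G2
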