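import Pool.Agent.Lib.MP_2eeeac_ag.G2.DetAlg
import Pool.Agent.Lib.MP_2eeeac_ag.G2.NBas
import Pool.Agent.Lib.MP_2eeeac_ag.G2.BZL
import Pool.Agent.Lib.MP_2eeeac_ag.G2.ANm
import Pool.Agent.Lib.MP_2eeeac_ag.G2.Scal

/-!
# Module DetR: a zero `R` of the determinant close to `W_i` with `‖x_R - e_i‖³ = ‖y_{T₂}‖²`

PROOF. `a = e_i`, `b = e_j`, `c = a - b` (`‖c‖ = 1`), `t₂ = T₂.y ≠ 0`, `t₁ = T₁.y`.
`‖T₂.x - b‖ = ‖t₂‖²`, `‖T₁.x - a‖ = ‖t₁‖²` (`near_norm`). `ε = (T₂.x - b)/t₂`, `‖ε‖ = ‖t₂‖`; choose `l ∈ K`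
with `l³ = ε`; `0 < ‖l‖ < 1`, `‖l‖³ = ‖t₂‖`. `χ = (T₁.x - a)/l⁶` (`‖χ‖ ≤ 1` since `‖t₁‖² ≤ ‖t₂‖² = ‖l‖⁶`),
`w₁ = T₁.x - b` (`‖w₁‖ = 1`), `t = t₁/(l³ w₁)` (`‖t‖ ≤ 1`), `c₂ = T₂.x - a` (`‖c₂‖ = 1`,
`‖c₂ + c‖ = ‖T₂.x - b‖ < 1`). All of `l, χ, t, c, c₂` are in `O = VR K`.
`F₀ = X * ∏_{m ≠ i} (C (l²) * X + C (e_i - e_m)) ∈ O[X]`, `F₁` its image in `K[X]`:
`f(a + l² X) = l² F₁(X)`; `d₀ = (derivative of FO).comp (C (l²) * X + C a) ∈ O[X]`.
Over `O`: `G = (Mmat (kst c) (kst l) (kst χ) (kst t) (kst c₂) ⟨X,0⟩ ⟨0,1⟩ ⟨d₀,0⟩).det ∈ CR F₀`.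
Residue field: `l ↦ 0`, `c₂ ↦ -c̄`, `F̄₀ = C φ * X`, `φ = ∏_{m≠i} (ē_i - ē_m) ≠ 0`,
`d̄₀ = C φ` (the derivative of `∏ (X - ē_m)` at `ē_i`). By `det_zero` (and `RingHom.map_det` for
`CRmap`): `Ḡ = -2c̄² X² Y - c̄³ φ X + 2 c̄³ Y² = ⟨C (c̄³ φ) * X, -2 c̄² X²⟩` because `Y² = φ X`; so
`nm Ḡ = c̄⁴ φ X² (c̄² φ - 4 X³) ≠ 0` (`2 ≠ 0`, `c̄, φ ≠ 0`). The residue field is algebraically
closed (`rf_algClosed`), take `x₀` with `4 x₀³ = c̄² φ`, `x₀ ≠ 0`. `zero_lift` gives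
`X₀, Y₀ ∈ O`, `res X₀ = x₀` (so `‖X₀‖ = 1`), `Y₀² = F₀(X₀)`, `G(X₀, Y₀) = 0`. Put
`R = (a + l² X₀, l Y₀)`, a point of `f`: `l² Y₀² = l² F₁(X₀) = f(a + l² X₀)`.
`‖R.x - a‖³ = ‖l‖⁶ = ‖t₂‖²`. `G(X₀,Y₀)` is `det (Mmat c l χ t c₂ X₀ Y₀ (f'(R.x)))` in `K`
(evaluation `ev` of the entries), and `det_scale` (with `x₁ = a + l⁶χ = T₁.x`,
`l³ t w₁ = t₁`, `a + c₂ = T₂.x`, `a + c₂ - b = l³ t₂`) shows that `det Nmat * l⁹ = 0`, so `det Nmat = 0`.
`Dgen ≠ 0`: let `S : CR f → CR F₁` be the ring homomorphism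
`g ↦ ⟨(taylor a g.re).comp (C l² * X), C l * (taylor a g.im).comp (C l² * X)⟩`
(`x ↦ a + l² X`, `y ↦ l Y`). `S` maps the matrix of `Dgen` to `Nmat` at `x = a + l²X`, `y = lY`, so by
`det_scale` in `CR F₁`: `S (Dgen) * l⁹ = l¹⁴ w₁ t₂ * G_K`, where `G_K` is the image of `G`, which is
`≠ 0` since `Ḡ ≠ 0` (`CRmap` from `O` to `K` is injective). `l, w₁, t₂` are nonzero constants, so
`S (Dgen) ≠ 0`.
-/

namespace G2

open Polynomial

section aux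

variable {A B : Type*} [CommRing A] [CommRing B]

private lemma det_Mmat_map (ψ : A →+* B) (c l χ t c₂ X' Y' d : A) :
    ψ (Mmat c l χ t c₂ X' Y' d).det =
      (Mmat (ψ c) (ψ l) (ψ χ) (ψ t) (ψ c₂) (ψ X') (ψ Y') (ψ d)).det := by
  have h2 : ψ 2 = 2 := map_ofNat ψ 2
  rw [RingHom.map_det]
  congr 1
  ext i j
  fin_cases i <;> fin_cases j <;> simp [Mmat, h2]

private lemma det_Nmat_map (ψ : A →+* B) (a b x₁ y₁ x₂ y₂ x y d : A) :
    ψ (Nmat a b x₁ y₁ x₂ y₂ x y d).det =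
      (Nmat (ψ a) (ψ b) (ψ x₁) (ψ y₁) (ψ x₂) (ψ y₂) (ψ x) (ψ y) (ψ d)).det := by
  have h2 : ψ 2 = 2 := map_ofNat ψ 2
  rw [RingHom.map_det]
  congr 1
  ext i j
  fin_cases i <;> fin_cases j <;> simp [Nmat, evRow, dRow, h2]

private lemma det_scale' (a b l χ t c₂ X' Y' d y₂ x₁ y₁ x₂ l' x' y' : A)
    (h : a + c₂ - b = l ^ 3 * y₂)
    (h1 : a + l ^ 6 * χ = x₁) (h2 : l ^ 3 * t * (x₁ - b) = y₁) (h3 : a + c₂ = x₂)
    (hl : l * l' = 1) (hx : (x₁ - b) * x' = 1) (hy : y₂ * y' = 1)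
    (hN : (Nmat a b x₁ y₁ x₂ y₂ (a + l ^ 2 * X') (l * Y') d).det = 0) :
    (Mmat (a - b) l χ t c₂ X' Y' d).det = 0 := by
  subst h1 h2 h3
  have h4 := det_scale a b l χ t c₂ X' Y' d y₂ h
  rw [hN, zero_mul] at h4
  have u1 : IsUnit l := IsUnit.of_mul_eq_one _ hl
  have u2 := IsUnit.of_mul_eq_one _ hx
  have u3 : IsUnit y₂ := IsUnit.of_mul_eq_one _ hy
  exact (((u1.pow 14).mul u2).mul u3).mul_right_eq_zero.mp h4.symm

private lemma kst_add {F : A[X]} (u w : A) : (kst (u + w) : CR F) = kst u + kst w := by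
  ext1 <;> simp [kst]

private lemma kst_sub {F : A[X]} (u w : A) : (kst (u - w) : CR F) = kst u - kst w := by
  ext1 <;> simp [kst]

private lemma kst_mul {F : A[X]} (u w : A) : (kst (u * w) : CR F) = kst u * kst w := by
  ext1 <;> simp [kst]

private lemma kst_one {F : A[X]} : (kst 1 : CR F) = 1 := by
  ext1 <;> simp [kst, QuadraticAlgebra.re_one, QuadraticAlgebra.im_one]

private lemma kst_pow {F : A[X]} (u : A) (n : ℕ) : (kst (u ^ n) : CR F) = kst u ^ n := by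
  induction n with
  | zero => rw [pow_zero, pow_zero, kst_one]
  | succ n ih => rw [pow_succ, pow_succ, kst_mul, ih]

private lemma kst_inv {F : A[X]} {u w : A} (h : u * w = 1) :
    (kst u : CR F) * kst w = 1 := by rw [← kst_mul, h, kst_one]

private lemma kst_inv' {F : A[X]} {x b w : A} (h : (x - b) * w = 1) :
    ((kst x : CR F) - kst b) * kst w = 1 := by rw [← kst_sub, ← kst_mul, h, kst_one]

private lemma CRmap_kst (φ : A →+* B) {F : A[X]} {F' : B[X]} (h : F.map φ = F') (u : A) :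
    CRmap φ h (kst u) = kst (φ u) := by
  ext1 <;> simp [kst]

/-- the determinant in the residue field -/
private lemma detbar {F : A[X]} (φ c χ t : A) (hF : F = C φ * X) :
    (Mmat (kst c : CR F) 0 (kst χ) (kst t) (kst (-c)) ⟨X, 0⟩ ⟨0, 1⟩ ⟨C φ, 0⟩).det =
      ⟨C (c ^ 3 * φ) * X, -(2 * C (c ^ 2) * X ^ 2)⟩ := by
  rw [det_zero]
  have hX : ((⟨X, 0⟩ : CR F)) ^ 2 = ⟨X ^ 2, 0⟩ := by
    rw [sq]
    ext1
    · simp [sq]
    · simp
  have hY : ((⟨0, 1⟩ : CR F)) ^ 2 = ⟨C φ * X, 0⟩ := by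
    rw [sq]
    ext1
    · simp [hF]
    · simp
  have hk : ∀ (u : A) (g : CR F), kst u * g = ⟨C u * g.re, C u * g.im⟩ := by
    intro u g
    ext1
    · simp [QuadraticAlgebra.re_mul, kst]
    · simp [QuadraticAlgebra.im_mul, kst]
  have e1 : -2 * (kst c : CR F) ^ 2 * ⟨X, 0⟩ ^ 2 * ⟨0, 1⟩ -
      kst c * ⟨C φ, 0⟩ * kst (-c) ^ 2 * ⟨X, 0⟩ + 2 * kst c * kst (-c) ^ 2 * ⟨0, 1⟩ ^ 2 =
      - (kst (c ^ 2) * (⟨X ^ 2, 0⟩ * ⟨0, 1⟩) + kst (c ^ 2) * (⟨X ^ 2, 0⟩ * ⟨0, 1⟩)) -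
      kst (c * (-c) ^ 2) * (⟨C φ, 0⟩ * ⟨X, 0⟩) +
      (kst (c * (-c) ^ 2) * ⟨C φ * X, 0⟩ + kst (c * (-c) ^ 2) * ⟨C φ * X, 0⟩) := by
    rw [hX, hY, kst_mul, kst_pow, kst_pow]
    ring
  rw [e1]
  ext1
  · simp only [QuadraticAlgebra.re_add, QuadraticAlgebra.re_sub, QuadraticAlgebra.re_neg, hk,
      QuadraticAlgebra.re_mul]
    simp only [C_mul, C_pow, C_neg]
    ring
  · simp only [QuadraticAlgebra.im_add, QuadraticAlgebra.im_sub, QuadraticAlgebra.im_neg, hk,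
      QuadraticAlgebra.im_mul]
    simp only [C_mul, C_pow, C_neg]
    ring

private lemma nm_bar {F : A[X]} (φ c : A) (hF : F = C φ * X) :
    nm (⟨C (c ^ 3 * φ) * X, -(2 * C (c ^ 2) * X ^ 2)⟩ : CR F) =
      C (c ^ 6 * φ ^ 2) * X ^ 2 - C (4 * (φ * c ^ 4)) * X ^ 5 := by
  have h4 : (C (4 * (φ * c ^ 4)) : A[X]) = 4 * C (φ * c ^ 4) := by
    rw [C_mul]
    congr 1
  rw [h4]
  simp only [nm, hF, C_mul, C_pow]
  ring

end aux

section

variable {K : Type*} [NormedField K] [IsUltrametricDist K] {f : K[X]} {e : Fin 5 → K}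

private lemma deriv_eval (hg : Good f e) (i : Fin 5) :
    (derivative (FO hg)).eval (Scal.eO hg i) = Scal.ph hg i := by
  have h1 : FO hg = Lagrange.nodal Finset.univ (Scal.eO hg) := by
    rw [Scal.FO_eq, Lagrange.nodal]
  rw [h1, Lagrange.eval_nodal_derivative_eval_node_eq (Finset.mem_univ i), Lagrange.eval_nodal,
    Scal.ph]

/-- the derivative in the new coordinates -/
private noncomputable def d0 (hg : Good f e) (i : Fin 5) (l : VR K) : (VR K)[X] :=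
  (derivative (FO hg)).comp (C (l ^ 2) * X + C (Scal.eO hg i))

private lemma d0_rs (hg : Good f e) (i : Fin 5) (l : VR K) (hl : rs K (l ^ 2) = 0) :
    (d0 hg i l).map (rs K) = C (rs K (Scal.ph hg i)) := by
  rw [d0, Polynomial.map_comp, Polynomial.map_add, Polynomial.map_mul, Polynomial.map_C, hl,
    C_0, zero_mul, zero_add, Polynomial.map_C, comp_C, eval_map, eval₂_at_apply, deriv_eval]

private lemma d0_K (hg : Good f e) (i : Fin 5) (l : VR K) :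
    (d0 hg i l).map (VR K).subtype = (derivative f).comp (C ((l : K) ^ 2) * X + C (e i)) := by
  have h2 : (derivative (FO hg)).map (VR K).subtype = derivative f := by
    rw [← derivative_map, FO_map]
  rw [d0, Polynomial.map_comp, h2]
  simp [Scal.coe_eO]

end

variable {K : Type*} [NormedField K] [IsUltrametricDist K] [IsAlgClosed K] {f : K[X]}
  {e : Fin 5 → K}

theorem exists_R (hg : Good f e) {i j : Fin 5} (hij : i ≠ j) (T₁ T₂ : APt f)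
    (h₁ : ‖T₁.x - e i‖ < 1) (h₂ : ‖T₂.x - e j‖ < 1) (h₁₂ : ‖T₁.y‖ ≤ ‖T₂.y‖)
    (h0 : T₂.y ≠ 0) :
    Dgen f (e i) (e j) T₁ T₂ ≠ 0 ∧ ∃ R : APt f, ‖R.x - e i‖ ^ 3 = ‖T₂.y‖ ^ 2 ∧
      (Nmat (e i) (e j) T₁.x T₁.y T₂.x T₂.y R.x R.y ((derivative f).eval R.x)).det = 0 := by
  have hn1 := near_norm hg i T₁ h₁
  have hn2 := near_norm hg j T₂ h₂
  have hy2 := near_y_lt hg j T₂ h₂
  have hpos : 0 < ‖T₂.y‖ := norm_pos_iff.mpr h0
  have hc1 : ‖e i - e j‖ = 1 := hg.sep i j hij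
  -- the scale
  obtain ⟨l, hl⟩ := IsAlgClosed.exists_pow_nat_eq ((T₂.x - e j) / T₂.y) (n := 3) (by norm_num)
  have hl3 : ‖l‖ ^ 3 = ‖T₂.y‖ := by
    rw [← norm_pow, hl, norm_div, hn2]
    field_simp
  have hl0 : l ≠ 0 := by
    rintro rfl
    rw [norm_zero] at hl3
    norm_num at hl3
    exact h0 (norm_eq_zero.mp hl3.symm)
  have hlpos : 0 < ‖l‖ := norm_pos_iff.mpr hl0
  have hl1 : ‖l‖ < 1 := by
    by_contra h
    push Not at h
    have h3 : 1 ≤ ‖l‖ ^ 3 := one_le_pow₀ h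
    linarith
  have hl6 : ‖l‖ ^ 6 = ‖T₂.y‖ ^ 2 := by
    rw [← hl3]
    ring
  have hT2 : T₂.x - e j = l ^ 3 * T₂.y := by
    rw [hl]
    field_simp
  have hw1 : ‖T₁.x - e j‖ = 1 := by
    have h3 : T₁.x - e j = (e i - e j) + (T₁.x - e i) := by ring
    rw [h3, IsUltrametricDist.norm_add_eq_max_of_norm_ne_norm (by rw [hc1]; exact ne_of_gt h₁),
      hc1, max_eq_left h₁.le]
  have hw10 : T₁.x - e j ≠ 0 := by
    intro h
    rw [h, norm_zero] at hw1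
    exact zero_ne_one hw1
  have hχ : ‖(T₁.x - e i) / l ^ 6‖ ≤ 1 := by
    rw [norm_div, norm_pow, hn1, hl6, div_le_one (by positivity)]
    exact pow_le_pow_left₀ (norm_nonneg _) h₁₂ 2
  have ht : ‖T₁.y / (l ^ 3 * (T₁.x - e j))‖ ≤ 1 := by
    rw [norm_div, norm_mul, norm_pow, hw1, mul_one, hl3, div_le_one hpos]
    exact h₁₂
  have hc2 : ‖T₂.x - e i‖ = 1 := by
    have h3 : T₂.x - e i = -(e i - e j) + (T₂.x - e j) := by ring
    have h4 : ‖-(e i - e j)‖ = 1 := by rw [norm_neg, hc1]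
    rw [h3, IsUltrametricDist.norm_add_eq_max_of_norm_ne_norm (by rw [h4]; exact ne_of_gt h₂),
      h4, max_eq_left h₂.le]
  -- facts over the field
  obtain ⟨lO, rfl⟩ : ∃ z : VR K, (z : K) = l := ⟨⟨l, (mem_VR _).2 hl1.le⟩, rfl⟩
  obtain ⟨χO, hχO⟩ : ∃ z : VR K, (z : K) = (T₁.x - e i) / lO ^ 6 :=
    ⟨⟨_, (mem_VR _).2 hχ⟩, rfl⟩
  obtain ⟨tO, htO⟩ : ∃ z : VR K, (z : K) = T₁.y / (lO ^ 3 * (T₁.x - e j)) :=
    ⟨⟨_, (mem_VR _).2 ht⟩, rfl⟩
  obtain ⟨cO, hcO⟩ : ∃ z : VR K, (z : K) = e i - e j := ⟨⟨_, (mem_VR _).2 hc1.le⟩, rfl⟩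
  obtain ⟨c2O, hc2O⟩ : ∃ z : VR K, (z : K) = T₂.x - e i := ⟨⟨_, (mem_VR _).2 hc2.le⟩, rfl⟩
  have e1 : e i + (lO : K) ^ 6 * χO = T₁.x := by
    rw [hχO]
    field_simp
    ring
  have e2 : (lO : K) ^ 3 * tO * (T₁.x - e j) = T₁.y := by
    rw [htO]
    field_simp
  have e3 : e i + (c2O : K) = T₂.x := by rw [hc2O]; ring
  have e4 : e i + (c2O : K) - e j = (lO : K) ^ 3 * T₂.y := by rw [e3, hT2]
  -- the residues
  have hlr : rs K lO = 0 := (rs_eq_zero _).2 hl1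
  have hlr2 : rs K (lO ^ 2) = 0 := by rw [map_pow, hlr]; ring
  have hcr : rs K cO ≠ 0 := by
    intro h
    rw [rs_eq_zero, hcO, hc1] at h
    exact lt_irrefl _ h
  have hc2r : rs K c2O = - rs K cO := by
    rw [eq_neg_iff_add_eq_zero, ← map_add, rs_eq_zero]
    have h3 : ((c2O + cO : VR K) : K) = T₂.x - e j := by
      change (c2O : K) + (cO : K) = _
      rw [hc2O, hcO]
      ring
    rw [h3]
    exact h₂
  obtain ⟨φb, hφb⟩ : ∃ z : RF K, z = rs K (Scal.ph hg i) := ⟨_, rfl⟩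
  have hφ0 : φb ≠ 0 := by
    intro h
    rw [hφb, rs_eq_zero, Scal.norm_ph] at h
    exact lt_irrefl _ h
  have h2r : (2 : RF K) ≠ 0 := by
    intro h
    have h3 : rs K (2 : VR K) = 0 := by rw [map_ofNat]; exact h
    rw [rs_eq_zero] at h3
    have h4 : ((2 : VR K) : K) = 2 := rfl
    rw [h4, hg.two] at h3
    exact lt_irrefl _ h3
  obtain ⟨G, hG⟩ : ∃ G : CR (Scal.F0 hg i lO), G = (Mmat (kst cO) (kst lO) (kst χO) (kst tO)
    (kst c2O) ⟨X, 0⟩ ⟨0, 1⟩ ⟨d0 hg i lO, 0⟩).det := ⟨_, rfl⟩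
  have hF0 : (Scal.F0 hg i lO).map (rs K) = C φb * X := by
    rw [hφb]
    exact Scal.F0_map hg i lO (rs K) hlr2
  have hGbar : CRmap (rs K) hF0 G =
      ⟨C (rs K cO ^ 3 * φb) * X, -(2 * C (rs K cO ^ 2) * X ^ 2)⟩ := by
    have h3 := det_Mmat_map (CRmap (rs K) hF0) (kst cO) (kst lO) (kst χO) (kst tO) (kst c2O)
      ⟨X, 0⟩ ⟨0, 1⟩ ⟨d0 hg i lO, 0⟩
    have hk0 : (kst (0 : RF K) : CR (C φb * X)) = 0 := by ext1 <;> simp [kst]
    have hx : CRmap (rs K) hF0 ⟨X, 0⟩ = ⟨X, 0⟩ := by ext1 <;> simp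
    have hy : CRmap (rs K) hF0 ⟨0, 1⟩ = ⟨0, 1⟩ := by ext1 <;> simp
    have hd : CRmap (rs K) hF0 ⟨d0 hg i lO, 0⟩ = ⟨C φb, 0⟩ := by
      ext1
      · simp only [CRmap_re]
        rw [hφb]
        exact d0_rs hg i lO hlr2
      · simp
    rw [CRmap_kst, CRmap_kst, CRmap_kst, CRmap_kst, CRmap_kst, hlr, hc2r, hk0, hx, hy, hd,
      detbar φb (rs K cO) _ _ rfl, ← hG] at h3
    exact h3
  have hnm : nm (CRmap (rs K) hF0 G) =
      C (rs K cO ^ 6 * φb ^ 2) * X ^ 2 - C (4 * (φb * rs K cO ^ 4)) * X ^ 5 := by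
    rw [hGbar]
    exact nm_bar φb (rs K cO) rfl
  have hnm0 : nm (CRmap (rs K) hF0 G) ≠ 0 := by
    intro h
    rw [hnm] at h
    have h3 := congrArg (fun p : (RF K)[X] => p.coeff 2) h
    simp only [coeff_sub, coeff_C_mul, coeff_X_pow, coeff_zero] at h3
    rw [if_neg (show ¬ (2 = 5) by norm_num), mul_zero, sub_zero] at h3
    simp only [if_true, mul_one] at h3
    rcases mul_eq_zero.mp h3 with h3 | h3
    · exact hcr (pow_eq_zero_iff (by norm_num) |>.mp h3)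
    · exact hφ0 (pow_eq_zero_iff (by norm_num) |>.mp h3)
  have := rf_algClosed K
  obtain ⟨x₀, hx₀⟩ := IsAlgClosed.exists_pow_nat_eq (rs K cO ^ 2 * φb / 4) (n := 3) (by norm_num)
  have h4r : (4 : RF K) ≠ 0 := by
    have : (4 : RF K) = 2 * 2 := by norm_num
    rw [this]
    exact mul_ne_zero h2r h2r
  have hx₀' : 4 * x₀ ^ 3 = rs K cO ^ 2 * φb := by
    rw [hx₀]
    field_simp
  have hx₀0 : x₀ ≠ 0 := by
    rintro rfl
    have h3 : rs K cO ^ 2 * φb = 0 := by rw [← hx₀']; ring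
    rcases mul_eq_zero.mp h3 with h | h
    · exact hcr (pow_eq_zero_iff (by norm_num) |>.mp h)
    · exact hφ0 h
  have hev : (nm (CRmap (rs K) hF0 G)).eval x₀ = 0 := by
    rw [hnm]
    simp only [eval_sub, eval_mul, eval_C, eval_pow, eval_X]
    linear_combination (-(rs K cO ^ 4 * φb * x₀ ^ 2)) * hx₀'
  obtain ⟨X₀, Y₀, hX₀, hY₀, hG0⟩ :=
    zero_lift (VR K) (rs K) rs_surj (Scal.F0 hg i lO) _ hF0 G hnm0 x₀ hev
  have hX1 : ‖(X₀ : K)‖ = 1 := by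
    refine le_antisymm ((mem_VR _).1 X₀.2) (not_lt.1 fun h => hx₀0 ?_)
    rw [← hX₀]
    exact (rs_eq_zero _).2 h
  constructor
  · -- the determinant at the generic point
    intro hD
    have hS : Scal.S hg i lO (Dgen f (e i) (e j) T₁ T₂) = 0 := by rw [hD, map_zero]
    rw [Dgen, det_Nmat_map] at hS
    have hk : ∀ u : K, Scal.S hg i lO (kst u) = kst u := by
      intro u
      ext1
      · simp [Scal.S_re, kst]
      · simp [Scal.S_im, kst]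
    have hx : Scal.S hg i lO ⟨X, 0⟩ = kst (e i) + (kst (lO : K)) ^ 2 * ⟨X, 0⟩ := by
      rw [← kst_pow]
      ext1
      · simp only [Scal.S_re, X_comp, QuadraticAlgebra.re_add, QuadraticAlgebra.re_mul, kst,
          mul_zero, add_zero]
        rw [add_comm]
      · simp [Scal.S_im, kst]
    have hy : Scal.S hg i lO ⟨0, 1⟩ = kst (lO : K) * ⟨0, 1⟩ := by
      ext1
      · simp [Scal.S_re, kst]
      · simp [Scal.S_im, kst]
    have hF1 : (Scal.F0 hg i lO).map (VR K).subtype = Scal.F1 hg i lO := rfl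
    obtain ⟨dd, hdd⟩ : ∃ z : CR (Scal.F1 hg i lO), z = CRmap (VR K).subtype hF1
      ⟨d0 hg i lO, 0⟩ := ⟨_, rfl⟩
    have hd : Scal.S hg i lO ⟨derivative f, 0⟩ = dd := by
      rw [hdd]
      ext1
      · simp only [Scal.S_re, CRmap_re]
        exact (d0_K hg i lO).symm
      · simp [Scal.S_im]
    rw [hk, hk, hk, hk, hk, hk, hx, hy, hd] at hS
    have f1 : (kst (e i) : CR (Scal.F1 hg i lO)) + kst (lO : K) ^ 6 * kst (χO : K) =
        kst T₁.x := by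
      rw [← kst_pow, ← kst_mul, ← kst_add, e1]
    have f2 : (kst (lO : K) : CR (Scal.F1 hg i lO)) ^ 3 * kst (tO : K) *
        (kst T₁.x - kst (e j)) = kst T₁.y := by
      rw [← kst_pow, ← kst_mul, ← kst_sub, ← kst_mul, e2]
    have f3 : (kst (e i) : CR (Scal.F1 hg i lO)) + kst (c2O : K) = kst T₂.x := by
      rw [← kst_add, e3]
    have hsc := det_scale' _ _ _ (kst (χO : K)) (kst (tO : K)) (kst (c2O : K)) _ _ _ _ _ _ _
      _ _ _ (by rw [← kst_add, ← kst_sub, ← kst_pow, ← kst_mul, e4]) f1 f2 f3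
      (kst_inv (mul_inv_cancel₀ hl0)) (kst_inv' (mul_inv_cancel₀ hw10))
      (kst_inv (mul_inv_cancel₀ h0)) hS
    have hGK : CRmap (VR K).subtype hF1 G =
        (Mmat ((kst (e i) : CR (Scal.F1 hg i lO)) - kst (e j)) (kst (lO : K)) (kst (χO : K))
          (kst (tO : K)) (kst (c2O : K)) ⟨X, 0⟩ ⟨0, 1⟩ dd).det := by
      have h3 := det_Mmat_map (CRmap (VR K).subtype hF1) (kst cO)
        (kst lO) (kst χO) (kst tO) (kst c2O) ⟨X, 0⟩ ⟨0, 1⟩ ⟨d0 hg i lO, 0⟩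
      have hx' : CRmap (VR K).subtype hF1 ⟨X, 0⟩ = ⟨X, 0⟩ := by
        ext1 <;> simp
      have hy' : CRmap (VR K).subtype hF1 ⟨0, 1⟩ = ⟨0, 1⟩ := by
        ext1 <;> simp
      have hs : ∀ u : VR K, (VR K).subtype u = (u : K) := fun _ => rfl
      rw [CRmap_kst, CRmap_kst, CRmap_kst, CRmap_kst, CRmap_kst, hx', hy', ← hdd, ← hG, hs, hs,
        hs, hs, hs, hcO] at h3
      rw [← kst_sub]
      exact h3
    have h5 := hGK.trans hsc
    have h6 : G = 0 := by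
      have hinj : Function.Injective (VR K).subtype := Subtype.coe_injective
      ext1
      · apply Polynomial.map_injective _ hinj
        have := congrArg QuadraticAlgebra.re h5
        simpa using this
      · apply Polynomial.map_injective _ hinj
        have := congrArg QuadraticAlgebra.im h5
        simpa using this
    apply hnm0
    rw [h6, map_zero]
    simp [nm]
  · -- the point
    obtain ⟨Q, hQx, hQy⟩ : ∃ Q : APt (Scal.F0 hg i lO), Q.x = X₀ ∧ Q.y = Y₀ :=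
      ⟨⟨X₀, Y₀, hY₀⟩, rfl, rfl⟩
    obtain ⟨R, hRx, hRy⟩ : ∃ R : APt f, R.x = e i + (lO : K) ^ 2 * X₀ ∧ R.y = (lO : K) * Y₀ :=
      ⟨⟨_, _, Scal.point_K hg i lO X₀ Y₀ hY₀⟩, rfl, rfl⟩
    refine ⟨R, ?_, ?_⟩
    · rw [hRx, add_sub_cancel_left, norm_mul, norm_pow, hX1, mul_one, ← hl6]
      ring
    · have h3 : ((VR K).subtype.comp (ev Q)) G = 0 := by
        rw [RingHom.comp_apply, ev_apply, hQx, hQy, hG0, map_zero]
      have h4 := det_Mmat_map ((VR K).subtype.comp (ev Q)) (kst cO)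
        (kst lO) (kst χO) (kst tO) (kst c2O) ⟨X, 0⟩ ⟨0, 1⟩ ⟨d0 hg i lO, 0⟩
      have hk : ∀ u : VR K, ((VR K).subtype.comp (ev Q)) (kst u) = (u : K) := by
        intro u
        simp [ev_apply, kst]
      have hx' : ((VR K).subtype.comp (ev Q)) ⟨X, 0⟩ = (X₀ : K) := by
        simp [ev_apply, hQx]
      have hy' : ((VR K).subtype.comp (ev Q)) ⟨0, 1⟩ = (Y₀ : K) := by
        simp [ev_apply, hQy]
      have hd' : ((VR K).subtype.comp (ev Q)) ⟨d0 hg i lO, 0⟩ = (derivative f).eval R.x := by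
        have h5 : ((VR K).subtype.comp (ev Q)) ⟨d0 hg i lO, 0⟩ =
            (VR K).subtype ((d0 hg i lO).eval X₀) := by
          simp [ev_apply, hQx]
        rw [h5, ← eval₂_at_apply, ← eval_map, d0_K, eval_comp, hRx]
        congr 1
        have hs : (VR K).subtype X₀ = (X₀ : K) := rfl
        simp only [eval_add, eval_mul, eval_C, eval_X, hs]
        rw [add_comm]
      rw [hk, hk, hk, hk, hk, hx', hy', hd', ← hG, h3, hcO] at h4
      have hsc := det_scale (e i) (e j) (lO : K) (χO : K) (tO : K) (c2O : K) (X₀ : K) (Y₀ : K)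
        ((derivative f).eval R.x) T₂.y e4
      rw [← h4, mul_zero, e1, e2, e3, ← hRx, ← hRy] at hsc
      exact (mul_eq_zero.mp hsc).resolve_right (pow_ne_zero _ hl0)

end G2
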