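import Pool.Agent.Lib.MP_2eeeac_ag.G2.AFac

/-!
# Module DetSq: `𝔪_P²`, and functions with prescribed zeros

PROOF. `mem_m_sq`. `P = (a, b)`, `g = A + B y`. Modulo `(x-a)² ∈ 𝔪_P²`:
`A ≡ A(a) + A'(a)(x-a)`, `B ≡ B(a) + B'(a)(x-a)` (Taylor, `(X - C a)^2 ∣ A - …`), so
`g ≡ (A(a) + B(a) b) + A'(a)(x-a) + B'(a) b (x-a) + B(a)(y-b) + B'(a)(x-a)(y-b)`
`≡ α (x-a) + β (y-b)` modulo `𝔪_P²`, `α = A'(a) + B'(a) b`, `β = B(a)`. Also
`(y-b)² + 2b(y-b) = y² - b² = f - f(a) ≡ f'(a)(x-a)` modulo `(x-a)²`, so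
`z := 2b (y-b) - f'(a)(x-a) ∈ 𝔪_P²`. The hypothesis is `2bα + f'(a)β = 0`. If `2b ≠ 0`:
`α = -f'(a)β/(2b)`, `α(x-a) + β(y-b) = (β/(2b)) z`. If `b = 0` then `f'(a) ≠ 0`
(`smooth_of_quintic`), so `β = 0` and `α(x-a) = -(α/f'(a)) z`. In both cases `g ∈ 𝔪_P²`.
`mem_prod_of_distinct`: the ideals `𝔪_P` are pairwise different maximal ideals (`mem_m_iff`), so
`𝔪_R², 𝔪_P, 𝔪_Q, 𝔪_W` are pairwise coprime (`Ideal.isCoprime_of_isMaximal`…, `IsCoprime.pow_left`) and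
the intersection is the product (`Ideal.inf_eq_mul_of_isCoprime`, three times).
-/

namespace G2

open Polynomial

variable {K : Type*} [Field K] {f : K[X]} [Quintic f]

private theorem taylor (A : K[X]) (a : K) :
    ∃ A₂ : K[X], A = C (A.eval a) + C ((derivative A).eval a) * (X - C a) + (X - C a) ^ 2 * A₂ := by
  obtain ⟨q, hq⟩ : (X - C a) ∣ A - C (A.eval a) := by
    rw [dvd_iff_isRoot]
    simp
  obtain ⟨q₂, hq₂⟩ : (X - C a) ∣ q - C (q.eval a) := by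
    rw [dvd_iff_isRoot]
    simp
  have hA : A = C (A.eval a) + (X - C a) * q := by linear_combination hq
  have hd : (derivative A).eval a = q.eval a := by
    have h := congrArg (fun p : K[X] => (derivative p).eval a) hA
    simpa using h
  refine ⟨q₂, ?_⟩
  rw [hd]
  linear_combination hq + (X - C a) * hq₂

theorem mem_m_sq (P : APt f) (g : CR f)
    (h0 : g.re.eval P.x + g.im.eval P.x * P.y = 0)
    (h1 : 2 * P.y * ((derivative g.re).eval P.x + (derivative g.im).eval P.x * P.y) +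
      (derivative f).eval P.x * g.im.eval P.x = 0) : g ∈ P.m * P.m := by
  obtain ⟨U, W, hUW⟩ := smooth_of_quintic P
  obtain ⟨A₂, hA⟩ := taylor g.re P.x
  obtain ⟨B₂, hB⟩ := taylor g.im P.x
  obtain ⟨F₂, hF⟩ := taylor f P.x
  rw [← P.eq] at hF
  set a := P.x with ha
  set b := P.y with hb
  set A0 := g.re.eval a
  set A1 := (derivative g.re).eval a
  set B0 := g.im.eval a
  set B1 := (derivative g.im).eval a
  set F1 := (derivative f).eval a
  have hu : (⟨X - C a, 0⟩ : CR f) ∈ P.m := Ideal.subset_span (by simp [ha])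
  have hw : (⟨-C b, 1⟩ : CR f) ∈ P.m := Ideal.subset_span (by simp [hb])
  obtain ⟨c, hc⟩ : ∃ c, c = U * B0 - W * (A1 + B1 * b) := ⟨_, rfl⟩
  have hc1 : c * (2 * b) = B0 := by
    rw [hc]
    linear_combination B0 * hUW - W * h1
  have hc2 : c * F1 = -(A1 + B1 * b) := by
    rw [hc]
    linear_combination -(A1 + B1 * b) * hUW + U * h1
  have e : g = ⟨C c, 0⟩ * (⟨F₂, 0⟩ * ((⟨X - C a, 0⟩ : CR f) * ⟨X - C a, 0⟩)
      - (⟨-C b, 1⟩ : CR f) * ⟨-C b, 1⟩)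
      + ⟨C B1, 0⟩ * ((⟨X - C a, 0⟩ : CR f) * ⟨-C b, 1⟩)
      + ⟨A₂, B₂⟩ * ((⟨X - C a, 0⟩ : CR f) * ⟨X - C a, 0⟩) := by
    have hc1' : C c * (2 * C b) = C B0 := by
      rw [← hc1, C_mul, C_mul, show (C (2 : K) : K[X]) = 2 from map_ofNat C 2]
    have hc2' : C c * C F1 = -(C A1 + C B1 * C b) := by
      rw [← C_mul, hc2]; simp
    have h0' : C A0 + C B0 * C b = (0 : K[X]) := by
      rw [← C_mul, ← C_add, h0, C_0]
    rw [C_pow] at hF
    ext1
    · simp only [QuadraticAlgebra.re_add, QuadraticAlgebra.re_sub, QuadraticAlgebra.re_mul,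
        QuadraticAlgebra.im_sub, QuadraticAlgebra.im_mul]
      rw [hA]
      linear_combination h0' + (X - C a) * hc2' + C b * hc1' + C c * hF
    · simp only [QuadraticAlgebra.im_add, QuadraticAlgebra.re_sub, QuadraticAlgebra.re_mul,
        QuadraticAlgebra.im_sub, QuadraticAlgebra.im_mul]
      rw [hB]
      linear_combination -hc1'
  rw [e]
  refine Ideal.add_mem _ (Ideal.add_mem _ (Ideal.mul_mem_left _ _ (Ideal.sub_mem _
    (Ideal.mul_mem_left _ _ (Ideal.mul_mem_mul hu hu)) (Ideal.mul_mem_mul hw hw)))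
    (Ideal.mul_mem_left _ _ (Ideal.mul_mem_mul hu hw)))
    (Ideal.mul_mem_left _ _ (Ideal.mul_mem_mul hu hu))

private theorem coprime_m {P Q : APt f} (h : P ≠ Q) : IsCoprime P.m Q.m := by
  rw [Ideal.isCoprime_iff_exists]
  by_cases hx : P.x = Q.x
  · have hy : P.y - Q.y ≠ 0 := by
      intro hy
      exact h (APt.ext hx (sub_eq_zero.mp hy))
    refine ⟨⟨C (-(P.y - Q.y)⁻¹), 0⟩ * ⟨-C P.y, 1⟩,
      Ideal.mul_mem_left _ _ (Ideal.subset_span (by simp)),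
      ⟨C ((P.y - Q.y)⁻¹), 0⟩ * ⟨-C Q.y, 1⟩,
      Ideal.mul_mem_left _ _ (Ideal.subset_span (by simp)), ?_⟩
    ext1
    · simp only [QuadraticAlgebra.re_add, QuadraticAlgebra.re_mul, QuadraticAlgebra.re_one]
      have h1 : (P.y - Q.y)⁻¹ * P.y - (P.y - Q.y)⁻¹ * Q.y = 1 := by
        rw [← mul_sub, inv_mul_cancel₀ hy]
      have h2 := congrArg (C : K → K[X]) h1
      simp only [C_sub, C_mul, C_1] at h2
      rw [C_neg]
      linear_combination h2
    · simp only [QuadraticAlgebra.im_add, QuadraticAlgebra.im_mul, QuadraticAlgebra.im_one]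
      rw [C_neg]
      ring
  · have hy : Q.x - P.x ≠ 0 := fun h' => hx (sub_eq_zero.mp h').symm
    refine ⟨⟨C ((Q.x - P.x)⁻¹), 0⟩ * ⟨X - C P.x, 0⟩,
      Ideal.mul_mem_left _ _ (Ideal.subset_span (by simp)),
      ⟨C (-(Q.x - P.x)⁻¹), 0⟩ * ⟨X - C Q.x, 0⟩,
      Ideal.mul_mem_left _ _ (Ideal.subset_span (by simp)), ?_⟩
    ext1
    · simp only [QuadraticAlgebra.re_add, QuadraticAlgebra.re_mul, QuadraticAlgebra.re_one]
      have h1 : (Q.x - P.x)⁻¹ * Q.x - (Q.x - P.x)⁻¹ * P.x = 1 := by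
        rw [← mul_sub, inv_mul_cancel₀ hy]
      have h2 := congrArg (C : K → K[X]) h1
      simp only [C_sub, C_mul, C_1] at h2
      rw [C_neg]
      linear_combination h2
    · simp only [QuadraticAlgebra.im_add, QuadraticAlgebra.im_mul, QuadraticAlgebra.im_one]
      ring

theorem mem_prod_of_distinct (R P Q W : APt f) (g : CR f) (hR : g ∈ R.m * R.m) (hP : g ∈ P.m)
    (hQ : g ∈ Q.m) (hW : g ∈ W.m) (hRP : R ≠ P) (hRQ : R ≠ Q) (hRW : R ≠ W) (hPQ : P ≠ Q)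
    (hPW : P ≠ W) (hQW : Q ≠ W) : g ∈ Mprod (R ::ₘ R ::ₘ P ::ₘ Q ::ₘ {W}) := by
  have h1 : g ∈ Q.m * W.m := by
    rw [← Ideal.inf_eq_mul_of_isCoprime (coprime_m hQW)]
    exact ⟨hQ, hW⟩
  have h2 : g ∈ P.m * (Q.m * W.m) := by
    rw [← Ideal.inf_eq_mul_of_isCoprime ((coprime_m hPQ).mul_right (coprime_m hPW))]
    exact ⟨hP, h1⟩
  have h3 : IsCoprime R.m (P.m * (Q.m * W.m)) :=
    (coprime_m hRP).mul_right ((coprime_m hRQ).mul_right (coprime_m hRW))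
  have h4 : g ∈ R.m * R.m * (P.m * (Q.m * W.m)) := by
    rw [← Ideal.inf_eq_mul_of_isCoprime (h3.mul_left h3)]
    exact ⟨hR, h2⟩
  have e : Mprod (R ::ₘ R ::ₘ P ::ₘ Q ::ₘ {W}) = R.m * R.m * (P.m * (Q.m * W.m)) := by
    simp only [Mprod_cons]
    rw [Mprod, Multiset.map_singleton, Multiset.prod_singleton, mul_assoc]
  rw [e]
  exact h4

end G2
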