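import Pool.Agent.Lib.MP_2eeeac_ag.G2.DetDefs
import Pool.Agent.Lib.MP_2eeeac_ag.G2.DetSq
import Pool.Agent.Lib.MP_2eeeac_ag.G2.AJInv

/-!
# Module DetRel: from a zero of the determinant to the relation `2R + S ~ T₁ + T₂ + W_b`

PROOF. `det = 0` gives `u : Fin 4 → K`, `u ≠ 0`, with `Nmat.mulVec u = 0`
(`Matrix.exists_mulVec_eq_zero_iff`). Put
`g = ⟨(X - C b) * (C (u 0) + C (u 1) * (X - C a) + C (u 2) * (X - C a)^2), C (u 3)⟩ ∈ CR f`.
`g ≠ 0`: otherwise `u 3 = 0` and the polynomial `u₀ + u₁ (X-a) + u₂ (X-a)²` is 0, so `u = 0`.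
The four rows say: `g(R) = 0`, `(δ g)(R) = 0` (this is exactly the hypothesis `h1` of `mem_m_sq`;
the derivative of `(X-b)(X-a)^k` is `(X-a)^k + k (X-b)(X-a)^{k-1}`), `g(ιT₁) = 0`, `g(ιT₂) = 0`; and
`g(W) = 0` for `W = (b, 0)`. By `mem_m_sq`, `mem_m_iff` and `mem_prod_of_distinct`,
`g ∈ Mprod {R, R, ιT₁, ιT₂, W}`. `natDegree (nm g) ≤ 6` (`natDegree_nm_ne`, `natDegree_nm_zero`:
`natDegree g.re ≤ 3`, `natDegree g.im = 0`). By `exists_rest`, `(g) = Mprod (s + t)`,
`5 + card t ≤ 6`: `t = 0` (put `S = ∞`) or `t = {S}`. By `sum_v_of_prin`: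
`2 v R - v T₁ - v T₂ + v W + v S = 0` (`v_neg`), and `v W = - v W` since `W.neg = W`.
-/

namespace G2

open Polynomial

variable {K : Type*} [Field K] [IsAlgClosed K] {f : K[X]} [Quintic f]

theorem rel_of_det (a b : K) (T₁ T₂ R W : APt f) (hWx : W.x = b) (hWy : W.y = 0)
    (hdet : (Nmat a b T₁.x T₁.y T₂.x T₂.y R.x R.y ((derivative f).eval R.x)).det = 0)
    (h1 : R ≠ T₁.neg) (h2 : R ≠ T₂.neg) (h3 : R ≠ W) (h4 : T₁.neg ≠ T₂.neg)
    (h5 : T₁.neg ≠ W) (h6 : T₂.neg ≠ W) :
    ∃ S : HPt f, 2 • v (some R) + v S = v (some T₁) + v (some T₂) + v (some W) := by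
  obtain ⟨u, hu0, hu⟩ := Matrix.exists_mulVec_eq_zero_iff.mpr hdet
  have r0 := congrFun hu 0
  have r1 := congrFun hu 1
  have r2 := congrFun hu 2
  have r3 := congrFun hu 3
  simp only [Nmat, evRow, dRow, Matrix.mulVec, dotProduct, Fin.sum_univ_four, Matrix.of_apply,
    Matrix.cons_val_zero, Matrix.cons_val_one, Matrix.cons_val, Pi.zero_apply] at r0 r1 r2 r3
  set g : CR f := ⟨(X - C b) * (C (u 0) + C (u 1) * (X - C a) + C (u 2) * (X - C a) ^ 2),
    C (u 3)⟩ with hg
  have hg0 : g ≠ 0 := by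
    intro h
    have him : C (u 3) = (0 : K[X]) := congrArg QuadraticAlgebra.im h
    have hre : (X - C b) * (C (u 0) + C (u 1) * (X - C a) + C (u 2) * (X - C a) ^ 2) =
        (0 : K[X]) := congrArg QuadraticAlgebra.re h
    have hu3 : u 3 = 0 := by simpa using him
    have hp : C (u 0) + C (u 1) * (X - C a) + C (u 2) * (X - C a) ^ 2 = (0 : K[X]) := by
      rcases mul_eq_zero.mp hre with h' | h'
      · exact absurd h' (X_sub_C_ne_zero b)
      · exact h'
    have hp' : C (u 0) + C (u 1) * X + C (u 2) * X ^ 2 = (0 : K[X]) := by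
      have h' := congrArg (fun p : K[X] => p.comp (X + C a)) hp
      simpa using h'
    have hu0' : u 0 = 0 := by
      have h' := congrArg (fun p : K[X] => p.coeff 0) hp'
      simpa [coeff_X] using h'
    have hu1 : u 1 = 0 := by
      have h' := congrArg (fun p : K[X] => p.coeff 1) hp'
      simpa [coeff_X_pow, coeff_C] using h'
    have hu2 : u 2 = 0 := by
      have h' := congrArg (fun p : K[X] => p.coeff 2) hp'
      simpa [coeff_X, coeff_C] using h'
    apply hu0
    funext i
    fin_cases i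
    · exact hu0'
    · exact hu1
    · exact hu2
    · exact hu3
  have hev : ∀ x : K, g.re.eval x = (x - b) * (u 0 + u 1 * (x - a) + u 2 * (x - a) ^ 2) := by
    intro x
    simp [hg]
  have hevi : ∀ x : K, g.im.eval x = u 3 := by
    intro x
    simp [hg]
  have hdre : (derivative g.re).eval R.x = (u 0 + u 1 * (R.x - a) + u 2 * (R.x - a) ^ 2) +
      (R.x - b) * (u 1 + u 2 * (2 * (R.x - a))) := by
    simp only [hg, derivative_mul, derivative_add, derivative_C, derivative_sub, derivative_X, sq,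
      eval_add, eval_mul, eval_sub, eval_X, eval_C, eval_zero, eval_one]
    ring
  have hdim : (derivative g.im).eval R.x = 0 := by
    simp [hg]
  have mR : g ∈ R.m * R.m := by
    apply mem_m_sq
    · rw [hev, hevi]
      linear_combination r0
    · rw [hdre, hdim, hevi]
      linear_combination r1
  have mT1 : g ∈ T₁.neg.m := by
    rw [mem_m_iff, hev, hevi]
    simp only [APt.neg_x, APt.neg_y]
    linear_combination r2
  have mT2 : g ∈ T₂.neg.m := by
    rw [mem_m_iff, hev, hevi]
    simp only [APt.neg_x, APt.neg_y]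
    linear_combination r3
  have mW : g ∈ W.m := by
    rw [mem_m_iff, hev, hevi, hWx, hWy]
    ring
  have hmem := mem_prod_of_distinct R T₁.neg T₂.neg W g mR mT1 mT2 mW h1 h2 h3 h4 h5 h6
  obtain ⟨t, ht, hcard⟩ := exists_rest _ g hg0 hmem
  have hdegre : g.re.natDegree ≤ 3 := by
    simp only [hg]
    compute_degree
  have hdegim : g.im.natDegree = 0 := by
    simp [hg]
  have hnm : (nm g).natDegree ≤ 6 := by
    by_cases him : g.im = 0
    · rw [natDegree_nm_zero g him]
      omega
    · rw [natDegree_nm_ne Quintic.deg g him, hdegim]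
      omega
  have hcard' : t.card ≤ 1 := by
    simp only [Multiset.card_cons, Multiset.card_singleton] at hcard
    omega
  have hsum := sum_v_of_prin ht.symm
  have hWneg : W.neg = W := by
    ext
    · rfl
    · rw [APt.neg_y, hWy, neg_zero]
  have vT1 : v (some T₁.neg) = -v (some T₁) := v_neg (some T₁)
  have vT2 : v (some T₂.neg) = -v (some T₂) := v_neg (some T₂)
  have vW : v (some W) = -v (some W) := by
    conv_lhs => rw [← hWneg]
    exact v_neg (some W)
  rw [Multiset.map_add, Multiset.sum_add] at hsum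
  simp only [Multiset.map_cons, Multiset.sum_cons, Multiset.map_singleton,
    Multiset.sum_singleton, vT1, vT2] at hsum
  have key : ∀ s : Pic f, v (some R) + (v (some R) + (-v (some T₁) + (-v (some T₂) +
      v (some W)))) + s = 0 → 2 • v (some R) + s = v (some T₁) + v (some T₂) + v (some W) := by
    intro s hs
    rw [two_nsmul]
    have h' : v (some R) + v (some R) + s = v (some T₁) + v (some T₂) + (-v (some W)) := by
      have : v (some R) + v (some R) + s - (v (some T₁) + v (some T₂) + (-v (some W))) =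
          v (some R) + (v (some R) + (-v (some T₁) + (-v (some T₂) + v (some W)))) + s := by
        abel
      rw [← sub_eq_zero, this, hs]
    rw [h', ← vW]
  rcases Nat.lt_or_ge t.card 1 with hc | hc
  · have ht0 : t = 0 := Multiset.card_eq_zero.mp (by omega)
    refine ⟨none, ?_⟩
    rw [ht0, Multiset.map_zero, Multiset.sum_zero] at hsum
    rw [v_none]
    exact key 0 hsum
  · obtain ⟨S, hS⟩ := Multiset.card_eq_one.mp (by omega : t.card = 1)
    refine ⟨some S, ?_⟩
    rw [hS, Multiset.map_singleton, Multiset.sum_singleton] at hsum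
    exact key _ hsum

end G2
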