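import Pool.Agent.Lib.MP_2eeeac_ag.G2.ArStage
import Pool.Agent.Lib.MP_2eeeac_ag.G2.DetR
import Pool.Agent.Lib.MP_2eeeac_ag.G2.DetDeg
import Pool.Agent.Lib.MP_2eeeac_ag.G2.DetRel

/-!
# Module ArMainA: the main construction, class of infinite order

PROOF. Take `i, j, M', m, T₁, T₂` from `exists_stage`. `T₂.y ≠ 0` since `‖T₂.y‖ = p^{-m}`. `exists_R`
gives `R` with `δ := ‖R.x - e_i‖`, `δ³ = ‖T₂.y‖² = p^{-2m}`, the determinant vanishes at `R`, and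
`Ψ := nm (Dgen f (e i) (e j) T₁ T₂) ≠ 0` (`nm_ne_zero_odd`).
Relation: `rel_of_det` with `W = Wp hg j`. The six points are different: `x`-coordinates: `R` is close
to `e_i` (`δ < 1`) and `δ > ‖T₁.x - e_i‖ = ‖T₁.y‖²` because `δ³ = ‖T₂.y‖² > (‖T₂.y‖²)³ ≥ (‖T₁.y‖²)³`
(`0 < ‖T₂.y‖ < 1`): `R ≠ T₁.neg`; `T₁.neg` is close to `e_i`, `T₂.neg`, `W` are close to `e_j`
(`near_excl`); `T₂.neg ≠ W` because `T₂.y ≠ 0`. So `2 v R + v S = v T₁ + v T₂ + v W_j`. With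
`M' • a = (v T₁ - v W_i) + (v T₂ - v W_j)` and `2 v W_i = 0`, `2 v W_j = 0` (`v_neg`):
`2 v R + v S = M' • a + v W_i`, so `4 v R + 2 v S = (2 M') • a`.
Conjugation: `Ψ(R.x) = 0`: `0 = ev R Dgen = re(x) + im(x) y` (`ev_Dgen`), and
`nm Dgen (x) = re² - f im² = (re + im y)(re - im y)` at `x = R.x`. `natDegree Ψ ≤ 15 < p`
(`natDegree_Dgen`), coefficients in `K0` (`Dgen_coeff_mem`; the coefficients of `f = ∏ (X - e_l)` are
in `K0`). `δ ≠ p^n` for all `n : ℤ`: otherwise `p^{3n} = p^{-2m}`, `3 ∣ 2m`, `3 ∣ m`. `A.conj` gives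
`σ ∈ G` with `‖σ R.x - R.x‖ = δ`. `f.map σ = f` by `map_of_fix`. `R' = R.map σ`:
`‖R'.x - e_i‖ = ‖σ (R.x - e_i)‖ = δ`. `δ < ‖p‖ = p⁻¹` because `δ³ = p^{-2m} ≤ p^{-4} < p^{-3}` (`m ≥ 2`).
`near_diff` (`A.norm_q`).
-/

namespace G2

open Polynomial

variable {K : Type*} [NormedField K] [IsUltrametricDist K] [IsAlgClosed K] {f : K[X]}
  {e : Fin 5 → K}

omit [IsUltrametricDist K] [IsAlgClosed K] in
private lemma main_coeff (K0 : Subfield K) (hg : Good f e) (he : ∀ l, e l ∈ K0) (n : ℕ) :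
    f.coeff n ∈ K0 := by
  have h : f = (∏ l, (X - C (⟨e l, he l⟩ : K0))).map K0.subtype := by
    rw [Polynomial.map_prod]
    simp only [Polynomial.map_sub, map_X, map_C]
    exact hg.prod
  rw [h, coeff_map]
  exact (coeff (∏ l, (X - C (⟨e l, he l⟩ : K0))) n).2

private lemma main_two_W (hg : Good f e) (i : Fin 5) : 2 • v (some (Wp hg i)) = 0 := by
  have := hg.quintic
  have h := v_neg (some (Wp hg i))
  have h1 : HPt.neg (some (Wp hg i)) = some (Wp hg i) := by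
    change some (Wp hg i).neg = _
    congr 1
    ext
    · rfl
    · simp [Wp]
  rw [h1] at h
  rw [two_nsmul]
  nth_rw 1 [h]
  exact neg_add_cancel _

omit [IsUltrametricDist K] [IsAlgClosed K] in
private lemma main_eval (a b : K) (T₁ T₂ R : APt f)
    (hdet : (Nmat a b T₁.x T₁.y T₂.x T₂.y R.x R.y ((derivative f).eval R.x)).det = 0) :
    (nm (Dgen f a b T₁ T₂)).eval R.x = 0 := by
  have h := ev_Dgen a b T₁ T₂ R
  rw [hdet, ev_apply] at h
  rw [nm, eval_sub, eval_mul, eval_pow, eval_pow, ← R.eq]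
  linear_combination (eval R.x (Dgen f a b T₁ T₂).re - eval R.x (Dgen f a b T₁ T₂).im * R.y) * h

theorem main_nontors (p : ℕ) [Fact p.Prime] (hp : 15 < p) (A : Arith p K) (hg : Good f e)
    (he : ∀ l, e l ∈ A.K0) (P0 Q0 : HPt f) (hP0 : RatPt A.K0 P0) (hQ0 : RatPt A.K0 Q0)
    (hnt : ∀ n : ℕ, 0 < n → n • (v P0 + v Q0) ≠ 0) :
    ∃ (N : ℕ) (R : APt f) (S : HPt f) (σ : K ≃+* K) (hσ : f.map (σ : K →+* K) = f),
      0 < N ∧ N • (v P0 + v Q0) = 4 • v (some R) + 2 • v S ∧ σ ∈ A.G ∧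
      ∀ n : ℕ, 0 < n → n • (v (some (R.map (σ : K →+* K) hσ)) - v (some R)) ≠ 0 := by
  have := hg.quintic
  have hp1 : (1 : ℝ) < p := by exact_mod_cast (by omega : 1 < p)
  have hp0 : (0 : ℝ) < p := by linarith
  obtain ⟨i, j, M', m, T₁, T₂, hij, hM', hm, hm3, h₁, h₂, r₁, r₂, hrel, h₁₂, hT₂⟩ :=
    exists_stage p A hg he P0 Q0 hP0 hQ0 hnt
  have hny : 0 < ‖T₂.y‖ := by rw [hT₂]; exact zpow_pos hp0 _
  have hy0 : T₂.y ≠ 0 := norm_pos_iff.1 hny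
  have hny1 : ‖T₂.y‖ < 1 := near_y_lt hg j T₂ h₂
  obtain ⟨hD, R, hR3, hdet⟩ := exists_R hg hij T₁ T₂ h₁ h₂ h₁₂ hy0
  -- the size of `δ`
  have hδ3 : ‖R.x - e i‖ ^ 3 = (p : ℝ) ^ (-(2 * m : ℤ)) := by
    rw [hR3, hT₂, ← zpow_natCast, ← zpow_mul]
    congr 1
    push_cast
    ring
  have hδ0 : 0 < ‖R.x - e i‖ := by
    have h3 : 0 < ‖R.x - e i‖ ^ 3 := by rw [hδ3]; exact zpow_pos hp0 _
    rcases (norm_nonneg (R.x - e i)).lt_or_eq with h | h
    · exact h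
    · rw [← h] at h3
      norm_num at h3
  have hδp : ‖R.x - e i‖ < (p : ℝ)⁻¹ := by
    apply lt_of_pow_lt_pow_left₀ 3 (inv_nonneg.2 hp0.le)
    rw [hδ3, ← zpow_neg_one, ← zpow_natCast, ← zpow_mul]
    apply zpow_lt_zpow_right₀ hp1
    push_cast
    omega
  have hpinv : (p : ℝ)⁻¹ < 1 := inv_lt_one_of_one_lt₀ hp1
  have hδ1 : ‖R.x - e i‖ < 1 := hδp.trans hpinv
  -- the relation
  have hWj : ‖(Wp hg j).x - e j‖ < 1 := by
    change ‖e j - e j‖ < 1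
    rw [sub_self, norm_zero]
    exact one_pos
  obtain ⟨S, hS⟩ := rel_of_det (e i) (e j) T₁ T₂ R (Wp hg j) rfl rfl hdet
    (by
      intro h
      have hx : R.x = T₁.x := by rw [h]; rfl
      have h3 := near_norm hg i T₁ h₁
      rw [← hx] at h3
      have h4 : ‖T₁.y‖ ^ 2 ≤ ‖T₂.y‖ ^ 2 := pow_le_pow_left₀ (norm_nonneg _) h₁₂ 2
      have h5 : ‖R.x - e i‖ ^ 3 ≤ (‖T₂.y‖ ^ 2) ^ 3 := by
        rw [h3]; exact pow_le_pow_left₀ (by positivity) h4 3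
      have h6 : (‖T₂.y‖ ^ 2) ^ 3 < ‖T₂.y‖ ^ 2 := by
        have h7 : 0 < ‖T₂.y‖ ^ 2 := by positivity
        have h8 : ‖T₂.y‖ ^ 2 < 1 := by
          rw [sq]; nlinarith
        have h9 : (‖T₂.y‖ ^ 2) ^ 2 < 1 := by nlinarith
        calc (‖T₂.y‖ ^ 2) ^ 3 = ‖T₂.y‖ ^ 2 * (‖T₂.y‖ ^ 2) ^ 2 := by ring
          _ < ‖T₂.y‖ ^ 2 * 1 := mul_lt_mul_of_pos_left h9 h7
          _ = ‖T₂.y‖ ^ 2 := mul_one _
      rw [hR3] at h5
      linarith)
    (by
      intro h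
      exact near_excl hg hij R.x hδ1 (by rw [h]; exact h₂))
    (by
      intro h
      exact near_excl hg hij R.x hδ1 (by rw [h]; exact hWj))
    (by
      intro h
      have hx : T₁.neg.x = T₂.neg.x := congrArg APt.x h
      rw [APt.neg_x, APt.neg_x] at hx
      exact near_excl hg hij T₁.x h₁ (by rw [hx]; exact h₂))
    (by
      intro h
      have hx : T₁.neg.x = (Wp hg j).x := congrArg APt.x h
      rw [APt.neg_x] at hx
      exact near_excl hg hij T₁.x h₁ (by rw [hx]; exact hWj))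
    (by
      intro h
      have hx : -T₂.y = 0 := congrArg APt.y h
      exact hy0 (neg_eq_zero.1 hx))
  -- conjugation
  have hfc := main_coeff A.K0 hg he
  have hodd : Odd f.natDegree := by rw [Quintic.deg (f := f)]; decide
  obtain ⟨σ, hσG, hσR⟩ := A.conj R.x (e i) (nm (Dgen f (e i) (e j) T₁ T₂)) (he i)
    (nm_ne_zero_odd hodd hD)
    (fun n => Dgen_coeff_mem A.K0 hfc (e i) (e j) (he i) (he j) T₁ T₂ (r₁ T₁ rfl).1 (r₁ T₁ rfl).2
      (r₂ T₂ rfl).1 (r₂ T₂ rfl).2 n)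
    (lt_of_le_of_lt (natDegree_Dgen Quintic.deg (e i) (e j) T₁ T₂) hp)
    (main_eval (e i) (e j) T₁ T₂ R hdet)
    (by
      intro n hn
      rw [hn, ← zpow_natCast, ← zpow_mul] at hδ3
      have h3 := zpow_right_injective₀ hp0 hp1.ne' hδ3
      push_cast at h3
      omega)
    (by
      intro h
      rw [h, sub_self, norm_zero] at hδ0
      exact lt_irrefl _ hδ0)
  have hσf := map_of_fix A.K0 σ (A.fix σ hσG) hfc
  refine ⟨2 * M', R, S, σ, hσf, by omega, ?_, hσG, ?_⟩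
  · --
    have h4 : 4 • v (some R) + 2 • v S = 2 • (2 • v (some R) + v S) := by
      abel
    rw [h4, hS, mul_nsmul', hrel, dW, dW]
    have h5 := main_two_W hg i
    have h6 := main_two_W hg j
    rw [nsmul_add, nsmul_add, nsmul_add, nsmul_sub, nsmul_sub, h5, h6]
    abel
  · intro n hn
    refine near_diff hg i p (by rw [A.norm_p]; exact hpinv) A.norm_q R
      (R.map (σ : K →+* K) hσf) ‖R.x - e i‖ hδ0 (by rw [A.norm_p]; exact hδp) rfl ?_ ?_ n hn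
    · have h7 : (R.map (σ : K →+* K) hσf).x - e i = σ (R.x - e i) := by
        rw [map_sub, A.fix σ hσG _ (he i)]
        rfl
      rw [h7, A.norm_eq σ hσG]
    · exact hσR

end G2
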