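import Pool.Agent.Lib.MP_2eeeac_ag.G2.NSL

/-!
# Module NTF: multiplication by `n` near the origin; torsion freeness
-/

namespace G2

open Polynomial

variable {K : Type*} [NormedField K] [IsUltrametricDist K] [IsAlgClosed K] {f : K[X]}
  {e : Fin 5 → K}

private theorem ntf_norm_eq {L : Type*} [NormedField L] [IsUltrametricDist L] {a b : L}
    (h : ‖a - b‖ < ‖b‖) : ‖a‖ = ‖b‖ := by
  have h1 : a = (a - b) + b := by ring
  rw [h1, IsUltrametricDist.norm_add_eq_max_of_norm_ne_norm h.ne]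
  exact max_eq_right h.le

private theorem ntf_norm_le {L : Type*} [NormedField L] [IsUltrametricDist L] {a b : L} {c : ℝ}
    (h : ‖a - b‖ ≤ c) (hb : ‖b‖ ≤ c) : ‖a‖ ≤ c := by
  have h1 : a = (a - b) + b := by ring
  rw [h1]
  exact (IsUltrametricDist.norm_add_le_max _ _).trans (max_le h hb)

theorem mul_prime (hg : Good f e) {i j : Fin 5} (hij : i ≠ j) (T T' : APt f)
    (hT : ‖T.x - e i‖ < 1) (hT' : ‖T'.x - e j‖ < 1) (q : ℕ)
    (h0 : 0 < max ‖T.y‖ ‖T'.y‖)
    (hq : (max ‖T.y‖ ‖T'.y‖) ^ 3 < ‖(q : K)‖ * max ‖T.y‖ ‖T'.y‖) :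
    ∃ S S' : APt f, ‖S.x - e i‖ < 1 ∧ ‖S'.x - e j‖ < 1 ∧
      q • (dW hg i T + dW hg j T') = dW hg i S + dW hg j S' ∧
      max ‖S.y‖ ‖S'.y‖ = ‖(q : K)‖ * max ‖T.y‖ ‖T'.y‖ := by
  set τ : ℝ := max ‖T.y‖ ‖T'.y‖ with hτ
  have hτ1 : τ < 1 := max_lt (near_y_lt hg i T hT) (near_y_lt hg j T' hT')
  obtain ⟨S, S', hS, hS', hSS, _, _, hy, hy'⟩ := structure_lemma hg hij τ h0.le hτ1
    (Multiset.replicate q T) (Multiset.replicate q T')
    (fun P hP => by rw [Multiset.eq_of_mem_replicate hP]; exact hT)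
    (fun P hP => by rw [Multiset.eq_of_mem_replicate hP]; exact hT')
    (fun P hP => by rw [Multiset.eq_of_mem_replicate hP]; exact le_max_left _ _)
    (fun P hP => by rw [Multiset.eq_of_mem_replicate hP]; exact le_max_right _ _)
  rw [Multiset.map_replicate, Multiset.map_replicate, Multiset.sum_replicate,
    Multiset.sum_replicate] at hSS
  rw [Multiset.map_replicate, Multiset.sum_replicate, nsmul_eq_mul] at hy hy'
  refine ⟨S, S', hS, hS', ?_, ?_⟩
  · rw [← hSS, nsmul_add]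
  · have hle : ∀ (P Q : APt f), ‖P.y - (q : K) * Q.y‖ ≤ τ ^ 3 → ‖Q.y‖ ≤ τ →
        ‖P.y‖ ≤ ‖(q : K)‖ * τ := by
      intro P Q h1 h2
      refine ntf_norm_le (h1.trans hq.le) ?_
      rw [norm_mul]
      exact mul_le_mul_of_nonneg_left h2 (norm_nonneg _)
    have heq : ∀ (P Q : APt f), ‖P.y - (q : K) * Q.y‖ ≤ τ ^ 3 → ‖Q.y‖ = τ →
        ‖P.y‖ = ‖(q : K)‖ * τ := by
      intro P Q h1 h2
      have h3 : ‖(q : K) * Q.y‖ = ‖(q : K)‖ * τ := by rw [norm_mul, h2]
      rw [← h3]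
      apply ntf_norm_eq
      rw [h3]
      exact lt_of_le_of_lt h1 hq
    apply le_antisymm
    · exact max_le (hle S T hy (le_max_left _ _)) (hle S' T' hy' (le_max_right _ _))
    · rcases max_choice ‖T.y‖ ‖T'.y‖ with h | h
      · rw [← heq S T hy (h.symm.trans hτ.symm)]
        exact le_max_left _ _
      · rw [← heq S' T' hy' (h.symm.trans hτ.symm)]
        exact le_max_right _ _

theorem torsion_free (hg : Good f e) {i j : Fin 5} (hij : i ≠ j) (p : ℕ) (hp : ‖(p : K)‖ < 1)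
    (hq : ∀ q : ℕ, q.Prime → q ≠ p → ‖(q : K)‖ = 1) (T T' : APt f)
    (hT : ‖T.x - e i‖ < 1) (hT' : ‖T'.x - e j‖ < 1) (h0 : 0 < max ‖T.y‖ ‖T'.y‖)
    (hτ : (max ‖T.y‖ ‖T'.y‖) ^ 2 < ‖(p : K)‖) (n : ℕ) (hn : 0 < n) :
    n • (dW hg i T + dW hg j T') ≠ 0 := by
  induction n using Nat.strong_induction_on generalizing T T' with
  | _ n ih =>
    by_cases hn1 : n = 1
    · subst hn1
      intro h
      rw [one_smul] at h
      have hW : ∀ l : Fin 5, dW hg l (Wp hg l) = 0 := fun l => sub_self _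
      have hWn : ∀ l : Fin 5, ‖(Wp hg l).x - e l‖ < 1 := by
        intro l
        change ‖e l - e l‖ < 1
        rw [sub_self, norm_zero]
        exact one_pos
      obtain ⟨h1, h2⟩ := uniq_near hg hij T T' (Wp hg i) (Wp hg j) hT hT' (hWn i) (hWn j)
        (by rw [h, hW, hW, add_zero])
      rw [h1, h2] at h0
      have h3 : ∀ l, (Wp hg l).y = 0 := fun l => rfl
      rw [h3, h3, norm_zero, max_self] at h0
      exact lt_irrefl _ h0
    · obtain ⟨q, hqp, n', rfl⟩ := Nat.exists_prime_and_dvd hn1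
      have hn' : 0 < n' := Nat.pos_of_mul_pos_left hn
      have hlt : n' < q * n' := by
        have := hqp.two_le
        nlinarith
      set τ : ℝ := max ‖T.y‖ ‖T'.y‖ with hτd
      have hqn : ‖(q : K)‖ ≤ 1 ∧ τ ^ 2 < ‖(q : K)‖ := by
        by_cases hqp' : q = p
        · rw [hqp']
          exact ⟨hp.le, hτ⟩
        · rw [hq q hqp hqp']
          exact ⟨le_rfl, hτ.trans hp⟩
      have h3 : τ ^ 3 < ‖(q : K)‖ * τ := by
        calc τ ^ 3 = τ ^ 2 * τ := by ring
          _ < ‖(q : K)‖ * τ := mul_lt_mul_of_pos_right hqn.2 h0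
      obtain ⟨S, S', hS, hS', hSS, hmax⟩ := mul_prime hg hij T T' hT hT' q h0 h3
      have hqpos : 0 < ‖(q : K)‖ := lt_of_le_of_lt (by positivity) hqn.2
      have h4 : 0 < max ‖S.y‖ ‖S'.y‖ := by
        rw [hmax]
        exact mul_pos hqpos h0
      have h5 : (max ‖S.y‖ ‖S'.y‖) ^ 2 < ‖(p : K)‖ := by
        rw [hmax]
        refine lt_of_le_of_lt ?_ hτ
        apply pow_le_pow_left₀ (by positivity)
        calc ‖(q : K)‖ * τ ≤ 1 * τ := mul_le_mul_of_nonneg_right hqn.1 h0.le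
          _ = τ := one_mul _
      have h6 := ih n' hlt S S' hS hS' h4 h5 hn'
      rw [← hSS, smul_smul, mul_comm n' q] at h6
      exact h6

omit [IsAlgClosed K] in
private theorem ntf_prod_norm {ι : Type*} [DecidableEq ι] (s : Finset ι) (a b : ι → K)
    (ha : ∀ l ∈ s, ‖a l‖ ≤ 1) (hb : ∀ l ∈ s, ‖b l‖ ≤ 1) (c : ℝ) (hc : 0 ≤ c)
    (h : ∀ l ∈ s, ‖a l - b l‖ ≤ c) : ‖∏ l ∈ s, a l - ∏ l ∈ s, b l‖ ≤ c := by
  induction s using Finset.induction_on with
  | empty => simpa using hc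
  | insert l s hl ih =>
    rw [Finset.prod_insert hl, Finset.prod_insert hl]
    have h1 : a l * ∏ i ∈ s, a i - b l * ∏ i ∈ s, b i =
      (a l - b l) * ∏ i ∈ s, a i + b l * (∏ i ∈ s, a i - ∏ i ∈ s, b i) := by ring
    rw [h1]
    have h2 : ‖∏ i ∈ s, a i‖ ≤ 1 := by
      rw [norm_prod]
      exact Finset.prod_le_one (fun _ _ => norm_nonneg _)
        (fun i hi => ha i (Finset.mem_insert_of_mem hi))
    have h3 := ih (fun i hi => ha i (Finset.mem_insert_of_mem hi))
      (fun i hi => hb i (Finset.mem_insert_of_mem hi))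
      (fun i hi => h i (Finset.mem_insert_of_mem hi))
    have h4 := h l (Finset.mem_insert_self l s)
    have h5 := hb l (Finset.mem_insert_self l s)
    refine (IsUltrametricDist.norm_add_le_max _ _).trans (max_le ?_ ?_)
    · rw [norm_mul]
      calc ‖a l - b l‖ * ‖∏ i ∈ s, a i‖ ≤ c * 1 := by gcongr
        _ = c := mul_one _
    · rw [norm_mul]
      calc ‖b l‖ * ‖∏ i ∈ s, a i - ∏ i ∈ s, b i‖ ≤ 1 * c := by gcongr
        _ = c := one_mul _

/-- `f(x) = (x - e_i) f₁(x)` -/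
private theorem ntf_eval (hg : Good f e) (i : Fin 5) (x : K) :
    f.eval x = (x - e i) * ∏ l ∈ Finset.univ.erase i, (x - e l) := by
  have h1 : f.eval x = ∏ l, (x - e l) := by
    conv_lhs => rw [hg.prod]
    rw [eval_prod]
    exact Finset.prod_congr rfl fun l _ => by simp
  rw [h1, Finset.mul_prod_erase Finset.univ (fun l => x - e l) (Finset.mem_univ i)]

private theorem ntf_f1 (hg : Good f e) (i : Fin 5) (x : K) (hx : ‖x - e i‖ < 1) :
    ∀ l ∈ Finset.univ.erase i, ‖x - e l‖ = 1 := by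
  intro l hl
  have hne : i ≠ l := (Finset.ne_of_mem_erase hl).symm
  have h1 : x - e l = (x - e i) + (e i - e l) := by ring
  rw [h1, IsUltrametricDist.norm_add_eq_max_of_norm_ne_norm (by rw [hg.sep i l hne]; exact hx.ne),
    hg.sep i l hne]
  exact max_eq_right hx.le

theorem near_diff (hg : Good f e) (i : Fin 5) (p : ℕ) (hp : ‖(p : K)‖ < 1)
    (hq : ∀ q : ℕ, q.Prime → q ≠ p → ‖(q : K)‖ = 1) (R R' : APt f) (δ : ℝ) (hδ0 : 0 < δ)
    (hδ : δ < ‖(p : K)‖) (hR : ‖R.x - e i‖ = δ) (hR' : ‖R'.x - e i‖ = δ)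
    (hRR' : ‖R'.x - R.x‖ = δ) (n : ℕ) (hn : 0 < n) :
    n • (v (some R') - v (some R)) ≠ 0 := by
  have hδ1 : δ < 1 := hδ.trans hp
  obtain ⟨j, hij⟩ : ∃ j : Fin 5, i ≠ j := by
    by_cases h : i = 0
    · exact ⟨1, by rw [h]; decide⟩
    · exact ⟨0, h⟩
  have hRn : ‖R.x - e i‖ < 1 := by rw [hR]; exact hδ1
  have hRn' : ‖R'.x - e i‖ < 1 := by rw [hR']; exact hδ1
  set ρ : ℝ := ‖R.y‖ with hρ
  have h1 : δ = ρ ^ 2 := by rw [← hR, near_norm hg i R hRn]
  have h2 : δ = ‖R'.y‖ ^ 2 := by rw [← hR', near_norm hg i R' hRn']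
  have hρ0 : 0 < ρ := by
    rcases (norm_nonneg R.y).lt_or_eq with h | h
    · exact h
    · rw [h1, hρ, ← h] at hδ0
      norm_num at hδ0
  have hρ' : ‖R'.y‖ = ρ := by
    have h3 : ‖R'.y‖ ^ 2 = ρ ^ 2 := by rw [← h2, h1]
    exact (pow_left_inj₀ (norm_nonneg _) hρ0.le two_ne_zero).1 h3
  have hρ1 : ρ < 1 := near_y_lt hg i R hRn
  -- the difference of the y-coordinates has norm ρ
  have hdiff : ‖(R'.y - R.y) * (R'.y + R.y)‖ = δ := by
    have h3 : (R'.y - R.y) * (R'.y + R.y) =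
        (R'.x - R.x) * (∏ l ∈ Finset.univ.erase i, (R'.x - e l)) +
        (R.x - e i) * ((∏ l ∈ Finset.univ.erase i, (R'.x - e l)) -
          ∏ l ∈ Finset.univ.erase i, (R.x - e l)) := by
      have h4 : (R'.y - R.y) * (R'.y + R.y) = R'.y ^ 2 - R.y ^ 2 := by ring
      rw [h4, R'.eq, R.eq, ntf_eval hg i, ntf_eval hg i]
      ring
    have h5 : ‖(R'.x - R.x) * (∏ l ∈ Finset.univ.erase i, (R'.x - e l))‖ = δ := by
      rw [norm_mul, norm_prod, Finset.prod_congr rfl (ntf_f1 hg i R'.x hRn'),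
        Finset.prod_const_one, mul_one, hRR']
    have h6 : ‖(R.x - e i) * ((∏ l ∈ Finset.univ.erase i, (R'.x - e l)) -
          ∏ l ∈ Finset.univ.erase i, (R.x - e l))‖ < δ := by
      rw [norm_mul, hR]
      have h7 := ntf_prod_norm (Finset.univ.erase i) (fun l => R'.x - e l) (fun l => R.x - e l)
        (fun l hl => (ntf_f1 hg i R'.x hRn' l hl).le) (fun l hl => (ntf_f1 hg i R.x hRn l hl).le)
        δ hδ0.le (fun l _ => by
          have : R'.x - e l - (R.x - e l) = R'.x - R.x := by ring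
          simp only [this, hRR', le_refl])
      calc δ * _ ≤ δ * δ := mul_le_mul_of_nonneg_left h7 hδ0.le
        _ < δ * 1 := mul_lt_mul_of_pos_left hδ1 hδ0
        _ = δ := mul_one _
    rw [h3, IsUltrametricDist.norm_add_eq_max_of_norm_ne_norm (by rw [h5]; exact h6.ne'), h5]
    exact max_eq_left h6.le
  have hm : ‖R'.y - R.y‖ ≤ ρ := by
    rw [sub_eq_add_neg]
    refine (IsUltrametricDist.norm_add_le_max _ _).trans (max_le hρ'.le ?_)
    rw [norm_neg]
  have hpl : ‖R'.y + R.y‖ ≤ ρ :=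
    (IsUltrametricDist.norm_add_le_max _ _).trans (max_le hρ'.le le_rfl)
  have hyd : ‖R'.y - R.y‖ = ρ := by
    apply le_antisymm hm
    by_contra hlt
    rw [not_le] at hlt
    rw [norm_mul, h1] at hdiff
    have h3 : ‖R'.y - R.y‖ * ‖R'.y + R.y‖ < ρ ^ 2 := by
      calc ‖R'.y - R.y‖ * ‖R'.y + R.y‖ ≤ ‖R'.y - R.y‖ * ρ :=
            mul_le_mul_of_nonneg_left hpl (norm_nonneg _)
        _ < ρ * ρ := mul_lt_mul_of_pos_right hlt hρ0
        _ = ρ ^ 2 := by ring
    exact h3.ne hdiff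
  -- the class
  obtain ⟨T, T', hT, hT', hTT, hTy, hTy', hy, hy'⟩ := structure_lemma hg hij ρ hρ0.le hρ1
    {R', R.neg} 0
    (fun P hP => by
      rw [Multiset.insert_eq_cons, Multiset.mem_cons, Multiset.mem_singleton] at hP
      rcases hP with rfl | rfl
      · exact hRn'
      · exact hRn)
    (fun P hP => by simp at hP)
    (fun P hP => by
      rw [Multiset.insert_eq_cons, Multiset.mem_cons, Multiset.mem_singleton] at hP
      rcases hP with rfl | rfl
      · exact hρ'.le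
      · rw [APt.neg_y, norm_neg])
    (fun P hP => by simp at hP)
  have hsum : (({R', R.neg} : Multiset (APt f)).map APt.y).sum = R'.y - R.y := by
    rw [Multiset.insert_eq_cons, Multiset.map_cons, Multiset.sum_cons, Multiset.map_singleton,
      Multiset.sum_singleton, APt.neg_y]
    ring
  rw [hsum] at hy
  have hcls : (({R', R.neg} : Multiset (APt f)).map (dW hg i)).sum +
      ((0 : Multiset (APt f)).map (dW hg j)).sum = v (some R') - v (some R) := by
    haveI : Quintic f := hg.quintic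
    rw [Multiset.insert_eq_cons, Multiset.map_cons, Multiset.sum_cons, Multiset.map_singleton,
      Multiset.sum_singleton, Multiset.map_zero, Multiset.sum_zero, add_zero, dW, dW]
    have h3 : v (some R.neg) = -v (some R) := v_neg (f := f) (some R)
    have h4 : v (some (Wp hg i)) + v (some (Wp hg i)) = 0 := by
      have h5 := v_neg (f := f) (some (Wp hg i))
      have h6 : HPt.neg (some (Wp hg i)) = some (Wp hg i) := by
        change some (APt.neg (Wp hg i)) = some (Wp hg i)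
        congr 1
        ext
        · rfl
        · exact neg_zero
      rw [h6] at h5
      nth_rewrite 1 [h5]
      exact neg_add_cancel _
    rw [h3]
    have h7 : v (some R') - v (some (Wp hg i)) + (-v (some R) - v (some (Wp hg i))) =
      (v (some R') - v (some R)) - (v (some (Wp hg i)) + v (some (Wp hg i))) := by abel
    rw [h7, h4, sub_zero]
  rw [hcls] at hTT
  rw [hTT]
  have hρ3 : ρ ^ 3 < ρ := by
    calc ρ ^ 3 = ρ * ρ ^ 2 := by ring
      _ < ρ * 1 := mul_lt_mul_of_pos_left (pow_lt_one₀ hρ0.le hρ1 two_ne_zero) hρ0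
      _ = ρ := mul_one _
  have hTyeq : ‖T.y‖ = ρ := by
    rw [← hyd]
    apply ntf_norm_eq
    rw [hyd]
    exact lt_of_le_of_lt hy hρ3
  have hmax : max ‖T.y‖ ‖T'.y‖ = ρ := by
    rw [hTyeq]
    exact max_eq_left hTy'
  refine torsion_free hg hij p hp hq T T' hT hT' (by rw [hmax]; exact hρ0) ?_ n hn
  rw [hmax, ← h1]
  exact hδ

end G2
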