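import Pool.Agent.Lib.MP_2eeeac_ag.G2.ArDefs
import Pool.Agent.Lib.MP_2eeeac_ag.G2.NTF

/-!
# Module ArMainB: the construction for a torsion class

PROOF. Let `r ∈ K` with `r³ = p²` (`IsAlgClosed`), `‖r‖³ = p^{-2}`. The polynomial `f - C (r²)` is monic of
degree 5 and splits, `f - C (r²) = ∏ (X - x_k)`. At `X = e_0`: `∏ (e_0 - x_k) = -r²` has norm `< 1`, so
`‖e_0 - x_k‖ < 1` for some `k`. `R = (x_k, r)` is a point of `f` close to `W_0`;
`δ := ‖R.x - e_0‖ = ‖r‖²` (`near_norm`), `δ³ = ‖r‖⁶ = p^{-4}`. `Ψ = f^3 - C (p^4)`: `Ψ(R.x) = r⁶ - p⁴ = 0`,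
monic of degree `15 < p`, coefficients in `K0` (those of `f = ∏ (X - e_l)` are in `K0`, `K0` is a
subfield). `δ ≠ p^n`: `3n = -4` is impossible. `A.conj` (centre `c = e_0`) gives `σ`, and `near_diff`
(`δ³ = p^{-4} < p^{-3}`) the conclusion, as in ArMainA.
-/

namespace G2

open Polynomial

variable {K : Type*} [NormedField K] [IsUltrametricDist K] [IsAlgClosed K] {f : K[X]}
  {e : Fin 5 → K}

omit [IsUltrametricDist K] [IsAlgClosed K] in
private lemma ArMainB_coeff (K0 : Subfield K) (hg : Good f e) (he : ∀ l, e l ∈ K0) :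
    ∃ g : (K0)[X], g.map K0.subtype = f := by
  refine ⟨∏ i, (X - C (⟨e i, he i⟩ : K0)), ?_⟩
  rw [Polynomial.map_prod]
  simp only [Polynomial.map_sub, map_X, map_C]
  exact hg.prod.symm

omit [IsUltrametricDist K] in
/-- a monic polynomial whose value at `c` has norm `< 1` has a root close to `c` -/
private lemma ArMainB_root (g : K[X]) (hg : g.Monic) (c : K) (h : ‖g.eval c‖ < 1) :
    ∃ x : K, g.eval x = 0 ∧ ‖c - x‖ < 1 := by
  have hs : g = (g.roots.map fun a => X - C a).prod :=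
    (IsAlgClosed.splits g).eq_prod_roots_of_monic hg
  by_contra hcon
  push Not at hcon
  have h1 : g.eval c = (g.roots.map fun a => c - a).prod := by
    conv_lhs => rw [hs]
    rw [eval_multiset_prod, Multiset.map_map]
    simp
  have key : ∀ s : Multiset K, (∀ a ∈ s, 1 ≤ ‖c - a‖) →
      1 ≤ ‖(s.map fun a => c - a).prod‖ := by
    intro s
    induction s using Multiset.induction with
    | empty => intro _; simp
    | cons a s ih =>
      intro hs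
      rw [Multiset.map_cons, Multiset.prod_cons, norm_mul]
      have h2 := hs a (Multiset.mem_cons_self a s)
      have h3 := ih fun b hb => hs b (Multiset.mem_cons_of_mem hb)
      exact one_le_mul_of_one_le_of_one_le h2 h3
  have h4 := key g.roots fun a ha => hcon a (isRoot_of_mem_roots ha)
  rw [← h1] at h4
  linarith

theorem main_tors (p : ℕ) [Fact p.Prime] (hp : 15 < p) (A : Arith p K) (hg : Good f e)
    (he : ∀ l, e l ∈ A.K0) :
    ∃ (R : APt f) (σ : K ≃+* K) (hσ : f.map (σ : K →+* K) = f), σ ∈ A.G ∧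
      ∀ n : ℕ, 0 < n → n • (v (some (R.map (σ : K →+* K) hσ)) - v (some R)) ≠ 0 := by
  have hpr : (1 : ℝ) < (p : ℝ) := by exact_mod_cast (by omega : 1 < p)
  have hp0 : (0 : ℝ) < (p : ℝ) := by linarith
  obtain ⟨r, hr⟩ := IsAlgClosed.exists_pow_nat_eq ((p : K) ^ 2) (n := 3) (by norm_num)
  have hr3 : ‖r‖ ^ 3 = ((p : ℝ)⁻¹) ^ 2 := by
    rw [← norm_pow, hr, norm_pow, A.norm_p]
  have hinv : (p : ℝ)⁻¹ < 1 := inv_lt_one_of_one_lt₀ hpr
  have hinv0 : 0 < (p : ℝ)⁻¹ := inv_pos.2 hp0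
  have hr0 : 0 < ‖r‖ := by
    rcases (norm_nonneg r).eq_or_lt with h | h
    · rw [← h] at hr3
      have : (0 : ℝ) < ((p : ℝ)⁻¹) ^ 2 := by positivity
      rw [zero_pow (by norm_num)] at hr3
      linarith
    · exact h
  have hr1 : ‖r‖ < 1 := by
    by_contra h
    have h1 : (1 : ℝ) ≤ ‖r‖ ^ 3 := one_le_pow₀ (not_lt.1 h)
    have h2 : ((p : ℝ)⁻¹) ^ 2 < 1 := pow_lt_one₀ hinv0.le hinv (by norm_num)
    linarith
  have hq5 : Quintic f := hg.quintic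
  have hmon : (f - C (r ^ 2)).Monic := by
    apply (Quintic.monic (f := f)).sub_of_left
    rw [degree_eq_natDegree (Quintic.monic (f := f)).ne_zero, Quintic.deg (f := f)]
    exact lt_of_le_of_lt degree_C_le (by norm_num)
  have hev : ‖(f - C (r ^ 2)).eval (e 0)‖ < 1 := by
    rw [eval_sub, eval_C, hg.eval_root, zero_sub, norm_neg, norm_pow]
    exact pow_lt_one₀ (norm_nonneg _) hr1 (by norm_num)
  obtain ⟨x, hx0, hx1⟩ := ArMainB_root (f - C (r ^ 2)) hmon (e 0) hev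
  have hxe : r ^ 2 = f.eval x := by
    rw [eval_sub, eval_C, sub_eq_zero] at hx0
    exact hx0.symm
  set R : APt f := ⟨x, r, hxe⟩ with hR
  have hRlt : ‖R.x - e 0‖ < 1 := by
    rw [norm_sub_rev]
    exact hx1
  have hRn : ‖R.x - e 0‖ = ‖r‖ ^ 2 := near_norm hg 0 R hRlt
  have hδ3 : (‖r‖ ^ 2) ^ 3 = ((p : ℝ)⁻¹) ^ 4 := by
    calc (‖r‖ ^ 2) ^ 3 = (‖r‖ ^ 3) ^ 2 := by ring
      _ = ((p : ℝ)⁻¹) ^ 4 := by rw [hr3]; ring
  have hδlt : ‖r‖ ^ 2 < (p : ℝ)⁻¹ := by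
    by_contra h
    have h1 : ((p : ℝ)⁻¹) ^ 3 ≤ (‖r‖ ^ 2) ^ 3 := pow_le_pow_left₀ hinv0.le (not_lt.1 h) 3
    rw [hδ3] at h1
    have h2 : ((p : ℝ)⁻¹) ^ 4 < ((p : ℝ)⁻¹) ^ 3 :=
      pow_lt_pow_right_of_lt_one₀ hinv0 hinv (by norm_num)
    linarith
  obtain ⟨g, hgf⟩ := ArMainB_coeff A.K0 hg he
  have hfc : ∀ i, f.coeff i ∈ A.K0 := by
    intro i
    rw [← hgf, coeff_map]
    exact (g.coeff i).2
  have hpK : (p : K) ^ 4 ∈ A.K0 := pow_mem (natCast_mem A.K0 p) 4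
  have hdeg3 : (f ^ 3).natDegree = 15 := by
    rw [(Quintic.monic (f := f)).natDegree_pow, Quintic.deg (f := f)]
  have hΨdeg : (f ^ 3 - C ((p : K) ^ 4)).natDegree = 15 := by
    rw [natDegree_sub_C, hdeg3]
  have hΨ0 : f ^ 3 - C ((p : K) ^ 4) ≠ 0 := by
    intro h
    rw [h, natDegree_zero] at hΨdeg
    exact absurd hΨdeg (by norm_num)
  have hΨc : ∀ i, (f ^ 3 - C ((p : K) ^ 4)).coeff i ∈ A.K0 := by
    intro i
    have h1 : f ^ 3 - C ((p : K) ^ 4) =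
        (g ^ 3 - C (⟨(p : K) ^ 4, hpK⟩ : A.K0)).map A.K0.subtype := by
      rw [Polynomial.map_sub, Polynomial.map_pow, hgf, map_C]
      rfl
    rw [h1, coeff_map]
    exact ((g ^ 3 - C (⟨(p : K) ^ 4, hpK⟩ : A.K0)).coeff i).2
  have hΨx : (f ^ 3 - C ((p : K) ^ 4)).eval R.x = 0 := by
    rw [eval_sub, eval_pow, eval_C, ← R.eq]
    change (r ^ 2) ^ 3 - (p : K) ^ 4 = 0
    calc (r ^ 2) ^ 3 - (p : K) ^ 4 = (r ^ 3) ^ 2 - (p : K) ^ 4 := by ring
      _ = 0 := by rw [hr]; ring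
  have hval : ∀ n : ℤ, ‖R.x - e 0‖ ≠ (p : ℝ) ^ n := by
    intro n hn
    rw [hRn] at hn
    rw [hn] at hδ3
    have h1 : (p : ℝ) ^ (n * 3) = (p : ℝ) ^ (-4 : ℤ) := by
      rw [zpow_mul, zpow_neg]
      calc ((p : ℝ) ^ n) ^ (3 : ℤ) = ((p : ℝ) ^ n) ^ 3 := by norm_cast
        _ = ((p : ℝ)⁻¹) ^ 4 := hδ3
        _ = ((p : ℝ) ^ (4 : ℤ))⁻¹ := by rw [inv_pow]; norm_cast
    have h2 : n * 3 = -4 := zpow_right_injective₀ hp0 hpr.ne' h1
    omega
  have hne : R.x ≠ e 0 := by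
    intro h
    rw [h, sub_self, norm_zero] at hRn
    have : 0 < ‖r‖ ^ 2 := by positivity
    linarith
  obtain ⟨σ, hσG, hσ⟩ := A.conj R.x (e 0) (f ^ 3 - C ((p : K) ^ 4)) (he 0) hΨ0 hΨc
    (by rw [hΨdeg]; exact hp) hΨx hval hne
  have hfσ : f.map (σ : K →+* K) = f := map_of_fix A.K0 σ (A.fix σ hσG) hfc
  refine ⟨R, σ, hfσ, hσG, ?_⟩
  intro n hn
  have hpn : ‖(p : K)‖ < 1 := by rw [A.norm_p]; exact hinv
  apply near_diff hg 0 p hpn A.norm_q R (R.map (σ : K →+* K) hfσ) (‖r‖ ^ 2) (by positivity)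
    (by rw [A.norm_p]; exact hδlt) hRn ?_ ?_ n hn
  · rw [APt.map_x]
    change ‖σ R.x - e 0‖ = _
    have h1 : σ R.x - e 0 = σ (R.x - e 0) := by
      rw [map_sub, A.fix σ hσG (e 0) (he 0)]
    rw [h1, A.norm_eq σ hσG, hRn]
  · rw [APt.map_x]
    change ‖σ R.x - R.x‖ = _
    rw [hσ, hRn]

end G2
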