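import Mathlib

/-!
# Module ArSeq: from one step to an infinite linearly independent sequence

PROOF. Let `G : Finset X → X` be a choice function for `h` (`P (G E)` and no positive multiple of
`c (G E)` is in `closure (c '' E)`). Define `b : ℕ → X` by strong recursion,
`b k = G (Finset.image b (range k))` (e.g. `Nat.strongRec` or the sequence of finsets
`E 0 = ∅`, `E (k+1) = insert (G (E k)) (E k)`, `b k = G (E k)`, classical decidable equality). Then
`P (b k)`, and `E k = {b 0, …, b (k-1)}`. Linear independence (`linearIndependent_iff'` or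
`linearIndependent_iff`): let `∑ a_i • c (b i) = 0`, `a ≠ 0`, `k` the largest index with `a_k ≠ 0`;
then `a_k • c (b k) = - ∑_{i<k} a_i • c (b i) ∈ closure (c '' E k)`, hence `|a_k| • c (b k)` too, and
`|a_k| > 0` is a natural number: contradiction.
-/

namespace G2

theorem exists_seq {X M : Type*} [AddCommGroup M] (c : X → M) (P : X → Prop)
    (h : ∀ E : Finset X, ∃ b : X, P b ∧
      ∀ m : ℕ, 0 < m → m • c b ∉ AddSubgroup.closure (c '' (E : Set X))) :
    ∃ b : ℕ → X, (∀ i, P (b i)) ∧ LinearIndependent ℤ fun i => c (b i) := by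
  classical
  choose G hG1 hG2 using h
  obtain ⟨E, hE⟩ : ∃ E : ℕ → Finset X, ∀ n, E (n + 1) = insert (G (E n)) (E n) :=
    ⟨fun n => Nat.rec ∅ (fun _ S => insert (G S) S) n, fun n => rfl⟩
  have hmem : ∀ k i : ℕ, i < k → G (E i) ∈ E k := by
    intro k
    induction k with
    | zero => intro i hi; omega
    | succ k ih =>
      intro i hi
      rw [hE]
      rcases Nat.lt_succ_iff_lt_or_eq.mp hi with h1 | h1
      · exact Finset.mem_insert_of_mem (ih i h1)
      · rw [h1]
        exact Finset.mem_insert_self _ _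
  refine ⟨fun k => G (E k), fun k => hG1 _, ?_⟩
  rw [linearIndependent_iff']
  intro s g hsum
  by_contra hcon
  push Not at hcon
  obtain ⟨i0, hi0, hg0⟩ := hcon
  have hne : (s.filter fun i => g i ≠ 0).Nonempty :=
    ⟨i0, Finset.mem_filter.mpr ⟨hi0, hg0⟩⟩
  set k := (s.filter fun i => g i ≠ 0).max' hne with hk
  have hkmem := Finset.max'_mem _ hne
  rw [← hk, Finset.mem_filter] at hkmem
  have hrest : ∑ i ∈ s.erase k, g i • c (G (E i)) ∈
      AddSubgroup.closure (c '' (E k : Set X)) := by
    refine AddSubgroup.sum_mem _ fun i hi => ?_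
    rw [Finset.mem_erase] at hi
    by_cases hgi : g i = 0
    · rw [hgi, zero_smul]
      exact AddSubgroup.zero_mem _
    · have hle : i ≤ k := Finset.le_max' _ i (Finset.mem_filter.mpr ⟨hi.2, hgi⟩)
      have hlt : i < k := lt_of_le_of_ne hle hi.1
      have h5 : c (G (E i)) ∈ c '' (E k : Set X) := ⟨_, Finset.mem_coe.mpr (hmem k i hlt), rfl⟩
      exact AddSubgroup.zsmul_mem _ (AddSubgroup.subset_closure h5) _
  rw [← Finset.add_sum_erase s _ hkmem.1] at hsum
  have h1 : g k • c (G (E k)) ∈ AddSubgroup.closure (c '' (E k : Set X)) := by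
    rw [eq_neg_of_add_eq_zero_left hsum]
    exact AddSubgroup.neg_mem _ hrest
  have h2 : (g k).natAbs • c (G (E k)) ∈ AddSubgroup.closure (c '' (E k : Set X)) := by
    rcases Int.natAbs_eq (g k) with h3 | h3
    · rw [h3, natCast_zsmul] at h1
      exact h1
    · rw [h3, neg_smul, natCast_zsmul] at h1
      simpa using AddSubgroup.neg_mem _ h1
  exact hG2 (E k) _ (Int.natAbs_pos.mpr hkmem.2) h2

end G2
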