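import Pool.Agent.Lib.MP_2eeeac_ag.G2.ArT
import Pool.Agent.Lib.MP_2eeeac_ag.G2.NTF

/-!
# Module ArStage: the right multiple

PROOF. Let `a = v P0 + v Q0`, `i = 0`, `j = 1`, `M` from `exists_T`. For `k = 0, 1, 2` let
`T_k, T'_k` be the points of `exists_T` for the multiple `p^k * M` (its `k` is `p^k`),
`τ_k = max ‖T_k.y‖ ‖T'_k.y‖`.
(1) `τ_0 > 0`: otherwise `T_0.y = T'_0.y = 0`, so `T_0.x = e_0` (`near_norm`), `T_0 = W_0`,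
`T'_0 = W_1`, `M • a = 0`, against `hnt`. Each nonzero `‖T.y‖` is in `p^ℤ` (`A.val`) and `< 1`
(`near_y_lt`), so `τ_0 = p^{-m₀}` with `m₀ ≥ 1`.
(2) `τ_{k+1} = p⁻¹ τ_k` for `k = 0, 1`: `mul_prime` with `q = p`: `τ_k³ < p⁻¹ τ_k` because
`τ_k² ≤ p⁻² < p⁻¹` (`τ_k ≤ p⁻¹`): there are `S, S'` with `p • (dW T_k + dW T'_k) = dW S + dW S'` and
`max ‖S.y‖ ‖S'.y‖ = p⁻¹ τ_k`; `p • (p^k M • a) = p^{k+1} M • a`, so `S = T_{k+1}`, `S' = T'_{k+1}`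
(`uniq_near`). So `τ_k = p^{-(m₀+k)}`.
(3) One of `m₀ + 1`, `m₀ + 2` is not divisible by 3, and it is `≥ 2`: take this `k ∈ {1, 2}`,
`m = m₀ + k`, `M' = p^k * M`. If `‖T_k.y‖ ≤ ‖T'_k.y‖` take `(i, j) = (0, 1)`, `T₁ = T_k`,
`T₂ = T'_k`; otherwise `(i, j) = (1, 0)`, `T₁ = T'_k`, `T₂ = T_k`.
-/

namespace G2

open Polynomial

variable {K : Type*} [NormedField K] [IsUltrametricDist K] [IsAlgClosed K] {f : K[X]}
  {e : Fin 5 → K}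

omit [IsUltrametricDist K] [IsAlgClosed K] in
private lemma exists_stage_zpow (p : ℕ) [hp : Fact p.Prime] (A : Arith p K) (y : K)
    (hy : y ∈ A.K0) (h0 : y ≠ 0) (h1 : ‖y‖ < 1) :
    ∃ m : ℕ, 1 ≤ m ∧ ‖y‖ = (p : ℝ) ^ (-(m : ℤ)) := by
  obtain ⟨n, hn⟩ := A.val y hy h0
  have hp1 : (1 : ℝ) < p := by exact_mod_cast hp.out.one_lt
  have hn0 : n < 0 := by
    by_contra hcon
    have h2 : (1 : ℝ) ≤ (p : ℝ) ^ n := one_le_zpow₀ hp1.le (not_lt.1 hcon)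
    rw [hn] at h1
    linarith
  refine ⟨(-n).toNat, by omega, ?_⟩
  rw [hn]
  congr 1
  omega

private lemma exists_stage_zero (hg : Good f e) (i : Fin 5) (T : APt f)
    (h : ‖T.x - e i‖ < 1) (hy : T.y = 0) : dW hg i T = 0 := by
  have h1 := near_norm hg i T h
  rw [hy, norm_zero] at h1
  have h2 : T.x = e i := by
    rw [← sub_eq_zero, ← norm_eq_zero, h1]
    norm_num
  have h3 : T = Wp hg i := by
    ext
    · exact h2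
    · exact hy
  rw [dW, h3, sub_self]

private lemma exists_stage_key (p : ℕ) [Fact p.Prime] (A : Arith p K) (hg : Good f e)
    {i j : Fin 5} (T T' : APt f) (hT : ‖T.x - e i‖ < 1) (hT' : ‖T'.x - e j‖ < 1)
    (rT : RatPt A.K0 (some T)) (rT' : RatPt A.K0 (some T'))
    (hne : dW hg i T + dW hg j T' ≠ 0) :
    ∃ m : ℕ, 1 ≤ m ∧ max ‖T.y‖ ‖T'.y‖ = (p : ℝ) ^ (-(m : ℤ)) := by
  have hy : T.y ∈ A.K0 := (rT T rfl).2
  have hy' : T'.y ∈ A.K0 := (rT' T' rfl).2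
  rcases le_total ‖T.y‖ ‖T'.y‖ with h | h
  · rw [max_eq_right h]
    apply exists_stage_zpow p A _ hy' ?_ (near_y_lt hg j T' hT')
    intro h0
    have h1 : T.y = 0 := by
      rw [← norm_eq_zero]
      rw [h0, norm_zero] at h
      exact le_antisymm h (norm_nonneg _)
    apply hne
    rw [exists_stage_zero hg i T hT h1, exists_stage_zero hg j T' hT' h0, add_zero]
  · rw [max_eq_left h]
    apply exists_stage_zpow p A _ hy ?_ (near_y_lt hg i T hT)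
    intro h0
    have h1 : T'.y = 0 := by
      rw [← norm_eq_zero]
      rw [h0, norm_zero] at h
      exact le_antisymm h (norm_nonneg _)
    apply hne
    rw [exists_stage_zero hg i T hT h0, exists_stage_zero hg j T' hT' h1, add_zero]

private lemma exists_stage_step (p : ℕ) [hp : Fact p.Prime] (A : Arith p K) (hg : Good f e)
    {i j : Fin 5} (hij : i ≠ j) (T T' S S' : APt f) (hT : ‖T.x - e i‖ < 1)
    (hT' : ‖T'.x - e j‖ < 1) (hS : ‖S.x - e i‖ < 1) (hS' : ‖S'.x - e j‖ < 1) (m : ℕ)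
    (hm : 1 ≤ m) (hmax : max ‖T.y‖ ‖T'.y‖ = (p : ℝ) ^ (-(m : ℤ)))
    (hrel : p • (dW hg i T + dW hg j T') = dW hg i S + dW hg j S') :
    max ‖S.y‖ ‖S'.y‖ = (p : ℝ) ^ (-((m + 1 : ℕ) : ℤ)) := by
  have hp1 : (1 : ℝ) < p := by exact_mod_cast hp.out.one_lt
  have hp0 : (0 : ℝ) < p := by linarith
  have hsh : (p : ℝ)⁻¹ * (p : ℝ) ^ (-(m : ℤ)) = (p : ℝ) ^ (-((m + 1 : ℕ) : ℤ)) := by
    rw [← zpow_neg_one, ← zpow_add₀ hp0.ne']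
    congr 1
    push_cast
    ring
  obtain ⟨U, U', hU, hU', h1, h2⟩ := mul_prime hg hij T T' hT hT' p
    (by rw [hmax]; exact zpow_pos hp0 _)
    (by
      rw [hmax, A.norm_p, hsh, ← zpow_natCast, ← zpow_mul]
      apply zpow_lt_zpow_right₀ hp1
      push_cast
      omega)
  obtain ⟨h3, h4⟩ := uniq_near hg hij U U' S S' hU hU' hS hS' (h1.symm.trans hrel)
  rw [← h3, ← h4, h2, hmax, A.norm_p, hsh]

private lemma exists_stage_fin (p : ℕ) [Fact p.Prime] (A : Arith p K) (hg : Good f e)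
    (a : Pic f) {i j : Fin 5} (hij : i ≠ j) (M' m : ℕ) (T T' : APt f) (hM' : 0 < M')
    (hm : 2 ≤ m) (hm3 : ¬ 3 ∣ m) (hT : ‖T.x - e i‖ < 1) (hT' : ‖T'.x - e j‖ < 1)
    (rT : RatPt A.K0 (some T)) (rT' : RatPt A.K0 (some T'))
    (hrel : M' • a = dW hg i T + dW hg j T')
    (hmax : max ‖T.y‖ ‖T'.y‖ = (p : ℝ) ^ (-(m : ℤ))) :
    ∃ (i j : Fin 5) (M' m : ℕ) (T₁ T₂ : APt f), i ≠ j ∧ 0 < M' ∧ 2 ≤ m ∧ ¬ 3 ∣ m ∧
      ‖T₁.x - e i‖ < 1 ∧ ‖T₂.x - e j‖ < 1 ∧ RatPt A.K0 (some T₁) ∧ RatPt A.K0 (some T₂) ∧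
      M' • a = dW hg i T₁ + dW hg j T₂ ∧ ‖T₁.y‖ ≤ ‖T₂.y‖ ∧
      ‖T₂.y‖ = (p : ℝ) ^ (-(m : ℤ)) := by
  rcases le_total ‖T.y‖ ‖T'.y‖ with h | h
  · rw [max_eq_right h] at hmax
    exact ⟨i, j, M', m, T, T', hij, hM', hm, hm3, hT, hT', rT, rT', hrel, h, hmax⟩
  · rw [max_eq_left h] at hmax
    exact ⟨j, i, M', m, T', T, hij.symm, hM', hm, hm3, hT', hT, rT', rT,
      by rw [hrel, add_comm], h, hmax⟩

theorem exists_stage (p : ℕ) [Fact p.Prime] (A : Arith p K) (hg : Good f e)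
    (he : ∀ l, e l ∈ A.K0) (P0 Q0 : HPt f) (hP0 : RatPt A.K0 P0) (hQ0 : RatPt A.K0 Q0)
    (hnt : ∀ n : ℕ, 0 < n → n • (v P0 + v Q0) ≠ 0) :
    ∃ (i j : Fin 5) (M' m : ℕ) (T₁ T₂ : APt f), i ≠ j ∧ 0 < M' ∧ 2 ≤ m ∧ ¬ 3 ∣ m ∧
      ‖T₁.x - e i‖ < 1 ∧ ‖T₂.x - e j‖ < 1 ∧ RatPt A.K0 (some T₁) ∧ RatPt A.K0 (some T₂) ∧
      M' • (v P0 + v Q0) = dW hg i T₁ + dW hg j T₂ ∧ ‖T₁.y‖ ≤ ‖T₂.y‖ ∧
      ‖T₂.y‖ = (p : ℝ) ^ (-(m : ℤ)) := by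
  have h01 : (0 : Fin 5) ≠ 1 := by decide
  have hp0 : 0 < p := (Fact.out : p.Prime).pos
  obtain ⟨M, hM, hT⟩ := exists_T p A hg he P0 Q0 hP0 hQ0 h01
  obtain ⟨T0, T0', a0, a0', r0, r0', e0⟩ := hT 1
  obtain ⟨T1, T1', a1, a1', r1, r1', e1⟩ := hT p
  obtain ⟨T2, T2', a2, a2', r2, r2', e2⟩ := hT (p * p)
  obtain ⟨m, hm, hmax⟩ := exists_stage_key p A hg T0 T0' a0 a0' r0 r0'
    (by rw [← e0]; exact hnt _ (by omega))
  have hmax1 := exists_stage_step p A hg h01 T0 T0' T1 T1' a0 a0' a1 a1' m hm hmax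
    (by rw [← e0, ← e1, smul_smul]; congr 1; ring)
  have hmax2 := exists_stage_step p A hg h01 T1 T1' T2 T2' a1 a1' a2 a2' (m + 1) (by omega) hmax1
    (by rw [← e1, ← e2, smul_smul]; congr 1; ring)
  by_cases h3 : 3 ∣ m + 1
  · exact exists_stage_fin p A hg _ h01 (p * p * M) (m + 1 + 1) T2 T2'
      (by positivity) (by omega) (by omega) a2 a2' r2 r2' e2 hmax2
  · exact exists_stage_fin p A hg _ h01 (p * M) (m + 1) T1 T1'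
      (by positivity) (by omega) h3 a1 a1' r1 r1' e1 hmax1

end G2
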