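import Pool.Agent.Lib.MP_2eeeac_ag.G2.CPrin

/-!
# Module CBil: `(P - ∞) × (P - ∞) = 0` and the final formal computation
-/

namespace G2

open Polynomial AlbCH

section

variable {k : Type*} [Field k] {f : k[X]}

private theorem cbil_two {v : CH0H f} (h : v + v = 0) : v = 0 := by
  have h1 : (2 : ℚ) • v = 0 := by rw [two_smul]; exact h
  have h2 := congrArg (fun w => (2 : ℚ)⁻¹ • w) h1
  simpa [smul_smul] using h2

private theorem cbil_nsmul {v : CH0H f} {n : ℕ} (hn : 1 ≤ n) (h : n • v = 0) : v = 0 := by
  have hn0 : (n : ℚ) ≠ 0 := by exact_mod_cast (Nat.one_le_iff_ne_zero.mp hn)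
  have h1 : (n : ℚ) • v = 0 := by rw [Nat.cast_smul_eq_nsmul]; exact h
  have h2 := congrArg (fun w => (n : ℚ)⁻¹ • w) h1
  simpa [smul_smul, inv_mul_cancel₀ hn0] using h2

/-- the divisor `P - ∞` -/
noncomputable def dP (P : HPt f) : Dv f := Finsupp.single P 1 - Finsupp.single none 1

lemma v_eq (P : HPt f) : v P = cls (dP P) := rfl

lemma dP_none : dP (none : HPt f) = 0 := sub_self _

theorem box_dP (P Q : HPt f) :
    box (dP P) (dP Q) = clH P Q - clH P none - clH none Q + clH none none := by
  unfold dP
  rw [box_sub_left, box_sub_right, box_sub_right, box_single_one, box_single_one,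
    box_single_one, box_single_one]
  abel

end

section

variable {k : Type*} [Field k] [IsAlgClosed k] {f : k[X]} [Quintic f]

omit [IsAlgClosed k] in
theorem pencil_prin (A : APt f) :
    Mprod {A, A.neg} = Ideal.span {(⟨X - C A.x, 0⟩ : CR f)} := by
  rw [← m_mul_negC A]
  simp [Mprod]

theorem pencil_mem (A : APt f) : dP (some A) + dP (some A.neg) ∈ PrinDiv f := by
  refine AddSubgroup.subset_closure ⟨{A, A.neg}, _, pencil_prin A, ?_⟩
  simp [divOf, dP]

theorem box_neg_dP_left (A : APt f) (E : Dv f) :
    box (dP (some A.neg)) E = -box (dP (some A)) E := by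
  have h := box_prin_left _ (pencil_mem A) E
  rw [box_add_left] at h
  exact (neg_eq_of_add_eq_zero_right h).symm

theorem box_neg_dP_right (A : APt f) (E : Dv f) :
    box E (dP (some A.neg)) = -box E (dP (some A)) := by
  have h := box_prin_right _ (pencil_mem A) E
  rw [box_add_right] at h
  exact (neg_eq_of_add_eq_zero_right h).symm

/-- **`(P - ∞) × (P - ∞) = 0` in `CH₀(C × C) ⊗ ℚ`.** -/
theorem box_self (P : HPt f) : box (dP P) (dP P) = 0 := by
  rcases P with _ | A
  · rw [dP_none, box_zero_left]
  · have h1 : box (dP (some A.neg)) (dP (some A.neg)) = box (dP (some A)) (dP (some A)) := by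
      rw [box_neg_dP_left, box_neg_dP_right, neg_neg]
    have h2 := divOf_diag {A, A.neg} _ (pencil_prin A)
    have h3 := divOf_left {A, A.neg} _ (pencil_prin A) none
    have h4 := divOf_right {A, A.neg} _ (pencil_prin A) none
    have e : divOf {A, A.neg} = dP (some A) + dP (some A.neg) := by
      simp [divOf, dP]
    rw [e] at h3 h4
    unfold dP at h3 h4
    rw [box_add_left, box_sub_left, box_sub_left, box_single_one, box_single_one,
      box_single_one] at h3
    rw [box_add_right, box_sub_right, box_sub_right, box_single_one, box_single_one,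
      box_single_one] at h4
    simp only [Multiset.insert_eq_cons, Multiset.map_cons, Multiset.map_singleton,
      Multiset.sum_cons, Multiset.sum_singleton] at h2
    have h5 : box (dP (some A)) (dP (some A)) + box (dP (some A.neg)) (dP (some A.neg)) = 0 := by
      rw [box_dP, box_dP]
      have e5 : clH (some A) (some A) - clH (some A) none - clH none (some A) + clH none none +
          (clH (some A.neg) (some A.neg) - clH (some A.neg) none - clH none (some A.neg)
            + clH (none : HPt f) none) =
          (clH (some A) (some A) - clH (none : HPt f) none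
            + (clH (some A.neg) (some A.neg) - clH (none : HPt f) none))
          - (clH (some A) none - clH none none + (clH (some A.neg) none - clH none none))
          - (clH none (some A) - clH none none + (clH none (some A.neg) - clH none none)) := by
        abel
      rw [e5, h2, h3, h4]
      simp
    rw [h1] at h5
    exact cbil_two h5

/-- Divisors with the same class have the same exterior products. -/
theorem box_congr_left {D D' : Dv f} (h : cls D = cls D') (E : Dv f) : box D E = box D' E := by
  have h1 : cls (D - D') = 0 := by rw [cls_sub, h, sub_self]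
  rw [cls_eq_zero_iff] at h1
  have h2 := box_prin_left _ h1 E
  rw [box_sub_left] at h2
  exact sub_eq_zero.mp h2

theorem box_congr_right {D D' : Dv f} (h : cls D = cls D') (E : Dv f) : box E D = box E D' := by
  have h1 : cls (D - D') = 0 := by rw [cls_sub, h, sub_self]
  rw [cls_eq_zero_iff] at h1
  have h2 := box_prin_right _ h1 E
  rw [box_sub_right] at h2
  exact sub_eq_zero.mp h2

/-- **The final computation.**  If `n₀ D ~ 4 (R - ∞) + 2 (S - ∞)` and
`B = 4 (R - ∞) - 2 (S - ∞)` then `D × B + B × D = 0` and `B × B + n₀² D × D = 0`. -/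
theorem box_final (D : Dv f) (n₀ : ℕ) (hn : 1 ≤ n₀) (R S : HPt f)
    (h : cls (n₀ • D) = 4 • v R + 2 • v S) :
    box D (4 • dP R - 2 • dP S) + box (4 • dP R - 2 • dP S) D = 0 ∧
    box (4 • dP R - 2 • dP S) (4 • dP R - 2 • dP S) + ((n₀ : ℚ) ^ 2) • box D D = 0 := by
  have hA : cls (n₀ • D) = cls (4 • dP R + 2 • dP S) := by
    rw [h, cls_add, cls_nsmul, cls_nsmul]
    rfl
  have hRR := box_self R
  have hSS := box_self S
  constructor
  · apply cbil_nsmul hn
    rw [nsmul_add, ← box_nsmul_left, ← box_nsmul_right, box_congr_left hA, box_congr_right hA]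
    simp only [box_add_left, box_add_right, box_sub_left, box_sub_right, box_nsmul_left,
      box_nsmul_right, hRR, hSS]
    abel
  · have h1 : ((n₀ : ℚ) ^ 2) • box D D = box (n₀ • D) (n₀ • D) := by
      rw [box_nsmul_left, box_nsmul_right, sq, mul_smul, Nat.cast_smul_eq_nsmul,
        Nat.cast_smul_eq_nsmul]
    rw [h1, box_congr_left hA, box_congr_right hA]
    simp only [box_add_left, box_add_right, box_sub_left, box_sub_right, box_nsmul_left,
      box_nsmul_right, hRR, hSS]
    abel

/-- The torsion case. -/
theorem box_final_torsion (D : Dv f) (m : ℕ) (hm : 1 ≤ m) (h : cls (m • D) = 0) (R : HPt f) :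
    box D (dP R) + box (dP R) D = 0 ∧ box (dP R) (dP R) + box D D = 0 := by
  rw [cls_eq_zero_iff] at h
  have h1 : ∀ E, box D E = 0 := fun E => by
    apply cbil_nsmul hm
    rw [← box_nsmul_left]
    exact box_prin_left _ h E
  have h2 : ∀ E, box E D = 0 := fun E => by
    apply cbil_nsmul hm
    rw [← box_nsmul_right]
    exact box_prin_right _ h E
  rw [h1, h2, h1, box_self, add_zero]
  exact ⟨rfl, rfl⟩

end

end G2
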