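import Pool.Agent.Lib.MP_2eeeac_ag.G2.ArMainA
import Pool.Agent.Lib.MP_2eeeac_ag.G2.ArMainB
import Pool.Agent.Lib.MP_2eeeac_ag.G2.ArEx
import Pool.Agent.Lib.MP_2eeeac_ag.G2.CBil

/-!
# Module ArStep: one new independent class

PROOF. `f = ∏ (X - e_i)` with `e : Fin 5 → ℚ̄` injective (`f` is monic, separable, splits, degree 5).
`jacobi_inversion`: `cls D = v P0 + v Q0`. Let `S` be the finite set of: `2`, all `e_i`, all
`e_i - e_j`, the coordinates of `P0`, `Q0`, and the coordinates of all affine points in the supports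
of the divisors in `E`. Take `p > 15`, `ι`, `A` from `exists_arith S 15`;
`letI := NormedField.induced …` (its norm is `‖ι x‖`), `IsUltrametricDist` from that of
`PadicAlgCl p`; `Good f e` (`‖e_i‖ ≤ 1`: it is 0 or of norm 1; `‖e_i - e_j‖ = 1`, `‖2‖ = 1`).
Case 1: `N • cls D ≠ 0` for all `N > 0`: `main_nontors` gives `N, R, S', σ`. Put
`B = 4 • dP (some R) - 2 • dP S'`, `n = N`. The relations are `box_final`. `dg B = 0` clear.
`cls B = 4 v R - 2 v S' = 8 v R - N • cls D`. If `m • cls B ∈ closure (cls '' E)`, `m > 0`: `picMap σ hσ`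
fixes `cls D'` for `D' ∈ E` (`σ` fixes all points of its support, `A.fix`; `picMap_cls`, write `D'` as
a sum of `single`s), so it fixes `m • cls B`; it also fixes `cls D = v P0 + v Q0`. So
`0 = picMap (m • cls B) - m • cls B = (8 m) • (v (σR) - v R)`, a contradiction.
Case 2: `M • cls D = 0` for some `M > 0`: `main_tors` gives `R, σ`; `B = dP (some R)`, `n = 1`, the
relations are `box_final_torsion`; if `m • cls B` is in the closure then
`m • (v (σR) - v R) = 0`, a contradiction.
-/

namespace G2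

open Polynomial

private lemma ArStep_exists_roots {K : Type*} [Field K] [IsAlgClosed K] (f : K[X]) [Quintic f] :
    ∃ e : Fin 5 → K, f = ∏ i, (X - C (e i)) ∧ Function.Injective e := by
  classical
  have hm : f.Monic := Quintic.monic
  have hd : f.natDegree = 5 := Quintic.deg
  have hs : f.Separable := Quintic.sep
  have hsp : f.Splits := IsAlgClosed.splits f
  have hnd : f.roots.Nodup := nodup_roots hs
  have hcard : f.roots.toFinset.card = 5 := by
    rw [Multiset.toFinset_card_of_nodup hnd, ← hd]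
    exact hsp.natDegree_eq_card_roots.symm
  let eqv := f.roots.toFinset.equivFinOfCardEq hcard
  refine ⟨fun i => (eqv.symm i : K), ?_, ?_⟩
  · have h1 : f = (f.roots.map fun a => X - C a).prod := by
      have h2 := hsp.eq_prod_roots
      rw [hm.leadingCoeff, C_1, one_mul] at h2
      exact h2
    have h3 : (f.roots.map fun a => X - C a).prod = ∏ a ∈ f.roots.toFinset, (X - C a) := by
      rw [Finset.prod_eq_multiset_prod, Multiset.toFinset_val, Multiset.dedup_eq_self.2 hnd]
    rw [h3, ← Finset.prod_coe_sort] at h1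
    rw [Equiv.prod_comp eqv.symm (fun a => (X - C (a : K)))]
    exact h1
  · intro i j hij
    exact eqv.symm.injective (Subtype.ext hij)

section dgs

variable {K : Type*} [Field K] {f : K[X]}

private noncomputable def ArStep_dgHom (f : K[X]) : Dv f →+ ℤ :=
  Finsupp.liftAddHom fun _ => AddMonoidHom.id ℤ

private lemma ArStep_dg_eq (D : Dv f) : dg D = ArStep_dgHom f D := by
  rw [ArStep_dgHom, Finsupp.liftAddHom_apply]
  rfl

private lemma ArStep_dg_dP (P : HPt f) : ArStep_dgHom f (dP P) = 0 := by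
  rw [dP, map_sub, ArStep_dgHom, Finsupp.liftAddHom_apply_single, Finsupp.liftAddHom_apply_single]
  simp

private lemma ArStep_fix {K0 : Subfield K} (σ : K ≃+* K) (hσ : f.map (σ : K →+* K) = f)
    (hfix : ∀ x ∈ K0, σ x = x) (P : HPt f) (hP : RatPt K0 P) :
    HPt.map (σ : K →+* K) hσ P = P := by
  rcases P with _ | Q
  · rfl
  · obtain ⟨h1, h2⟩ := hP Q rfl
    change some (Q.map _ _) = some Q
    congr 1
    ext
    · exact hfix _ h1
    · exact hfix _ h2

private lemma ArStep_fixD {K0 : Subfield K} (σ : K ≃+* K) (hσ : f.map (σ : K →+* K) = f)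
    (hfix : ∀ x ∈ K0, σ x = x) (D : Dv f) (hD : ∀ P ∈ D.support, RatPt K0 P) :
    picMap (σ : K →+* K) hσ (cls D) = cls D := by
  rw [picMap_cls]
  congr 1
  change Finsupp.mapDomain (HPt.map (σ : K →+* K) hσ) D = D
  rw [Finsupp.mapDomain_congr (g := id)
    (fun P hP => ArStep_fix σ hσ hfix P (hD P hP)), Finsupp.mapDomain_id]

end dgs

private theorem ArStep_normed {K : Type*} [NormedField K] [IsUltrametricDist K] [IsAlgClosed K]
    (f : K[X]) [Quintic f] (e : Fin 5 → K) (hg : Good f e) (p : ℕ) [Fact p.Prime] (hp : 15 < p)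
    (A : Arith p K) (he : ∀ l, e l ∈ A.K0) (D : Dv f) (P0 Q0 : HPt f)
    (hD : cls D = v P0 + v Q0) (hP0 : RatPt A.K0 P0) (hQ0 : RatPt A.K0 Q0) (E : Finset (Dv f))
    (hE : ∀ D' ∈ E, ∀ P ∈ D'.support, RatPt A.K0 P) :
    ∃ (B : Dv f) (n : ℕ), dg B = 0 ∧ 0 < n ∧ box D B + box B D = 0 ∧
      box B B + ((n : ℚ) ^ 2) • box D D = 0 ∧
      ∀ m : ℕ, 0 < m → m • cls B ∉ AddSubgroup.closure (cls '' (E : Set (Dv f))) := by
  classical
  -- elements of the closure are fixed
  have hclos : ∀ (σ : K ≃+* K) (hσ : f.map (σ : K →+* K) = f), σ ∈ A.G →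
      ∀ z ∈ AddSubgroup.closure (cls '' (E : Set (Dv f))),
        picMap (σ : K →+* K) hσ z = z := by
    intro σ hσ hσG z hz
    induction hz using AddSubgroup.closure_induction with
    | mem z hz =>
      obtain ⟨D', hD', rfl⟩ := hz
      exact ArStep_fixD σ hσ (A.fix σ hσG) D' (hE D' hD')
    | zero => exact map_zero _
    | add x y _ _ hx hy => rw [map_add, hx, hy]
    | neg x _ hx => rw [map_neg, hx]
  have hDfix : ∀ (σ : K ≃+* K) (hσ : f.map (σ : K →+* K) = f), σ ∈ A.G →
      picMap (σ : K →+* K) hσ (cls D) = cls D := by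
    intro σ hσ hσG
    rw [hD, map_add, picMap_v, picMap_v, ArStep_fix σ hσ (A.fix σ hσG) P0 hP0,
      ArStep_fix σ hσ (A.fix σ hσG) Q0 hQ0]
  by_cases htor : ∃ M : ℕ, 0 < M ∧ M • cls D = 0
  · obtain ⟨M, hM, hMD⟩ := htor
    obtain ⟨R, σ, hσ, hσG, hnt⟩ := main_tors p hp A hg he
    have hbox := box_final_torsion D M hM (by rw [cls_nsmul]; exact hMD) (some R)
    refine ⟨dP (some R), 1, ?_, one_pos, hbox.1, ?_, ?_⟩
    · rw [ArStep_dg_eq, ArStep_dg_dP]
    · rw [Nat.cast_one, one_pow, one_smul]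
      exact hbox.2
    · intro m hm hmem
      have h1 := hclos σ hσ hσG _ hmem
      rw [← v_eq, map_nsmul, picMap_v] at h1
      apply hnt m hm
      have h2 : ∀ a b : Pic f, m • a = m • b → m • (a - b) = 0 := by
        intro a b hab
        rw [nsmul_sub, hab, sub_self]
      exact h2 _ _ h1
  · have hnt0 : ∀ n : ℕ, 0 < n → n • (v P0 + v Q0) ≠ 0 := by
      intro n hn h0
      exact htor ⟨n, hn, by rw [hD]; exact h0⟩
    obtain ⟨N, R, S, σ, hσ, hN, hrel, hσG, hnt⟩ :=
      main_nontors p hp A hg he P0 Q0 hP0 hQ0 hnt0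
    have hbox := box_final D N hN (some R) S (by rw [cls_nsmul, hD]; exact hrel)
    refine ⟨4 • dP (some R) - 2 • dP S, N, ?_, hN, hbox.1, hbox.2, ?_⟩
    · rw [ArStep_dg_eq, map_sub, map_nsmul, map_nsmul, ArStep_dg_dP, ArStep_dg_dP]
      simp
    · intro m hm hmem
      have hB : cls (4 • dP (some R) - 2 • dP S) = 8 • v (some R) - N • cls D := by
        rw [cls_sub, cls_nsmul, cls_nsmul, ← v_eq, ← v_eq, hD, hrel]
        abel
      have h1 := hclos σ hσ hσG _ hmem
      rw [hB, map_nsmul, map_sub, map_nsmul, map_nsmul, picMap_v, hDfix σ hσ hσG] at h1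
      apply hnt (8 * m) (by omega)
      have h2 : ∀ a b c : Pic f, m • (8 • a - c) = m • (8 • b - c) → (8 * m) • (a - b) = 0 := by
        intro a b c hab
        rw [nsmul_sub, nsmul_sub, sub_left_inj] at hab
        rw [nsmul_sub, mul_comm, mul_nsmul', mul_nsmul', hab, sub_self]
      exact h2 _ _ _ h1

theorem step (f : (AlgebraicClosure ℚ)[X]) [Quintic f] (D : Dv f) (hD : dg D = 0)
    (E : Finset (Dv f)) :
    ∃ (B : Dv f) (n : ℕ), dg B = 0 ∧ 0 < n ∧ box D B + box B D = 0 ∧
      box B B + ((n : ℚ) ^ 2) • box D D = 0 ∧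
      ∀ m : ℕ, 0 < m → m • cls B ∉ AddSubgroup.closure (cls '' (E : Set (Dv f))) := by
  classical
  obtain ⟨e, he, hinj⟩ := ArStep_exists_roots f
  obtain ⟨P0, Q0, hPQ⟩ := jacobi_inversion D hD
  -- the coordinates of a point
  let co : HPt f → Finset (AlgebraicClosure ℚ) := fun P =>
    match P with
    | none => ∅
    | some Q => {Q.x, Q.y}
  let S : Finset (AlgebraicClosure ℚ) :=
    {2} ∪ Finset.univ.image e ∪ Finset.univ.image (fun ij : Fin 5 × Fin 5 => e ij.1 - e ij.2)
      ∪ co P0 ∪ co Q0 ∪ E.biUnion fun D' => D'.support.biUnion co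
  obtain ⟨p, hpp, ι, hp, A, hA⟩ := exists_arith S 15
  letI : NormedField (AlgebraicClosure ℚ) :=
    NormedField.induced (AlgebraicClosure ℚ) (PadicAlgCl p) ι ι.injective
  have hnorm : ∀ x : AlgebraicClosure ℚ, ‖x‖ = ‖ι x‖ := fun x => rfl
  haveI : IsUltrametricDist (AlgebraicClosure ℚ) := by
    refine IsUltrametricDist.isUltrametricDist_of_forall_norm_add_le_max_norm fun x y => ?_
    rw [hnorm, hnorm, hnorm, map_add]
    exact IsUltrametricDist.norm_add_le_max _ _
  have hrat : ∀ P : HPt f, co P ⊆ S → RatPt A.K0 P := by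
    intro P hP Q hQ
    subst hQ
    exact ⟨(hA _ (hP (by simp [co]))).1, (hA _ (hP (by simp [co]))).1⟩
  have hmemE : ∀ l, e l ∈ S := fun l => by
    simp only [S, Finset.mem_union, Finset.mem_image, Finset.mem_univ, true_and]
    exact Or.inl (Or.inl (Or.inl (Or.inl (Or.inr ⟨l, rfl⟩))))
  have hmemd : ∀ i j, e i - e j ∈ S := fun i j => by
    simp only [S, Finset.mem_union, Finset.mem_image, Finset.mem_univ, true_and]
    exact Or.inl (Or.inl (Or.inl (Or.inr ⟨(i, j), rfl⟩)))
  have h2mem : (2 : AlgebraicClosure ℚ) ∈ S := by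
    simp [S]
  have hg : Good f e := by
    refine ⟨he, fun i => ?_, fun i j hij => ?_, ?_⟩
    · by_cases h0 : e i = 0
      · rw [h0, norm_zero]; exact zero_le_one
      · exact ((hA _ (hmemE i)).2 h0).le
    · exact (hA _ (hmemd i j)).2 (sub_ne_zero.2 fun h => hij (hinj h))
    · exact (hA _ h2mem).2 two_ne_zero
  refine ArStep_normed f e hg p hp A (fun l => (hA _ (hmemE l)).1) D P0 Q0 hPQ
    (hrat P0 ?_) (hrat Q0 ?_) E ?_
  · intro x hx
    simp only [S, Finset.mem_union]
    exact Or.inl (Or.inl (Or.inr hx))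
  · intro x hx
    simp only [S, Finset.mem_union]
    exact Or.inl (Or.inr hx)
  · intro D' hD' P hP
    apply hrat
    intro x hx
    simp only [S, Finset.mem_union, Finset.mem_biUnion]
    exact Or.inr ⟨D', hD', P, hP, hx⟩

end G2
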