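import Pool.Agent.Lib.MP_2eeeac_ag.G2.BL3

/-!
# Module BRed: the reduction homomorphism of the Picard groups

PROOF. Let `μ : Dv f →+ Dv f'` be `Finsupp.mapDomain.addMonoidHom (red …)`; then
`μ (single P n) = single (red P) n` and `μ (divOf s) = divOf (s.filterMap redA)`: by induction on
`s`, since `red (some P) = redA P`, and `red P = ∞` contributes `single none 1 - single none 1 = 0`
(and `red none = none`).
We show `PrinDiv f ≤ comap μ (PrinDiv f')` on the generators: let `Mprod s = (g)`. `g ≠ 0`
(`Mprod_ne_bot`). Multiply `g` by a constant `λ ∈ K`, `λ ≠ 0`, such that all the coefficients of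
`λ g.re` and `λ g.im` are in `O` and one of them is `1` (valuation ring; finite set of
coefficients): then `λ g = CRmap O.subtype hf g₀` with `g₀ : CR F` and `CRmap res hf' g₀ ≠ 0`, and
`(λ g) = (g)` since `λ` is a unit. By `L3`, `Mprod (s.filterMap redA) = (ḡ₀)`, so
`μ (divOf s) = divOf (s.filterMap redA) ∈ PrinDiv f'`. Take
`ρ = QuotientAddGroup.map _ _ μ _`, `ρ (v P) = cls (single (red P) 1 - single none 1)`.
-/

namespace G2

open Polynomial

/-- scaling of two polynomials over a valued field -/
private theorem exists_scale {K : Type*} [Field K] (O : ValuationSubring K) (a b : K[X])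
    (hab : a ≠ 0 ∨ b ≠ 0) :
    ∃ (c : K) (a₀ b₀ : O[X]), c ≠ 0 ∧ a₀.map O.subtype = C c * a ∧ b₀.map O.subtype = C c * b ∧
      ((∃ i, a₀.coeff i = 1) ∨ ∃ i, b₀.coeff i = 1) := by
  classical
  let T : Finset K := a.support.image a.coeff ∪ b.support.image b.coeff
  have hTne : T.Nonempty := by
    rcases hab with h | h
    · obtain ⟨i, hi⟩ := support_nonempty.mpr h
      exact ⟨a.coeff i, Finset.mem_union_left _ (Finset.mem_image_of_mem _ hi)⟩
    · obtain ⟨i, hi⟩ := support_nonempty.mpr h
      exact ⟨b.coeff i, Finset.mem_union_right _ (Finset.mem_image_of_mem _ hi)⟩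
  obtain ⟨t, htT, ht⟩ := Finset.exists_max_image T O.valuation hTne
  have ht0 : t ≠ 0 := by
    rw [Finset.mem_union, Finset.mem_image, Finset.mem_image] at htT
    rcases htT with ⟨i, hi, rfl⟩ | ⟨i, hi, rfl⟩
    · exact mem_support_iff.mp hi
    · exact mem_support_iff.mp hi
  have hmem : ∀ w : K, (w = 0 ∨ w ∈ T) → t⁻¹ * w ∈ O := by
    rintro w (rfl | hw)
    · rw [mul_zero]; exact O.zero_mem
    · rw [← ValuationSubring.valuation_le_one_iff, map_mul, map_inv₀]
      have h1 := ht w hw
      have h2 : O.valuation t ≠ 0 := (Valuation.ne_zero_iff _).mpr ht0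
      calc (O.valuation t)⁻¹ * O.valuation w ≤ (O.valuation t)⁻¹ * O.valuation t := by
            gcongr
        _ = 1 := inv_mul_cancel₀ h2
  have hlift : ∀ w : K[X], (∀ i, w.coeff i = 0 ∨ w.coeff i ∈ T) →
      ∃ w₀ : O[X], w₀.map O.subtype = C t⁻¹ * w := by
    intro w hw
    have h1 : C t⁻¹ * w ∈ lifts O.subtype := by
      rw [lifts_iff_coeff_lifts]
      intro i
      rw [coeff_C_mul]
      exact ⟨⟨_, hmem _ (hw i)⟩, rfl⟩
    rw [mem_lifts] at h1
    exact h1
  have ha : ∀ i, a.coeff i = 0 ∨ a.coeff i ∈ T := by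
    intro i
    by_cases h : a.coeff i = 0
    · left; exact h
    · right
      exact Finset.mem_union_left _ (Finset.mem_image_of_mem _ (mem_support_iff.mpr h))
  have hb : ∀ i, b.coeff i = 0 ∨ b.coeff i ∈ T := by
    intro i
    by_cases h : b.coeff i = 0
    · left; exact h
    · right
      exact Finset.mem_union_right _ (Finset.mem_image_of_mem _ (mem_support_iff.mpr h))
  obtain ⟨a₀, ha₀⟩ := hlift a ha
  obtain ⟨b₀, hb₀⟩ := hlift b hb
  refine ⟨t⁻¹, a₀, b₀, inv_ne_zero ht0, ha₀, hb₀, ?_⟩
  rw [Finset.mem_union, Finset.mem_image, Finset.mem_image] at htT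
  rcases htT with ⟨i, hi, hti⟩ | ⟨i, hi, hti⟩
  · left
    refine ⟨i, ?_⟩
    apply Subtype.val_injective
    have h1 := congrArg (fun w : K[X] => w.coeff i) ha₀
    simp only [coeff_map, coeff_C_mul, hti] at h1
    rw [inv_mul_cancel₀ ht0] at h1
    exact h1
  · right
    refine ⟨i, ?_⟩
    apply Subtype.val_injective
    have h1 := congrArg (fun w : K[X] => w.coeff i) hb₀
    simp only [coeff_map, coeff_C_mul, hti] at h1
    rw [inv_mul_cancel₀ ht0] at h1
    exact h1

theorem exists_redPic {K κ : Type*} [Field K] [Field κ] [IsAlgClosed κ]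
    (O : ValuationSubring K) (res : O →+* κ) (hres : Function.Surjective res)
    (F : O[X]) (f : K[X]) (f' : κ[X]) (hf : F.map O.subtype = f) (hf' : F.map res = f')
    [Quintic f] [Quintic f'] :
    ∃ ρ : Pic f →+ Pic f', ∀ P : HPt f, ρ (v P) = v (red O res F f f' hf hf' P) := by
  classical
  let μ : Dv f →+ Dv f' := Finsupp.mapDomain.addMonoidHom (red O res F f f' hf hf')
  have hμ : ∀ (P : HPt f) (n : ℤ),
      μ (Finsupp.single P n) = Finsupp.single (red O res F f f' hf hf' P) n := fun P n =>
    Finsupp.mapDomain_single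
  have hnone : red O res F f f' hf hf' none = none := rfl
  have hsome : ∀ P : APt f, red O res F f f' hf hf' (some P) = redA O res F f f' hf hf' P :=
    fun P => rfl
  have hdiv : ∀ s : Multiset (APt f),
      μ (divOf s) = divOf (s.filterMap (redA O res F f f' hf hf')) := by
    intro s
    induction s using Multiset.induction with
    | empty => rw [Multiset.filterMap_zero, divOf_zero, divOf_zero, map_zero]
    | cons P s ih =>
      rw [divOf_cons, map_add, ih, map_sub, hμ, hμ, hnone, hsome]
      cases h : redA O res F f f' hf hf' P with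
      | none =>
        rw [Multiset.filterMap_cons_none _ _ h, sub_self, zero_add]
      | some Q =>
        rw [Multiset.filterMap_cons_some _ _ _ h, divOf_cons]
  have hle : PrinDiv f ≤ (PrinDiv f').comap μ := by
    rw [PrinDiv, AddSubgroup.closure_le]
    rintro D ⟨s, g, hg, rfl⟩
    have hg0 : g ≠ 0 := by
      rintro rfl
      apply Mprod_ne_bot s
      rw [hg, Ideal.span_singleton_eq_bot]
    have hab : g.re ≠ 0 ∨ g.im ≠ 0 := by
      by_contra hcon
      push Not at hcon
      apply hg0
      ext1
      · rw [hcon.1, QuadraticAlgebra.re_zero]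
      · rw [hcon.2, QuadraticAlgebra.im_zero]
    obtain ⟨c, a₀, b₀, hc, ha₀, hb₀, hone⟩ := exists_scale O g.re g.im hab
    let g₀ : CR F := ⟨a₀, b₀⟩
    have hg₀ : CRmap O.subtype hf g₀ = (⟨C c, 0⟩ : CR f) * g := by
      ext1
      · rw [CRmap_re, QuadraticAlgebra.re_mul]
        change a₀.map O.subtype = _
        rw [ha₀]
        simp
      · rw [CRmap_im, QuadraticAlgebra.im_mul]
        change b₀.map O.subtype = _
        rw [hb₀]
        simp
    have hunit : IsUnit (⟨C c, 0⟩ : CR f) := by
      refine IsUnit.of_mul_eq_one (⟨C c⁻¹, 0⟩ : CR f) ?_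
      ext1
      · rw [QuadraticAlgebra.re_mul, QuadraticAlgebra.re_one]
        simp only [mul_zero, zero_mul, add_zero]
        rw [← C_mul, mul_inv_cancel₀ hc, C_1]
      · rw [QuadraticAlgebra.im_mul, QuadraticAlgebra.im_one]
        simp
    have hne : CRmap res hf' g₀ ≠ 0 := by
      intro h0
      rcases hone with ⟨i, hi⟩ | ⟨i, hi⟩
      · have h1 := congrArg (fun w : CR f' => w.re.coeff i) h0
        simp only [CRmap_re, QuadraticAlgebra.re_zero, coeff_map, coeff_zero] at h1
        have h2 : g₀.re.coeff i = 1 := hi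
        rw [h2, map_one] at h1
        exact one_ne_zero h1
      · have h1 := congrArg (fun w : CR f' => w.im.coeff i) h0
        simp only [CRmap_im, QuadraticAlgebra.im_zero, coeff_map, coeff_zero] at h1
        have h2 : g₀.im.coeff i = 1 := hi
        rw [h2, map_one] at h1
        exact one_ne_zero h1
    have hspan : Mprod s = Ideal.span {CRmap O.subtype hf g₀} := by
      rw [hg, hg₀, Ideal.span_singleton_mul_left_unit hunit]
    have h3 := L3 O res hres F f f' hf hf' g₀ s hspan hne
    change μ (divOf s) ∈ PrinDiv f'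
    rw [hdiv]
    exact AddSubgroup.subset_closure ⟨_, _, h3, rfl⟩
  refine ⟨QuotientAddGroup.map _ _ μ hle, fun P => ?_⟩
  have h4 : QuotientAddGroup.map _ _ μ hle (v P) =
      cls (μ (Finsupp.single P 1 - Finsupp.single none 1)) := rfl
  rw [h4, map_sub, hμ, hμ, hnone]
  rfl

end G2
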