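import Pool.Agent.Lib.MP_2eeeac_ag.G2.NBas
import Pool.Agent.Lib.MP_2eeeac_ag.G2.BRed
import Pool.Agent.Lib.MP_2eeeac_ag.G2.AUniq

/-!
# Module NRel: points close to `W_i` and `W_j` from classes that reduce to zero

PROOF. `exists_redHom`: this is `exists_redPic` for `O = VR K`, `res = rs K` (`rs_surj`),
`F = FO hg`, `f' = fbar hg` (instances: `Good.quintic`, `Good.quintic_bar`, `rf_algClosed`, as
`haveI`).
`near_of_rel`: apply `r`: `v W̄_i + v W̄_j = v T̄ + v T̄'`, where `P̄ = redN hg P`. By `v_add_unique`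
over the residue field: (a) `T̄ = W̄_i`, `T̄' = W̄_j`; (b) `T̄' = W̄_i`, `T̄ = W̄_j`; (c)
`W̄_j = HPt.neg W̄_i = W̄_i` (`red_W_neg`), excluded by `red_W_ne`. Conclude with `redN_eq_iff`.
`red_dW`: `r (dW hg i P) = v P̄ - v W̄_i = 0` for `P` close to `W_i` (`redN_eq_iff`).
`uniq_near`: `dW T + dW T' = dW S + dW S'` gives `v T + v T' = v S + v S'`; by `v_add_unique`
`(T, T') = (S, S')`, or `T = S'` (excluded by `near_excl`), or `T' = T.neg`, which has the same
`x`-coordinate (excluded by `near_excl`).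
-/

namespace G2

open Polynomial

variable {K : Type*} [NormedField K] [IsUltrametricDist K] [IsAlgClosed K] {f : K[X]}
  {e : Fin 5 → K}

theorem exists_redHom (hg : Good f e) :
    ∃ r : Pic f →+ Pic (fbar hg), ∀ P : HPt f, r (v P) = v (redN hg P) := by
  have := hg.quintic
  have := hg.quintic_bar
  have := rf_algClosed K
  exact exists_redPic (VR K) (rs K) rs_surj (FO hg) f (fbar hg) (FO_map hg) rfl

omit [IsAlgClosed K] in
theorem red_dW (hg : Good f e) (r : Pic f →+ Pic (fbar hg))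
    (hr : ∀ P : HPt f, r (v P) = v (redN hg P)) (i : Fin 5) (P : APt f)
    (hP : ‖P.x - e i‖ < 1) : r (dW hg i P) = 0 := by
  rw [dW, map_sub, hr, hr, (redN_eq_iff hg i (some P)).2 ⟨P, rfl, hP⟩, sub_self]

theorem near_of_rel (hg : Good f e) {i j : Fin 5} (hij : i ≠ j) (r : Pic f →+ Pic (fbar hg))
    (hr : ∀ P : HPt f, r (v P) = v (redN hg P)) (c : Pic f) (hc : r c = 0) (T T' : HPt f)
    (h : c + v (some (Wp hg i)) + v (some (Wp hg j)) = v T + v T') :
    (NearH (e i) T ∧ NearH (e j) T') ∨ (NearH (e j) T ∧ NearH (e i) T') := by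
  have := hg.quintic_bar
  have := rf_algClosed K
  have h1 := congrArg r h
  rw [map_add, map_add, map_add, hc, hr, hr, hr, hr, zero_add] at h1
  rcases v_add_unique h1 with ⟨h2, h3⟩ | ⟨h2, h3⟩ | ⟨h2, -⟩
  · exact Or.inl ⟨(redN_eq_iff hg i T).1 h2.symm, (redN_eq_iff hg j T').1 h3.symm⟩
  · exact Or.inr ⟨(redN_eq_iff hg j T).1 h3.symm, (redN_eq_iff hg i T').1 h2.symm⟩
  · exfalso
    rw [red_W_neg] at h2
    exact red_W_ne hg hij h2.symm

theorem uniq_near (hg : Good f e) {i j : Fin 5} (hij : i ≠ j) (T T' S S' : APt f)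
    (hT : ‖T.x - e i‖ < 1) (hT' : ‖T'.x - e j‖ < 1) (hS : ‖S.x - e i‖ < 1)
    (hS' : ‖S'.x - e j‖ < 1) (h : dW hg i T + dW hg j T' = dW hg i S + dW hg j S') :
    T = S ∧ T' = S' := by
  have := hg.quintic
  have h1 : v (some T) + v (some T') = v (some S) + v (some S') := by
    have h2 : dW hg i T + dW hg j T' + (v (some (Wp hg i)) + v (some (Wp hg j)))
        = dW hg i S + dW hg j S' + (v (some (Wp hg i)) + v (some (Wp hg j))) := by rw [h]
    rw [dW, dW, dW, dW] at h2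
    have h3 : ∀ a b c d : Pic f, a - c + (b - d) + (c + d) = a + b := by intros; abel
    rwa [h3, h3] at h2
  rcases v_add_unique h1 with ⟨h2, h3⟩ | ⟨h2, -⟩ | ⟨h2, -⟩
  · exact ⟨Option.some.inj h2, Option.some.inj h3⟩
  · exfalso
    have h4 := Option.some.inj h2
    rw [h4] at hT
    exact near_excl hg hij _ hT hS'
  · exfalso
    have h4 : T' = T.neg := Option.some.inj h2
    rw [h4] at hT'
    exact near_excl hg hij _ hT hT'

/-- every class that reduces to zero is `(T - W_i) + (T' - W_j)` -/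
theorem exists_near (hg : Good f e) {i j : Fin 5} (hij : i ≠ j) (r : Pic f →+ Pic (fbar hg))
    (hr : ∀ P : HPt f, r (v P) = v (redN hg P)) (s : Multiset (HPt f))
    (hc : r (s.map v).sum = 0) :
    ∃ T T' : APt f, ‖T.x - e i‖ < 1 ∧ ‖T'.x - e j‖ < 1 ∧
      (s.map v).sum = dW hg i T + dW hg j T' := by
  have := hg.quintic
  obtain ⟨P, Q, hPQ⟩ := jacobi_sum s
  obtain ⟨R, S, hRS⟩ := jacobi_add P Q (some (Wp hg i)) (some (Wp hg j))
  rw [hPQ] at hc ⊢
  have key : ∀ a b c d e' g' : Pic f, a + b + c + d = e' + g' → a + b = (e' - c) + (g' - d) := by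
    intro a b c d e' g' h
    have h5 : (e' - c) + (g' - d) = (e' + g') - (c + d) := by abel
    rw [h5, ← h]
    abel
  have key' : ∀ a b c d e' g' : Pic f, a + b + c + d = e' + g' → a + b = (g' - c) + (e' - d) := by
    intro a b c d e' g' h
    have h5 : (g' - c) + (e' - d) = (e' + g') - (c + d) := by abel
    rw [h5, ← h]
    abel
  rcases near_of_rel hg hij r hr _ hc R S hRS with ⟨⟨T, rfl, hT⟩, ⟨T', rfl, hT'⟩⟩ |
    ⟨⟨T', rfl, hT'⟩, ⟨T, rfl, hT⟩⟩
  · exact ⟨T, T', hT, hT', key _ _ _ _ _ _ hRS⟩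
  · exact ⟨T, T', hT, hT', key' _ _ _ _ _ _ hRS⟩

end G2
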