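import Pool.Agent.Lib.MP_2eeeac_ag.G2.AUniq

/-!
# Module TorsF: Frobenius invariant points are torsion in characteristic `p`

PROOF. Let `φ = frobenius κ p`, `P' = HPt.map φ hf`. By `jacobi_sum` (with `s = replicate N P`) for
every `N` there are `A_N, B_N : HPt f` with `N • v P = v A_N + v B_N`; if `N • v P = 0` choose
`A_N = B_N = ∞`. Apply `picMap φ hf` (`picMap_v`) and use `hP`:
`v A_N + v B_N = v A_N' + v B_N'` (`'` = image under `HPt.map φ hf`). By `v_add_unique`:
either `(A', B') = (A, B)`, or `A' = B`, `B' = A`, or `B = HPt.neg A` (and then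
`N • v P = v A + v (neg A) = 0` by `v_neg`, so `A = B = ∞` by the choice). In all cases `A'' = A`,
`B'' = B`, i.e. `A, B` are `∞` or their coordinates satisfy `z^(p²) = z`. The set `Φ` of the points
whose coordinates are roots of `X^(p²) - X` (with `∞`) is finite (`Polynomial.rootSet_finite` or
`Multiset.toFinset` of the roots; the map `P ↦ (x, y)` is injective). The map
`N ↦ (A_N, B_N)` from `ℕ` to a finite set is not injective (`Finite.exists_ne_map_eq_of_infinite`
or `Set.Finite` pigeonhole): `N < N'` with the same value, so `(N' - N) • v P = 0`.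
-/

namespace G2

open Polynomial

private theorem fix_finite {κ : Type*} [Field κ] (p : ℕ) [Fact p.Prime] [CharP κ p]
    (f : κ[X]) (hf : f.map (frobenius κ p) = f) :
    {A : HPt f | HPt.map (frobenius κ p) hf (HPt.map (frobenius κ p) hf A) = A}.Finite := by
  classical
  have hp : 1 < p := (Fact.out : p.Prime).one_lt
  have hq : 1 < p ^ 2 := Nat.one_lt_pow (by norm_num) hp
  set R : Set κ := {z | z ^ (p ^ 2) = z} with hR
  have hRf : R.Finite := by
    have h0 : (X ^ (p ^ 2) - X : κ[X]) ≠ 0 := FiniteField.X_pow_card_sub_X_ne_zero κ hq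
    refine (Finset.finite_toSet (X ^ (p ^ 2) - X : κ[X]).roots.toFinset).subset ?_
    intro z hz
    rw [Finset.mem_coe, Multiset.mem_toFinset, mem_roots h0]
    have h1 : z ^ (p ^ 2) = z := hz
    simp [IsRoot, h1]
  have hfin : (insert none (some '' (R ×ˢ R)) : Set (Option (κ × κ))).Finite :=
    ((hRf.prod hRf).image _).insert _
  refine Set.Finite.of_injOn (f := fun A : HPt f => Option.map (fun P : APt f => (P.x, P.y)) A) ?_ ?_ hfin
  · intro A hA
    rcases A with _ | P
    · exact Set.mem_insert _ _
    · refine Set.mem_insert_of_mem _ ⟨(P.x, P.y), ?_, rfl⟩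
      have h1 : (HPt.map (frobenius κ p) hf (HPt.map (frobenius κ p) hf (some P))) = some P := hA
      have h2 : (P.map (frobenius κ p) hf).map (frobenius κ p) hf = P := Option.some_injective _ h1
      have hx := congrArg APt.x h2
      have hy := congrArg APt.y h2
      rw [APt.map_x, APt.map_x, frobenius_def, frobenius_def, ← pow_mul, ← pow_two] at hx
      rw [APt.map_y, APt.map_y, frobenius_def, frobenius_def, ← pow_mul, ← pow_two] at hy
      exact ⟨hx, hy⟩
  · intro A _ B _ hAB
    rcases A with _ | P <;> rcases B with _ | Q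
    · rfl
    · simp at hAB
    · simp at hAB
    · simp only [Option.map_some, Option.some.injEq, Prod.mk.injEq] at hAB
      exact congrArg some (APt.ext hAB.1 hAB.2)

theorem torsion_frob {κ : Type*} [Field κ] [IsAlgClosed κ] (p : ℕ) [Fact p.Prime] [CharP κ p]
    (f : κ[X]) [Quintic f] (hf : f.map (frobenius κ p) = f) (P : HPt f)
    (hP : HPt.map (frobenius κ p) hf P = P) : ∃ M : ℕ, 0 < M ∧ M • v P = 0 := by
  set Φ : Set (HPt f) :=
    {A : HPt f | HPt.map (frobenius κ p) hf (HPt.map (frobenius κ p) hf A) = A} with hΦ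
  have hΦf : Φ.Finite := fix_finite p f hf
  have key : ∀ N : ℕ, ∃ Z : Φ × Φ, N • v P = v (Z.1 : HPt f) + v (Z.2 : HPt f) := by
    intro N
    have hnone : (none : HPt f) ∈ Φ := rfl
    by_cases h0 : N • v P = 0
    · exact ⟨(⟨none, hnone⟩, ⟨none, hnone⟩), by rw [h0]; simp⟩
    obtain ⟨A, B, h⟩ := jacobi_sum (Multiset.replicate N P)
    have h1 : N • v P = v A + v B := by
      rw [← h]
      simp
    have h2 : N • v P =
        v (HPt.map (frobenius κ p) hf A) + v (HPt.map (frobenius κ p) hf B) := by
      have h3 := congrArg (picMap (frobenius κ p) hf) h1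
      rw [map_nsmul, map_add, picMap_v, picMap_v, picMap_v, hP] at h3
      exact h3
    have hAB : A ∈ Φ ∧ B ∈ Φ := by
      rcases v_add_unique (h1.symm.trans h2) with ⟨e1, e2⟩ | ⟨e1, e2⟩ | ⟨e1, _⟩
      · constructor
        · change HPt.map (frobenius κ p) hf (HPt.map (frobenius κ p) hf A) = A
          rw [← e1, ← e1]
        · change HPt.map (frobenius κ p) hf (HPt.map (frobenius κ p) hf B) = B
          rw [← e2, ← e2]
      · constructor
        · change HPt.map (frobenius κ p) hf (HPt.map (frobenius κ p) hf A) = A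
          rw [← e2, ← e1]
        · change HPt.map (frobenius κ p) hf (HPt.map (frobenius κ p) hf B) = B
          rw [← e1, ← e2]
      · exfalso
        apply h0
        rw [h1, e1, v_neg]
        abel
    exact ⟨(⟨A, hAB.1⟩, ⟨B, hAB.2⟩), h1⟩
  choose Z hZ using key
  have : Finite Φ := hΦf
  obtain ⟨N, N', hne, hNN⟩ := Finite.exists_ne_map_eq_of_infinite Z
  have hmain : ∀ N N' : ℕ, N < N' → Z N = Z N' → ∃ M : ℕ, 0 < M ∧ M • v P = 0 := by
    intro N N' hlt hEq
    refine ⟨N' - N, by omega, ?_⟩
    have h1 : N' • v P = N • v P := by rw [hZ N', hZ N, hEq]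
    have h2 : N' • v P = (N' - N) • v P + N • v P := by
      rw [← add_nsmul]
      congr 1
      omega
    rw [h2] at h1
    exact add_eq_right.1 h1
  rcases lt_or_gt_of_ne hne with h | h
  · exact hmain N N' h hNN
  · exact hmain N' N h hNN.symm

end G2
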