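import Pool.Agent.Lib.MP_2eeeac_ag.G2.ArDefs
import Pool.Agent.Lib.MP_2eeeac_ag.G2.NRel
import Pool.Agent.Lib.MP_2eeeac_ag.G2.TorsF

/-!
# Module ArT: a multiple of a rational class is `(T - W_i) + (T' - W_j)` with rational `T, T'`

PROOF. Instances: `hg.quintic`, `hg.quintic_bar`, `rf_algClosed K` (as `haveI`). `r` from
`exists_redHom`. `CharP (RF K) p`: the residue of `p` is 0 because `‖p‖ = p⁻¹ < 1`
(`CharP` of a field from a prime that vanishes: `CharP.ofCharZero…`, `(CharP.charP_iff_prime_eq_zero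
hp).2`).
(1) The coefficients of `fbar hg = ∏ (X - ē_l)` are fixed by Frobenius, because the `ē_l` are:
`‖e_l^p - e_l‖ < 1` (`A.frob`, `he`, `hg.le`), `rs_eq_zero`. (`Polynomial.map_prod`.) The reduction
of a rational point `P0` is fixed by Frobenius: `redN hg P0` is `∞` or has the residues of the
coordinates `x, y ∈ K0 ∩ VR K` as coordinates. By `torsion_frob` there are `M₀, M₁ > 0` with
`M₀ • v (redN P0) = 0`, `M₁ • v (redN Q0) = 0`. Put `M = M₀ * M₁`.
(2) For `k : ℕ` let `c = (k * M) • (v P0 + v Q0) = ∑ v` over the multiset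
`replicate (k*M) P0 + replicate (k*M) Q0`. `r c = 0`. `exists_near` gives `T, T'`.
(3) `T` and `T'` are rational: let `σ ∈ A.G`; `f.map σ = f` (`map_of_fix`; the coefficients of
`f = ∏ (X - e_l)` are in `K0`). `picMap σ` fixes `v P0`, `v Q0`, `v W_i`, `v W_j` (`picMap_v`,
coordinates in `K0`), so it fixes `c`, and `dW i T + dW j T' = dW i (σT) + dW j (σT')`. `σT` is close
to `W_i`: `‖σ(T.x) - e_i‖ = ‖σ(T.x - e_i)‖ = ‖T.x - e_i‖`. By `uniq_near`, `σT = T`, `σT' = T'`. So the
coordinates are fixed by all `σ ∈ G` and in `K0` (`A.mem_of_fix`).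
-/

namespace G2

open Polynomial

variable {K : Type*} [NormedField K] [IsUltrametricDist K] [IsAlgClosed K] {f : K[X]}
  {e : Fin 5 → K}

omit [IsAlgClosed K] in
private theorem frob_fix {p : ℕ} (A : Arith p K) (z : VR K) (hz : (z : K) ∈ A.K0) :
    (rs K z) ^ p = rs K z := by
  have h1 : ‖(z : K)‖ ≤ 1 := (mem_VR _).1 z.2
  have h2 := A.frob z hz h1
  have h3 : rs K (z ^ p - z) = 0 := by
    rw [rs_eq_zero]
    exact h2
  rw [map_sub, map_pow, sub_eq_zero] at h3
  exact h3

omit [IsAlgClosed K] in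
private theorem charP_RF (p : ℕ) [hp : Fact p.Prime] (A : Arith p K) : CharP (RF K) p := by
  rw [CharP.charP_iff_prime_eq_zero hp.out]
  have h1 : rs K ((p : VR K)) = 0 := by
    rw [rs_eq_zero]
    have h2 : (((p : VR K) : VR K) : K) = (p : K) := by simp
    rw [h2, A.norm_p]
    have h3 : (1 : ℝ) < p := by exact_mod_cast hp.out.one_lt
    exact inv_lt_one_of_one_lt₀ h3
  simpa using h1

omit [IsAlgClosed K] in
private theorem fbar_frob (p : ℕ) [Fact p.Prime] (A : Arith p K) [CharP (RF K) p]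
    (hg : Good f e) (he : ∀ l, e l ∈ A.K0) :
    (fbar hg).map (frobenius (RF K) p) = fbar hg := by
  rw [fbar_eq, Polynomial.map_prod]
  refine Finset.prod_congr rfl fun l _ => ?_
  rw [Polynomial.map_sub, map_X, map_C, frobenius_def]
  rw [frob_fix A ⟨e l, (mem_VR _).2 (hg.le l)⟩ (he l)]

omit [IsAlgClosed K] in
private theorem redN_frob (p : ℕ) [Fact p.Prime] (A : Arith p K) [CharP (RF K) p]
    (hg : Good f e) (hf : (fbar hg).map (frobenius (RF K) p) = fbar hg)
    (P0 : HPt f) (hP0 : RatPt A.K0 P0) :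
    HPt.map (frobenius (RF K) p) hf (redN hg P0) = redN hg P0 := by
  classical
  cases P0 with
  | none => rfl
  | some Q =>
    obtain ⟨hx, hy⟩ := hP0 Q rfl
    change HPt.map (frobenius (RF K) p) hf
      (redA (VR K) (rs K) (FO hg) f (fbar hg) (FO_map hg) rfl Q) =
      redA (VR K) (rs K) (FO hg) f (fbar hg) (FO_map hg) rfl Q
    unfold redA
    by_cases hQ : Q.x ∈ VR K
    · rw [dif_pos hQ]
      change some (APt.map (frobenius (RF K) p) hf _) = _
      congr 1
      apply APt.ext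
      · rw [APt.map_x, APt.map_x, frobenius_def]
        exact frob_fix A _ hx
      · rw [APt.map_y, APt.map_y, frobenius_def]
        exact frob_fix A _ hy
    · rw [dif_neg hQ]
      rfl

omit [IsUltrametricDist K] [IsAlgClosed K] in
private theorem coeff_mem (hg : Good f e) (K0 : Subfield K) (he : ∀ l, e l ∈ K0) (n : ℕ) :
    f.coeff n ∈ K0 := by
  have h1 : f = (∏ l, (X - C (⟨e l, he l⟩ : K0)) : K0[X]).map K0.subtype := by
    rw [Polynomial.map_prod]
    simp only [Polynomial.map_sub, map_X, map_C]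
    exact hg.prod
  rw [h1, coeff_map]
  exact SetLike.coe_mem _

omit [IsUltrametricDist K] [IsAlgClosed K] in
private theorem map_rat (K0 : Subfield K) (σ : K ≃+* K) (hσ : ∀ x ∈ K0, σ x = x)
    (hf : f.map (σ : K →+* K) = f) (P : HPt f) (hP : RatPt K0 P) :
    HPt.map (σ : K →+* K) hf P = P := by
  cases P with
  | none => rfl
  | some Q =>
    obtain ⟨hx, hy⟩ := hP Q rfl
    change some (APt.map (σ : K →+* K) hf Q) = some Q
    congr 1
    apply APt.ext
    · exact hσ _ hx
    · exact hσ _ hy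

theorem exists_T (p : ℕ) [Fact p.Prime] (A : Arith p K) (hg : Good f e)
    (he : ∀ l, e l ∈ A.K0) (P0 Q0 : HPt f) (hP0 : RatPt A.K0 P0) (hQ0 : RatPt A.K0 Q0)
    {i j : Fin 5} (hij : i ≠ j) :
    ∃ M : ℕ, 0 < M ∧ ∀ k : ℕ, ∃ T T' : APt f, ‖T.x - e i‖ < 1 ∧ ‖T'.x - e j‖ < 1 ∧
      RatPt A.K0 (some T) ∧ RatPt A.K0 (some T') ∧
      (k * M) • (v P0 + v Q0) = dW hg i T + dW hg j T' := by
  classical
  have := hg.quintic
  have := hg.quintic_bar
  have := rf_algClosed K
  have : CharP (RF K) p := charP_RF p A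
  obtain ⟨r, hr⟩ := exists_redHom hg
  have hfb := fbar_frob p A hg he
  obtain ⟨M0, hM0, hM0'⟩ := torsion_frob p (fbar hg) hfb (redN hg P0) (redN_frob p A hg hfb P0 hP0)
  obtain ⟨M1, hM1, hM1'⟩ := torsion_frob p (fbar hg) hfb (redN hg Q0) (redN_frob p A hg hfb Q0 hQ0)
  refine ⟨M0 * M1, Nat.mul_pos hM0 hM1, fun k => ?_⟩
  set N := k * (M0 * M1) with hN
  set s : Multiset (HPt f) := Multiset.replicate N P0 + Multiset.replicate N Q0 with hs
  have hsum : (s.map v).sum = N • (v P0 + v Q0) := by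
    rw [hs, Multiset.map_add, Multiset.sum_add, Multiset.map_replicate, Multiset.map_replicate,
      Multiset.sum_replicate, Multiset.sum_replicate, nsmul_add]
  have hr0 : r (s.map v).sum = 0 := by
    rw [hsum, map_nsmul, map_add, hr, hr, nsmul_add]
    have h1 : N • v (redN hg P0) = 0 := by
      rw [hN, show k * (M0 * M1) = (k * M1) * M0 by ring, mul_nsmul', hM0', nsmul_zero]
    have h2 : N • v (redN hg Q0) = 0 := by
      rw [hN, show k * (M0 * M1) = (k * M0) * M1 by ring, mul_nsmul', hM1', nsmul_zero]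
    rw [h1, h2, add_zero]
  obtain ⟨T, T', hT, hT', hTT⟩ := exists_near hg hij r hr s hr0
  rw [hsum] at hTT
  have key : ∀ σ ∈ A.G, σ T.x = T.x ∧ σ T.y = T.y ∧ σ T'.x = T'.x ∧ σ T'.y = T'.y := by
    intro σ hσ
    have hfix := A.fix σ hσ
    have hfσ : f.map (σ : K →+* K) = f := map_of_fix A.K0 σ hfix (coeff_mem hg A.K0 he)
    have hW : ∀ l, HPt.map (σ : K →+* K) hfσ (some (Wp hg l)) = some (Wp hg l) := by
      intro l
      refine map_rat A.K0 σ hfix hfσ _ ?_
      intro Q hQ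
      have hQ' : Wp hg l = Q := Option.some.inj hQ
      rw [← hQ']
      exact ⟨he l, A.K0.zero_mem⟩
    have hdW : ∀ (l : Fin 5) (S : APt f), picMap (σ : K →+* K) hfσ (dW hg l S) =
        dW hg l (S.map (σ : K →+* K) hfσ) := by
      intro l S
      rw [dW, map_sub, picMap_v, picMap_v, hW]
      rfl
    have h1 := congrArg (picMap (σ : K →+* K) hfσ) hTT
    rw [map_nsmul, map_add, picMap_v, picMap_v, map_rat A.K0 σ hfix hfσ P0 hP0,
      map_rat A.K0 σ hfix hfσ Q0 hQ0, map_add, hdW, hdW, hTT] at h1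
    have hnear : ∀ (l : Fin 5) (S : APt f), ‖S.x - e l‖ < 1 →
        ‖(S.map (σ : K →+* K) hfσ).x - e l‖ < 1 := by
      intro l S hS
      rw [APt.map_x]
      have h2 : (σ : K →+* K) S.x - e l = σ (S.x - e l) := by
        rw [map_sub, hfix _ (he l)]
        rfl
      rw [h2, A.norm_eq σ hσ]
      exact hS
    obtain ⟨h3, h4⟩ := uniq_near hg hij T T' _ _ hT hT' (hnear i T hT) (hnear j T' hT') h1
    refine ⟨?_, ?_, ?_, ?_⟩
    · exact (congrArg APt.x h3).symm
    · exact (congrArg APt.y h3).symm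
    · exact (congrArg APt.x h4).symm
    · exact (congrArg APt.y h4).symm
  refine ⟨T, T', hT, hT', ?_, ?_, hTT⟩
  · intro Q hQ
    have hQ' : T = Q := Option.some.inj hQ
    rw [← hQ']
    exact ⟨A.mem_of_fix _ fun σ hσ => (key σ hσ).1, A.mem_of_fix _ fun σ hσ => (key σ hσ).2.1⟩
  · intro Q hQ
    have hQ' : T' = Q := Option.some.inj hQ
    rw [← hQ']
    exact ⟨A.mem_of_fix _ fun σ hσ => (key σ hσ).2.2.1,
      A.mem_of_fix _ fun σ hσ => (key σ hσ).2.2.2⟩

end G2
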