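import Mathlib

/-!
# Module BRoot: the roots of the reduction of a polynomial over a valuation ring

PROOF. First: `x : O` with `res x ≠ 0` is a unit of `O` (`ker res` is a maximal ideal because `res`
is surjective onto a field, and `O` is local: `IsLocalRing.eq_maximalIdeal`; see the proof of
`AlbCH.Place.inv_mem_of_has`), and if `a ∉ O` then `a⁻¹ ∈ O` and `res a⁻¹ = 0` (otherwise
`a = (a⁻¹)⁻¹ ∈ O`).
Induction on `s` (for all `G` and `c`). `s = 0`: `G.map subtype = C c`, so `G = C c₀`, and
`G.map res = C (res c₀)`.
`a ::ₘ s`, `a ∈ O`: `G(a) = 0`, so `G = (X - C a) G₁` over `O` (`Polynomial.dvd_iff_isRoot`);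
cancelling `X - a` over `K`: `G₁.map subtype = C c * ∏_s`; `G₁.map res ≠ 0`; apply the induction
hypothesis to `G₁`.
`a ∉ O`: put `b = a⁻¹ ∈ O`, `res b = 0`. `G.map subtype = C c (X - C a) ∏_s
= (1 - C b X) * (C (-c a) * ∏_s)`. Let `G₁ = C (-c a) * ∏_s ∈ K[X]`, `G₁ ≠ 0`. Choose a
coefficient `d` of `G₁` such that `d⁻¹ G₁` has all its coefficients in `O` (valuation ring: a
finite nonempty set of nonzero elements has one, `d`, with all `x / d ∈ O`). Then
`d⁻¹ G₁ = H.map subtype` with `H : O[X]`, one coefficient of `H` is `1`, so `H.map res ≠ 0`. Now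
`G.map subtype = C d * ((1 - C b X) * H).map subtype`, and `(1 - C b X) * H` has reduction
`H.map res ≠ 0`. Hence `d ∈ O`: if not, `d⁻¹ ∈ O`, `res d⁻¹ = 0` and
`C d⁻¹ * G = (1 - C b X) * H` over `O` gives `0 = H.map res`, contradiction. So `d ∈ O` and
`G = C d * (1 - C b X) * H` over `O`, `G.map res = C (res d) * H.map res`, `res d ≠ 0`. Apply the
induction hypothesis to `C d * H : O[X]` (`= G₁` over `K`, constant `-c a`): its reduction is the
same as that of `G`, and the integral parts of `a ::ₘ s` and of `s` agree.
-/

namespace G2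

open Polynomial

open Classical in
/-- reduction of the integral elements of `K` -/
noncomputable def redK {K κ : Type*} [Field K] [Field κ] (O : ValuationSubring K)
    (res : O →+* κ) (a : K) : Option κ :=
  if h : a ∈ O then some (res ⟨a, h⟩) else none

section

variable {K κ : Type*} [Field K] [Field κ] (O : ValuationSubring K)
    (res : O →+* κ) (hres : Function.Surjective res)

include hres in
private theorem ker_eq : RingHom.ker res = IsLocalRing.maximalIdeal O :=
  IsLocalRing.eq_maximalIdeal (RingHom.ker_isMaximal_of_surjective res hres)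

include hres in
private theorem isUnit_of_res {x : O} (hx : res x ≠ 0) : IsUnit x := by
  by_contra h
  have h1 : x ∈ IsLocalRing.maximalIdeal O := by
    rw [IsLocalRing.mem_maximalIdeal]
    exact h
  rw [← ker_eq O res hres] at h1
  exact hx h1

include hres in
private theorem inv_of_notMem {a : K} (ha : a ∉ O) :
    ∃ h : a⁻¹ ∈ O, res ⟨a⁻¹, h⟩ = 0 := by
  have h : a⁻¹ ∈ O := (O.mem_or_inv_mem a).resolve_left ha
  refine ⟨h, ?_⟩
  by_contra hne
  obtain ⟨w, hw⟩ := isUnit_of_res O res hres hne
  apply ha
  have h0 : a ≠ 0 := by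
    rintro rfl
    exact ha O.zero_mem
  have h1 : (w : O) * ((w⁻¹ : Oˣ) : O) = 1 := by simp
  have h2 := congrArg (fun z : O => (z : K)) h1
  simp only [hw] at h2
  have h3 : a⁻¹ * (((w⁻¹ : Oˣ) : O) : K) = 1 := by
    simpa using h2
  have h4 : (((w⁻¹ : Oˣ) : O) : K) = a := by
    have := congrArg (fun z => a * z) h3
    simp only [mul_one] at this
    rw [← mul_assoc, mul_inv_cancel₀ h0, one_mul] at this
    exact this
  rw [← h4]
  exact ((w⁻¹ : Oˣ) : O).2

/-- normalisation of a nonzero polynomial -/
private theorem exists_norm (G : K[X]) (hG : G ≠ 0) :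
    ∃ (d : K) (H : O[X]), d ≠ 0 ∧ H.map O.subtype * C d = G ∧ ∃ n, H.coeff n = 1 := by
  classical
  -- a coefficient of maximal value
  have hne : G.support.Nonempty := by
    rw [Finset.nonempty_iff_ne_empty, Ne, support_eq_empty]
    exact hG
  obtain ⟨n, hn, hmax⟩ := Finset.exists_max_image G.support (fun i => O.valuation (G.coeff i)) hne
  have hd : G.coeff n ≠ 0 := mem_support_iff.mp hn
  have hle : ∀ i, G.coeff i / G.coeff n ∈ O := by
    intro i
    rw [← O.valuation_le_one_iff, map_div₀]
    by_cases hi : G.coeff i = 0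
    · rw [hi, map_zero, zero_div]
      exact zero_le_one
    · have h1 := hmax i (mem_support_iff.mpr hi)
      have h2 : O.valuation (G.coeff n) ≠ 0 := by
        rw [Valuation.ne_zero_iff]
        exact hd
      exact div_le_one_of_le₀ h1 zero_le'
  have hl : G * C (G.coeff n)⁻¹ ∈ Polynomial.lifts O.subtype := by
    rw [Polynomial.lifts_iff_coeff_lifts]
    intro i
    refine ⟨⟨G.coeff i / G.coeff n, hle i⟩, ?_⟩
    rw [coeff_mul_C, ← div_eq_mul_inv]
    rfl
  obtain ⟨H, hH⟩ := (Polynomial.mem_lifts _).mp hl
  refine ⟨G.coeff n, H, hd, ?_, n, ?_⟩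
  · rw [hH, mul_assoc, ← C_mul, inv_mul_cancel₀ hd, C_1, mul_one]
  · have h1 := congrArg (fun p : K[X] => p.coeff n) hH
    simp only [coeff_map, coeff_mul_C, mul_inv_cancel₀ hd] at h1
    apply Subtype.ext
    exact h1

end

theorem rootRed {K κ : Type*} [Field K] [Field κ] (O : ValuationSubring K) (res : O →+* κ)
    (hres : Function.Surjective res) (G : O[X]) (hG : G.map res ≠ 0) (s : Multiset K) (c : K)
    (h : G.map O.subtype = C c * (s.map fun a => X - C a).prod) :
    ∃ c' : κ, c' ≠ 0 ∧
      G.map res = C c' * ((s.filterMap (redK O res)).map fun a => X - C a).prod := by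
  classical
  have hinj : Function.Injective (Polynomial.map O.subtype : O[X] → K[X]) :=
    Polynomial.map_injective _ Subtype.val_injective
  induction s using Multiset.induction generalizing G c with
  | empty =>
    rw [Multiset.map_zero, Multiset.prod_zero, mul_one] at h
    have hG0 : G = C (G.coeff 0) := by
      apply hinj
      have h1 := congrArg (fun p : K[X] => p.coeff 0) h
      simp only [coeff_map, coeff_C_zero] at h1
      rw [h, map_C, h1]
    refine ⟨res (G.coeff 0), ?_, ?_⟩
    · intro h0
      apply hG
      rw [hG0, map_C, h0, C_0]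
    · rw [Multiset.filterMap_zero, Multiset.map_zero, Multiset.prod_zero, mul_one]
      conv_lhs => rw [hG0, map_C]
  | cons a s ih =>
    by_cases ha : a ∈ O
    · have hroot : IsRoot G (⟨a, ha⟩ : O) := by
        rw [IsRoot.def]
        apply Subtype.val_injective
        have h1 := congrArg (fun p : K[X] => p.eval a) h
        simp only [Multiset.map_cons, Multiset.prod_cons, eval_mul, eval_sub, eval_X, eval_C,
          sub_self, zero_mul, mul_zero] at h1
        change O.subtype (G.eval (⟨a, ha⟩ : O)) = 0
        rw [← eval₂_at_apply, ← eval_map]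
        exact h1
      obtain ⟨G₁, hG₁⟩ := dvd_iff_isRoot.mpr hroot
      have h2 : G₁.map O.subtype = C c * (s.map fun a => X - C a).prod := by
        have h3 : (X - C a) * G₁.map O.subtype =
            (X - C a) * (C c * (s.map fun a => X - C a).prod) := by
          rw [hG₁, Multiset.map_cons, Multiset.prod_cons] at h
          rw [Polynomial.map_mul, Polynomial.map_sub, map_X, map_C] at h
          have h4 : O.subtype ⟨a, ha⟩ = a := rfl
          rw [h4] at h
          rw [h]
          ring
        exact mul_left_cancel₀ (X_sub_C_ne_zero a) h3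
      have hG₁' : G₁.map res ≠ 0 := by
        intro h0
        apply hG
        rw [hG₁, Polynomial.map_mul, h0, mul_zero]
      obtain ⟨c', hc', hc''⟩ := ih G₁ hG₁' c h2
      refine ⟨c', hc', ?_⟩
      have hr : redK O res a = some (res ⟨a, ha⟩) := by
        rw [redK, dif_pos ha]
      rw [Multiset.filterMap_cons_some _ _ _ hr, Multiset.map_cons, Multiset.prod_cons, hG₁,
        Polynomial.map_mul, hc'', Polynomial.map_sub, map_X, map_C]
      ring
    · obtain ⟨hb, hb0⟩ := inv_of_notMem O res hres ha
      have ha0 : a ≠ 0 := by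
        rintro rfl
        exact ha O.zero_mem
      set b : O := ⟨a⁻¹, hb⟩ with hbdef
      have hGK : G.map O.subtype ≠ 0 := by
        intro h0
        apply hG
        have : G = 0 := hinj (by rw [h0, Polynomial.map_zero])
        rw [this, Polynomial.map_zero]
      have hc0 : c ≠ 0 := by
        rintro rfl
        apply hGK
        rw [h, C_0, zero_mul]
      have hprod : (s.map fun a => (X - C a : K[X])).prod ≠ 0 := by
        intro h0
        apply hGK
        rw [h, Multiset.map_cons, Multiset.prod_cons, h0, mul_zero, mul_zero]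
      obtain ⟨d, H, hd, hH, n, hn⟩ := exists_norm O
        (C (-c * a) * (s.map fun a => (X - C a : K[X])).prod)
        (mul_ne_zero (C_ne_zero.mpr (mul_ne_zero (neg_ne_zero.mpr hc0) ha0)) hprod)
      have hHres : H.map res ≠ 0 := by
        intro h0
        have h1 := congrArg (fun p : κ[X] => p.coeff n) h0
        simp only [coeff_map, hn, map_one, coeff_zero] at h1
        exact one_ne_zero h1
      have hab : C a * C a⁻¹ = (1 : K[X]) := by
        rw [← C_mul, mul_inv_cancel₀ ha0, C_1]
      have hfac : G.map O.subtype = C d * ((1 - C b * X) * H).map O.subtype := by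
        have h4 : O.subtype b = a⁻¹ := rfl
        rw [Polynomial.map_mul, Polynomial.map_sub, Polynomial.map_one, Polynomial.map_mul,
          map_X, map_C, h4]
        have h5 : C d * ((1 - C a⁻¹ * X) * H.map O.subtype) =
            (1 - C a⁻¹ * X) * (H.map O.subtype * C d) := by ring
        rw [h5, hH, h, Multiset.map_cons, Multiset.prod_cons, C_mul, C_neg]
        linear_combination (-(C c) * X * (s.map fun a => (X - C a : K[X])).prod) * hab
      have hred1 : ((1 - C b * X) * H).map res = H.map res := by
        rw [Polynomial.map_mul, Polynomial.map_sub, Polynomial.map_one, Polynomial.map_mul,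
          map_X, map_C, hb0, C_0, zero_mul, sub_zero, one_mul]
      have hdO : d ∈ O := by
        by_contra hdn
        obtain ⟨hd1, hd2⟩ := inv_of_notMem O res hres hdn
        have h6 : C (⟨d⁻¹, hd1⟩ : O) * G = (1 - C b * X) * H := by
          apply hinj
          rw [Polynomial.map_mul, map_C, hfac, ← mul_assoc]
          have h7 : O.subtype ⟨d⁻¹, hd1⟩ = d⁻¹ := rfl
          rw [h7, ← C_mul, inv_mul_cancel₀ hd, C_1, one_mul]
        have h8 := congrArg (Polynomial.map res) h6
        rw [hred1, Polynomial.map_mul, map_C, hd2, C_0, zero_mul] at h8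
        exact hHres h8.symm
      have hGfac : G = C (⟨d, hdO⟩ : O) * ((1 - C b * X) * H) := by
        apply hinj
        rw [Polynomial.map_mul, map_C, hfac]
        rfl
      have hredG : (C (⟨d, hdO⟩ : O) * H).map res = G.map res := by
        conv_rhs => rw [hGfac, Polynomial.map_mul, hred1]
        rw [Polynomial.map_mul]
      obtain ⟨c', hc', hc''⟩ := ih (C (⟨d, hdO⟩ : O) * H) (by rw [hredG]; exact hG) (-c * a) (by
        rw [Polynomial.map_mul, map_C, ← hH, mul_comm]
        rfl)
      refine ⟨c', hc', ?_⟩
      have hr : redK O res a = none := by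
        rw [redK, dif_neg ha]
      rw [Multiset.filterMap_cons_none _ _ hr, ← hc'', hredG]

end G2
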