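import Pool.Agent.Lib.MP_2eeeac_ag.G2.BML
import Pool.Agent.Lib.MP_2eeeac_ag.G2.BRoot
import Pool.Agent.Lib.MP_2eeeac_ag.G2.ANmP

/-!
# Module BL3: reduction of `∏ 𝔪_P = (g)`

PROOF. Let `s₁ ≤ s` be the integral points (`P.x ∈ O`), as points over `O`:
`t := s₁` mapped by `toO`, a multiset of `APt F`, with `t.map (APt.map O.subtype hf) = s₁` and
`t.map (APt.map res hf') = s.filterMap redA`.
(1) Every point of `t` is smooth over `O`: `(2y, F'(x))` is the unit ideal of the local ring `O`,
because otherwise both reduce to 0, i.e. the point `P.map res` of `f'` has `2y = 0` and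
`f''(x) = 0`, in contradiction with `smooth_of_quintic` for `f'` (a non-unit of `O` has residue 0;
if one of the two is a unit the Bezout identity is clear).
(2) `CRmap O.subtype hf g ∈ Mprod s ≤ Mprod s₁` (`Mprod_add`, `Ideal.mul_le_right`), so by
`mem_lift` (`j = O.subtype`, injective) `g ∈ Mprod t`. Map by `CRmap res hf'`: `ḡ ∈ Mprod t̄`,
`t̄ = s.filterMap redA` (`Mprod_map`, `Ideal.mem_map_of_mem`).
(3) By `exists_rest` over `κ` (`ḡ ≠ 0`): `(ḡ) = Mprod (t̄ + u)`,
`card t̄ + card u = natDegree (nm ḡ)`. It remains to see `card t̄ = natDegree (nm ḡ)`, for then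
`u = 0`. By `nm_of_Mprod` over `K`: `(nm g).map O.subtype = C c ∏_{P ∈ s} (X - x_P)`
(`CRmap_nm`); `nm ḡ = (nm g).map res ≠ 0` (`nm_ne_zero_odd`). `rootRed` gives
`natDegree (nm ḡ) = card ((s.map x).filterMap (redK O res)) = card (s.filterMap redA)` (both count
the integral points of `s`).
-/

namespace G2

open Polynomial

private theorem bl3_unit {K κ : Type*} [Field K] [Field κ] (O : ValuationSubring K) (res : O →+* κ)
    (hres : Function.Surjective res) (a : O) (ha : res a ≠ 0) : IsUnit a := by
  have h1 : (RingHom.ker res).IsMaximal := RingHom.ker_isMaximal_of_surjective res hres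
  have h2 := IsLocalRing.eq_maximalIdeal h1
  by_contra h3
  apply ha
  have h4 : a ∈ IsLocalRing.maximalIdeal O := (IsLocalRing.mem_maximalIdeal a).2 h3
  rw [← h2] at h4
  exact h4

private theorem bl3_le {A : Type*} [CommRing A] {F : A[X]} (s t : Multiset (APt F)) :
    Mprod (s + t) ≤ Mprod s := by
  rw [Mprod_add]
  exact Ideal.mul_le_left (R := CR F) (I := Mprod s) (J := Mprod t)

private theorem bl3_smooth {K κ : Type*} [Field K] [Field κ] (O : ValuationSubring K)
    (res : O →+* κ) (hres : Function.Surjective res) (F : O[X]) (f' : κ[X])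
    (hf' : F.map res = f') [Quintic f'] (P : APt F) : P.Smooth := by
  obtain ⟨u, w, h⟩ := smooth_of_quintic (P.map res hf')
  obtain ⟨U, rfl⟩ := hres u
  obtain ⟨W, rfl⟩ := hres w
  have h1 : res (U * (2 * P.y) + W * (derivative F).eval P.x) = 1 := by
    rw [← h]
    simp only [map_add, map_mul, map_ofNat, APt.map_y, APt.map_x]
    congr 2
    rw [← hf', derivative_map, eval_map, eval₂_at_apply]
  obtain ⟨b, hb⟩ := bl3_unit O res hres _ (by rw [h1]; exact one_ne_zero)
  refine ⟨((b⁻¹ : Oˣ) : O) * U, ((b⁻¹ : Oˣ) : O) * W, ?_⟩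
  have h2 : ((b⁻¹ : Oˣ) : O) * (b : O) = 1 := Units.inv_mul b
  rw [hb] at h2
  linear_combination h2

theorem L3 {K κ : Type*} [Field K] [Field κ] [IsAlgClosed κ]
    (O : ValuationSubring K) (res : O →+* κ) (hres : Function.Surjective res)
    (F : O[X]) (f : K[X]) (f' : κ[X]) (hf : F.map O.subtype = f) (hf' : F.map res = f')
    [Quintic f] [Quintic f'] (g : CR F) (s : Multiset (APt f))
    (hg : Mprod s = Ideal.span {CRmap O.subtype hf g}) (hg0 : CRmap res hf' g ≠ 0) :
    Mprod (s.filterMap (redA O res F f f' hf hf')) = Ideal.span {CRmap res hf' g} := by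
  classical
  let τ : APt f → Option (APt F) := fun P => if hx : P.x ∈ O then some (toO O F f hf P hx) else none
  have ht1 : (s.filterMap τ).map (APt.map res hf') = s.filterMap (redA O res F f f' hf hf') := by
    rw [Multiset.map_filterMap]
    congr 1
    funext P
    simp only [τ, redA]
    split_ifs <;> rfl
  have ht2 : (s.filterMap τ).map (APt.map O.subtype hf) = s.filter (fun P => P.x ∈ O) := by
    rw [Multiset.map_filterMap, ← Multiset.filterMap_eq_filter]
    congr 1
    funext P
    simp only [τ]
    by_cases hx : P.x ∈ O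
    · rw [dif_pos hx, Option.guard, if_pos (by simpa using hx)]
      rfl
    · rw [dif_neg hx, Option.guard, if_neg (by simpa using hx)]
      rfl
  have h1 : CRmap O.subtype hf g ∈ Mprod ((s.filterMap τ).map (APt.map O.subtype hf)) := by
    rw [ht2]
    have h2 : CRmap O.subtype hf g ∈ Mprod s := by
      rw [hg]
      exact Ideal.mem_span_singleton_self _
    have h3 : Mprod s ≤ Mprod (s.filter (fun P => P.x ∈ O)) := by
      have h4 := bl3_le (s.filter (fun P => P.x ∈ O)) (s.filter (fun P => ¬ P.x ∈ O))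
      rwa [Multiset.filter_add_not] at h4
    exact h3 h2
  have h2 : g ∈ Mprod (s.filterMap τ) :=
    mem_lift O.subtype (fun a b h => Subtype.ext h) hf _
      (fun P _ => bl3_smooth O res hres F f' hf' P) g h1
  have h3 : CRmap res hf' g ∈ Mprod (s.filterMap (redA O res F f f' hf hf')) := by
    rw [← ht1, ← Mprod_map]
    exact Ideal.mem_map_of_mem _ h2
  obtain ⟨u, hu, hcard⟩ := exists_rest _ _ hg0 h3
  obtain ⟨c, hc, h4⟩ := nm_of_Mprod hg
  rw [CRmap_nm] at h4
  have hodd : Odd f'.natDegree := by
    rw [Quintic.deg (f := f')]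
    decide
  have h5 : (nm g).map res ≠ 0 := by
    rw [← CRmap_nm res hf']
    exact nm_ne_zero_odd hodd hg0
  have h6 : (nm g).map O.subtype = C c * ((s.map APt.x).map fun a => X - C a).prod := by
    rw [h4, Multiset.map_map]
    rfl
  obtain ⟨c', hc', h7⟩ := rootRed O res hres (nm g) h5 (s.map APt.x) c h6
  have h8 : (nm (CRmap res hf' g)).natDegree =
      (s.filterMap (redA O res F f f' hf hf')).card := by
    rw [CRmap_nm, h7, natDegree_C_mul hc', natDegree_multiset_prod_X_sub_C_eq_card,
      Multiset.filterMap_map, ← Multiset.card_map APt.x, Multiset.map_filterMap]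
    congr 2
    funext P
    simp only [Function.comp, redK, redA]
    split_ifs <;> rfl
  have h9 : u = 0 := by
    rw [← Multiset.card_eq_zero]
    omega
  rw [hu, h9, add_zero]

end G2
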