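import Pool.Agent.Lib.MP_2eeeac_ag.G2.AMul

/-!
# Module BML: lifting of membership in `∏ 𝔪_P` from a field to a subring

PROOF. Induction on `s`. `s = 0`: `Mprod 0 = ⊤`. Step `P ::ₘ s`: the image `g' = CRmap j h g` is in
`𝔪_{P'} * Mprod s'` (`P' = P.map`, `s' = s.map _`), so in `Mprod s'`, and `g ∈ I := Mprod s` by the
induction hypothesis. Put `I₁ = Mprod (s.map neg)`; by `Mprod_mul_neg`, `I I₁ = (⟨p,0⟩)` with
`p = ∏ (X - x_Q)` monic. For every `u ∈ I₁`: `u g ∈ I I₁`, so `u g = ⟨p,0⟩ * c` for some `c : CR F`.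
Claim: `c ∈ 𝔪_P`. Apply `CRmap j h`: `u' g' = ⟨p',0⟩ c'`, and `u' ∈ Mprod (s'.map neg)`,
`g' ∈ 𝔪_{P'} Mprod s'`, so `u' g' ∈ 𝔪_{P'} Mprod s' Mprod (s'.map neg) = 𝔪_{P'} (⟨p',0⟩)`, so
`u' g' = ⟨p',0⟩ * z` with `z ∈ 𝔪_{P'}`. `p'` is monic, so `⟨p',0⟩` is a nonzerodivisor:
`c' = z ∈ 𝔪_{P'}`. By `mem_m_iff`, `ev P' c' = 0`, and `ev P' c' = j (ev P c)`, so `ev P c = 0` by
injectivity, `c ∈ 𝔪_P`. So `u g ∈ ⟨p,0⟩ 𝔪_P` for all `u ∈ I₁`. The set
`{z ∈ CR F | z * g ∈ ⟨p,0⟩ 𝔪_P I}` is an ideal which contains all `i u` (`i ∈ I`, `u ∈ I₁`), so it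
contains `I I₁ ∋ ⟨p,0⟩`. So `⟨p,0⟩ g = ⟨p,0⟩ w`, `w ∈ 𝔪_P I`, and cancelling
`g = w ∈ 𝔪_P I = Mprod (P ::ₘ s)`.
-/

namespace G2

open Polynomial

private lemma monic_prod_X {A : Type*} [CommRing A] {F : A[X]} (s : Multiset (APt F)) :
    ((s.map fun P : APt F => (X : A[X]) - C P.x).prod).Monic :=
  monic_multiset_prod_of_monic s (fun P : APt F => X - C P.x) fun P _ => monic_X_sub_C P.x

private lemma cancel_re {A : Type*} [CommRing A] {F : A[X]} {p : A[X]} (hp : p.Monic)
    {z w : CR F} (h : (⟨p, 0⟩ : CR F) * z = ⟨p, 0⟩ * w) : z = w := by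
  have h1 := congrArg QuadraticAlgebra.re h
  have h2 := congrArg QuadraticAlgebra.im h
  simp only [QuadraticAlgebra.re_mul, QuadraticAlgebra.im_mul, mul_zero, zero_mul, add_zero]
    at h1 h2
  ext1
  · exact hp.isRegular.left h1
  · exact hp.isRegular.left h2

private lemma map_neg_pt {A B : Type*} [CommRing A] [CommRing B] {F : A[X]} {F' : B[X]}
    (φ : A →+* B) (h : F.map φ = F') (P : APt F) : (P.neg).map φ h = (P.map φ h).neg := by
  ext <;> simp

private lemma map_smooth {A B : Type*} [CommRing A] [CommRing B] {F : A[X]} {F' : B[X]}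
    (φ : A →+* B) (h : F.map φ = F') (P : APt F) (hP : P.Smooth) : (P.map φ h).Smooth := by
  obtain ⟨u, w, huw⟩ := hP
  refine ⟨φ u, φ w, ?_⟩
  have h1 := congrArg φ huw
  rw [map_add, map_mul, map_mul, map_mul, map_one, map_ofNat] at h1
  rw [APt.map_x, APt.map_y, ← h, derivative_map, eval_map, eval₂_at_apply]
  exact h1

private lemma ev_map {A B : Type*} [CommRing A] [CommRing B] {F : A[X]} {F' : B[X]}
    (φ : A →+* B) (h : F.map φ = F') (P : APt F) (c : CR F) :
    (CRmap φ h c).re.eval (P.map φ h).x + (CRmap φ h c).im.eval (P.map φ h).x * (P.map φ h).y =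
      φ (c.re.eval P.x + c.im.eval P.x * P.y) := by
  rw [CRmap_re, CRmap_im, APt.map_x, APt.map_y, eval_map, eval_map, eval₂_at_apply,
    eval₂_at_apply, map_add, map_mul]

theorem mem_lift {A K : Type*} [CommRing A] [IsDomain A] [Field K] (j : A →+* K)
    (hj : Function.Injective j) {F : A[X]} {F' : K[X]} (h : F.map j = F')
    (s : Multiset (APt F)) (hs : ∀ P ∈ s, P.Smooth) (g : CR F)
    (hg : CRmap j h g ∈ Mprod (s.map (APt.map j h))) : g ∈ Mprod s := by
  induction s using Multiset.induction with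
  | empty => rw [Mprod_zero]; exact Submodule.mem_top
  | cons P s ih =>
    have hs' : ∀ Q ∈ s, Q.Smooth := fun Q hQ => hs Q (Multiset.mem_cons_of_mem hQ)
    rw [Multiset.map_cons, Mprod_cons] at hg
    have hgI : g ∈ Mprod s := ih hs' (Ideal.mul_le_right hg)
    have hI := Mprod_mul_neg s hs'
    have hI' := Mprod_mul_neg (s.map (APt.map j h)) (fun Q hQ => by
      obtain ⟨R, hR, rfl⟩ := Multiset.mem_map.1 hQ
      exact map_smooth j h R (hs' R hR))
    have hpm := monic_prod_X s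
    have hpm' := monic_prod_X (s.map (APt.map j h))
    have hpp : (CRmap j h ⟨(s.map fun P => X - C P.x).prod, 0⟩ : CR F') =
        ⟨((s.map (APt.map j h)).map fun P => X - C P.x).prod, 0⟩ := by
      ext1
      · rw [CRmap_re, Polynomial.map_multiset_prod, Multiset.map_map, Multiset.map_map]
        congr 1
        refine Multiset.map_congr rfl fun Q _ => ?_
        simp
      · rw [CRmap_im, Polynomial.map_zero]
    have key : ∀ u ∈ Mprod (s.map APt.neg), ∃ c ∈ P.m,
        u * g = (⟨(s.map fun P => X - C P.x).prod, 0⟩ : CR F) * c := by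
      intro u hu
      have h1 : u * g ∈ Mprod s * Mprod (s.map APt.neg) := by
        rw [mul_comm u g]
        exact Ideal.mul_mem_mul hgI hu
      rw [hI, Ideal.mem_span_singleton] at h1
      obtain ⟨c, hc⟩ := h1
      refine ⟨c, ?_, hc⟩
      have hu' : CRmap j h u ∈ Mprod ((s.map (APt.map j h)).map APt.neg) := by
        have h2 := Ideal.mem_map_of_mem (CRmap j h) hu
        rw [Mprod_map, Multiset.map_map] at h2
        rw [Multiset.map_map]
        have e : (APt.neg ∘ APt.map j h : APt F → APt F') = APt.map j h ∘ APt.neg := by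
          funext Q
          exact (map_neg_pt j h Q).symm
        rw [e]
        exact h2
      have h3 : CRmap j h u * CRmap j h g ∈
          (P.map j h).m * Ideal.span {(⟨((s.map (APt.map j h)).map fun P => X - C P.x).prod, 0⟩ :
            CR F')} := by
        rw [← hI', ← mul_assoc, mul_comm (CRmap j h u)]
        exact Ideal.mul_mem_mul hg hu'
      rw [mul_comm (APt.m _), Ideal.mem_span_singleton_mul] at h3
      obtain ⟨z, hz, hz2⟩ := h3
      have h4 := congrArg (CRmap j h) hc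
      rw [map_mul, map_mul, hpp, ← hz2] at h4
      have h5 : z = CRmap j h c := cancel_re hpm' h4
      rw [h5, mem_m_iff, ev_map] at hz
      rw [mem_m_iff]
      apply hj
      rw [hz, map_zero]
    have h6 : (⟨(s.map fun P => X - C P.x).prod, 0⟩ : CR F) ∈
        Mprod s * Mprod (s.map APt.neg) := by
      rw [hI]
      exact Ideal.mem_span_singleton_self _
    have h7 : ∃ w ∈ P.m * Mprod s, (⟨(s.map fun P => X - C P.x).prod, 0⟩ : CR F) * w =
        ⟨(s.map fun P => X - C P.x).prod, 0⟩ * g := by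
      refine Submodule.mul_induction_on (C := fun z => ∃ w ∈ P.m * Mprod s,
        (⟨(s.map fun P => X - C P.x).prod, 0⟩ : CR F) * w = z * g) h6 ?_ ?_
      · intro i hi u hu
        obtain ⟨c, hcP, hc⟩ := key u hu
        refine ⟨c * i, Ideal.mul_mem_mul hcP hi, ?_⟩
        rw [mul_assoc, hc, mul_comm c i, mul_left_comm]
      · rintro x y ⟨w, hw, hw2⟩ ⟨w', hw', hw2'⟩
        exact ⟨w + w', Ideal.add_mem _ hw hw', by rw [mul_add, hw2, hw2', add_mul]⟩
    obtain ⟨w, hw, hw2⟩ := h7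
    rw [Mprod_cons, ← cancel_re hpm hw2]
    exact hw

end G2
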