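import Mathlib

/-!
# Module CA: abstract sums over orbits; the bilinear extension

Pure algebra, no geometry.
-/

namespace G2

/-- A finite multiset stable under a group: a function whose sum over every finite orbit is zero
has sum zero over the multiset. -/
theorem sum_stable_eq_zero {G X M : Type*} [Group G] [MulAction G X] [AddCommGroup M] (φ : X → M)
    (h : ∀ O : Finset X, (∃ x, ∀ y, y ∈ O ↔ ∃ g : G, y = g • x) → ∑ y ∈ O, φ y = 0)
    (s : Multiset X) (hs : ∀ g : G, s.map (fun x => g • x) = s) : (s.map φ).sum = 0 := by
  classical
  induction hn : Multiset.card s using Nat.strong_induction_on generalizing s with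
  | _ n ih =>
    rcases Multiset.empty_or_exists_mem s with h0 | ⟨x, hx⟩
    · rw [h0]; simp
    · have hmem : ∀ g : G, ∀ y ∈ s, g • y ∈ s := by
        intro g y hy
        have h1 : g • y ∈ s.map (fun x => g • x) := Multiset.mem_map_of_mem _ hy
        rwa [hs g] at h1
      let O : Finset X := s.toFinset.filter fun y => ∃ g : G, y = g • x
      have hO : ∀ y, y ∈ O ↔ ∃ g : G, y = g • x := by
        intro y
        simp only [O, Finset.mem_filter, Multiset.mem_toFinset]
        constructor
        · exact fun h => h.2
        · rintro ⟨g, rfl⟩
          exact ⟨hmem g x hx, g, rfl⟩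
      have hOs : O.val ≤ s := by
        rw [Multiset.le_iff_subset O.nodup]
        intro y hy
        obtain ⟨g, rfl⟩ := (hO y).mp hy
        exact hmem g x hx
      obtain ⟨s', hs'⟩ := Multiset.le_iff_exists_add.mp hOs
      have hOmap : ∀ g : G, O.val.map (fun x => g • x) = O.val := by
        intro g
        have h1 : O.image (fun x => g • x) = O := by
          ext y
          rw [Finset.mem_image, hO]
          constructor
          · rintro ⟨z, hz, rfl⟩
            obtain ⟨g', rfl⟩ := (hO z).mp hz
            exact ⟨g * g', (mul_smul g g' x).symm⟩
          · rintro ⟨g', rfl⟩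
            refine ⟨(g⁻¹ * g') • x, (hO _).mpr ⟨_, rfl⟩, ?_⟩
            rw [← mul_smul, mul_inv_cancel_left]
        have h2 := Finset.image_val_of_injOn (s := O) (f := fun x => g • x)
          (fun a _ b _ hab => smul_left_cancel g hab)
        rw [← h2, h1]
      have hs'' : ∀ g : G, s'.map (fun x => g • x) = s' := by
        intro g
        have h1 := hs g
        rw [hs', Multiset.map_add, hOmap] at h1
        exact add_left_cancel h1
      have hcard : Multiset.card s' < n := by
        rw [← hn, hs', Multiset.card_add]
        have h1 : x ∈ O := (hO x).mpr ⟨1, (one_smul G x).symm⟩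
        have h2 : 0 < Multiset.card O.val := Finset.card_pos.mpr ⟨x, h1⟩
        omega
      rw [hs', Multiset.map_add, Multiset.sum_add, ih _ hcard s' hs'' rfl, add_zero]
      exact h O ⟨x, hO⟩

end G2
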