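import Mathlib

/-!
# Module CB: the bilinear extension of `{P, Q} = [(P,Q)] - [(P,o)] - [(o,Q)] + [(o,o)]`

Pure algebra, no geometry: `c P Q` is the class of the point `(P, Q)` in a rational vector space.
-/

namespace G2

section bilin

variable {X V : Type*} [AddCommGroup V]

/-- `{P, Q} = [(P,Q)] - [(P,o)] - [(o,Q)] + [(o,o)]` -/
def bb (c : X → X → V) (o P Q : X) : V := c P Q - c P o - c o Q + c o o

theorem bb_o_left (c : X → X → V) (o Q : X) : bb c o o Q = 0 := by
  unfold bb; abel

theorem bb_o_right (c : X → X → V) (o P : X) : bb c o P o = 0 := by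
  unfold bb; abel

theorem bb_inv_left (c : X → X → V) (o : X) (i : X → X)
    (h1 : ∀ P Q, c P Q + c (i P) Q = c o Q + c o Q) (P Q : X) :
    bb c o (i P) Q = -bb c o P Q := by
  have hQ := h1 P Q
  have ho := h1 P o
  have e1 : c (i P) Q = c o Q + c o Q - c P Q := by rw [← hQ]; abel
  have e2 : c (i P) o = c o o + c o o - c P o := by rw [← ho]; abel
  unfold bb
  rw [e1, e2]
  abel

theorem bb_inv_right (c : X → X → V) (o : X) (i : X → X)
    (h1 : ∀ P Q, c P Q + c P (i Q) = c P o + c P o) (P Q : X) :
    bb c o P (i Q) = -bb c o P Q := by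
  have hQ := h1 P Q
  have ho := h1 o Q
  have e1 : c P (i Q) = c P o + c P o - c P Q := by rw [← hQ]; abel
  have e2 : c o (i Q) = c o o + c o o - c o Q := by rw [← ho]; abel
  unfold bb
  rw [e1, e2]
  abel

private theorem bb_two [Module ℚ V] {v : V} (h : v + v = 0) : v = 0 := by
  have h1 : (2 : ℚ) • v = 0 := by rw [two_smul]; exact h
  have h2 := congrArg (fun w => (2 : ℚ)⁻¹ • w) h1
  simpa [smul_smul] using h2

theorem bb_self [Module ℚ V] (c : X → X → V) (o : X) (i : X → X)
    (h1 : ∀ P Q, c P Q + c (i P) Q = c o Q + c o Q)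
    (h1' : ∀ P Q, c P Q + c P (i Q) = c P o + c P o)
    (h2 : ∀ P, c P P + c (i P) (i P) = c o o + c o o) (P : X) : bb c o P P = 0 := by
  have hsum : bb c o P P + bb c o (i P) (i P) = 0 := by
    have e1 := h2 P
    have e2 := h1 P o
    have e3 := h1' o P
    unfold bb
    have e1' : c (i P) (i P) = c o o + c o o - c P P := by rw [← e1]; abel
    have e2' : c (i P) o = c o o + c o o - c P o := by rw [← e2]; abel
    have e3' : c o (i P) = c o o + c o o - c o P := by rw [← e3]; abel
    rw [e1', e2', e3']
    abel
  rw [bb_inv_left c o i h1, bb_inv_right c o i h1', neg_neg] at hsum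
  exact bb_two hsum

/-- the bilinear extension to divisors -/
noncomputable def BB (c : X → X → V) (o : X) : (X →₀ ℤ) →ₗ[ℤ] (X →₀ ℤ) →ₗ[ℤ] V :=
  Finsupp.linearCombination ℤ fun P => Finsupp.linearCombination ℤ fun Q => bb c o P Q

theorem BB_single (c : X → X → V) (o P Q : X) (m n : ℤ) :
    BB c o (Finsupp.single P m) (Finsupp.single Q n) = (m * n) • bb c o P Q := by
  unfold BB
  rw [Finsupp.linearCombination_single, LinearMap.smul_apply, Finsupp.linearCombination_single,
    smul_smul]

/-- If a linear map vanishes on all points it vanishes. -/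
theorem BB_right_eq_zero (c : X → X → V) (o : X) (D : X →₀ ℤ)
    (h : ∀ Q, BB c o D (Finsupp.single Q 1) = 0) (E : X →₀ ℤ) : BB c o D E = 0 := by
  induction E using Finsupp.induction_linear with
  | zero => exact map_zero _
  | add f g hf hg => rw [map_add, hf, hg, add_zero]
  | single Q n =>
    have h1 : Finsupp.single Q n = n • Finsupp.single Q (1 : ℤ) := by
      rw [Finsupp.smul_single, smul_eq_mul, mul_one]
    rw [h1, map_smul, h, smul_zero]

theorem BB_left_eq_zero (c : X → X → V) (o : X) (D : X →₀ ℤ)
    (h : ∀ P, BB c o (Finsupp.single P 1) D = 0) (E : X →₀ ℤ) : BB c o E D = 0 := by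
  induction E using Finsupp.induction_linear with
  | zero => rw [map_zero]; rfl
  | add f g hf hg => rw [map_add, LinearMap.add_apply, hf, hg, add_zero]
  | single Q n =>
    have h1 : Finsupp.single Q n = n • Finsupp.single Q (1 : ℤ) := by
      rw [Finsupp.smul_single, smul_eq_mul, mul_one]
    rw [h1, map_smul, LinearMap.smul_apply, h, smul_zero]

/-- the final formal computation -/
theorem BB_final (c : X → X → V) (o R S : X) (hR : bb c o R R = 0) (hS : bb c o S S = 0) :
    (BB c o (Finsupp.single R 4 + Finsupp.single S 2) (Finsupp.single R 4 - Finsupp.single S 2)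
      + BB c o (Finsupp.single R 4 - Finsupp.single S 2) (Finsupp.single R 4 + Finsupp.single S 2)
        = 0) ∧
    (BB c o (Finsupp.single R 4 + Finsupp.single S 2) (Finsupp.single R 4 + Finsupp.single S 2)
      + BB c o (Finsupp.single R 4 - Finsupp.single S 2) (Finsupp.single R 4 - Finsupp.single S 2)
        = 0) := by
  simp only [map_add, map_sub, LinearMap.add_apply, LinearMap.sub_apply, BB_single, hR, hS,
    smul_zero]
  constructor <;> abel

end bilin

end G2
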