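import Pool.Agent.Lib.MP_2eeeac_ag.G2.CPl
import Pool.Agent.Lib.MP_2eeeac_ag.G2.CA

/-!
# Module COrb: relations from Galois stable multisets; the exterior product is biadditive
-/

namespace G2

open Polynomial AlbCH

section orbits

variable {k : Type*} [Field k] {f : k[X]}

/-- the relation given by an orbit -/
theorem orbit_relH (π₀ π₁ : Place k) (O : Finset (HPt (fOm f) × HPt (fOm f)))
    (hO : IsOrbitH f O) :
    ∑ Q ∈ O, (clH (spH π₀ Q.1) (spH π₀ Q.2) - clH (spH π₁ Q.1) (spH π₁ Q.2)) = 0 := by
  have h : (∑ Q ∈ O, (Finsupp.single (spH π₀ Q.1, spH π₀ Q.2) (1 : ℚ)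
      - Finsupp.single (spH π₁ Q.1, spH π₁ Q.2) 1) : Z0H f) ∈ ratEquivH f :=
    Submodule.subset_span ⟨O, π₀, π₁, hO, rfl⟩
  have h2 := (Submodule.Quotient.mk_eq_zero (ratEquivH f)).2 h
  rw [← h2]
  have h3 : ∀ z : Z0H f, (Submodule.Quotient.mk z : CH0H f) = (ratEquivH f).mkQ z :=
    fun _ => rfl
  rw [h3, map_sum]
  refine Finset.sum_congr rfl fun Q _ => ?_
  rw [map_sub]
  rfl

/-- the relation given by a multiset stable under the Galois group -/
theorem stable_relH (π₀ π₁ : Place k) (s : Multiset (HPt (fOm f) × HPt (fOm f)))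
    (hs : ∀ σ : Om k ≃ₐ[RatFunc k] Om k, s.map (fun Q => (galH σ Q.1, galH σ Q.2)) = s) :
    (s.map fun Q => clH (spH π₀ Q.1) (spH π₀ Q.2) - clH (spH π₁ Q.1) (spH π₁ Q.2)).sum = 0 := by
  let _ : MulAction (Om k ≃ₐ[RatFunc k] Om k) (HPt (fOm f) × HPt (fOm f)) :=
    { smul := fun σ Q => (galH σ Q.1, galH σ Q.2)
      one_smul := fun Q => Prod.ext (galH_one Q.1) (galH_one Q.2)
      mul_smul := fun σ τ Q => Prod.ext (galH_mul σ τ Q.1) (galH_mul σ τ Q.2) }
  refine sum_stable_eq_zero (G := Om k ≃ₐ[RatFunc k] Om k) _ (fun O hO => ?_) s hs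
  have hO' : IsOrbitH f O := hO
  exact orbit_relH π₀ π₁ O hO'

end orbits

section box

variable {k : Type*} [Field k] {f : k[X]}

theorem box_add_left (D D' E : Dv f) : box (D + D') E = box D E + box D' E := by
  unfold box
  rw [Finsupp.sum_add_index']
  · intro P
    unfold Finsupp.sum
    refine Finset.sum_eq_zero fun Q _ => ?_
    simp only [Int.cast_zero, zero_mul, zero_smul]
  · intro P m m'
    unfold Finsupp.sum
    rw [← Finset.sum_add_distrib]
    refine Finset.sum_congr rfl fun Q _ => ?_
    simp only [Int.cast_add, add_mul, add_smul]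

theorem box_add_right (D E E' : Dv f) : box D (E + E') = box D E + box D E' := by
  unfold box
  unfold Finsupp.sum
  rw [← Finset.sum_add_distrib]
  refine Finset.sum_congr rfl fun P _ => ?_
  have h := Finsupp.sum_add_index' (f := E) (g := E')
    (h := fun Q (n : ℤ) => (((D P : ℤ) : ℚ) * (n : ℚ)) • clH P Q) (fun Q => by
      rw [Int.cast_zero, mul_zero, zero_smul]) (fun Q n n' => by
      rw [Int.cast_add, mul_add, add_smul])
  exact h

/-- the exterior product as a biadditive map -/
noncomputable def boxL (f : k[X]) : Dv f →+ Dv f →+ CH0H f where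
  toFun D :=
    { toFun := fun E => box D E
      map_zero' := by
        unfold box Finsupp.sum
        simp
      map_add' := fun E E' => box_add_right D E E' }
  map_zero' := by
    refine AddMonoidHom.ext fun E => ?_
    change box 0 E = 0
    unfold box Finsupp.sum
    simp
  map_add' D D' := by
    refine AddMonoidHom.ext fun E => ?_
    exact box_add_left D D' E

theorem boxL_apply (D E : Dv f) : boxL f D E = box D E := rfl

theorem box_zero_left (E : Dv f) : box 0 E = 0 := by
  rw [← boxL_apply, map_zero]; rfl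

theorem box_zero_right (D : Dv f) : box D 0 = 0 := by
  rw [← boxL_apply, map_zero]

theorem box_neg_left (D E : Dv f) : box (-D) E = -box D E := by
  rw [← boxL_apply, ← boxL_apply, map_neg]; rfl

theorem box_neg_right (D E : Dv f) : box D (-E) = -box D E := by
  rw [← boxL_apply, ← boxL_apply, map_neg]

theorem box_sub_left (D D' E : Dv f) : box (D - D') E = box D E - box D' E := by
  rw [sub_eq_add_neg, box_add_left, box_neg_left, ← sub_eq_add_neg]

theorem box_sub_right (D E E' : Dv f) : box D (E - E') = box D E - box D E' := by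
  rw [sub_eq_add_neg, box_add_right, box_neg_right, ← sub_eq_add_neg]

theorem box_nsmul_left (n : ℕ) (D E : Dv f) : box (n • D) E = n • box D E := by
  rw [← boxL_apply, ← boxL_apply, map_nsmul]; rfl

theorem box_nsmul_right (n : ℕ) (D E : Dv f) : box D (n • E) = n • box D E := by
  rw [← boxL_apply, ← boxL_apply, map_nsmul]

theorem box_single (P Q : HPt f) (m n : ℤ) :
    box (Finsupp.single P m) (Finsupp.single Q n) = ((m : ℚ) * (n : ℚ)) • clH P Q := by
  unfold box
  rw [Finsupp.sum_single_index, Finsupp.sum_single_index]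
  · rw [Int.cast_zero, mul_zero, zero_smul]
  · rw [Finsupp.sum_single_index]
    · rw [Int.cast_zero, zero_mul, zero_smul]
    · rw [Int.cast_zero, mul_zero, zero_smul]

theorem box_single_one (P Q : HPt f) :
    box (Finsupp.single P 1) (Finsupp.single Q 1) = clH P Q := by
  rw [box_single, Int.cast_one, one_mul, one_smul]

/-- a biadditive condition may be checked on points -/
theorem box_right_eq_zero (D : Dv f) (h : ∀ Q, box D (Finsupp.single Q 1) = 0) (E : Dv f) :
    box D E = 0 := by
  induction E using Finsupp.induction_linear with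
  | zero => exact box_zero_right D
  | add E E' hE hE' => rw [box_add_right, hE, hE', add_zero]
  | single Q n =>
    have h1 : Finsupp.single Q n = n • Finsupp.single Q (1 : ℤ) := by
      rw [Finsupp.smul_single, smul_eq_mul, mul_one]
    rw [h1, ← boxL_apply, map_zsmul, boxL_apply, h, smul_zero]

theorem box_left_eq_zero (D : Dv f) (h : ∀ Q, box (Finsupp.single Q 1) D = 0) (E : Dv f) :
    box E D = 0 := by
  induction E using Finsupp.induction_linear with
  | zero => exact box_zero_left D
  | add E E' hE hE' => rw [box_add_left, hE, hE', add_zero]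
  | single Q n =>
    have h1 : Finsupp.single Q n = n • Finsupp.single Q (1 : ℤ) := by
      rw [Finsupp.smul_single, smul_eq_mul, mul_one]
    rw [h1, ← boxL_apply, map_zsmul, AddMonoidHom.smul_apply, boxL_apply, h, smul_zero]

end box

end G2
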