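import Pool.Agent.Lib.MP_2eeeac_ag.G2.Fun
import Pool.Agent.Lib.MP_2eeeac_ag.GA
import Pool.Agent.Lib.MP_2eeeac_ag.GB

/-!
# Module CPl: places and specialisation

`spH π` is the reduction `red` for the valuation ring of the place `π`; the Galois action is an
action; the element `S = 1/t - 1` of `Ω` has residue `0` at every place over `t = 1` and is not
integral at the places over `t = 0`.
-/

namespace G2

open Polynomial AlbCH

variable {k : Type*} [Field k] {f : k[X]}

/-- the constants as elements of the valuation ring -/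
noncomputable def cR (π : Place k) : k →+* π.ring :=
  (algebraMap k (Om k)).codRestrict π.ring.toSubring π.mem_const

lemma cR_res (π : Place k) (a : k) : π.res (cR π a) = a := π.res_const a

lemma cR_coe (π : Place k) (a : k) : ((cR π a : π.ring) : Om k) = algebraMap k (Om k) a := rfl

lemma cR_subtype (π : Place k) : (f.map (cR π)).map π.ring.subtype = fOm f := by
  rw [map_map]
  rfl

lemma cR_map_res (π : Place k) : (f.map (cR π)).map π.res = f := by
  rw [map_map]
  have h : π.res.comp (cR π) = RingHom.id k := by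
    ext a
    exact cR_res π a
  rw [h, map_id]

theorem spH_some (π : Place k) (P : APt (fOm f)) :
    spH π (some P) =
      redA π.ring π.res (f.map (cR π)) (fOm f) f (cR_subtype π) (cR_map_res π) P := by
  by_cases hx : P.x ∈ π.ring
  · have hy : P.y ∈ π.ring := y_mem π.ring (f.map (cR π)) (fOm f) (cR_subtype π) P hx
    have hxy : P.x ∈ π.ring ∧ P.y ∈ π.ring := ⟨hx, hy⟩
    refine (dif_pos hxy).trans ?_
    unfold redA
    rw [dif_pos hx]
    rfl
  · have hxy : ¬(P.x ∈ π.ring ∧ P.y ∈ π.ring) := fun h => hx h.1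
    refine (dif_neg hxy).trans ?_
    unfold redA
    rw [dif_neg hx]

theorem spH_eq_red (π : Place k) (P : HPt (fOm f)) :
    spH π P = red π.ring π.res (f.map (cR π)) (fOm f) f (cR_subtype π) (cR_map_res π) P := by
  rcases P with _ | P
  · rfl
  · exact spH_some π P

theorem spH_none (π : Place k) : spH π (none : HPt (fOm f)) = none := rfl

theorem spH_of_notMem (π : Place k) (P : APt (fOm f)) (h : P.x ∉ π.ring) :
    spH π (some P) = none := by
  have hxy : ¬(P.x ∈ π.ring ∧ P.y ∈ π.ring) := fun h' => h h'.1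
  exact dif_neg hxy

/-- The constant points. -/
noncomputable def cst (P : HPt f) : HPt (fOm f) := HPt.map (algebraMap k (Om k)) rfl P

theorem spH_cst (π : Place k) (P : HPt f) : spH π (cst P) = P := by
  rcases P with _ | P
  · rfl
  · have hx : algebraMap k (Om k) P.x ∈ π.ring := π.mem_const _
    have hy : algebraMap k (Om k) P.y ∈ π.ring := π.mem_const _
    have hxy : (APt.map (algebraMap k (Om k)) rfl P : APt (fOm f)).x ∈ π.ring ∧
        (APt.map (algebraMap k (Om k)) rfl P : APt (fOm f)).y ∈ π.ring := ⟨hx, hy⟩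
    change spH π (some (APt.map (algebraMap k (Om k)) rfl P)) = some P
    refine (dif_pos hxy).trans ?_
    congr 1
    ext1
    · exact π.res_const _
    · exact π.res_const _

theorem galH_const (σ : Om k ≃ₐ[RatFunc k] Om k) (a : k) :
    σ (algebraMap k (Om k) a) = algebraMap k (Om k) a := by
  rw [IsScalarTower.algebraMap_apply k (RatFunc k) (Om k)]
  exact σ.commutes _

theorem galH_cst (σ : Om k ≃ₐ[RatFunc k] Om k) (P : HPt f) : galH σ (cst P) = cst P := by
  rcases P with _ | P
  · rfl
  · change some _ = some _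
    congr 1
    ext1
    · exact galH_const σ _
    · exact galH_const σ _

theorem galH_one (P : HPt (fOm f)) : galH (1 : Om k ≃ₐ[RatFunc k] Om k) P = P := by
  rcases P with _ | P <;> rfl

theorem galH_mul (σ τ : Om k ≃ₐ[RatFunc k] Om k) (P : HPt (fOm f)) :
    galH (σ * τ) P = galH σ (galH τ P) := by
  rcases P with _ | P <;> rfl

/-- the element `1/t - 1` -/
noncomputable def SS (k : Type*) [Field k] : Om k := (TT k)⁻¹ - 1

theorem gal_SS (σ : Om k ≃ₐ[RatFunc k] Om k) : σ (SS k) = SS k := by
  unfold SS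
  rw [map_sub, map_inv₀, map_one]
  congr 2
  exact σ.commutes _

theorem TT_ne_zero : TT k ≠ 0 := by
  intro h
  have h1 : algebraMap (RatFunc k) (Om k) RatFunc.X = algebraMap (RatFunc k) (Om k) 0 := by
    rw [map_zero]; exact h
  exact RatFunc.X_ne_zero ((algebraMap (RatFunc k) (Om k)).injective h1)

theorem SS_has (π : Place k) (h : π.Has (TT k) 1) : π.Has (SS k) 0 := by
  have h1 := π.has_inv h one_ne_zero
  have h2 := π.has_sub h1 (π.has_const 1)
  rw [inv_one, sub_self, map_one] at h2
  exact h2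

theorem SS_notMem (π : Place k) (h : π.Has (TT k) 0) : SS k ∉ π.ring := by
  intro h1
  have h2 : (TT k)⁻¹ ∈ π.ring := by
    have h3 := π.ring.add_mem _ _ h1 π.ring.one_mem
    unfold SS at h3
    rwa [sub_add_cancel] at h3
  have h4 := π.div_notMem h TT_ne_zero (u := 1) (c := 1) (by
    have := π.has_const 1
    rwa [map_one] at this) one_ne_zero
  apply h4
  rwa [one_div]

/-- the curve over `Ω` -/
instance quintic_fOm [h : Quintic f] : Quintic (fOm f) where
  monic := h.monic.map _
  deg := by rw [natDegree_map, h.deg]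
  sep := h.sep.map
  two := by
    intro h2
    apply h.two
    apply (algebraMap k (Om k)).injective
    rw [map_ofNat, map_zero, h2]

/-- The product of the maximal ideals of a point and its conjugate. -/
theorem m_mul_negC {K : Type*} [Field K] {f : K[X]} [h : Quintic f] (P : APt f) :
    P.m * P.neg.m = Ideal.span {(⟨X - C P.x, 0⟩ : CR f)} := by
  obtain ⟨q, hq⟩ : (X - C P.x) ∣ f - C (f.eval P.x) := by
    rw [dvd_iff_isRoot]
    simp
  have hqx : q.eval P.x = (derivative f).eval P.x := by
    have h1 := congrArg derivative hq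
    rw [derivative_sub, derivative_C, sub_zero, derivative_mul, derivative_sub, derivative_X,
      derivative_C, sub_zero, one_mul] at h1
    rw [h1]
    simp
  apply le_antisymm
  · unfold APt.m
    rw [Ideal.span_mul_span', Ideal.span_le]
    rintro z ⟨a, ha, b, hb, rfl⟩
    simp only [Set.mem_insert_iff, Set.mem_singleton_iff] at ha hb
    rw [SetLike.mem_coe, Ideal.mem_span_singleton]
    rcases ha with rfl | rfl <;> rcases hb with rfl | rfl
    · exact ⟨⟨X - C P.x, 0⟩, by simp⟩
    · exact ⟨⟨-C P.neg.y, 1⟩, by simp⟩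
    · refine ⟨⟨-C P.y, 1⟩, ?_⟩
      rw [mul_comm]
      simp
    · refine ⟨⟨q, 0⟩, ?_⟩
      ext1
      · simp only [QuadraticAlgebra.re_mul, APt.neg_y]
        have h1 : C P.y * C P.y = C (f.eval P.x) := by
          rw [← C_mul, ← sq, P.eq]
        rw [C_neg]
        linear_combination hq - h1
      · simp [APt.neg_y]
  · rw [Ideal.span_singleton_le_iff_mem]
    have hX : (⟨X - C P.x, 0⟩ : CR f) ∈ P.m := Ideal.subset_span (by simp)
    have hY : (⟨-C P.y, 1⟩ : CR f) ∈ P.m := Ideal.subset_span (by simp)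
    have hX' : (⟨X - C P.x, 0⟩ : CR f) ∈ P.neg.m := Ideal.subset_span (by simp)
    have hY' : (⟨-C P.neg.y, 1⟩ : CR f) ∈ P.neg.m := Ideal.subset_span (by simp)
    -- `2 y` and `f'(x)` generate the unit ideal
    obtain ⟨u, w, huw⟩ : ∃ u w : K, u * (2 * P.y) + w * (derivative f).eval P.x = 1 := by
      by_cases hy : P.y = 0
      · have h0 : f.eval P.x = 0 := by rw [← P.eq, hy]; ring
        obtain ⟨a, b, hab⟩ := h.sep
        have h1 := congrArg (eval P.x) hab
        rw [eval_add, eval_mul, eval_mul, h0, mul_zero, zero_add, eval_one] at h1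
        exact ⟨0, b.eval P.x, by rw [zero_mul, zero_add, h1]⟩
      · have h2 : 2 * P.y ≠ 0 := mul_ne_zero h.two hy
        exact ⟨(2 * P.y)⁻¹, 0, by rw [inv_mul_cancel₀ h2, zero_mul, add_zero]⟩
    -- `q = q(x) + (X - x) q'`
    obtain ⟨q', hq'⟩ : (X - C P.x) ∣ q - C (q.eval P.x) := by
      rw [dvd_iff_isRoot]
      simp
    have e : (⟨X - C P.x, 0⟩ : CR f) =
        ⟨C u, 0⟩ * (⟨X - C P.x, 0⟩ * ⟨-C P.neg.y, 1⟩ - ⟨-C P.y, 1⟩ * ⟨X - C P.x, 0⟩)
        + ⟨C w, 0⟩ * (⟨-C P.y, 1⟩ * ⟨-C P.neg.y, 1⟩)
        - ⟨C w * q', 0⟩ * (⟨X - C P.x, 0⟩ * ⟨X - C P.x, 0⟩) := by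
      have h1 : C P.y * C P.y = C (f.eval P.x) := by
        rw [← C_mul, ← sq, P.eq]
      have h3 : C u * (2 * C P.y) + C w * C (q.eval P.x) = (1 : K[X]) := by
        rw [hqx, ← C_1, ← huw]
        simp only [C_add, C_mul]
        rfl
      ext1
      · simp only [QuadraticAlgebra.re_add, QuadraticAlgebra.re_sub, QuadraticAlgebra.re_mul,
          QuadraticAlgebra.im_mul, QuadraticAlgebra.im_sub, APt.neg_y, C_neg]
        linear_combination (-(X - C P.x)) * h3 - C w * hq + C w * h1 - C w * (X - C P.x) * hq'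
      · simp only [QuadraticAlgebra.im_add, QuadraticAlgebra.re_sub, QuadraticAlgebra.re_mul,
          QuadraticAlgebra.im_mul, QuadraticAlgebra.im_sub, APt.neg_y, C_neg]
        ring
    rw [e]
    refine Ideal.sub_mem _ (Ideal.add_mem _ (Ideal.mul_mem_left _ _ (Ideal.sub_mem _ ?_ ?_))
      (Ideal.mul_mem_left _ _ ?_)) (Ideal.mul_mem_left _ _ ?_)
    · exact Ideal.mul_mem_mul hX hY'
    · exact Ideal.mul_mem_mul hY hX'
    · exact Ideal.mul_mem_mul hY hY'
    · exact Ideal.mul_mem_mul hX hX'

end G2
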