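import Pool.Agent.Lib.MP_2eeeac_ag.G2.COrb
import Pool.Agent.Lib.MP_2eeeac_ag.G2.AInj
import Pool.Agent.Lib.MP_2eeeac_ag.G2.BL3

/-!
# Module CPrin: principal divisors give relations in `CH₀(C × C) ⊗ ℚ`

For `g` with `(g) = ∏_{P ∈ s} 𝔪_P` let `s'` be the multiset of the zeros of `g - S` over `Ω`,
`S = 1/t - 1`.  It is stable under the Galois group; at a place over `t = 1` (where `S` has residue
`0`) it specialises to `s` (`L3`), at a place over `t = 0` (where `S` is not integral) all its
points specialise to `∞`, as `S = g(P)`.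
-/

namespace G2

open Polynomial AlbCH

section

variable {K : Type*} [Field K] {f : K[X]}

theorem prod_mem_Mprod (s : Multiset (APt f)) :
    (⟨(s.map fun P => X - C P.x).prod, 0⟩ : CR f) ∈ Mprod s := by
  induction s using Multiset.induction with
  | empty =>
    rw [Mprod_zero]
    trivial
  | cons P s ih =>
    rw [Mprod_cons, Multiset.map_cons, Multiset.prod_cons]
    have h1 : (⟨(X - C P.x) * (s.map fun P => X - C P.x).prod, 0⟩ : CR f) =
        ⟨X - C P.x, 0⟩ * ⟨(s.map fun P => X - C P.x).prod, 0⟩ := by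
      ext1 <;> simp
    rw [h1]
    exact Ideal.mul_mem_mul (Ideal.subset_span (by simp)) ih

theorem Mprod_ne_botC (s : Multiset (APt f)) : Mprod s ≠ ⊥ := by
  intro h
  have h1 := prod_mem_Mprod s
  rw [h, Ideal.mem_bot] at h1
  have h2 : (s.map fun P => X - C P.x).prod = 0 := congrArg QuadraticAlgebra.re h1
  rw [Multiset.prod_eq_zero_iff] at h2
  obtain ⟨P, -, hP⟩ := Multiset.mem_map.mp h2
  exact X_sub_C_ne_zero P.x hP

theorem Mprod_leC {s : Multiset (APt f)} {P : APt f} (h : P ∈ s) : Mprod s ≤ P.m := by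
  obtain ⟨t, rfl⟩ := Multiset.exists_cons_of_mem h
  rw [Mprod_cons]
  exact Ideal.mul_le_left (I := P.m) (J := Mprod t)

private theorem sum_filterMap {α β M : Type*} [AddCommMonoid M] (r : α → Option β)
    (φ : Option β → M) (h : φ none = 0) (s : Multiset α) :
    ((s.filterMap r).map fun b => φ (some b)).sum = (s.map fun a => φ (r a)).sum := by
  induction s using Multiset.induction with
  | empty => simp
  | cons a s ih =>
    rw [Multiset.map_cons, Multiset.sum_cons]
    rcases hr : r a with _ | b
    · rw [Multiset.filterMap_cons_none _ _ hr, ih, h, zero_add]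
    · rw [Multiset.filterMap_cons_some _ _ _ hr, Multiset.map_cons, Multiset.sum_cons, ih]

end

section

variable {k : Type*} [Field k] [IsAlgClosed k] {f : k[X]} [Quintic f]

theorem prin_rel (φ : HPt (fOm f) → HPt (fOm f) × HPt (fOm f)) (φ' : HPt f → HPt f × HPt f)
    (h1 : ∀ (σ : Om k ≃ₐ[RatFunc k] Om k) (P : HPt (fOm f)),
      (galH σ (φ P).1, galH σ (φ P).2) = φ (galH σ P))
    (h2 : ∀ (π : Place k) (P : HPt (fOm f)), (spH π (φ P).1, spH π (φ P).2) = φ' (spH π P))
    (s : Multiset (APt f)) (g : CR f) (hg : Mprod s = Ideal.span {g}) :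
    (s.map fun P => clH (φ' (some P)).1 (φ' (some P)).2
      - clH (φ' none).1 (φ' none).2).sum = 0 := by
  classical
  obtain ⟨π₀, hπ₀⟩ := exists_place (1 : k)
  obtain ⟨π₁, hπ₁⟩ := exists_place (0 : k)
  have hg0 : g ≠ 0 := by
    rintro rfl
    apply Mprod_ne_botC s
    rw [hg, Ideal.span_singleton_eq_bot]
  -- the function `g - S`
  let G : CR (fOm f) := ⟨g.re.map (algebraMap k (Om k)) - C (SS k), g.im.map (algebraMap k (Om k))⟩
  have hG : G ≠ 0 := by
    intro h0
    have h3 : g.re.map (algebraMap k (Om k)) - C (SS k) = 0 := congrArg QuadraticAlgebra.re h0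
    have h4 := congrArg (fun q => coeff q 0) h3
    simp only [coeff_sub, coeff_map, coeff_C_zero, coeff_zero] at h4
    apply SS_notMem π₁ hπ₁
    rw [← sub_eq_zero.mp h4]
    exact π₁.mem_const _
  obtain ⟨t, ht⟩ := exists_Mprod (Ideal.span {G}) (by
    rw [Ne, Ideal.span_singleton_eq_bot]; exact hG)
  -- stability
  have hstab : ∀ σ : Om k ≃ₐ[RatFunc k] Om k,
      t.map (APt.map (σ : Om k →+* Om k) (gal_const' σ)) = t := by
    intro σ
    apply Mprod_inj
    rw [← Mprod_map, ← ht, Ideal.map_span, Set.image_singleton]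
    congr 2
    have hσ : ∀ p : k[X], (p.map (algebraMap k (Om k))).map (σ : Om k →+* Om k) =
        p.map (algebraMap k (Om k)) := by
      intro p
      rw [map_map]
      congr 1
      ext a
      exact galH_const σ a
    ext1
    · change ((g.re.map (algebraMap k (Om k)) - C (SS k)).map (σ : Om k →+* Om k)) =
        g.re.map (algebraMap k (Om k)) - C (SS k)
      rw [Polynomial.map_sub, hσ, map_C]
      congr 2
      exact gal_SS σ
    · exact hσ _
  -- the relation
  have hrel := stable_relH π₀ π₁ (t.map fun P => φ (some P)) (fun σ => by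
    rw [Multiset.map_map]
    have h3 : ∀ P : APt (fOm f), (galH σ (φ (some P)).1, galH σ (φ (some P)).2) =
        φ (some (APt.map (σ : Om k →+* Om k) (gal_const' σ) P)) := fun P => h1 σ (some P)
    simp only [Function.comp_apply, h3]
    conv_rhs => rw [← hstab σ]
    rw [Multiset.map_map]
    rfl)
  rw [Multiset.map_map] at hrel
  -- the points go to infinity at `π₁`
  have hinf : ∀ P ∈ t, spH π₁ (some P) = none := by
    intro P hP
    apply spH_of_notMem
    intro hx
    have hy : P.y ∈ π₁.ring := y_mem π₁.ring (f.map (cR π₁)) (fOm f) (cR_subtype π₁) P hx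
    have h3 : G ∈ P.m := by
      apply Mprod_leC hP
      rw [← ht]
      exact Ideal.mem_span_singleton_self G
    rw [mem_m_iff] at h3
    have h4 : SS k = (g.re.map (algebraMap k (Om k))).eval P.x +
        (g.im.map (algebraMap k (Om k))).eval P.x * P.y := by
      change (g.re.map (algebraMap k (Om k)) - C (SS k)).eval P.x +
        (g.im.map (algebraMap k (Om k))).eval P.x * P.y = 0 at h3
      rw [eval_sub, eval_C] at h3
      linear_combination -h3
    apply SS_notMem π₁ hπ₁
    have h5 : ∀ p : k[X], (p.map (algebraMap k (Om k))).eval P.x ∈ π₁.ring := by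
      intro p
      have h6 := eval_eq_O π₁.ring (p.map (cR π₁)) (p.map (algebraMap k (Om k)))
        (by rw [map_map]; rfl) P.x hx
      rw [h6]
      exact ((p.map (cR π₁)).eval (⟨P.x, hx⟩ : π₁.ring)).2
    rw [h4]
    exact π₁.ring.add_mem _ _ (h5 _) (π₁.ring.mul_mem _ _ (h5 _) hy)
  -- at `π₀` they specialise to `s`
  obtain ⟨hS, hSr⟩ := SS_has π₀ hπ₀
  let gO : CR (f.map (cR π₀)) := ⟨g.re.map (cR π₀) - C (⟨SS k, hS⟩ : π₀.ring), g.im.map (cR π₀)⟩
  have hgO : CRmap π₀.ring.subtype (cR_subtype π₀) gO = G := by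
    ext1
    · change (g.re.map (cR π₀) - C (⟨SS k, hS⟩ : π₀.ring)).map π₀.ring.subtype = _
      rw [Polynomial.map_sub, map_map, map_C]
      rfl
    · change (g.im.map (cR π₀)).map π₀.ring.subtype = _
      rw [map_map]
      rfl
  have hgr : CRmap π₀.res (cR_map_res π₀) gO = g := by
    have h3 : π₀.res.comp (cR π₀) = RingHom.id k := by
      ext a
      exact cR_res π₀ a
    ext1
    · change (g.re.map (cR π₀) - C (⟨SS k, hS⟩ : π₀.ring)).map π₀.res = _
      rw [Polynomial.map_sub, map_map, map_C, hSr, h3, map_id, C_0, sub_zero]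
    · change (g.im.map (cR π₀)).map π₀.res = _
      rw [map_map, h3, map_id]
  have hsurj : Function.Surjective π₀.res := fun c => ⟨⟨_, π₀.mem_const c⟩, π₀.res_const c⟩
  have hL := L3 π₀.ring π₀.res hsurj (f.map (cR π₀)) (fOm f) f (cR_subtype π₀) (cR_map_res π₀)
    gO t (by rw [hgO, ht]) (by rw [hgr]; exact hg0)
  rw [hgr, ← hg] at hL
  have hts := Mprod_inj hL
  -- conclusion
  let Φ : HPt f → CH0H f := fun Q => clH (φ' Q).1 (φ' Q).2 - clH (φ' none).1 (φ' none).2
  have hΦ : Φ none = 0 := sub_self _
  change (s.map fun P => Φ (some P)).sum = 0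
  rw [← hts, sum_filterMap _ Φ hΦ, ← hrel]
  congr 1
  refine Multiset.map_congr rfl fun P hP => ?_
  have h3 := h2 π₀ (some P)
  have h4 := h2 π₁ (some P)
  rw [hinf P hP] at h4
  rw [spH_some] at h3
  have e1 := congrArg Prod.fst h3
  have e2 := congrArg Prod.snd h3
  have e3 := congrArg Prod.fst h4
  have e4 := congrArg Prod.snd h4
  simp only at e1 e2 e3 e4
  change clH (φ' _).1 (φ' _).2 - clH (φ' none).1 (φ' none).2 =
    clH (spH π₀ (φ (some P)).1) (spH π₀ (φ (some P)).2)
      - clH (spH π₁ (φ (some P)).1) (spH π₁ (φ (some P)).2)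
  rw [e1, e2, e3, e4]

/-- principal divisors, first variable -/
theorem divOf_left (s : Multiset (APt f)) (g : CR f) (hg : Mprod s = Ideal.span {g})
    (Q : HPt f) : box (divOf s) (Finsupp.single Q 1) = 0 := by
  have h1 := prin_rel (fun P => (P, cst Q)) (fun P => (P, Q)) (fun σ P => by
    rw [galH_cst]) (fun π P => by rw [spH_cst]) s g hg
  rw [← h1]
  clear h1 hg
  induction s using Multiset.induction with
  | empty => rw [divOf_zero, box_zero_left, Multiset.map_zero, Multiset.sum_zero]
  | cons P s ih =>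
    rw [divOf_cons, box_add_left, ih, Multiset.map_cons, Multiset.sum_cons, box_sub_left,
      box_single_one, box_single_one]

/-- principal divisors, second variable -/
theorem divOf_right (s : Multiset (APt f)) (g : CR f) (hg : Mprod s = Ideal.span {g})
    (Q : HPt f) : box (Finsupp.single Q 1) (divOf s) = 0 := by
  have h1 := prin_rel (fun P => (cst Q, P)) (fun P => (Q, P)) (fun σ P => by
    rw [galH_cst]) (fun π P => by rw [spH_cst]) s g hg
  rw [← h1]
  clear h1 hg
  induction s using Multiset.induction with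
  | empty => rw [divOf_zero, box_zero_right, Multiset.map_zero, Multiset.sum_zero]
  | cons P s ih =>
    rw [divOf_cons, box_add_right, ih, Multiset.map_cons, Multiset.sum_cons, box_sub_right,
      box_single_one, box_single_one]

/-- principal divisors on the diagonal -/
theorem divOf_diag (s : Multiset (APt f)) (g : CR f) (hg : Mprod s = Ideal.span {g}) :
    (s.map fun P => clH (some P) (some P) - clH (none : HPt f) none).sum = 0 :=
  prin_rel (fun P => (P, P)) (fun P => (P, P)) (fun _ _ => rfl) (fun _ _ => rfl) s g hg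

theorem box_prin_left (D : Dv f) (hD : D ∈ PrinDiv f) (E : Dv f) : box D E = 0 := by
  apply box_right_eq_zero
  intro Q
  induction hD using AddSubgroup.closure_induction with
  | mem D hD =>
    obtain ⟨s, g, hg, rfl⟩ := hD
    exact divOf_left s g hg Q
  | zero => exact box_zero_left _
  | add D D' _ _ h h' => rw [box_add_left, h, h', add_zero]
  | neg D _ h => rw [box_neg_left, h, neg_zero]

theorem box_prin_right (D : Dv f) (hD : D ∈ PrinDiv f) (E : Dv f) : box E D = 0 := by
  apply box_left_eq_zero
  intro Q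
  induction hD using AddSubgroup.closure_induction with
  | mem D hD =>
    obtain ⟨s, g, hg, rfl⟩ := hD
    exact divOf_right s g hg Q
  | zero => exact box_zero_right _
  | add D D' _ _ h h' => rw [box_add_right, h, h', add_zero]
  | neg D _ h => rw [box_neg_right, h, neg_zero]

end

end G2
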