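import Pool.Agent.Lib.MP_2eeeac_ag.Defs

/-!
# Curves `y² = f(x)` with one point at infinity: points, divisors, the Picard group, and
`CH₀(C × C) ⊗ ℚ`

`F` is a polynomial over a commutative ring `A` (a monic separable polynomial of degree 5 over an
algebraically closed field in the main theorem; the curve `C` then has genus 2).

* `CR F = A[x,y]/(y² - F(x))`, the coordinate ring; the element `g` is `g.re + g.im * y`.
* `APt F`: the affine points; `APt.m P`: the ideal `(x - a, y - b)` of `P = (a, b)`;
  `APt.neg P = (a, -b)`: the hyperelliptic involution.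
* `HPt F = Option (APt F)`: the points of `C`, `none` is the point `∞`.
* `Dv F = HPt F →₀ ℤ`: the divisors of `C`; `PrinDiv F`: the subgroup generated by the divisors
  `div g = ∑_{P ∈ s} (P - ∞)` where `(g) = ∏_{P ∈ s} 𝔪_P`; `Pic F` is the quotient.
* `CH0H f = CH₀(C × C) ⊗ ℚ` for `C : y² = f(x)` over a field `k`, defined with places of an
  algebraic closure `Ω` of `k(t)`, exactly as in `Pool/Agent/Lib/MP_2eeeac_ag/Defs.lean`.
-/

namespace G2

open Polynomial

section general

variable {A B : Type*} [CommRing A] [CommRing B]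

/-- The ring `A[x,y]/(y² - F(x))`; its elements are `g.re + g.im * y`. -/
abbrev CR (F : A[X]) := QuadraticAlgebra A[X] F 0

/-- A point of the affine curve `y² = F(x)`. -/
@[ext] structure APt (F : A[X]) where
  x : A
  y : A
  eq : y ^ 2 = F.eval x

variable {F : A[X]} {F' : B[X]}

/-- The ideal `(x - a, y - b)` of the point `P = (a, b)`. -/
noncomputable def APt.m (P : APt F) : Ideal (CR F) :=
  Ideal.span {(⟨X - C P.x, 0⟩ : CR F), (⟨-C P.y, 1⟩ : CR F)}

/-- The hyperelliptic involution `(a, b) ↦ (a, -b)`. -/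
def APt.neg (P : APt F) : APt F := ⟨P.x, -P.y, by rw [neg_sq, P.eq]⟩

/-- `∏_{P ∈ s} 𝔪_P`. -/
noncomputable def Mprod (s : Multiset (APt F)) : Ideal (CR F) := (s.map APt.m).prod

/-- The points of the curve, `none` is the point at infinity. -/
abbrev HPt (F : A[X]) := Option (APt F)

/-- The hyperelliptic involution. -/
def HPt.neg (P : HPt F) : HPt F := P.map APt.neg

/-- Divisors. -/
abbrev Dv (F : A[X]) := HPt F →₀ ℤ

/-- The degree of a divisor. -/
noncomputable def dg (D : Dv F) : ℤ := D.sum fun _ n => n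

/-- The divisor `∑_{P ∈ s} (P - ∞)`. -/
noncomputable def divOf (s : Multiset (APt F)) : Dv F :=
  (s.map fun P => Finsupp.single (some P) 1 - Finsupp.single none 1).sum

/-- The group of principal divisors: it is generated by the divisors
`div g = ∑_{P ∈ s} (P - ∞)` of the elements `g` of the coordinate ring with
`(g) = ∏_{P ∈ s} 𝔪_P`. -/
noncomputable def PrinDiv (F : A[X]) : AddSubgroup (Dv F) :=
  AddSubgroup.closure {D | ∃ (s : Multiset (APt F)) (g : CR F),
    Mprod s = Ideal.span {g} ∧ D = divOf s}

/-- The Picard group of the curve. -/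
abbrev Pic (F : A[X]) := Dv F ⧸ PrinDiv F

/-- The class of a divisor. -/
noncomputable def cls (D : Dv F) : Pic F := QuotientAddGroup.mk D

/-- The class of `P - ∞`. -/
noncomputable def v (P : HPt F) : Pic F :=
  cls (Finsupp.single P 1 - Finsupp.single none 1)

/-- The homomorphism of coordinate rings induced by a homomorphism of the ground rings. -/
noncomputable def CRmap (φ : A →+* B) (h : F.map φ = F') : CR F →+* CR F' where
  toFun g := ⟨g.re.map φ, g.im.map φ⟩
  map_one' := by ext1 <;> simp [QuadraticAlgebra.re_one, QuadraticAlgebra.im_one]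
  map_zero' := by ext1 <;> simp
  map_add' g g' := by ext1 <;> simp
  map_mul' g g' := by ext1 <;> simp [← h]

@[simp] lemma CRmap_re (φ : A →+* B) (h : F.map φ = F') (g : CR F) :
    (CRmap φ h g).re = g.re.map φ := rfl

@[simp] lemma CRmap_im (φ : A →+* B) (h : F.map φ = F') (g : CR F) :
    (CRmap φ h g).im = g.im.map φ := rfl

/-- The map on affine points induced by a homomorphism of the ground rings. -/
def APt.map (φ : A →+* B) (h : F.map φ = F') (P : APt F) : APt F' :=
  ⟨φ P.x, φ P.y, by rw [← map_pow, P.eq, ← h, eval_map, eval₂_at_apply]⟩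

@[simp] lemma APt.map_x (φ : A →+* B) (h : F.map φ = F') (P : APt F) :
    (P.map φ h).x = φ P.x := rfl

@[simp] lemma APt.map_y (φ : A →+* B) (h : F.map φ = F') (P : APt F) :
    (P.map φ h).y = φ P.y := rfl

@[simp] lemma APt.neg_x (P : APt F) : P.neg.x = P.x := rfl

@[simp] lemma APt.neg_y (P : APt F) : P.neg.y = -P.y := rfl

lemma APt.neg_neg (P : APt F) : P.neg.neg = P := by ext <;> simp

/-- The map on points induced by a homomorphism of the ground rings. -/
def HPt.map (φ : A →+* B) (h : F.map φ = F') (P : HPt F) : HPt F' := Option.map (APt.map φ h) P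

/-- The point `P` is smooth on its fibre: `(2y, F'(x))` is the unit ideal. -/
def APt.Smooth (P : APt F) : Prop := ∃ u w : A, u * (2 * P.y) + w * (derivative F).eval P.x = 1

/-- The norm `g.re² - F g.im²`. -/
noncomputable def nm (g : CR F) : A[X] := g.re ^ 2 - F * g.im ^ 2

lemma nm_mul (g h : CR F) : nm (g * h) = nm g * nm h := by
  simp only [nm, QuadraticAlgebra.re_mul, QuadraticAlgebra.im_mul]
  ring

lemma CRmap_nm (φ : A →+* B) (h : F.map φ = F') (g : CR F) :
    nm (CRmap φ h g) = (nm g).map φ := by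
  simp [nm, ← h]

/-- The standing assumption: `f` is a monic separable polynomial of degree 5 and the
characteristic is not 2. -/
class Quintic {K : Type*} [Field K] (f : K[X]) : Prop where
  monic : f.Monic
  deg : f.natDegree = 5
  sep : f.Separable
  two : (2 : K) ≠ 0

end general

section reduction

variable {K κ : Type*} [Field K] [Field κ] (O : ValuationSubring K) (res : O →+* κ)
  (F : O[X]) (f : K[X]) (f' : κ[X]) (hf : F.map O.subtype = f) (hf' : F.map res = f')

include hf in
lemma eval_eq_O (x : K) (hx : x ∈ O) : f.eval x = O.subtype (F.eval (⟨x, hx⟩ : O)) := by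
  rw [← hf, eval_map, ← eval₂_at_apply]
  rfl

include hf in
lemma y_mem (P : APt f) (hx : P.x ∈ O) : P.y ∈ O := by
  have h1 : P.y ^ 2 ∈ O := by
    rw [P.eq, eval_eq_O O F f hf P.x hx]
    exact (F.eval (⟨P.x, hx⟩ : O)).2
  rcases O.mem_or_inv_mem P.y with h | h
  · exact h
  · by_cases h0 : P.y = 0
    · rw [h0]; exact O.zero_mem
    · have : P.y = P.y ^ 2 * P.y⁻¹ := by field_simp
      rw [this]
      exact O.mul_mem _ _ h1 h

/-- An integral affine point as a point over the valuation ring. -/
def toO (P : APt f) (hx : P.x ∈ O) : APt F :=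
  ⟨⟨P.x, hx⟩, ⟨P.y, y_mem O F f hf P hx⟩, by
    apply Subtype.ext
    have h3 := P.eq
    rw [eval_eq_O O F f hf P.x hx] at h3
    exact h3⟩

open Classical in
/-- The reduction of an affine point (`none = ∞` if it is not integral). -/
noncomputable def redA (P : APt f) : HPt f' :=
  if hx : P.x ∈ O then some ((toO O F f hf P hx).map res hf') else none

/-- The reduction of a point. -/
noncomputable def red (P : HPt f) : HPt f' := P.bind (redA O res F f f' hf hf')

end reduction

section chow

open AlbCH

variable {k : Type*} [Field k] (f : k[X])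

/-- The polynomial `f` over `Ω`. -/
noncomputable abbrev fOm : (Om k)[X] := f.map (algebraMap k (Om k))

variable {f}

lemma res_eq (π : Place k) (P : APt (fOm f)) (hx : P.x ∈ π.ring) (hy : P.y ∈ π.ring) :
    π.res ⟨P.y, hy⟩ ^ 2 = f.eval (π.res ⟨P.x, hx⟩) := by
  let c : k →+* π.ring := (algebraMap k (Om k)).codRestrict π.ring.toSubring π.mem_const
  have hc : ∀ a, π.res (c a) = a := π.res_const
  have h1 : (⟨P.y, hy⟩ : π.ring) ^ 2 = (f.map c).eval (⟨P.x, hx⟩ : π.ring) := by
    apply Subtype.ext
    have h2 : (((f.map c).eval (⟨P.x, hx⟩ : π.ring) : π.ring) : Om k) = (fOm f).eval P.x := by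
      change π.ring.subtype _ = _
      rw [← eval₂_at_apply, ← eval_map, map_map]
      rfl
    rw [h2]
    exact P.eq
  rw [← map_pow, h1, ← eval₂_at_apply, ← eval_map, map_map]
  congr 1
  have h3 : π.res.comp c = RingHom.id k := by
    ext a
    exact hc a
  rw [h3, map_id]

open Classical in
/-- The specialisation `C(Ω) → C(k)` at a place: reduce both coordinates if they are in the
valuation ring; otherwise the point at infinity. -/
noncomputable def spH (π : Place k) : HPt (fOm f) → HPt f
  | none => none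
  | some P =>
    if h : P.x ∈ π.ring ∧ P.y ∈ π.ring then
      some ⟨π.res ⟨P.x, h.1⟩, π.res ⟨P.y, h.2⟩, res_eq π P h.1 h.2⟩
    else none

lemma gal_const' (σ : Om k ≃ₐ[RatFunc k] Om k) :
    (fOm f).map (σ : Om k →+* Om k) = fOm f := by
  rw [map_map]
  congr 1
  ext a
  change σ (algebraMap k (Om k) a) = _
  rw [IsScalarTower.algebraMap_apply k (RatFunc k) (Om k)]
  exact σ.commutes _

/-- The action of `Gal(Ω/k(t))` on `C(Ω)`. -/
noncomputable def galH (σ : Om k ≃ₐ[RatFunc k] Om k) : HPt (fOm f) → HPt (fOm f) :=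
  HPt.map (σ : Om k →+* Om k) (gal_const' σ)

variable (f)

/-- A finite subset of `(C × C)(Ω)` which is an orbit of `Gal(Ω/k(t))`. -/
def IsOrbitH (O : Finset (HPt (fOm f) × HPt (fOm f))) : Prop :=
  ∃ Q₀ : HPt (fOm f) × HPt (fOm f),
    ∀ Q, Q ∈ O ↔ ∃ σ : Om k ≃ₐ[RatFunc k] Om k, Q = (galH σ Q₀.1, galH σ Q₀.2)

/-- Zero-cycles with rational coefficients on `C × C`. -/
abbrev Z0H := (HPt f × HPt f) →₀ ℚ

/-- The rational zero-cycles which are rationally equivalent to zero: the span of the cycles
`V(t₀) - V(t₁)`. -/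
noncomputable def ratEquivH : Submodule ℚ (Z0H f) :=
  Submodule.span ℚ {r | ∃ (O : Finset (HPt (fOm f) × HPt (fOm f))) (π₀ π₁ : Place k),
    IsOrbitH f O ∧ r = ∑ Q ∈ O, (Finsupp.single (spH π₀ Q.1, spH π₀ Q.2) 1
      - Finsupp.single (spH π₁ Q.1, spH π₁ Q.2) 1)}

/-- The Chow group `CH₀(C × C) ⊗ ℚ`. -/
abbrev CH0H := Z0H f ⧸ ratEquivH f

variable {f}

/-- The class of the point `(P, Q)`. -/
noncomputable def clH (P Q : HPt f) : CH0H f :=
  Submodule.Quotient.mk (Finsupp.single (P, Q) 1)

/-- The class of the exterior product `D × E = ∑_{P,Q} D(P) E(Q) (P, Q)`. -/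
noncomputable def box (D E : Dv f) : CH0H f :=
  D.sum fun P m => E.sum fun Q n => ((m : ℚ) * (n : ℚ)) • clH P Q

end chow

end G2
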