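import Pool.Agent.Lib.MP_2eeeac_ag.G2.DetDefs

/-!
# Module DetAlg: identities for the two determinants

PROOF. `det_scale`: put `x = a + l² X'`, `y = l Y'`, `x₁ = a + l⁶ χ`, `y₁ = l³ t w₁`,
`w₁ = x₁ - b`, `x₂ = a + c₂`, `x₂ - b = l³ y₂`, `c = a - b`. Then
`Nmat * diagonal ![l⁴, l², 1, l³] = diagonal ![l⁴, l³, l⁴ w₁, l³ y₂] * Mmat`:
row 1: `(w l⁴, w l²X' l², w l⁴ X'², l Y' l³)`, `w = x - b = c + l² X'`; row 2:
`(2 l Y' l⁴, 2 l Y' (l²X' + w) l², 2 l Y' (2 w l² X' + l⁴ X'²), d l³)`; row 3: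
`(w₁ l⁴, w₁ l⁶ χ l², w₁ l¹² χ², - l³ t w₁ l³)`; row 4: `(l³y₂ l⁴, l³ y₂ c₂ l², l³ y₂ c₂², - y₂ l³)`.
Check entry by entry (`ext`, `fin_cases`, `simp`, `ring`), take determinants
(`Matrix.det_mul`, `Matrix.det_diagonal`).
`det_zero`: expand (`Matrix.det_succ_row_zero`, `Fin.sum_univ_succ`), for `l = 0`:
rows `(c, cX', cX'², Y')`, `(0, 2cY', 4cX'Y', d)`, `(1, 0, 0, 0)`, `(0, 0, c₂², -1)`, determinant
`-2 c² X'² Y' - c d c₂² X' + 2 c c₂² Y'²`.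
`ev_Dgen`: `ev R` is a ring homomorphism; `RingHom.map_det`, entrywise.
-/

namespace G2

open Polynomial

variable {A : Type*} [CommRing A]

theorem det_scale (a b l χ t c₂ X' Y' d y₂ : A) (h : a + c₂ - b = l ^ 3 * y₂) :
    (Nmat a b (a + l ^ 6 * χ) (l ^ 3 * t * (a + l ^ 6 * χ - b)) (a + c₂) y₂
      (a + l ^ 2 * X') (l * Y') d).det * l ^ 9 =
    l ^ 14 * (a + l ^ 6 * χ - b) * y₂ * (Mmat (a - b) l χ t c₂ X' Y' d).det := by
  have hb : b = a + c₂ - l ^ 3 * y₂ := by linear_combination -h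
  subst hb
  have key : Nmat a (a + c₂ - l ^ 3 * y₂) (a + l ^ 6 * χ)
      (l ^ 3 * t * (a + l ^ 6 * χ - (a + c₂ - l ^ 3 * y₂))) (a + c₂) y₂
      (a + l ^ 2 * X') (l * Y') d * Matrix.diagonal ![l ^ 4, l ^ 2, 1, l ^ 3] =
      Matrix.diagonal ![l ^ 4, l ^ 3, l ^ 4 * (a + l ^ 6 * χ - (a + c₂ - l ^ 3 * y₂)),
        l ^ 3 * y₂] * Mmat (a - (a + c₂ - l ^ 3 * y₂)) l χ t c₂ X' Y' d := by
    ext i j
    rw [Matrix.mul_diagonal, Matrix.diagonal_mul]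
    fin_cases i <;> fin_cases j <;> simp [Nmat, Mmat, evRow, dRow] <;> ring
  have h2 := congrArg Matrix.det key
  rw [Matrix.det_mul, Matrix.det_mul, Matrix.det_diagonal, Matrix.det_diagonal,
    Fin.prod_univ_four, Fin.prod_univ_four] at h2
  simp only [Matrix.cons_val_zero, Matrix.cons_val_one, Matrix.cons_val] at h2
  linear_combination h2

theorem det_zero (c χ t c₂ X' Y' d : A) :
    (Mmat c 0 χ t c₂ X' Y' d).det =
      -2 * c ^ 2 * X' ^ 2 * Y' - c * d * c₂ ^ 2 * X' + 2 * c * c₂ ^ 2 * Y' ^ 2 := by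
  simp [Mmat, Matrix.det_succ_row_zero, Fin.sum_univ_succ, Fin.succAbove, Matrix.submatrix_apply]
  ring

theorem ev_Dgen {F : A[X]} (a b : A) (T₁ T₂ R : APt F) :
    ev R (Dgen F a b T₁ T₂) =
      (Nmat a b T₁.x T₁.y T₂.x T₂.y R.x R.y ((derivative F).eval R.x)).det := by
  have h0 : ∀ c : A, ev R (kst c : CR F) = c := by
    intro c
    simp [kst, ev_apply]
  have hX : ev R (⟨X, 0⟩ : CR F) = R.x := by simp [ev_apply]
  have hY : ev R (⟨0, 1⟩ : CR F) = R.y := by simp [ev_apply]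
  have hD : ev R (⟨derivative F, 0⟩ : CR F) = (derivative F).eval R.x := by simp [ev_apply]
  have h2 : ev R (2 : CR F) = 2 := map_ofNat (ev R) 2
  unfold Dgen
  rw [RingHom.map_det]
  congr 1
  ext i j
  rw [RingHom.mapMatrix_apply, Matrix.map_apply]
  fin_cases i <;> fin_cases j <;>
    simp [Nmat, evRow, dRow, h0, h2, hX, hY, hD]

end G2
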