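import Pool.Agent.Lib.MP_2eeeac_ag.G2.Fun

/-!
# The linear system for functions with prescribed zeros

`a = e_i`, `b = e_j`. The functions `(x-b)(u₀ + u₁ (x-a) + u₂ (x-a)²) + u₃ y` vanish at
`W_j = (b, 0)`. `evRow`: values of the four basis functions at `(x, y)`; `dRow`: values of their
derivatives under `δ = 2y ∂/∂x + F'(x) ∂/∂y` (`d = F'(x)`). `Nmat`: the system for a double zero at
`R = (x, y)` and zeros at `ιT₁`, `ιT₂`. `Mmat`: the same system in rescaled coordinates.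
-/

namespace G2

open Polynomial

variable {A : Type*} [CommRing A]

/-- values of `(x-b), (x-b)(x-a), (x-b)(x-a)², y` -/
def evRow (a b x y : A) : Fin 4 → A :=
  ![x - b, (x - b) * (x - a), (x - b) * (x - a) ^ 2, y]

/-- values of the derivatives -/
def dRow (a b x y d : A) : Fin 4 → A :=
  ![2 * y, 2 * y * ((x - a) + (x - b)), 2 * y * (2 * (x - b) * (x - a) + (x - a) ^ 2), d]

/-- the matrix of the linear system -/
def Nmat (a b x₁ y₁ x₂ y₂ x y d : A) : Matrix (Fin 4) (Fin 4) A :=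
  Matrix.of ![evRow a b x y, dRow a b x y d, evRow a b x₁ (-y₁), evRow a b x₂ (-y₂)]

/-- the rescaled matrix: `w = c + l² X` -/
def Mmat (c l χ t c₂ X' Y' d : A) : Matrix (Fin 4) (Fin 4) A :=
  Matrix.of ![![c + l ^ 2 * X', (c + l ^ 2 * X') * X', (c + l ^ 2 * X') * X' ^ 2, Y'],
    ![2 * l ^ 2 * Y', 2 * Y' * ((c + l ^ 2 * X') + l ^ 2 * X'),
      2 * Y' * (2 * (c + l ^ 2 * X') * X' + l ^ 2 * X' ^ 2), d],
    ![1, l ^ 4 * χ, l ^ 8 * χ ^ 2, -(l ^ 2 * t)],
    ![l ^ 4, l ^ 2 * c₂, c₂ ^ 2, -1]]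

/-- a constant as an element of the coordinate ring -/
noncomputable def kst {F : A[X]} (c : A) : CR F := ⟨C c, 0⟩

/-- the determinant of the system at the generic point of the curve -/
noncomputable def Dgen (F : A[X]) (a b : A) (T₁ T₂ : APt F) : CR F :=
  (Nmat (kst a : CR F) (kst b) (kst T₁.x) (kst T₁.y) (kst T₂.x) (kst T₂.y) ⟨X, 0⟩ ⟨0, 1⟩
    ⟨derivative F, 0⟩).det

end G2
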