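import Pool.Agent.Lib.MP_2eeeac_ag.G2.ArStep
import Pool.Agent.Lib.MP_2eeeac_ag.G2.ArSeq

namespace G2

open Polynomial

theorem main_theorem (f : (AlgebraicClosure ℚ)[X]) (h1 : f.Monic) (h5 : f.natDegree = 5)
    (hs : f.Separable) (D : Dv f) (hD : dg D = 0) :
    ∃ (B : ℕ → Dv f) (n : ℕ → ℕ), (∀ i, dg (B i) = 0) ∧ (∀ i, 0 < n i) ∧
      LinearIndependent ℤ (fun i => cls (B i)) ∧
      ∀ i, box D (B i) + box (B i) D = 0 ∧
        box (B i) (B i) + ((n i : ℚ) ^ 2) • box D D = 0 := by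
  haveI : Quintic f := ⟨h1, h5, hs, by norm_num⟩
  obtain ⟨b, hb, hli⟩ := exists_seq (fun B : Dv f => cls B)
    (fun B => ∃ n : ℕ, dg B = 0 ∧ 0 < n ∧ box D B + box B D = 0 ∧
      box B B + ((n : ℚ) ^ 2) • box D D = 0)
    (fun E => by
      obtain ⟨B, n, h1, h2, h3, h4, h5⟩ := step f D hD E
      exact ⟨B, ⟨n, h1, h2, h3, h4⟩, h5⟩)
  choose n h1 h2 h3 h4 using hb
  exact ⟨b, n, h1, h2, hli, fun i => ⟨h3 i, h4 i⟩⟩

end G2
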