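import Mathlib

/-!
# Module NGauss: Gauss norm of `A² - F B²`

PROOF of `gauss_nm`. Suppose the conclusion fails. Let `α = max ‖A_i‖`, `a` the largest index with
`‖A_a‖ = α`, `β = max ‖B_j‖`, `b` the largest index with `‖B_b‖ = β` (if `A = 0` or `B = 0` the
corresponding maximum is 0 and the other one is `> r ≥ 0`). So `max α β > r`. `2a ≠ d + 2b` since
`d` is odd.
Case 1: `α > β`, or `α = β` and `2a > d + 2b`. Look at the coefficient of `X^{2a}`. In
`(A²)_{2a} = ∑_{i+j=2a} A_i A_j` the term `i = j = a` has norm `α²`, in every other term one index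
is `> a`, so its norm is `< α²`: `‖(A²)_{2a}‖ = α²`. In `(F B²)_{2a} = ∑ F_i B_j B_k`,
`i + j + k = 2a`: if `α > β` every term has norm `≤ β² < α²`; if `α = β`, `2a > d + 2b` so `i > d` or
`j > b` or `k > b` and every term has norm `< β² = α²`. So the coefficient has norm `α² > r²`.
Case 2: `β > α`, or `α = β` and `d + 2b > 2a`: the same with the coefficient of `X^{d+2b}`: the term
`F_d B_b B_b` has norm `β²`, all the others in `F B²` are smaller, and those of `A²` are smaller.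
(`Polynomial.coeff_mul`, `IsUltrametricDist.norm_sum_le...`,
`IsUltrametricDist.norm_add_eq_max_of_norm_ne_norm`.) It may be convenient to work with
`sup`-norms through `Finset.exists_max_image` on the supports.
-/

namespace G2

open Polynomial

variable {K : Type*} [NormedField K] [IsUltrametricDist K]

/-- `p` is the Gauss norm of `P` and `a` is the largest index where it is attained -/
private def GTop (P : K[X]) (a : ℕ) (p : ℝ) : Prop :=
  0 < p ∧ (∀ i, ‖P.coeff i‖ ≤ p) ∧ (∀ i, a < i → ‖P.coeff i‖ < p) ∧ ‖P.coeff a‖ = p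

omit [IsUltrametricDist K] in
private lemma exists_gtop (P : K[X]) (hP : P ≠ 0) : ∃ a p, GTop P a p := by
  classical
  have hne : P.support.Nonempty := by
    rwa [Polynomial.support_nonempty]
  obtain ⟨m, hm, hmax⟩ := Finset.exists_max_image P.support (fun i => ‖P.coeff i‖) hne
  have hpos : 0 < ‖P.coeff m‖ := norm_pos_iff.mpr (Polynomial.mem_support_iff.mp hm)
  have hle : ∀ i, ‖P.coeff i‖ ≤ ‖P.coeff m‖ := by
    intro i
    by_cases hi : i ∈ P.support
    · exact hmax i hi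
    · rw [Polynomial.notMem_support_iff.mp hi, norm_zero]
      exact hpos.le
  let S := P.support.filter (fun i => ‖P.coeff i‖ = ‖P.coeff m‖)
  have hS : S.Nonempty := ⟨m, Finset.mem_filter.mpr ⟨hm, rfl⟩⟩
  have hmem := Finset.max'_mem S hS
  refine ⟨S.max' hS, ‖P.coeff m‖, hpos, hle, ?_, (Finset.mem_filter.mp hmem).2⟩
  intro i hi
  refine lt_of_le_of_ne (hle i) ?_
  intro he
  have h1 : i ∈ S := by
    refine Finset.mem_filter.mpr ⟨?_, he⟩
    rw [Polynomial.mem_support_iff, ← norm_pos_iff, he]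
    exact hpos
  exact absurd (Finset.le_max' S i h1) (not_le.mpr hi)

private lemma gtop_mul {P Q : K[X]} {a b : ℕ} {p q : ℝ} (hP : GTop P a p) (hQ : GTop Q b q) :
    GTop (P * Q) (a + b) (p * q) := by
  classical
  obtain ⟨hp, h1, h2, h3⟩ := hP
  obtain ⟨hq, k1, k2, k3⟩ := hQ
  have hpq : 0 < p * q := mul_pos hp hq
  have hterm : ∀ i j, ‖P.coeff i * Q.coeff j‖ ≤ p * q := by
    intro i j
    rw [norm_mul]
    exact mul_le_mul (h1 i) (k1 j) (norm_nonneg _) hp.le
  have hstr : ∀ i j, a < i ∨ b < j → ‖P.coeff i * Q.coeff j‖ < p * q := by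
    intro i j hij
    rw [norm_mul]
    rcases hij with hi | hj
    · exact lt_of_le_of_lt (mul_le_mul_of_nonneg_left (k1 j) (norm_nonneg _))
        (mul_lt_mul_of_pos_right (h2 i hi) hq)
    · exact lt_of_le_of_lt (mul_le_mul_of_nonneg_right (h1 i) (norm_nonneg _))
        (mul_lt_mul_of_pos_left (k2 j hj) hp)
  have hsum : ∀ T : Finset (ℕ × ℕ), (∀ x ∈ T, a < x.1 ∨ b < x.2) →
      ‖∑ x ∈ T, P.coeff x.1 * Q.coeff x.2‖ < p * q := by
    intro T hT
    rcases T.eq_empty_or_nonempty with rfl | hne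
    · simpa using hpq
    · obtain ⟨x, hx, hle⟩ := IsUltrametricDist.exists_norm_finsetSum_le_of_nonempty hne
        (fun x => P.coeff x.1 * Q.coeff x.2)
      exact lt_of_le_of_lt hle (hstr _ _ (hT x hx))
  refine ⟨hpq, ?_, ?_, ?_⟩
  · intro n
    rw [Polynomial.coeff_mul]
    exact IsUltrametricDist.norm_sum_le_of_forall_le_of_nonneg hpq.le (fun x _ => hterm _ _)
  · intro n hn
    rw [Polynomial.coeff_mul]
    refine hsum _ fun x hx => ?_
    have := Finset.HasAntidiagonal.mem_antidiagonal.mp hx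
    omega
  · rw [Polynomial.coeff_mul]
    have hab : (a, b) ∈ Finset.HasAntidiagonal.antidiagonal (a + b) := Finset.HasAntidiagonal.mem_antidiagonal.mpr rfl
    rw [← Finset.add_sum_erase _ _ hab]
    have hr : ‖∑ x ∈ (Finset.HasAntidiagonal.antidiagonal (a + b)).erase (a, b), P.coeff x.1 * Q.coeff x.2‖
        < p * q := by
      refine hsum _ fun x hx => ?_
      obtain ⟨hx1, hx2⟩ := Finset.mem_erase.mp hx
      have h4 := Finset.HasAntidiagonal.mem_antidiagonal.mp hx2
      by_contra hcon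
      push Not at hcon
      exact hx1 (Prod.ext (by omega) (by omega))
    have h5 : ‖P.coeff a * Q.coeff b‖ = p * q := by rw [norm_mul, h3, k3]
    have h6 := IsUltrametricDist.norm_add_eq_max_of_norm_ne_norm
      (x := P.coeff (a, b).1 * Q.coeff (a, b).2)
      (y := ∑ x ∈ (Finset.HasAntidiagonal.antidiagonal (a + b)).erase (a, b), P.coeff x.1 * Q.coeff x.2)
      (by rw [h5]; exact hr.ne')
    rw [h6, h5]
    exact max_eq_left hr.le

private lemma norm_sub_of_lt {x y : K} (h : ‖y‖ < ‖x‖) : ‖x - y‖ = ‖x‖ := by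
  rw [sub_eq_add_neg, IsUltrametricDist.norm_add_eq_max_of_norm_ne_norm
    (by rw [norm_neg]; exact h.ne'), norm_neg]
  exact max_eq_left h.le

theorem gauss_nm {F : K[X]} {d : ℕ} (hd : Odd d) (hF : ∀ i, ‖F.coeff i‖ ≤ 1)
    (hFd : ‖F.coeff d‖ = 1) (hF' : ∀ i, d < i → ‖F.coeff i‖ < 1) (A B : K[X]) (r : ℝ)
    (hr : 0 ≤ r) (h : ∀ i, ‖(A ^ 2 - F * B ^ 2).coeff i‖ ≤ r ^ 2) :
    (∀ i, ‖A.coeff i‖ ≤ r) ∧ (∀ i, ‖B.coeff i‖ ≤ r) := by
  have hFt : GTop F d 1 := ⟨one_pos, hF, hF', hFd⟩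
  have hsq : ∀ x : ℝ, 0 < x → x * x ≤ r ^ 2 → x ≤ r := by
    intro x hx hxr
    refine (abs_le_of_sq_le_sq' ?_ hr).2
    rwa [sq x]
  by_cases hA : A = 0
  · subst hA
    refine ⟨by simpa using hr, ?_⟩
    by_cases hB : B = 0
    · subst hB
      simpa using hr
    obtain ⟨b, β, hBt⟩ := exists_gtop B hB
    have h1 := gtop_mul hFt (gtop_mul hBt hBt)
    have h2 := h (d + (b + b))
    rw [zero_pow two_ne_zero, zero_sub, coeff_neg, norm_neg, sq B, h1.2.2.2, one_mul] at h2
    intro i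
    exact (hBt.2.1 i).trans (hsq β hBt.1 h2)
  obtain ⟨a, α, hAt⟩ := exists_gtop A hA
  have hA2 := gtop_mul hAt hAt
  by_cases hB : B = 0
  · subst hB
    refine ⟨?_, by simpa using hr⟩
    have h2 := h (a + a)
    rw [zero_pow two_ne_zero, mul_zero, sub_zero, sq A, hA2.2.2.2] at h2
    intro i
    exact (hAt.2.1 i).trans (hsq α hAt.1 h2)
  obtain ⟨b, β, hBt⟩ := exists_gtop B hB
  have hB2 := gtop_mul hFt (gtop_mul hBt hBt)
  rw [one_mul] at hB2
  have hne : a + a ≠ d + (b + b) := by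
    obtain ⟨k, rfl⟩ := hd
    omega
  rw [sq A, sq B] at h
  have key1 : ‖(F * (B * B)).coeff (a + a)‖ < α * α → α ≤ r := by
    intro h1
    have h2 := h (a + a)
    rw [coeff_sub, norm_sub_of_lt (by rwa [hA2.2.2.2]), hA2.2.2.2] at h2
    exact hsq α hAt.1 h2
  have key2 : ‖(A * A).coeff (d + (b + b))‖ < β * β → β ≤ r := by
    intro h1
    have h2 := h (d + (b + b))
    rw [coeff_sub, ← norm_neg, neg_sub, norm_sub_of_lt (by rwa [hB2.2.2.2]), hB2.2.2.2] at h2
    exact hsq β hBt.1 h2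
  rcases lt_trichotomy α β with hlt | heq | hgt
  · have h3 : β ≤ r := key2 (lt_of_le_of_lt (hA2.2.1 _)
      (mul_lt_mul'' hlt hlt hAt.1.le hAt.1.le))
    exact ⟨fun i => ((hAt.2.1 i).trans hlt.le).trans h3, fun i => (hBt.2.1 i).trans h3⟩
  · subst heq
    have h3 : α ≤ r := by
      rcases lt_or_gt_of_ne hne with h4 | h4
      · exact key2 (hA2.2.2.1 _ h4)
      · exact key1 (hB2.2.2.1 _ h4)
    exact ⟨fun i => (hAt.2.1 i).trans h3, fun i => (hBt.2.1 i).trans h3⟩
  · have h3 : α ≤ r := key1 (lt_of_le_of_lt (hB2.2.1 _)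
      (mul_lt_mul'' hgt hgt hBt.1.le hBt.1.le))
    exact ⟨fun i => (hAt.2.1 i).trans h3, fun i => ((hBt.2.1 i).trans hgt.le).trans h3⟩

end G2
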