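import Mathlib

/-!
# Module NTay: Taylor expansions and norms

PROOF. `taylor_norm_le`: `taylor c P = P(X + c)`,
`(taylor c P).coeff j = ∑_i P_i (i choose j) c^{i-j}` (`Polynomial.taylor_coeff`, hasseDeriv),
every term has norm `≤ δ` (natural numbers have norm `≤ 1` in an ultrametric normed field:
`IsUltrametricDist.norm_natCast_le_one`).

`prod_coeff_le`: the coefficients of a product of linear polynomials `b X + c` with
`‖b‖, ‖c‖ ≤ δ` (`δ ≥ 0`), `n` factors, have norm `≤ δ^n`: induction.

`small_of_taylor`: put `B₁ = taylor e₁ B = L + X^a Q`, `L` = the part of degree `< a` (norm `≤ δ`),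
`degree Q < b`. Let `c = e₂ - e₁`, `‖c‖ = 1`; `taylor e₂ B = taylor c B₁`
(`Polynomial.taylor_taylor`), so `(X + c)^a * taylor c Q = taylor e₂ B - taylor c L`, whose
coefficients of index `< b` have norm `≤ δ`. Put `Q' = taylor c Q`, `degree Q' < b`. The constant
coefficient of `(X + c)^a` is `c^a` of norm 1, its other coefficients have norm `≤ 1`. By strong
induction on `j < b`: `c^a Q'_j = (coefficient j) - ∑_{i<j} (…) Q'_i` gives `‖Q'_j‖ ≤ δ`. Hence all
coefficients of `Q'`, of `Q = taylor (-c) Q'`, of `B₁`, of `B = taylor (-e₁) B₁` are `≤ δ`.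
-/

namespace G2

open Polynomial

variable {K : Type*} [NormedField K] [IsUltrametricDist K]

theorem taylor_norm_le (c : K) (hc : ‖c‖ ≤ 1) (P : K[X]) (δ : ℝ) (hδ : 0 ≤ δ)
    (h : ∀ j, ‖P.coeff j‖ ≤ δ) (j : ℕ) : ‖(taylor c P).coeff j‖ ≤ δ := by
  rw [taylor_coeff, hasseDeriv_apply, Polynomial.sum, eval_finsetSum]
  refine IsUltrametricDist.norm_sum_le_of_forall_le_of_nonneg hδ fun i _ => ?_
  rw [eval_monomial, norm_mul, norm_mul, norm_pow]
  have h1 : ‖((i.choose j : ℕ) : K)‖ ≤ 1 := IsUltrametricDist.norm_natCast_le_one K _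
  have h2 : ‖c‖ ^ (i - j) ≤ 1 := pow_le_one₀ (norm_nonneg _) hc
  calc ‖((i.choose j : ℕ) : K)‖ * ‖P.coeff i‖ * ‖c‖ ^ (i - j) ≤ 1 * δ * 1 := by
        gcongr
        exact h i
    _ = δ := by ring

theorem prod_coeff_le {ι : Type*} (s : Multiset ι) (b c : ι → K) (δ : ℝ) (hδ : 0 ≤ δ)
    (hb : ∀ i ∈ s, ‖b i‖ ≤ δ) (hc : ∀ i ∈ s, ‖c i‖ ≤ δ) (j : ℕ) :
    ‖((s.map fun i => C (b i) * X + C (c i)).prod).coeff j‖ ≤ δ ^ s.card := by
  induction s using Multiset.induction_on generalizing j with
  | empty =>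
    simp only [Multiset.map_zero, Multiset.prod_zero, Multiset.card_zero, pow_zero, coeff_one]
    split_ifs <;> simp
  | cons a s ih =>
    have ih' := ih (fun i hi => hb i (Multiset.mem_cons_of_mem hi))
      (fun i hi => hc i (Multiset.mem_cons_of_mem hi))
    have hba := hb a (Multiset.mem_cons_self a s)
    have hca := hc a (Multiset.mem_cons_self a s)
    rw [Multiset.map_cons, Multiset.prod_cons, Multiset.card_cons, add_mul, coeff_add, pow_succ]
    set P := (s.map fun i => C (b i) * X + C (c i)).prod with hP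
    have h1 : ‖(C (b a) * X * P).coeff j‖ ≤ δ ^ s.card * δ := by
      rw [mul_assoc, coeff_C_mul, norm_mul, mul_comm]
      cases j with
      | zero =>
        rw [mul_comm X P, coeff_mul_X_zero, norm_zero, zero_mul]
        positivity
      | succ j =>
        rw [mul_comm X P, coeff_mul_X]
        exact mul_le_mul (ih' j) hba (norm_nonneg _) (by positivity)
    have h2 : ‖(C (c a) * P).coeff j‖ ≤ δ ^ s.card * δ := by
      rw [coeff_C_mul, norm_mul, mul_comm]
      exact mul_le_mul (ih' j) hca (norm_nonneg _) (by positivity)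
    exact (IsUltrametricDist.norm_add_le_max _ _).trans (max_le h1 h2)

private theorem norm_sub_le_of_le {x y : K} {δ : ℝ} (hx : ‖x‖ ≤ δ) (hy : ‖y‖ ≤ δ) :
    ‖x - y‖ ≤ δ := by
  rw [sub_eq_add_neg]
  exact (IsUltrametricDist.norm_add_le_max _ _).trans (max_le hx (by rwa [norm_neg]))

theorem small_of_taylor (B : K[X]) (a b : ℕ) (hdeg : B.degree < ((a + b : ℕ) : WithBot ℕ))
    (e₁ e₂ : K) (h₁ : ‖e₁‖ ≤ 1) (h₂ : ‖e₂‖ ≤ 1) (h₁₂ : ‖e₁ - e₂‖ = 1) (δ : ℝ) (hδ : 0 ≤ δ)
    (hA : ∀ j < a, ‖(taylor e₁ B).coeff j‖ ≤ δ) (hB : ∀ j < b, ‖(taylor e₂ B).coeff j‖ ≤ δ)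
    (j : ℕ) : ‖B.coeff j‖ ≤ δ := by
  set B₁ := taylor e₁ B with hB₁
  set c := e₂ - e₁ with hc
  have hc1 : ‖c‖ = 1 := by rw [hc, norm_sub_rev, h₁₂]
  have hdeg₁ : ∀ i, a + b ≤ i → B₁.coeff i = 0 := by
    intro i hi
    apply coeff_eq_zero_of_degree_lt
    rw [hB₁, degree_taylor]
    refine hdeg.trans_le ?_
    exact_mod_cast hi
  let L : K[X] := ∑ i ∈ Finset.range a, monomial i (B₁.coeff i)
  let Q : K[X] := ∑ i ∈ Finset.range b, monomial i (B₁.coeff (a + i))
  have hL : ∀ i, L.coeff i = if i < a then B₁.coeff i else 0 := by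
    intro i
    simp only [L, finsetSum_coeff, coeff_monomial, Finset.sum_ite_eq', Finset.mem_range]
  have hQ : ∀ i, Q.coeff i = if i < b then B₁.coeff (a + i) else 0 := by
    intro i
    simp only [Q, finsetSum_coeff, coeff_monomial, Finset.sum_ite_eq', Finset.mem_range]
  have hsplit : B₁ = L + X ^ a * Q := by
    ext i
    rw [coeff_add, hL, coeff_X_pow_mul']
    by_cases h : i < a
    · rw [if_pos h, if_neg (by omega), add_zero]
    · rw [if_neg h, if_pos (by omega), zero_add, hQ]
      by_cases h' : i - a < b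
      · rw [if_pos h']
        congr 1
        omega
      · rw [if_neg h']
        exact hdeg₁ i (by omega)
  have hLle : ∀ i, ‖L.coeff i‖ ≤ δ := by
    intro i
    rw [hL]
    split_ifs with h
    · exact hA i h
    · rw [norm_zero]
      exact hδ
  -- the second expansion
  have hB₂ : taylor c B₁ = taylor e₂ B := by
    rw [hB₁, taylor_taylor, hc, sub_add_cancel]
  set Q' := taylor c Q with hQ'
  have heq : (X + C c) ^ a * Q' = taylor e₂ B - taylor c L := by
    rw [← hB₂, hsplit, map_add, taylor_mul, taylor_X_pow]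
    simp [hQ']
  have hRHS : ∀ i < b, ‖((X + C c) ^ a * Q').coeff i‖ ≤ δ := by
    intro i hi
    rw [heq, coeff_sub]
    exact norm_sub_le_of_le (hB i hi) (taylor_norm_le c hc1.le L δ hδ hLle i)
  have hAle : ∀ i, ‖((X + C c) ^ a).coeff i‖ ≤ 1 := by
    intro i
    rw [← taylor_X_pow]
    refine taylor_norm_le c hc1.le _ 1 zero_le_one (fun j => ?_) i
    rw [coeff_X_pow]
    split_ifs <;> simp
  have hA0 : ‖((X + C c) ^ a).coeff 0‖ = 1 := by
    rw [coeff_zero_eq_eval_zero, eval_pow, eval_add, eval_X, eval_C, zero_add, norm_pow, hc1,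
      one_pow]
  have hQ'le : ∀ i, ‖Q'.coeff i‖ ≤ δ := by
    intro i
    induction i using Nat.strong_induction_on with
    | _ i ih =>
      by_cases hi : i < b
      · have h1 := hRHS i hi
        have h0 : ((X + C c) ^ a * Q').coeff i = ∑ k ∈ Finset.range i,
            ((X + C c) ^ a).coeff (k + 1) * Q'.coeff (i - (k + 1)) +
              ((X + C c) ^ a).coeff 0 * Q'.coeff i := by
          have h00 := Finset.Nat.sum_antidiagonal_eq_sum_range_succ
            (fun x y => ((X + C c) ^ a).coeff x * Q'.coeff y) i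
          rw [Finset.sum_range_succ', Nat.sub_zero] at h00
          rw [coeff_mul]
          exact h00
        rw [h0] at h1
        have h2 : ‖∑ k ∈ Finset.range i, ((X + C c) ^ a).coeff (k + 1) *
            Q'.coeff (i - (k + 1))‖ ≤ δ := by
          refine IsUltrametricDist.norm_sum_le_of_forall_le_of_nonneg hδ fun k hk => ?_
          rw [Finset.mem_range] at hk
          rw [norm_mul]
          calc ‖((X + C c) ^ a).coeff (k + 1)‖ * ‖Q'.coeff (i - (k + 1))‖ ≤ 1 * δ := by
                gcongr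
                · exact hAle _
                · exact ih _ (by omega)
            _ = δ := one_mul _
        have h3 := norm_sub_le_of_le h1 h2
        rw [add_sub_cancel_left, norm_mul, hA0, one_mul] at h3
        exact h3
      · have h1 : Q'.coeff i = 0 := by
          apply coeff_eq_zero_of_degree_lt
          rw [hQ', degree_taylor, degree_lt_iff_coeff_zero]
          intro m hm
          rw [hQ, if_neg (by omega)]
        rw [h1, norm_zero]
        exact hδ
  have hQle : ∀ i, ‖Q.coeff i‖ ≤ δ := by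
    intro i
    have h1 : Q = taylor (-c) Q' := by
      rw [hQ', taylor_taylor, neg_add_cancel, taylor_zero]
    rw [h1]
    exact taylor_norm_le (-c) (by rw [norm_neg]; exact hc1.le) Q' δ hδ hQ'le i
  have hB₁le : ∀ i, ‖B₁.coeff i‖ ≤ δ := by
    intro i
    by_cases h : i < a
    · exact hA i h
    · by_cases h' : i < a + b
      · have := hQle (i - a)
        rw [hQ, if_pos (by omega)] at this
        rwa [show a + (i - a) = i by omega] at this
      · rw [hdeg₁ i (by omega), norm_zero]
        exact hδ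
  have h1 : B = taylor (-e₁) B₁ := by
    rw [hB₁, taylor_taylor, neg_add_cancel, taylor_zero]
  rw [h1]
  exact taylor_norm_le (-e₁) (by rwa [norm_neg]) B₁ δ hδ hB₁le j

end G2
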