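import Pool.Agent.Lib.MP_2eeeac_ag.G2.NDefs
import Pool.Agent.Lib.MP_2eeeac_ag.G2.NGauss
import Pool.Agent.Lib.MP_2eeeac_ag.G2.NTay

/-!
# Module NScale: the bounds from the rescaled curve

NOTATION. `α_j = (taylor (e i) A).coeff j`, `β_j = (taylor (e i) B).coeff j`.

PROOF of `scaled_bound`. Put `A' = (taylor (e i) A).comp (C (ϖ²) * X)`, with coefficients
`α_j ϖ^{2j}` (`Polynomial.comp_C_mul_X_coeff`), `B' = C ϖ * (taylor (e i) B).comp (C (ϖ²) * X)`, with
coefficients `β_j ϖ^{2j+1}`, and `F = X * ∏_{l ≠ i} (C (ϖ²) * X + C (e i - e l))`. Substituting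
`X ↦ e_i + ϖ² X` in `f = ∏ (X - e_l)` gives
`(taylor (e i) f).comp (C (ϖ²) * X) = C (ϖ²) * F`. So, applying the ring homomorphism
`P ↦ (taylor (e i) P).comp (C (ϖ²) * X)` to the hypothesis,
`A'² - F B'² = ∏_{a ∈ t₁} (C (ϖ²) * X + C (e i - a)) * ∏_{a ∈ t₂} (C (ϖ²) * X + C (e i - a))`.
By `prod_coeff_le` the coefficients of the first product have norm `≤ (‖ϖ‖²)^{2m}`, those of the
second have norm `≤ 1`. Apply `gauss_nm` with `d = 1`, `r = ‖ϖ‖^{2m}`: `F.coeff 0 = 0`,
`F.coeff 1 = ∏_{l≠i} (e_i - e_l)` has norm 1, `F.coeff k` (`k ≥ 2`) has norm `≤ ‖ϖ‖² < 1` (every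
term of degree `≥ 1` of the second factor of `F` contains `ϖ²`).

PROOF of `alpha_unit`. Compare the coefficients of index `2m` of
`(taylor A)² - (taylor f)(taylor B)² = ∏_{t₁} (X + (e_i - a)) * ∏_{t₂} (X + (e_i - a))`. Right hand
side: the first product is monic of degree `2m`, its other coefficients have norm `< 1`; the
second product has constant coefficient of norm 1 and all its coefficients have norm `≤ 1`; so
the coefficient of index `2m` of the product has norm 1. Left hand side: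
`∑_{k+l=2m} α_k α_l = α_m² + (terms with k < m or l < m)`, and `‖α_k‖ < 1` for `k < m` (from `hAs`:
`‖α_k‖ ≤ ‖ϖ‖^{2m-2k}`), `‖α_l‖ ≤ 1`; the terms of `(taylor f)(taylor B)²` have norm
`≤ ‖ϖ‖^6 < 1` (the coefficients of `taylor (e i) f` have norm `≤ 1`). So `‖α_m²‖ = 1`.
-/

namespace G2

open Polynomial

variable {K : Type*} [NormedField K] [IsUltrametricDist K] {f : K[X]} {e : Fin 5 → K}

private lemma NScale_sum_le {ι : Type*} (s : Finset ι) (g : ι → K) (R : ℝ) (hR : 0 ≤ R)
    (h : ∀ b ∈ s, ‖g b‖ ≤ R) : ‖∑ b ∈ s, g b‖ ≤ R := by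
  classical
  induction s using Finset.induction with
  | empty => simpa using hR
  | insert a s ha ih =>
    rw [Finset.sum_insert ha]
    refine (IsUltrametricDist.norm_add_le_max _ _).trans (max_le ?_ ?_)
    · exact h a (Finset.mem_insert_self _ _)
    · exact ih fun b hb => h b (Finset.mem_insert_of_mem hb)

private lemma NScale_sum_lt {ι : Type*} (s : Finset ι) (g : ι → K) (R : ℝ) (hR : 0 < R)
    (h : ∀ b ∈ s, ‖g b‖ < R) : ‖∑ b ∈ s, g b‖ < R := by
  classical
  induction s using Finset.induction with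
  | empty => simpa using hR
  | insert a s ha ih =>
    rw [Finset.sum_insert ha]
    refine (IsUltrametricDist.norm_add_le_max _ _).trans_lt (max_lt ?_ ?_)
    · exact h a (Finset.mem_insert_self _ _)
    · exact ih fun b hb => h b (Finset.mem_insert_of_mem hb)

private lemma NScale_coeff_mul_le (P Q : K[X]) (a b : ℝ) (ha : 0 ≤ a) (hb : 0 ≤ b)
    (hP : ∀ j, ‖P.coeff j‖ ≤ a) (hQ : ∀ j, ‖Q.coeff j‖ ≤ b) (j : ℕ) :
    ‖(P * Q).coeff j‖ ≤ a * b := by
  rw [coeff_mul]
  refine NScale_sum_le _ _ _ (mul_nonneg ha hb) fun x _ => ?_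
  rw [norm_mul]
  exact mul_le_mul (hP _) (hQ _) (norm_nonneg _) ha

/-- Taylor expansion of a product of linear factors. -/
private lemma NScale_taylor_prod (c : K) (t : Multiset K) :
    taylor c ((t.map fun a => X - C a).prod) = (t.map fun a => C 1 * X + C (c - a)).prod := by
  induction t using Multiset.induction with
  | empty => simp
  | cons a t ih =>
    rw [Multiset.map_cons, Multiset.prod_cons, Multiset.map_cons, Multiset.prod_cons, taylor_mul,
      ih, map_sub, taylor_X, taylor_C]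
    congr 1
    rw [C_1, one_mul, C_sub]
    ring

/-- Rescaling of a product of linear factors. -/
private lemma NScale_comp_prod (c w : K) (t : Multiset K) :
    ((t.map fun a => C (1 : K) * X + C (c - a)).prod).comp (C w * X) =
      (t.map fun a => C w * X + C (c - a)).prod := by
  induction t using Multiset.induction with
  | empty => simp
  | cons a t ih =>
    rw [Multiset.map_cons, Multiset.prod_cons, Multiset.map_cons, Multiset.prod_cons, mul_comp, ih]
    congr 1
    simp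

private lemma NScale_taylor_f (hg : Good f e) (i : Fin 5) :
    taylor (e i) f = X * ∏ l ∈ Finset.univ.erase i, (C (1 : K) * X + C (e i - e l)) := by
  have h1 : taylor (e i) f = ∏ l, (C (1 : K) * X + C (e i - e l)) := by
    rw [hg.prod]
    change taylor (e i) ((Finset.univ : Finset (Fin 5)).val.map fun l => X - C (e l)).prod = _
    have h2 : ((Finset.univ : Finset (Fin 5)).val.map fun l => X - C (e l)) =
        (((Finset.univ : Finset (Fin 5)).val.map e).map fun a => X - C a) := by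
      rw [Multiset.map_map]
      rfl
    rw [h2, NScale_taylor_prod, Multiset.map_map]
    rfl
  rw [h1, ← Finset.mul_prod_erase Finset.univ _ (Finset.mem_univ i)]
  congr 1
  simp

private lemma NScale_G_le (hg : Good f e) (i : Fin 5) (j : ℕ) :
    ‖(∏ l ∈ Finset.univ.erase i, (C (1 : K) * X + C (e i - e l))).coeff j‖ ≤ 1 := by
  have h := prod_coeff_le (Finset.univ.erase i).val (fun _ => (1 : K)) (fun l => e i - e l) 1
    zero_le_one (fun l _ => by rw [norm_one]) (fun l hl => by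
      by_cases h : i = l
      · rw [h, sub_self, norm_zero]; exact zero_le_one
      · exact (hg.sep i l h).le) j
  rw [one_pow] at h
  exact h

private lemma NScale_G_zero (hg : Good f e) (i : Fin 5) :
    ‖(∏ l ∈ Finset.univ.erase i, (C (1 : K) * X + C (e i - e l))).coeff 0‖ = 1 := by
  rw [coeff_zero_eq_eval_zero, eval_prod, norm_prod]
  refine Finset.prod_eq_one fun l hl => ?_
  simp only [eval_add, eval_mul, eval_C, eval_X, mul_zero, zero_add]
  exact hg.sep i l (Finset.ne_of_mem_erase hl).symm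

private lemma NScale_f_le (hg : Good f e) (i : Fin 5) (j : ℕ) :
    ‖(taylor (e i) f).coeff j‖ ≤ 1 := by
  rw [NScale_taylor_f hg]
  cases j with
  | zero => rw [coeff_X_mul_zero, norm_zero]; exact zero_le_one
  | succ j => rw [coeff_X_mul]; exact NScale_G_le hg i j

theorem scaled_bound (hg : Good f e) (i : Fin 5) (ϖ : K) (h0 : ϖ ≠ 0) (h1 : ‖ϖ‖ < 1)
    (A B : K[X]) (t₁ t₂ : Multiset K)
    (h : A ^ 2 - f * B ^ 2 = (t₁.map fun a => X - C a).prod * (t₂.map fun a => X - C a).prod)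
    (m : ℕ) (ht₁ : t₁.card = 2 * m) (hn₁ : ∀ a ∈ t₁, ‖a - e i‖ ≤ ‖ϖ‖ ^ 2)
    (hn₂ : ∀ a ∈ t₂, ‖a‖ ≤ 1) (j : ℕ) :
    ‖(taylor (e i) A).coeff j‖ * ‖ϖ‖ ^ (2 * j) ≤ ‖ϖ‖ ^ (2 * m) ∧
      ‖(taylor (e i) B).coeff j‖ * ‖ϖ‖ ^ (2 * j + 1) ≤ ‖ϖ‖ ^ (2 * m) := by
  have hϖ2 : ‖ϖ ^ 2‖ < 1 := by
    rw [norm_pow]
    exact pow_lt_one₀ (norm_nonneg _) h1 two_ne_zero
  set A' : K[X] := (taylor (e i) A).comp (C (ϖ ^ 2) * X) with hA'
  set B' : K[X] := C ϖ * (taylor (e i) B).comp (C (ϖ ^ 2) * X) with hB'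
  set G : K[X] := ∏ l ∈ Finset.univ.erase i, (C (1 : K) * X + C (e i - e l)) with hG
  set F : K[X] := X * G.comp (C (ϖ ^ 2) * X) with hF
  have hfF : (taylor (e i) f).comp (C (ϖ ^ 2) * X) = C (ϖ ^ 2) * F := by
    rw [NScale_taylor_f hg, mul_comp, X_comp, hF]
    ring
  have hmain : A' ^ 2 - F * B' ^ 2 =
      (t₁.map fun a => C (ϖ ^ 2) * X + C (e i - a)).prod *
        (t₂.map fun a => C (ϖ ^ 2) * X + C (e i - a)).prod := by
    rw [← NScale_comp_prod (e i) (ϖ ^ 2) t₁, ← NScale_comp_prod (e i) (ϖ ^ 2) t₂, ← mul_comp,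
      ← NScale_taylor_prod,
      ← NScale_taylor_prod, ← taylor_mul, ← h, map_sub, taylor_mul, taylor_pow, taylor_pow,
      sub_comp, mul_comp, pow_comp, pow_comp, hfF, hA', hB', mul_pow, C_pow]
    ring
  have hGc : ∀ k, (G.comp (C (ϖ ^ 2) * X)).coeff k = G.coeff k * (ϖ ^ 2) ^ k := fun k => by
    rw [comp_C_mul_X_coeff]
  have hF0 : F.coeff 0 = 0 := by rw [hF, coeff_X_mul_zero]
  have hFs : ∀ k, F.coeff (k + 1) = G.coeff k * (ϖ ^ 2) ^ k := fun k => by
    rw [hF, coeff_X_mul, hGc]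
  have hF1 : ∀ k, ‖F.coeff k‖ ≤ 1 := by
    intro k
    cases k with
    | zero => rw [hF0, norm_zero]; exact zero_le_one
    | succ k =>
      rw [hFs, norm_mul, norm_pow]
      calc ‖G.coeff k‖ * ‖ϖ ^ 2‖ ^ k ≤ 1 * 1 :=
            mul_le_mul (NScale_G_le hg i k) (pow_le_one₀ (norm_nonneg _) hϖ2.le)
              (pow_nonneg (norm_nonneg _) _) zero_le_one
        _ = 1 := one_mul 1
  have hFone : ‖F.coeff 1‖ = 1 := by
    rw [hFs, pow_zero, mul_one]
    exact NScale_G_zero hg i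
  have hFbig : ∀ k, 1 < k → ‖F.coeff k‖ < 1 := by
    intro k hk
    obtain ⟨k, rfl⟩ : ∃ k', k = k' + 1 + 1 := ⟨k - 2, by omega⟩
    rw [hFs, norm_mul, norm_pow]
    calc ‖G.coeff (k + 1)‖ * ‖ϖ ^ 2‖ ^ (k + 1) ≤ 1 * ‖ϖ ^ 2‖ ^ (k + 1) :=
          mul_le_mul_of_nonneg_right (NScale_G_le hg i _) (pow_nonneg (norm_nonneg _) _)
      _ < 1 := by
          rw [one_mul]
          exact pow_lt_one₀ (norm_nonneg _) hϖ2 (Nat.succ_ne_zero _)
  have hϖn : (0 : ℝ) ≤ ‖ϖ‖ ^ 2 := pow_nonneg (norm_nonneg _) _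
  have hc : ∀ k, ‖(A' ^ 2 - F * B' ^ 2).coeff k‖ ≤ (‖ϖ‖ ^ (2 * m)) ^ 2 := by
    intro k
    rw [hmain]
    have e1 : ∀ j, ‖((t₁.map fun a => C (ϖ ^ 2) * X + C (e i - a)).prod).coeff j‖ ≤
        (‖ϖ‖ ^ 2) ^ (2 * m) := by
      intro j
      rw [← ht₁]
      refine prod_coeff_le t₁ (fun _ => ϖ ^ 2) (fun a => e i - a) (‖ϖ‖ ^ 2) hϖn
        (fun a _ => by rw [norm_pow]) (fun a ha => ?_) j
      rw [norm_sub_rev]
      exact hn₁ a ha
    have e2 : ∀ j, ‖((t₂.map fun a => C (ϖ ^ 2) * X + C (e i - a)).prod).coeff j‖ ≤ 1 := by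
      intro j
      have h2 := prod_coeff_le t₂ (fun _ => ϖ ^ 2) (fun a => e i - a) 1 zero_le_one
        (fun a _ => hϖ2.le) (fun a ha => by
          rw [sub_eq_add_neg]
          refine (IsUltrametricDist.norm_add_le_max _ _).trans (max_le (hg.le i) ?_)
          rw [norm_neg]
          exact hn₂ a ha) j
      rwa [one_pow] at h2
    refine (NScale_coeff_mul_le _ _ _ _ (pow_nonneg hϖn _) zero_le_one e1 e2 k).trans ?_
    rw [mul_one, ← pow_mul, ← pow_mul]
    exact le_of_eq (by ring_nf)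
  obtain ⟨hA, hB⟩ := gauss_nm (F := F) (d := 1) (by decide) hF1 hFone hFbig A' B'
    (‖ϖ‖ ^ (2 * m)) (pow_nonneg (norm_nonneg _) _) hc
  constructor
  · have := hA j
    rw [hA', comp_C_mul_X_coeff, norm_mul, norm_pow, norm_pow, ← pow_mul] at this
    exact this
  · have := hB j
    rw [hB', coeff_C_mul, comp_C_mul_X_coeff, norm_mul, norm_mul, norm_pow, norm_pow,
      ← pow_mul] at this
    refine le_trans (le_of_eq ?_) this
    rw [pow_succ]
    ring

/-- A product of linear factors with small constant coefficients. -/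
private lemma NScale_near (t : Multiset K) (c : K → K) (ht : ∀ a ∈ t, ‖c a‖ < 1) :
    ((t.map fun a => C (1 : K) * X + C (c a)).prod).coeff t.card = 1 ∧
    ∀ j, j ≠ t.card → ‖((t.map fun a => C (1 : K) * X + C (c a)).prod).coeff j‖ < 1 := by
  induction t using Multiset.induction with
  | empty =>
    constructor
    · simp
    · intro j hj
      rw [Multiset.card_zero] at hj
      rw [Multiset.map_zero, Multiset.prod_zero, coeff_one, if_neg (fun h => hj h), norm_zero]
      exact zero_lt_one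
  | cons a t ih =>
    obtain ⟨ih1, ih2⟩ := ih fun b hb => ht b (Multiset.mem_cons_of_mem hb)
    have hca : ‖c a‖ < 1 := ht a (Multiset.mem_cons_self _ _)
    set P := (t.map fun a => C (1 : K) * X + C (c a)).prod with hP
    have hPle : ∀ j, ‖P.coeff j‖ ≤ 1 := by
      intro j
      by_cases hj : j = t.card
      · rw [hj, ih1, norm_one]
      · exact (ih2 j hj).le
    have hcP : ∀ j, ‖c a * P.coeff j‖ < 1 := by
      intro j
      rw [norm_mul]
      calc ‖c a‖ * ‖P.coeff j‖ ≤ ‖c a‖ * 1 :=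
            mul_le_mul_of_nonneg_left (hPle j) (norm_nonneg _)
        _ < 1 := by rwa [mul_one]
    have hs : ∀ j, ((C (1 : K) * X + C (c a)) * P).coeff (j + 1) =
        P.coeff j + c a * P.coeff (j + 1) := by
      intro j
      rw [add_mul, coeff_add, C_1, one_mul, coeff_X_mul, coeff_C_mul]
    have hz : ((C (1 : K) * X + C (c a)) * P).coeff 0 = c a * P.coeff 0 := by
      rw [add_mul, coeff_add, C_1, one_mul, coeff_X_mul_zero, coeff_C_mul, zero_add]
    rw [Multiset.map_cons, Multiset.prod_cons, Multiset.card_cons, ← hP]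
    have htop : P.coeff (t.card + 1) = 0 := by
      apply coeff_eq_zero_of_natDegree_lt
      have h3 : P.natDegree ≤ t.card := by
        rw [hP]
        refine (natDegree_multiset_prod_le _).trans ?_
        rw [Multiset.map_map]
        have h4 : ∀ s : Multiset K, (s.map (natDegree ∘ fun a => C (1 : K) * X + C (c a))).sum ≤
            s.card := by
          intro s
          induction s using Multiset.induction with
          | empty => simp
          | cons b s ihs =>
            rw [Multiset.map_cons, Multiset.sum_cons, Multiset.card_cons, add_comm]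
            refine add_le_add ihs ?_
            exact natDegree_linear_le
        exact h4 t
      omega
    constructor
    · rw [hs, ih1, htop, mul_zero, add_zero]
    · intro j hj
      cases j with
      | zero => rw [hz]; exact hcP 0
      | succ j =>
        rw [hs]
        refine (IsUltrametricDist.norm_add_le_max _ _).trans_lt (max_lt ?_ (hcP _))
        exact ih2 j fun h => hj (by rw [h])

theorem alpha_unit (hg : Good f e) (i : Fin 5) (ϖ : K) (h0 : ϖ ≠ 0) (h1 : ‖ϖ‖ < 1)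
    (A B : K[X]) (t₁ t₂ : Multiset K)
    (h : A ^ 2 - f * B ^ 2 = (t₁.map fun a => X - C a).prod * (t₂.map fun a => X - C a).prod)
    (m : ℕ) (ht₁ : t₁.card = 2 * m) (hn₁ : ∀ a ∈ t₁, ‖a - e i‖ < 1)
    (hn₂ : ∀ a ∈ t₂, ‖a - e i‖ = 1)
    (hA : ∀ j, ‖(taylor (e i) A).coeff j‖ ≤ 1)
    (hAs : ∀ j, ‖(taylor (e i) A).coeff j‖ * ‖ϖ‖ ^ (2 * j) ≤ ‖ϖ‖ ^ (2 * m))
    (hB : ∀ j, ‖(taylor (e i) B).coeff j‖ ≤ ‖ϖ‖ ^ 3) :
    ‖(taylor (e i) A).coeff m‖ = 1 := by
  have hϖ : 0 < ‖ϖ‖ := norm_pos_iff.2 h0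
  -- the right hand side
  set P₁ := (t₁.map fun a => C (1 : K) * X + C (e i - a)).prod with hP₁
  set P₂ := (t₂.map fun a => C (1 : K) * X + C (e i - a)).prod with hP₂
  have hT : (taylor (e i) A) ^ 2 - taylor (e i) f * (taylor (e i) B) ^ 2 = P₁ * P₂ := by
    rw [hP₁, hP₂, ← NScale_taylor_prod, ← NScale_taylor_prod, ← taylor_mul, ← h, map_sub,
      taylor_mul, taylor_pow, taylor_pow]
  obtain ⟨hn1, hn2⟩ := NScale_near t₁ (fun a => e i - a) fun a ha => by
    rw [norm_sub_rev]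
    exact hn₁ a ha
  rw [ht₁] at hn1 hn2
  have hP₂le : ∀ j, ‖P₂.coeff j‖ ≤ 1 := by
    intro j
    have h2 := prod_coeff_le t₂ (fun _ => (1 : K)) (fun a => e i - a) 1 zero_le_one
      (fun a _ => by rw [norm_one]) (fun a ha => by
        rw [norm_sub_rev]
        exact (hn₂ a ha).le) j
    rwa [one_pow] at h2
  have hP₂0 : ‖P₂.coeff 0‖ = 1 := by
    have h3 : ∀ s : Multiset K, (∀ a ∈ s, ‖a - e i‖ = 1) →
        ‖((s.map fun a => C (1 : K) * X + C (e i - a)).prod).coeff 0‖ = 1 := by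
      intro s
      induction s using Multiset.induction with
      | empty => intro _; simp
      | cons a s ih =>
        intro hs
        rw [Multiset.map_cons, Multiset.prod_cons, mul_coeff_zero, norm_mul,
          ih fun b hb => hs b (Multiset.mem_cons_of_mem hb), mul_one, coeff_add, C_1, one_mul,
          coeff_X_zero, zero_add, coeff_C_zero, norm_sub_rev]
        exact hs a (Multiset.mem_cons_self _ _)
    exact h3 t₂ hn₂
  have hR : ‖(P₁ * P₂).coeff (2 * m)‖ = 1 := by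
    rw [coeff_mul]
    have hmem : ((2 * m, 0) : ℕ × ℕ) ∈ Finset.HasAntidiagonal.antidiagonal (2 * m) := by simp
    rw [← Finset.add_sum_erase _ _ hmem]
    have hlt : ‖∑ x ∈ (Finset.HasAntidiagonal.antidiagonal (2 * m)).erase (2 * m, 0),
        P₁.coeff x.1 * P₂.coeff x.2‖ < 1 := by
      refine NScale_sum_lt _ _ 1 zero_lt_one fun x hx => ?_
      rw [Finset.mem_erase, Finset.HasAntidiagonal.mem_antidiagonal] at hx
      have hx1 : x.1 ≠ 2 * m := by
        intro h3
        apply hx.1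
        ext
        · exact h3
        · change x.2 = 0
          omega
      rw [norm_mul]
      calc ‖P₁.coeff x.1‖ * ‖P₂.coeff x.2‖ ≤ ‖P₁.coeff x.1‖ * 1 :=
            mul_le_mul_of_nonneg_left (hP₂le _) (norm_nonneg _)
        _ < 1 := by rw [mul_one]; exact hn2 _ hx1
    have hmain : ‖P₁.coeff (2 * m) * P₂.coeff 0‖ = 1 := by
      rw [hn1, one_mul]
      exact hP₂0
    have h4 := IsUltrametricDist.norm_add_eq_max_of_norm_ne_norm
      (x := P₁.coeff (2 * m) * P₂.coeff 0)
      (y := ∑ x ∈ (Finset.HasAntidiagonal.antidiagonal (2 * m)).erase (2 * m, 0), P₁.coeff x.1 * P₂.coeff x.2)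
      (by rw [hmain]; exact hlt.ne')
    change ‖P₁.coeff (2 * m) * P₂.coeff 0 + _‖ = 1
    rw [h4, hmain]
    exact max_eq_left hlt.le
  -- the left hand side
  refine le_antisymm (hA m) ?_
  by_contra hcon
  rw [not_le] at hcon
  have hsmall : ∀ k, k ≤ m → ‖(taylor (e i) A).coeff k‖ < 1 := by
    intro k hk
    rcases hk.eq_or_lt with rfl | hk
    · exact hcon
    · have h3 := hAs k
      have h4 : ‖ϖ‖ ^ (2 * m) < ‖ϖ‖ ^ (2 * k) :=
        pow_lt_pow_right_of_lt_one₀ hϖ h1 (by omega)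
      have h5 : 0 < ‖ϖ‖ ^ (2 * k) := pow_pos hϖ _
      by_contra h6
      rw [not_lt] at h6
      have h7 : ‖ϖ‖ ^ (2 * k) ≤ ‖(taylor (e i) A).coeff k‖ * ‖ϖ‖ ^ (2 * k) :=
        le_mul_of_one_le_left h5.le h6
      linarith
  have hL : ‖(P₁ * P₂).coeff (2 * m)‖ < 1 := by
    rw [← hT, coeff_sub, sub_eq_add_neg]
    refine (IsUltrametricDist.norm_add_le_max _ _).trans_lt (max_lt ?_ ?_)
    · rw [pow_two, coeff_mul]
      refine NScale_sum_lt _ _ 1 zero_lt_one fun x hx => ?_
      rw [Finset.HasAntidiagonal.mem_antidiagonal] at hx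
      rw [norm_mul]
      rcases le_or_gt x.1 m with h3 | h3
      · calc ‖(taylor (e i) A).coeff x.1‖ * ‖(taylor (e i) A).coeff x.2‖
            ≤ ‖(taylor (e i) A).coeff x.1‖ * 1 :=
              mul_le_mul_of_nonneg_left (hA _) (norm_nonneg _)
          _ < 1 := by rw [mul_one]; exact hsmall _ h3
      · calc ‖(taylor (e i) A).coeff x.1‖ * ‖(taylor (e i) A).coeff x.2‖
            ≤ 1 * ‖(taylor (e i) A).coeff x.2‖ :=
              mul_le_mul_of_nonneg_right (hA _) (norm_nonneg _)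
          _ < 1 := by rw [one_mul]; exact hsmall _ (by omega)
    · rw [norm_neg]
      have h6 : (0 : ℝ) ≤ ‖ϖ‖ ^ 3 := pow_nonneg (norm_nonneg _) _
      have h3 := NScale_coeff_mul_le (taylor (e i) B) (taylor (e i) B) _ _ h6 h6 hB hB
      rw [← pow_two] at h3
      have h4 := NScale_coeff_mul_le (taylor (e i) f) (taylor (e i) B ^ 2) 1 _ zero_le_one
        (mul_nonneg h6 h6) (NScale_f_le hg i) h3 (2 * m)
      refine h4.trans_lt ?_
      rw [one_mul, ← pow_add]
      exact pow_lt_one₀ (norm_nonneg _) h1 (by norm_num)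
  rw [hR] at hL
  exact lt_irrefl _ hL

end G2
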