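import Pool.Agent.Lib.MP_2eeeac_ag.G2.NEnd
import Pool.Agent.Lib.MP_2eeeac_ag.G2.NScale
import Pool.Agent.Lib.MP_2eeeac_ag.G2.APicZ

/-!
# Module NAbel: the additive law modulo `ρ³` (Abel's lemma)
-/

namespace G2

open Polynomial

variable {K : Type*} [NormedField K] [IsUltrametricDist K] [IsAlgClosed K] {f : K[X]}
  {e : Fin 5 → K}

omit [IsUltrametricDist K] [IsAlgClosed K] in
private lemma ab_Mprod_le (s t : Multiset (APt f)) : Mprod (s + t) ≤ Mprod s := by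
  rw [Mprod_add]
  exact Ideal.mul_le_left (I := Mprod s) (J := Mprod t)

omit [IsUltrametricDist K] [IsAlgClosed K] in
private lemma ab_prod (s : Multiset K) : (s.map fun a => X - C a).prod =
    (s.map fun a => C ((fun _ : K => (1 : K)) a) * X + C ((fun a : K => -a) a)).prod := by
  congr 1
  refine Multiset.map_congr rfl fun a _ => ?_
  simp [sub_eq_add_neg]

omit [IsAlgClosed K] in
private lemma ab_prod_le (s : Multiset K) (h : ∀ a ∈ s, ‖a‖ ≤ 1) (j : ℕ) :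
    ‖((s.map fun a => X - C a).prod).coeff j‖ ≤ 1 := by
  rw [ab_prod]
  have := prod_coeff_le s (fun _ : K => (1 : K)) (fun a : K => -a) 1 zero_le_one
    (fun _ _ => by simp) (fun a ha => by simpa using h a ha) j
  simpa using this

omit [IsAlgClosed K] in
private lemma ab_f_le (hg : Good f e) (j : ℕ) : ‖f.coeff j‖ ≤ 1 := by
  have h1 : f = (((Finset.univ : Finset (Fin 5)).val.map e).map fun a => X - C a).prod := by
    rw [Multiset.map_map]
    exact hg.prod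
  rw [h1]
  refine ab_prod_le _ (fun a ha => ?_) j
  rw [Multiset.mem_map] at ha
  obtain ⟨i, _, rfl⟩ := ha
  exact hg.le i

private lemma ab_beta {b w : ℝ} (hw0 : 0 < w) (hw1 : w < 1) {l κ : ℕ} (hl : l + 2 ≤ κ)
    (h : b * w ^ (2 * l + 1) ≤ w ^ (2 * κ)) : b ≤ w ^ 3 := by
  obtain ⟨n, rfl⟩ := Nat.exists_eq_add_of_le hl
  have h1 : w ^ (2 * (l + 2 + n)) = w ^ (2 * n) * w ^ 3 * w ^ (2 * l + 1) := by
    rw [← pow_add, ← pow_add]
    congr 1
    ring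
  rw [h1] at h
  have h2 := le_of_mul_le_mul_right h (pow_pos hw0 _)
  refine h2.trans ?_
  have h3 : w ^ (2 * n) ≤ 1 := pow_le_one₀ hw0.le hw1.le
  calc w ^ (2 * n) * w ^ 3 ≤ 1 * w ^ 3 := mul_le_mul_of_nonneg_right h3 (by positivity)
    _ = w ^ 3 := one_mul _

omit [IsAlgClosed K] in
private lemma ab_far (hg : Good f e) {i j : Fin 5} (hij : i ≠ j) (x : K) (hx : ‖x - e j‖ < 1) :
    ‖x - e i‖ = 1 := by
  have h1 : ‖e j - e i‖ = 1 := hg.sep j i hij.symm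
  have h2 : x - e i = (x - e j) + (e j - e i) := by ring
  rw [h2, IsUltrametricDist.norm_add_eq_max_of_norm_ne_norm (by rw [h1]; exact hx.ne), h1]
  exact max_eq_right hx.le

omit [IsAlgClosed K] in
private lemma ab_le_one (hg : Good f e) {i : Fin 5} (x : K) (hx : ‖x - e i‖ < 1) : ‖x‖ ≤ 1 := by
  have h2 : x = (x - e i) + e i := by ring
  rw [h2]
  exact (IsUltrametricDist.norm_add_le_max _ _).trans (max_le hx.le (hg.le i))

theorem abel (hg : Good f e) {i j : Fin 5} (hij : i ≠ j) (s₁ s₂ : Multiset (APt f))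
    (h₁ : ∀ P ∈ s₁, ‖P.x - e i‖ < 1) (h₂ : ∀ P ∈ s₂, ‖P.x - e j‖ < 1)
    (he₁ : Even s₁.card) (he₂ : Even s₂.card) (ρ : ℝ) (hρ0 : 0 ≤ ρ) (hρ1 : ρ < 1)
    (hy₁ : ∀ P ∈ s₁, ‖P.y‖ ≤ ρ) (hy₂ : ∀ P ∈ s₂, ‖P.y‖ ≤ ρ)
    (h : (s₁.map fun P => v (some P)).sum + (s₂.map fun P => v (some P)).sum = 0) :
    ‖(s₁.map APt.y).sum‖ ≤ ρ ^ 3 := by
  by_cases hz : ∀ P ∈ s₁, P.y = 0
  · have : (s₁.map APt.y).sum = 0 := by
      refine Multiset.sum_eq_zero fun y hy => ?_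
      rw [Multiset.mem_map] at hy
      obtain ⟨P, hP, rfl⟩ := hy
      exact hz P hP
    rw [this, norm_zero]
    positivity
  push Not at hz
  obtain ⟨P₁, hP₁, hP₁y⟩ := hz
  haveI := hg.quintic
  have hne : s₁ + s₂ ≠ 0 := by
    intro h0
    have : P₁ ∈ s₁ + s₂ := Multiset.mem_add.2 (Or.inl hP₁)
    rw [h0] at this
    exact Multiset.notMem_zero _ this
  obtain ⟨P₀, hP₀, hmax⟩ := Multiset.exists_max_image (fun P : APt f => ‖P.y‖) hne
  set ϖ := P₀.y with hϖ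
  have hϖρ : ‖ϖ‖ ≤ ρ := by
    rcases Multiset.mem_add.1 hP₀ with h | h
    · exact hy₁ P₀ h
    · exact hy₂ P₀ h
  have hm₁ : ∀ P ∈ s₁, ‖P.y‖ ≤ ‖ϖ‖ := fun P hP => hmax P (Multiset.mem_add.2 (Or.inl hP))
  have hm₂ : ∀ P ∈ s₂, ‖P.y‖ ≤ ‖ϖ‖ := fun P hP => hmax P (Multiset.mem_add.2 (Or.inr hP))
  have hϖ0 : ϖ ≠ 0 := by
    intro h0
    have := hm₁ P₁ hP₁
    rw [h0, norm_zero] at this
    exact hP₁y (norm_le_zero_iff.1 this)
  have hϖp : 0 < ‖ϖ‖ := norm_pos_iff.2 hϖ0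
  have hϖ1 : ‖ϖ‖ < 1 := lt_of_le_of_lt hϖρ hρ1
  obtain ⟨κ, hκ⟩ := he₁
  obtain ⟨μ, hμ⟩ := he₂
  have hκ' : s₁.card = 2 * κ := by omega
  have hμ' : s₂.card = 2 * μ := by omega
  have hκ1 : 1 ≤ κ := by
    have : 0 < s₁.card := Multiset.card_pos_iff_exists_mem.2 ⟨P₁, hP₁⟩
    omega
  obtain ⟨g₀, hg₀⟩ := prin_of_sum_v (f := f) (s := s₁ + s₂) (by
    rw [Multiset.map_add, Multiset.sum_add]; exact h)
  obtain ⟨g, hgM, hgn⟩ := exists_normalised hg₀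
  set A := g.re with hA
  set B := g.im with hB
  set t₁ := s₁.map APt.x with ht₁
  set t₂ := s₂.map APt.x with ht₂
  have hnm : A ^ 2 - f * B ^ 2 =
      (t₁.map fun a => X - C a).prod * (t₂.map fun a => X - C a).prod := by
    have h1 : A ^ 2 - f * B ^ 2 = nm g := rfl
    rw [h1, hgn, ht₁, ht₂, Multiset.map_map, Multiset.map_map, Multiset.map_add,
      Multiset.prod_add]
    rfl
  have hnm' : A ^ 2 - f * B ^ 2 =
      (t₂.map fun a => X - C a).prod * (t₁.map fun a => X - C a).prod := by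
    rw [hnm, mul_comm]
  have hc₁ : t₁.card = 2 * κ := by rw [ht₁, Multiset.card_map, hκ']
  have hc₂ : t₂.card = 2 * μ := by rw [ht₂, Multiset.card_map, hμ']
  have hx₁ : ∀ a ∈ t₁, ‖a - e i‖ < 1 := by
    intro a ha
    rw [ht₁, Multiset.mem_map] at ha
    obtain ⟨P, hP, rfl⟩ := ha
    exact h₁ P hP
  have hx₂ : ∀ a ∈ t₂, ‖a - e j‖ < 1 := by
    intro a ha
    rw [ht₂, Multiset.mem_map] at ha
    obtain ⟨P, hP, rfl⟩ := ha
    exact h₂ P hP
  have hs₁ : ∀ a ∈ t₁, ‖a - e i‖ ≤ ‖ϖ‖ ^ 2 := by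
    intro a ha
    rw [ht₁, Multiset.mem_map] at ha
    obtain ⟨P, hP, rfl⟩ := ha
    rw [near_norm hg i P (h₁ P hP)]
    exact pow_le_pow_left₀ (norm_nonneg _) (hm₁ P hP) 2
  have hs₂ : ∀ a ∈ t₂, ‖a - e j‖ ≤ ‖ϖ‖ ^ 2 := by
    intro a ha
    rw [ht₂, Multiset.mem_map] at ha
    obtain ⟨P, hP, rfl⟩ := ha
    rw [near_norm hg j P (h₂ P hP)]
    exact pow_le_pow_left₀ (norm_nonneg _) (hm₂ P hP) 2
  have hl₁ : ∀ a ∈ t₁, ‖a‖ ≤ 1 := fun a ha => ab_le_one hg a (hx₁ a ha)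
  have hl₂ : ∀ a ∈ t₂, ‖a‖ ≤ 1 := fun a ha => ab_le_one hg a (hx₂ a ha)
  -- integrality of the coefficients
  have hgauss : (∀ l, ‖A.coeff l‖ ≤ 1) ∧ (∀ l, ‖B.coeff l‖ ≤ 1) := by
    have hf5 : f.coeff 5 = 1 := by
      have := (Quintic.monic (f := f)).coeff_natDegree
      rwa [Quintic.deg (f := f)] at this
    refine gauss_nm (F := f) (d := 5) (by decide) (ab_f_le hg) (by rw [hf5, norm_one]) ?_ A B 1
      zero_le_one ?_
    · intro l hl
      rw [coeff_eq_zero_of_natDegree_lt (by rw [Quintic.deg (f := f)]; exact hl), norm_zero]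
      exact one_pos
    · intro l
      have h1 : A ^ 2 - f * B ^ 2 = ((t₁ + t₂).map fun a => X - C a).prod := by
        rw [hnm, Multiset.map_add, Multiset.prod_add]
      rw [h1, one_pow]
      refine ab_prod_le _ (fun a ha => ?_) l
      rcases Multiset.mem_add.1 ha with h | h
      · exact hl₁ a h
      · exact hl₂ a h
  have hb₁ := scaled_bound hg i ϖ hϖ0 hϖ1 A B t₁ t₂ hnm κ hc₁ hs₁ hl₂
  have hb₂ := scaled_bound hg j ϖ hϖ0 hϖ1 A B t₂ t₁ hnm' μ hc₂ hs₂ hl₁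
  have hdeg : B.degree < (((κ - 1) + (μ - 1) : ℕ) : WithBot ℕ) := by
    by_cases hB0 : B = 0
    · rw [hB0, degree_zero]
      exact WithBot.bot_lt_coe _
    · have h1 := natDegree_nm_ne (Quintic.deg (f := f)) g hB0
      have h2 : (nm g).natDegree = 2 * κ + 2 * μ := by
        rw [← card_eq hgM, Multiset.card_add, hκ', hμ']
      rw [degree_eq_natDegree hB0]
      have h3 : B.natDegree < (κ - 1) + (μ - 1) := by
        rw [h2] at h1
        have h4 : 2 * B.natDegree + 5 ≤ 2 * κ + 2 * μ := by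
          rw [h1]
          exact le_max_right _ _
        omega
      exact_mod_cast h3
  have hBs : ∀ l, ‖B.coeff l‖ ≤ ‖ϖ‖ ^ 3 := by
    refine small_of_taylor B (κ - 1) (μ - 1) hdeg (e i) (e j) (hg.le i) (hg.le j)
      (hg.sep i j hij) (‖ϖ‖ ^ 3) (by positivity) ?_ ?_
    · intro l hl
      exact ab_beta hϖp hϖ1 (show l + 2 ≤ κ by omega) (hb₁ l).2
    · intro l hl
      exact ab_beta hϖp hϖ1 (show l + 2 ≤ μ by omega) (hb₂ l).2
  have hTB := taylor_norm_le (e i) (hg.le i) B (‖ϖ‖ ^ 3) (by positivity) hBs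
  have hTA := taylor_norm_le (e i) (hg.le i) A 1 zero_le_one hgauss.1
  have hunit := alpha_unit hg i ϖ hϖ0 hϖ1 A B t₁ t₂ hnm κ hc₁ hx₁
    (fun a ha => ab_far hg hij a (hx₂ a ha)) hTA (fun l => (hb₁ l).1) hTB
  have hgm : g ∈ Mprod s₁ := by
    have h1 : g ∈ Mprod (s₁ + s₂) := by
      rw [hgM]
      exact Ideal.mem_span_singleton_self g
    exact ab_Mprod_le s₁ s₂ h1
  have hend := abel_end hg i ϖ hϖ0 hϖ1 s₁ κ hκ' hm₁ h₁ g hgm hTA (fun l => (hb₁ l).1) hunit hTB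
    (fun l => (hb₁ l).2)
  exact hend.trans (pow_le_pow_left₀ (norm_nonneg _) hϖρ 3)

end G2
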