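import Pool.Agent.Lib.MP_2eeeac_ag.G2.Fun

/-!
# Definitions for the normed part: valuation ring, residue field, good reduction
-/

namespace G2

open Polynomial

section VR

variable (K : Type*) [NormedField K] [IsUltrametricDist K]

/-- The valuation ring of a nonarchimedean normed field. -/
noncomputable def VR : ValuationSubring K := (NormedField.valuation (K := K)).valuationSubring

/-- The residue field. -/
abbrev RF := IsLocalRing.ResidueField (VR K)

/-- The residue map. -/
noncomputable abbrev rs : VR K →+* RF K := IsLocalRing.residue (VR K)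

variable {K}

lemma mem_VR (x : K) : x ∈ VR K ↔ ‖x‖ ≤ 1 := by
  rw [VR, Valuation.mem_valuationSubring_iff, NormedField.valuation_apply]
  exact Iff.rfl

lemma rs_eq_zero (x : VR K) : rs K x = 0 ↔ ‖(x : K)‖ < 1 := by
  rw [IsLocalRing.residue_eq_zero_iff, IsLocalRing.mem_maximalIdeal, mem_nonunits_iff]
  constructor
  · intro h
    by_contra h1
    apply h
    have hx : ‖(x : K)‖ = 1 := le_antisymm ((mem_VR _).1 x.2) (not_lt.1 h1)
    have h0 : (x : K) ≠ 0 := by
      intro h0
      rw [h0, norm_zero] at hx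
      exact zero_ne_one hx
    have hinv : (x : K)⁻¹ ∈ VR K := by rw [mem_VR, norm_inv, hx, inv_one]
    exact IsUnit.of_mul_eq_one (⟨(x : K)⁻¹, hinv⟩ : VR K) (Subtype.ext (mul_inv_cancel₀ h0))
  · intro h hu
    obtain ⟨y, hy⟩ := hu.exists_right_inv
    have h1 : ‖(x : K)‖ * ‖(y : K)‖ = 1 := by
      rw [← norm_mul]
      have := congrArg (fun z : VR K => ‖(z : K)‖) hy
      simpa using this
    have h2 := (mem_VR _).1 y.2
    have h3 : ‖(x : K)‖ * ‖(y : K)‖ < 1 := by
      calc ‖(x : K)‖ * ‖(y : K)‖ ≤ ‖(x : K)‖ * 1 :=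
            mul_le_mul_of_nonneg_left h2 (norm_nonneg _)
        _ < 1 := by rwa [mul_one]
    linarith

lemma rs_surj : Function.Surjective (rs K) := IsLocalRing.residue_surjective

end VR

section good

variable {K : Type*} [NormedField K]

/-- `f = ∏ (X - e_i)` has good reduction: integral roots with unit differences, residue
characteristic not 2. -/
structure Good (f : K[X]) (e : Fin 5 → K) : Prop where
  prod : f = ∏ i, (X - C (e i))
  le : ∀ i, ‖e i‖ ≤ 1
  sep : ∀ i j, i ≠ j → ‖e i - e j‖ = 1
  two : ‖(2 : K)‖ = 1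

variable {f : K[X]} {e : Fin 5 → K}

lemma Good.eval_root (hg : Good f e) (i : Fin 5) : f.eval (e i) = 0 := by
  rw [hg.prod, eval_prod]
  exact Finset.prod_eq_zero (Finset.mem_univ i) (by simp)

/-- The Weierstrass point `W_i = (e_i, 0)`. -/
def Wp (hg : Good f e) (i : Fin 5) : APt f := ⟨e i, 0, by rw [hg.eval_root]; simp⟩

/-- The class of `P - W_i`. -/
noncomputable def dW (hg : Good f e) (i : Fin 5) (P : APt f) : Pic f :=
  v (some P) - v (some (Wp hg i))

/-- `P` is an affine point close to `x = a`. -/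
def NearH (a : K) (P : HPt f) : Prop := ∃ Q : APt f, P = some Q ∧ ‖Q.x - a‖ < 1

variable [IsUltrametricDist K]

/-- The polynomial `f` over the valuation ring. -/
noncomputable def FO (hg : Good f e) : (VR K)[X] :=
  ∏ i, (X - C (⟨e i, (mem_VR _).2 (hg.le i)⟩ : VR K))

lemma FO_map (hg : Good f e) : (FO hg).map (VR K).subtype = f := by
  rw [FO, Polynomial.map_prod]
  simp only [Polynomial.map_sub, map_X, map_C]
  exact hg.prod.symm

/-- The reduction of `f`. -/
noncomputable def fbar (hg : Good f e) : (RF K)[X] := (FO hg).map (rs K)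

lemma fbar_eq (hg : Good f e) : fbar hg =
    ∏ i, (X - C (rs K ⟨e i, (mem_VR _).2 (hg.le i)⟩)) := by
  rw [fbar, FO, Polynomial.map_prod]
  simp only [Polynomial.map_sub, map_X, map_C]

/-- The reduction of points. -/
noncomputable def redN (hg : Good f e) : HPt f → HPt (fbar hg) :=
  red (VR K) (rs K) (FO hg) f (fbar hg) (FO_map hg) rfl

end good

end G2
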