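import Pool.Agent.Lib.MP_2eeeac_ag.G2.Fun

/-!
# Module NPar: the parabola `y² = φ x` over a commutative ring (pure algebra)

PROOF. If `T` is trivial there is nothing to prove. Let `ψ = φ⁻¹`. The map
`Φ : CR F → T[X]`, `g ↦ g.re.comp (C ψ * X^2) + g.im.comp (C ψ * X^2) * X` is a ring homomorphism,
because `F.comp (C ψ * X^2) = C φ * C ψ * X^2 = X^2` (write `RingHom` by hand or use
`QuadraticAlgebra.lift`). For `P = (a, b)`, `b² = φ a`: `Φ (x - a) = ψ X² - a = ψ (X² - b²)`,
`Φ (y - b) = X - b`, so `Φ` maps `𝔪_P` into `(X - C b)`; by induction `Φ (Mprod s) ⊆ (Pm)`,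
`Pm = ∏_{P ∈ s} (X - C y_P)`, monic of degree `2m`. So `Φ g = Pm * q`. The coefficients of `Φ g` are
`ψ^j * g.re.coeff j` (index `2j`) and `ψ^j * g.im.coeff j` (index `2j+1`), so they vanish for the
indices `> 2m` (`hA`, `hB`), `natDegree (Φ g) ≤ 2m`, and since `Pm` is monic of degree `2m`, `q = C c`
(`Polynomial.Monic.natDegree_mul'`). Index `2m`: `c = ψ^m * g.re.coeff m` is a unit. For `m = 0`,
`s = 0` and the sum is 0. For `m ≥ 1`, index `2m - 1 = 2(m-1) + 1`:
`0 = ψ^{m-1} g.im.coeff (m-1) = c * Pm.coeff (2m-1) = - c * ∑ y_P`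
(`Multiset.prod_X_sub_C_coeff_card_pred`, or `Multiset.prod_X_sub_C_nextCoeff`). Hence `∑ y_P = 0`.
-/

namespace G2

open Polynomial

section

variable {T : Type*} [CommRing T] {F : T[X]}

/-- The parametrisation of the parabola. -/
private noncomputable def parHom (φ ψ : T) (hφψ : φ * ψ = 1) (hF : F = C φ * X) : CR F →+* T[X] where
  toFun g := g.re.comp (C ψ * X ^ 2) + g.im.comp (C ψ * X ^ 2) * X
  map_one' := by simp [QuadraticAlgebra.re_one, QuadraticAlgebra.im_one]
  map_zero' := by simp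
  map_add' g h := by
    simp only [QuadraticAlgebra.re_add, QuadraticAlgebra.im_add, add_comp]
    ring
  map_mul' g h := by
    have h1 : C φ * C ψ = (1 : T[X]) := by rw [← C_mul, hφψ, C_1]
    simp only [QuadraticAlgebra.re_mul, QuadraticAlgebra.im_mul, add_comp, mul_comp, zero_mul,
      add_zero]
    have h2 : F.comp (C ψ * X ^ 2) = C φ * (C ψ * X ^ 2) := by
      have h3 := congrArg (fun G : T[X] => G.comp (C ψ * X ^ 2)) hF
      simpa using h3
    rw [h2]
    linear_combination ((g.im.comp (C ψ * X ^ 2)) * (h.im.comp (C ψ * X ^ 2)) * X ^ 2) * h1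

private theorem parHom_apply (φ ψ : T) (hφψ : φ * ψ = 1) (hF : F = C φ * X) (g : CR F) :
    parHom φ ψ hφψ hF g = g.re.comp (C ψ * X ^ 2) + g.im.comp (C ψ * X ^ 2) * X := rfl

private theorem parHom_m (φ ψ : T) (hφψ : φ * ψ = 1) (hF : F = C φ * X) (P : APt F) :
    P.m.map (parHom φ ψ hφψ hF) ≤ Ideal.span {X - C P.y} := by
  rw [APt.m, Ideal.map_span, Set.image_pair, Ideal.span_le]
  have hev : ∀ t : T, F.eval t = φ * t := by
    intro t
    have h3 := congrArg (eval t) hF
    simpa using h3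
  have hPe : P.y ^ 2 = φ * P.x := by
    rw [P.eq, hev]
  have hx : P.x = ψ * P.y ^ 2 := by
    rw [hPe]
    linear_combination (-P.x) * hφψ
  intro z hz
  rcases hz with rfl | rfl
  · rw [SetLike.mem_coe, Ideal.mem_span_singleton, parHom_apply]
    simp only [sub_comp, X_comp, C_comp, zero_comp, zero_mul, add_zero]
    refine ⟨C ψ * (X + C P.y), ?_⟩
    rw [hx, C_mul, C_pow]
    ring
  · rw [SetLike.mem_coe, Ideal.mem_span_singleton, parHom_apply]
    simp only [neg_comp, C_comp, one_comp, one_mul]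
    refine ⟨1, ?_⟩
    ring

private theorem parHom_Mprod (φ ψ : T) (hφψ : φ * ψ = 1) (hF : F = C φ * X)
    (s : Multiset (APt F)) :
    (Mprod s).map (parHom φ ψ hφψ hF) ≤ Ideal.span {((s.map APt.y).map fun a => X - C a).prod} := by
  induction s using Multiset.induction with
  | empty =>
    simp
  | cons P s ih =>
    rw [Mprod_cons, Ideal.map_mul, Multiset.map_cons, Multiset.map_cons, Multiset.prod_cons,
      ← Ideal.span_singleton_mul_span_singleton]
    exact Ideal.mul_mono (parHom_m φ ψ hφψ hF P) ih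

private theorem comp_coeff_even (ψ : T) (p : T[X]) (j : ℕ) :
    (p.comp (C ψ * X ^ 2)).coeff (2 * j) = ψ ^ j * p.coeff j := by
  have h : p.comp (C ψ * X ^ 2) = expand T 2 (p.comp (C ψ * X)) := by
    rw [expand_eq_comp_X_pow, comp_assoc]
    simp
  rw [h, mul_comm 2 j, coeff_expand_mul (by norm_num), comp_C_mul_X_coeff, mul_comm]

private theorem comp_coeff_odd (ψ : T) (p : T[X]) (j : ℕ) :
    (p.comp (C ψ * X ^ 2)).coeff (2 * j + 1) = 0 := by
  have h : p.comp (C ψ * X ^ 2) = expand T 2 (p.comp (C ψ * X)) := by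
    rw [expand_eq_comp_X_pow, comp_assoc]
    simp
  rw [h, coeff_expand (by norm_num), if_neg (by omega)]

private theorem parHom_coeff_even (φ ψ : T) (hφψ : φ * ψ = 1) (hF : F = C φ * X) (g : CR F)
    (j : ℕ) : (parHom φ ψ hφψ hF g).coeff (2 * j) = ψ ^ j * g.re.coeff j := by
  rw [parHom_apply, coeff_add, comp_coeff_even]
  rcases j with _ | j
  · simp
  · rw [show 2 * (j + 1) = 2 * j + 1 + 1 by ring, coeff_mul_X, comp_coeff_odd, add_zero]

private theorem parHom_coeff_odd (φ ψ : T) (hφψ : φ * ψ = 1) (hF : F = C φ * X) (g : CR F)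
    (j : ℕ) : (parHom φ ψ hφψ hF g).coeff (2 * j + 1) = ψ ^ j * g.im.coeff j := by
  rw [parHom_apply, coeff_add, comp_coeff_odd, coeff_mul_X, comp_coeff_even, zero_add]

end

theorem par_lemma {T : Type*} [CommRing T] {F : T[X]} (φ : T) (hφ : IsUnit φ)
    (hF : F = C φ * X) (s : Multiset (APt F)) (m : ℕ) (hs : s.card = 2 * m) (g : CR F)
    (hg : g ∈ Mprod s) (hA : ∀ j, m < j → g.re.coeff j = 0) (hAm : IsUnit (g.re.coeff m))
    (hB : ∀ j, m ≤ j + 1 → g.im.coeff j = 0) : (s.map APt.y).sum = 0 := by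
  rcases subsingleton_or_nontrivial T with hT | hT
  · exact Subsingleton.elim _ _
  obtain ⟨ψ, hφψ⟩ := hφ.exists_right_inv
  set G := parHom φ ψ hφψ hF g with hG
  set Pm : T[X] := ((s.map APt.y).map fun a => X - C a).prod with hPm
  have hmonic : Pm.Monic := by
    rw [hPm, Multiset.map_map]
    exact monic_multiset_prod_of_monic _ _ fun a _ => monic_X_sub_C _
  have hdeg : Pm.natDegree = 2 * m := by
    rw [hPm, natDegree_multiset_prod_X_sub_C_eq_card, Multiset.card_map, hs]
  have hmem : G ∈ Ideal.span {Pm} :=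
    parHom_Mprod φ ψ hφψ hF s (Ideal.mem_map_of_mem _ hg)
  obtain ⟨q, hq⟩ := Ideal.mem_span_singleton.1 hmem
  have hψ : IsUnit ψ := IsUnit.of_mul_eq_one φ (by rw [mul_comm]; exact hφψ)
  have hGdeg : G.natDegree ≤ 2 * m := by
    rw [natDegree_le_iff_coeff_eq_zero]
    intro N hN
    rcases Nat.even_or_odd' N with ⟨j, rfl | rfl⟩
    · rw [hG, parHom_coeff_even, hA j (by omega), mul_zero]
    · rw [hG, parHom_coeff_odd, hB j (by omega), mul_zero]
  have hqdeg : q.natDegree = 0 := by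
    by_cases hq0 : q = 0
    · rw [hq0, natDegree_zero]
    · have h1 := hmonic.natDegree_mul' hq0
      rw [← hq, hdeg] at h1
      omega
  obtain ⟨c, hc⟩ := natDegree_eq_zero.1 hqdeg
  rw [← hc] at hq
  have htop : G.coeff (2 * m) = c := by
    rw [hq, coeff_mul_C]
    have h1 : Pm.coeff (2 * m) = 1 := by
      rw [← hdeg]
      exact hmonic
    rw [h1, one_mul]
  have hcu : IsUnit c := by
    rw [← htop, hG, parHom_coeff_even]
    exact (hψ.pow m).mul hAm
  rcases m with _ | m
  · have h0 : s = 0 := Multiset.card_eq_zero.1 (by rw [hs])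
    rw [h0]
    simp
  · have h1 : G.coeff (2 * m + 1) = 0 := by
      rw [hG, parHom_coeff_odd, hB m le_rfl, mul_zero]
    rw [hq, coeff_mul_C] at h1
    have h2 : Pm.coeff (2 * m + 1) = 0 := by
      exact (IsUnit.mul_left_eq_zero hcu).1 h1
    have h3 := multiset_prod_X_sub_C_coeff_card_pred (s.map APt.y) (by
      rw [Multiset.card_map, hs]
      omega)
    rw [Multiset.card_map, hs, ← hPm, show 2 * (m + 1) - 1 = 2 * m + 1 by omega, h2] at h3
    exact neg_eq_zero.1 h3.symm

end G2
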