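import Pool.Agent.Lib.MP_2eeeac_ag.G2.NBas
import Pool.Agent.Lib.MP_2eeeac_ag.G2.NPar
import Pool.Agent.Lib.MP_2eeeac_ag.G2.BML
import Pool.Agent.Lib.MP_2eeeac_ag.G2.Scal

/-!
# Module NEnd: the sum of the `y`-coordinates of the zeros in the disc of `W_i`

NOTATION. `O = VR K`, `α_j = (taylor (e i) g.re).coeff j`, `β_j = (taylor (e i) g.im).coeff j`.

PROOF. Let `F₀ = X * ∏_{l ≠ i} (C (ϖ²) * X + C (e_i - e_l)) ∈ O[X]` and `F₁ ∈ K[X]` its image
(`f(e_i + ϖ² X) = ϖ² F₁(X)`).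
(1) The ring homomorphism `S : CR f → CR F₁`,
`g ↦ ⟨(taylor (e i) g.re).comp (C ϖ² * X), C ϖ * (taylor (e i) g.im).comp (C ϖ² * X)⟩`
(i.e. `x ↦ e_i + ϖ² X`, `y ↦ ϖ Y`; multiplicative because `ϖ² F₁ = f(e_i + ϖ² X)`).
(2) For `P ∈ s₁` let `P' = ((P.x - e_i)/ϖ², P.y/ϖ)`, a point of `APt F₀`: the coordinates are in
`O` because `‖P.x - e_i‖ = ‖P.y‖² ≤ ‖ϖ‖²` (`near_norm`), and the equation holds in `K`. `S` maps the
generators `x - P.x`, `y - P.y` of `𝔪_P` to `ϖ² (X - x')`, `ϖ (Y - y')`, so `S (𝔪_P) ⊆ 𝔪_{P'}` and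
`S g ∈ Mprod s₁'` over `K`.
(3) `S g = ϖ^{2m} g''_K` where `g'' = ⟨A'', B''⟩ : CR F₀`, `A''_j = α_j ϖ^{2j}/ϖ^{2m}`,
`B''_j = β_j ϖ^{2j+1}/ϖ^{2m}` are in `O` by `hAs`, `hBs`. The ideal `Mprod s₁'` over `K` is stable
under the constant `ϖ^{-2m}`, so `g''_K ∈ Mprod s₁'`, and by `mem_lift` `g'' ∈ Mprod s₁'` over `O`
(smooth: `F₀ = X H`, `F₀' = H + X H'`, for `x' ∈ O`: `H(x') ≡ ∏ (e_i - e_l)` modulo `ϖ²` is a unit
and `H'(x') ∈ ϖ² O`, so `F₀'(x')` is a unit; take `u = 0`, `w = F₀'(x')⁻¹`).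
(4) Let `T = O ⧸ (ϖ²)`. The image of `F₀` in `T[X]` is `C φ * X`, `φ = ∏_{l≠i} (e_i - e_l)` a unit.
The image of `g''` in `CR` over `T` is in `Mprod` of the image of `s₁'` (`Mprod_map`). Its
coefficients: `A''_j = α_j ϖ^{2(j-m)} ∈ (ϖ²)` for `j > m` (`hA1`); `A''_m = α_m` is a unit;
for `j + 1 ≥ m`: `‖B''_j‖ ≤ ‖ϖ‖^{3 + 2j + 1 - 2m} ≤ ‖ϖ‖²` (`hB`), so `B''_j = 0` in `T`. By `par_lemma`
the sum of the `y' = P.y/ϖ` is `0` in `T`, i.e. `‖∑ P.y / ϖ‖ ≤ ‖ϖ²‖`.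
-/

namespace G2

open Polynomial

variable {K : Type*} [NormedField K] [IsUltrametricDist K] {f : K[X]} {e : Fin 5 → K}

private lemma exists_lift (p : K[X]) (h : ∀ j, ‖p.coeff j‖ ≤ 1) :
    ∃ q : (VR K)[X], q.map (VR K).subtype = p := by
  have h1 : p ∈ Polynomial.lifts (VR K).subtype := by
    rw [Polynomial.lifts_iff_coeff_lifts]
    intro j
    exact ⟨⟨p.coeff j, (mem_VR _).2 (h j)⟩, rfl⟩
  exact h1

private lemma mem_span_sq (l z : VR K) (hl : (l : K) ≠ 0) :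
    z ∈ Ideal.span {l ^ 2} ↔ ‖(z : K)‖ ≤ ‖(l : K)‖ ^ 2 := by
  rw [Ideal.mem_span_singleton]
  constructor
  · rintro ⟨w, rfl⟩
    have h1 := (mem_VR _).1 w.2
    have h2 : ((l ^ 2 * w : VR K) : K) = (l : K) ^ 2 * w := rfl
    rw [h2, norm_mul, norm_pow]
    exact mul_le_of_le_one_right (by positivity) h1
  · intro h
    have hpos : 0 < ‖(l : K)‖ := norm_pos_iff.mpr hl
    have h1 : ‖(z : K) / (l : K) ^ 2‖ ≤ 1 := by
      rw [norm_div, norm_pow]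
      exact div_le_one_of_le₀ h (by positivity)
    refine ⟨⟨(z : K) / (l : K) ^ 2, (mem_VR _).2 h1⟩, Subtype.ext ?_⟩
    change (z : K) = (l : K) ^ 2 * ((z : K) / (l : K) ^ 2)
    field_simp

private lemma comp_taylor (p : K[X]) (a r : K) :
    p.comp (C a * X + C r) = (taylor r p).comp (C a * X) := by
  rw [taylor_apply, comp_assoc]
  congr 1
  simp

/-- the map `S` on ideals -/
private lemma S_Mprod (hg : Good f e) (i : Fin 5) (l : VR K)
    (hF1 : (Scal.F0 hg i l).map (VR K).subtype = Scal.F1 hg i l)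
    (pt : APt f → APt (Scal.F0 hg i l)) (s : Multiset (APt f))
    (h : ∀ P ∈ s, P.x = e i + (l : K) ^ 2 * ((pt P).x : K) ∧ P.y = (l : K) * ((pt P).y : K)) :
    (Mprod s).map (Scal.S hg i l) ≤
      Mprod ((s.map pt).map (APt.map (VR K).subtype hF1)) := by
  induction s using Multiset.induction with
  | empty => rw [Multiset.map_zero, Multiset.map_zero, Mprod_zero, Mprod_zero]; exact le_top
  | cons P s ih =>
    rw [Multiset.map_cons, Multiset.map_cons, Mprod_cons, Mprod_cons, Ideal.map_mul]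
    refine Ideal.mul_mono ?_ (ih fun Q hQ => h Q (Multiset.mem_cons_of_mem hQ))
    obtain ⟨hx, hy⟩ := h P (Multiset.mem_cons_self _ _)
    rw [Ideal.map_le_iff_le_comap]
    intro z hz
    rw [Ideal.mem_comap, mem_m_iff, Scal.S_re, Scal.S_im]
    rw [mem_m_iff, hx, hy] at hz
    have hxx : ((pt P).map (VR K).subtype hF1).x = ((pt P).x : K) := rfl
    have hyy : ((pt P).map (VR K).subtype hF1).y = ((pt P).y : K) := rfl
    rw [hxx, hyy, eval_mul, eval_comp, eval_comp, eval_C]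
    simp only [eval_add, eval_mul, eval_C, eval_X]
    rw [add_comm ((l : K) ^ 2 * _) (e i)]
    linear_combination hz

private lemma smooth_pt (hg : Good f e) (i : Fin 5) (l : VR K) (hl : ‖(l : K)‖ < 1)
    (P : APt (Scal.F0 hg i l)) : P.Smooth := by
  have hlr : rs K (l ^ 2) = 0 := by
    rw [map_pow, (rs_eq_zero l).2 hl]
    ring
  have h1 : rs K ((derivative (Scal.F0 hg i l)).eval P.x) ≠ 0 := by
    rw [← eval₂_at_apply, ← eval_map, ← derivative_map, Scal.F0_map hg i l (rs K) hlr]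
    simp only [derivative_mul, derivative_C, zero_mul, derivative_X, mul_one, zero_add, eval_C]
    intro h
    rw [rs_eq_zero, Scal.norm_ph] at h
    exact lt_irrefl _ h
  have h2 : ‖(((derivative (Scal.F0 hg i l)).eval P.x : VR K) : K)‖ = 1 := by
    refine le_antisymm ((mem_VR _).1 (Subtype.prop _)) (not_lt.1 fun h => h1 ?_)
    exact (rs_eq_zero _).2 h
  obtain ⟨w, hw⟩ := (Scal.isUnit_of_norm h2).exists_left_inv
  exact ⟨0, w, by rw [zero_mul, zero_add, hw]⟩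

theorem abel_end (hg : Good f e) (i : Fin 5) (ϖ : K) (h0 : ϖ ≠ 0) (h1 : ‖ϖ‖ < 1)
    (s₁ : Multiset (APt f)) (m : ℕ) (hs : s₁.card = 2 * m) (hy : ∀ P ∈ s₁, ‖P.y‖ ≤ ‖ϖ‖)
    (hn : ∀ P ∈ s₁, ‖P.x - e i‖ < 1) (g : CR f) (hgm : g ∈ Mprod s₁)
    (hA1 : ∀ j, ‖(taylor (e i) g.re).coeff j‖ ≤ 1)
    (hAs : ∀ j, ‖(taylor (e i) g.re).coeff j‖ * ‖ϖ‖ ^ (2 * j) ≤ ‖ϖ‖ ^ (2 * m))
    (hAm : ‖(taylor (e i) g.re).coeff m‖ = 1)
    (hB : ∀ j, ‖(taylor (e i) g.im).coeff j‖ ≤ ‖ϖ‖ ^ 3)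
    (hBs : ∀ j, ‖(taylor (e i) g.im).coeff j‖ * ‖ϖ‖ ^ (2 * j + 1) ≤ ‖ϖ‖ ^ (2 * m)) :
    ‖(s₁.map APt.y).sum‖ ≤ ‖ϖ‖ ^ 3 := by
  obtain ⟨l, rfl⟩ : ∃ z : VR K, (z : K) = ϖ := ⟨⟨ϖ, (mem_VR _).2 h1.le⟩, rfl⟩
  have hpos : 0 < ‖(l : K)‖ := norm_pos_iff.mpr h0
  have hF1 : (Scal.F0 hg i l).map (VR K).subtype = Scal.F1 hg i l := rfl
  -- the points in the new coordinates
  have : Nonempty (APt (Scal.F0 hg i l)) := ⟨⟨0, 0, by simp [Scal.F0]⟩⟩
  have hex : ∀ P ∈ s₁, ∃ Q : APt (Scal.F0 hg i l),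
      P.x = e i + (l : K) ^ 2 * (Q.x : K) ∧ P.y = (l : K) * (Q.y : K) := by
    intro P hP
    have h2 := near_norm hg i P (hn P hP)
    have h3 : ‖(P.x - e i) / (l : K) ^ 2‖ ≤ 1 := by
      rw [norm_div, norm_pow, h2]
      exact div_le_one_of_le₀ (pow_le_pow_left₀ (norm_nonneg _) (hy P hP) 2) (by positivity)
    have h4 : ‖P.y / (l : K)‖ ≤ 1 := by
      rw [norm_div]
      exact div_le_one_of_le₀ (hy P hP) (by positivity)
    have h5 : P.x = e i + (l : K) ^ 2 * ((P.x - e i) / (l : K) ^ 2) := by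
      field_simp
      ring
    have h6 : P.y = (l : K) * (P.y / (l : K)) := by field_simp
    exact ⟨⟨⟨_, (mem_VR _).2 h3⟩, ⟨_, (mem_VR _).2 h4⟩,
      Scal.point_O hg i l h0 P ⟨_, (mem_VR _).2 h3⟩ ⟨_, (mem_VR _).2 h4⟩ h5 h6⟩, h5, h6⟩
  choose! pt hpt using hex
  -- coefficients of `S g`
  have cre : ∀ j, (Scal.S hg i l g).re.coeff j =
      (taylor (e i) g.re).coeff j * ((l : K) ^ 2) ^ j := by
    intro j
    rw [Scal.S_re, comp_taylor, comp_C_mul_X_coeff]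
  have cim : ∀ j, (Scal.S hg i l g).im.coeff j =
      (l : K) * ((taylor (e i) g.im).coeff j * ((l : K) ^ 2) ^ j) := by
    intro j
    rw [Scal.S_im, comp_taylor, coeff_C_mul, comp_C_mul_X_coeff]
  have nre : ∀ j, ‖(C (((l : K) ^ (2 * m))⁻¹) * (Scal.S hg i l g).re).coeff j‖ =
      ‖(taylor (e i) g.re).coeff j‖ * ‖(l : K)‖ ^ (2 * j) / ‖(l : K)‖ ^ (2 * m) := by
    intro j
    rw [coeff_C_mul, cre, norm_mul, norm_mul, norm_inv, norm_pow, norm_pow, norm_pow, ← pow_mul]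
    ring
  have nim : ∀ j, ‖(C (((l : K) ^ (2 * m))⁻¹) * (Scal.S hg i l g).im).coeff j‖ =
      ‖(taylor (e i) g.im).coeff j‖ * ‖(l : K)‖ ^ (2 * j + 1) / ‖(l : K)‖ ^ (2 * m) := by
    intro j
    rw [coeff_C_mul, cim, norm_mul, norm_mul, norm_mul, norm_inv, norm_pow, norm_pow, norm_pow,
      ← pow_mul]
    ring
  obtain ⟨qr, hqr⟩ := exists_lift _ fun j => by
    rw [nre j]
    exact div_le_one_of_le₀ (hAs j) (by positivity)
  obtain ⟨qi, hqi⟩ := exists_lift _ fun j => by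
    rw [nim j]
    exact div_le_one_of_le₀ (hBs j) (by positivity)
  have hmemK : CRmap (VR K).subtype hF1 (⟨qr, qi⟩ : CR (Scal.F0 hg i l)) ∈
      Mprod ((s₁.map pt).map (APt.map (VR K).subtype hF1)) := by
    have h2 : CRmap (VR K).subtype hF1 (⟨qr, qi⟩ : CR (Scal.F0 hg i l)) =
        ⟨C (((l : K) ^ (2 * m))⁻¹), 0⟩ * Scal.S hg i l g := by
      ext1
      · simp only [CRmap_re, QuadraticAlgebra.re_mul, hqr, mul_zero, zero_mul, add_zero]
      · simp only [CRmap_im, QuadraticAlgebra.im_mul, hqi, zero_mul, add_zero]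
    rw [h2]
    exact Ideal.mul_mem_left _ _
      (S_Mprod hg i l hF1 pt s₁ hpt (Ideal.mem_map_of_mem _ hgm))
  have hmemO := mem_lift (VR K).subtype Subtype.coe_injective hF1 (s₁.map pt)
    (fun P _ => smooth_pt hg i l h1 P) _ hmemK
  -- the quotient
  obtain ⟨π, hπ⟩ : ∃ π : VR K →+* VR K ⧸ Ideal.span {l ^ 2}, π = Ideal.Quotient.mk _ := ⟨_, rfl⟩
  have hπ0 : ∀ z : VR K, π z = 0 ↔ ‖(z : K)‖ ≤ ‖(l : K)‖ ^ 2 := by
    intro z
    rw [hπ, Ideal.Quotient.eq_zero_iff_mem]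
    exact mem_span_sq l z h0
  have hπl : π (l ^ 2) = 0 := by
    rw [hπ0]
    change ‖(l : K) ^ 2‖ ≤ _
    rw [norm_pow]
  have hFT := Scal.F0_map hg i l π hπl
  have hmemT : CRmap π hFT (⟨qr, qi⟩ : CR (Scal.F0 hg i l)) ∈
      Mprod ((s₁.map pt).map (APt.map π hFT)) := by
    rw [← Mprod_map]
    exact Ideal.mem_map_of_mem _ hmemO
  have cr : ∀ j, ((qr.coeff j : VR K) : K) =
      (C (((l : K) ^ (2 * m))⁻¹) * (Scal.S hg i l g).re).coeff j := by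
    intro j
    rw [← hqr, coeff_map]
    rfl
  have ci : ∀ j, ((qi.coeff j : VR K) : K) =
      (C (((l : K) ^ (2 * m))⁻¹) * (Scal.S hg i l g).im).coeff j := by
    intro j
    rw [← hqi, coeff_map]
    rfl
  have hsum := par_lemma (π (Scal.ph hg i)) ((Scal.isUnit_ph hg i).map π) rfl
    ((s₁.map pt).map (APt.map π hFT)) m (by rw [Multiset.card_map, Multiset.card_map, hs])
    (CRmap π hFT ⟨qr, qi⟩) hmemT ?_ ?_ ?_
  · -- conclusion
    have h2 : (((s₁.map pt).map (APt.map π hFT)).map APt.y).sum =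
        π ((s₁.map fun P => (pt P).y).sum) := by
      rw [map_multiset_sum, Multiset.map_map, Multiset.map_map, Multiset.map_map]
      rfl
    rw [h2, hπ0] at hsum
    have h3 : (s₁.map APt.y).sum = (l : K) * (((s₁.map fun P => (pt P).y).sum : VR K) : K) := by
      have h4 : (((s₁.map fun P => (pt P).y).sum : VR K) : K) =
          (s₁.map fun P => ((pt P).y : K)).sum := by
        change (VR K).subtype _ = _
        rw [map_multiset_sum, Multiset.map_map]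
        rfl
      rw [h4, ← Multiset.sum_map_mul_left]
      congr 1
      exact Multiset.map_congr rfl fun P hP => (hpt P hP).2
    rw [h3, norm_mul]
    calc ‖(l : K)‖ * ‖(((s₁.map fun P => (pt P).y).sum : VR K) : K)‖
        ≤ ‖(l : K)‖ * ‖(l : K)‖ ^ 2 := mul_le_mul_of_nonneg_left hsum hpos.le
      _ = ‖(l : K)‖ ^ 3 := by ring
  · intro j hj
    rw [CRmap_re, coeff_map, hπ0, cr, nre, div_le_iff₀ (by positivity), ← pow_add]
    calc ‖(taylor (e i) g.re).coeff j‖ * ‖(l : K)‖ ^ (2 * j) ≤ 1 * ‖(l : K)‖ ^ (2 * j) :=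
          mul_le_mul_of_nonneg_right (hA1 j) (by positivity)
      _ ≤ ‖(l : K)‖ ^ (2 + 2 * m) := by
          rw [one_mul]
          exact pow_le_pow_of_le_one hpos.le h1.le (by omega)
  · rw [CRmap_re, coeff_map]
    refine (Scal.isUnit_of_norm ?_).map π
    rw [cr, nre, hAm, one_mul]
    exact div_self (by positivity)
  · intro j hj
    rw [CRmap_im, coeff_map, hπ0, ci, nim, div_le_iff₀ (by positivity), ← pow_add]
    calc ‖(taylor (e i) g.im).coeff j‖ * ‖(l : K)‖ ^ (2 * j + 1)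
        ≤ ‖(l : K)‖ ^ 3 * ‖(l : K)‖ ^ (2 * j + 1) :=
          mul_le_mul_of_nonneg_right (hB j) (by positivity)
      _ = ‖(l : K)‖ ^ (3 + (2 * j + 1)) := by rw [← pow_add]
      _ ≤ ‖(l : K)‖ ^ (2 + 2 * m) := pow_le_pow_of_le_one hpos.le h1.le (by omega)

end G2
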