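import Pool.Agent.Lib.MP_2eeeac_ag.G2.NRel
import Pool.Agent.Lib.MP_2eeeac_ag.G2.NAbel

/-!
# Module NSL: the group law near the origin, modulo `ρ³`
-/

namespace G2

open Polynomial

variable {K : Type*} [NormedField K] [IsUltrametricDist K] [IsAlgClosed K] {f : K[X]}
  {e : Fin 5 → K}

private theorem nsl_WW (hg : Good f e) (i : Fin 5) :
    v (some (Wp hg i)) + v (some (Wp hg i)) = 0 := by
  haveI : Quintic f := hg.quintic
  have h1 := v_neg (f := f) (some (Wp hg i))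
  have h2 : HPt.neg (some (Wp hg i)) = some (Wp hg i) := by
    change some (APt.neg (Wp hg i)) = some (Wp hg i)
    congr 1
    ext
    · rfl
    · exact neg_zero
  rw [h2] at h1
  nth_rewrite 1 [h1]
  exact neg_add_cancel _

private theorem nsl_dW (hg : Good f e) (i : Fin 5) (P : APt f) :
    dW hg i P = v (some P) + v (some (Wp hg i)) := by
  rw [dW, sub_eq_add_neg, neg_eq_of_add_eq_zero_left (nsl_WW hg i)]

private theorem nsl_vneg (hg : Good f e) (P : APt f) : v (some P.neg) = -v (some P) := by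
  haveI : Quintic f := hg.quintic
  exact v_neg (f := f) (some P)

private theorem nsl_sum (hg : Good f e) (i : Fin 5) (s : Multiset (APt f)) :
    (s.map (dW hg i)).sum = (s.map fun P => v (some P)).sum + s.card • v (some (Wp hg i)) := by
  induction s using Multiset.induction_on with
  | empty => simp
  | cons P s ih =>
    rw [Multiset.map_cons, Multiset.sum_cons, Multiset.map_cons, Multiset.sum_cons, ih,
      Multiset.card_cons, add_smul, one_smul, nsl_dW]
    abel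

private theorem nsl_norm_sum (s : Multiset (APt f)) (ρ : ℝ) (hρ : 0 ≤ ρ)
    (h : ∀ P ∈ s, ‖P.y‖ ≤ ρ) : ‖(s.map APt.y).sum‖ ≤ ρ := by
  induction s using Multiset.induction_on with
  | empty => simpa using hρ
  | cons P s ih =>
    rw [Multiset.map_cons, Multiset.sum_cons]
    refine (IsUltrametricDist.norm_add_le_max _ _).trans (max_le ?_ ?_)
    · exact h P (Multiset.mem_cons_self P s)
    · exact ih fun Q hQ => h Q (Multiset.mem_cons_of_mem hQ)

/-- the completed multiset -/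
private noncomputable def nslU (hg : Good f e) (i : Fin 5) (s : Multiset (APt f)) (T : APt f) :
    Multiset (APt f) := s + (Multiset.replicate (s.card + 1) (Wp hg i) + {T.neg})

private theorem nslU_card (hg : Good f e) (i : Fin 5) (s : Multiset (APt f)) (T : APt f) :
    Even (nslU hg i s T).card := by
  rw [nslU, Multiset.card_add, Multiset.card_add, Multiset.card_replicate, Multiset.card_singleton]
  exact ⟨s.card + 1, by ring⟩

private theorem nslU_near (hg : Good f e) (i : Fin 5) (s : Multiset (APt f)) (T : APt f)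
    (hs : ∀ P ∈ s, ‖P.x - e i‖ < 1) (hT : ‖T.x - e i‖ < 1) :
    ∀ P ∈ nslU hg i s T, ‖P.x - e i‖ < 1 := by
  intro P hP
  rw [nslU, Multiset.mem_add, Multiset.mem_add] at hP
  rcases hP with hP | hP | hP
  · exact hs P hP
  · rw [Multiset.eq_of_mem_replicate hP]
    change ‖e i - e i‖ < 1
    rw [sub_self, norm_zero]
    exact one_pos
  · rw [Multiset.mem_singleton] at hP
    rw [hP]
    exact hT

private theorem nslU_y (hg : Good f e) (i : Fin 5) (s : Multiset (APt f)) (T : APt f) (ρ : ℝ)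
    (hρ : 0 ≤ ρ) (hs : ∀ P ∈ s, ‖P.y‖ ≤ ρ) (hT : ‖T.y‖ ≤ ρ) :
    ∀ P ∈ nslU hg i s T, ‖P.y‖ ≤ ρ := by
  intro P hP
  rw [nslU, Multiset.mem_add, Multiset.mem_add] at hP
  rcases hP with hP | hP | hP
  · exact hs P hP
  · rw [Multiset.eq_of_mem_replicate hP]
    change ‖(0 : K)‖ ≤ ρ
    rw [norm_zero]
    exact hρ
  · rw [Multiset.mem_singleton] at hP
    rw [hP]
    change ‖-T.y‖ ≤ ρ
    rw [norm_neg]
    exact hT

private theorem nslU_ysum (hg : Good f e) (i : Fin 5) (s : Multiset (APt f)) (T : APt f) :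
    ((nslU hg i s T).map APt.y).sum = (s.map APt.y).sum - T.y := by
  rw [nslU, Multiset.map_add, Multiset.map_add, Multiset.sum_add, Multiset.sum_add,
    Multiset.map_replicate, Multiset.sum_replicate, Multiset.map_singleton,
    Multiset.sum_singleton]
  have h1 : (Wp hg i).y = 0 := rfl
  rw [h1, smul_zero, APt.neg_y]
  ring

private theorem nslU_v (hg : Good f e) (i : Fin 5) (s : Multiset (APt f)) (T : APt f) :
    ((nslU hg i s T).map fun P => v (some P)).sum = (s.map (dW hg i)).sum - dW hg i T := by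
  rw [nslU, Multiset.map_add, Multiset.map_add, Multiset.sum_add, Multiset.sum_add,
    Multiset.map_replicate, Multiset.sum_replicate, Multiset.map_singleton,
    Multiset.sum_singleton, nsl_vneg hg, nsl_sum, dW, add_smul, one_smul]
  abel

theorem structure_lemma (hg : Good f e) {i j : Fin 5} (hij : i ≠ j) (ρ : ℝ) (hρ0 : 0 ≤ ρ)
    (hρ1 : ρ < 1) (s₁ s₂ : Multiset (APt f)) (h₁ : ∀ P ∈ s₁, ‖P.x - e i‖ < 1)
    (h₂ : ∀ P ∈ s₂, ‖P.x - e j‖ < 1) (hy₁ : ∀ P ∈ s₁, ‖P.y‖ ≤ ρ)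
    (hy₂ : ∀ P ∈ s₂, ‖P.y‖ ≤ ρ) :
    ∃ T T' : APt f, ‖T.x - e i‖ < 1 ∧ ‖T'.x - e j‖ < 1 ∧
      (s₁.map (dW hg i)).sum + (s₂.map (dW hg j)).sum = dW hg i T + dW hg j T' ∧
      ‖T.y‖ ≤ ρ ∧ ‖T'.y‖ ≤ ρ ∧ ‖T.y - (s₁.map APt.y).sum‖ ≤ ρ ^ 3 ∧
      ‖T'.y - (s₂.map APt.y).sum‖ ≤ ρ ^ 3 := by
  obtain ⟨r, hr⟩ := exists_redHom hg
  -- the class as a sum of classes of points
  set s : Multiset (HPt f) := (s₁.map some + Multiset.replicate s₁.card (some (Wp hg i))) +
    (s₂.map some + Multiset.replicate s₂.card (some (Wp hg j))) with hs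
  have hsum : (s.map v).sum = (s₁.map (dW hg i)).sum + (s₂.map (dW hg j)).sum := by
    rw [hs, nsl_sum, nsl_sum]
    simp only [Multiset.map_add, Multiset.sum_add, Multiset.map_replicate,
      Multiset.sum_replicate, Multiset.map_map, Function.comp_def]
  have hred : ∀ (l : Fin 5) (t : Multiset (APt f)), (∀ P ∈ t, ‖P.x - e l‖ < 1) →
      r ((t.map (dW hg l)).sum) = 0 := by
    intro l t
    induction t using Multiset.induction_on with
    | empty => intro _; simp
    | cons P t ih =>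
      intro h
      rw [Multiset.map_cons, Multiset.sum_cons, map_add,
        red_dW hg r hr l P (h P (Multiset.mem_cons_self P t)),
        ih fun Q hQ => h Q (Multiset.mem_cons_of_mem hQ), add_zero]
  have hc : r (s.map v).sum = 0 := by
    rw [hsum, map_add, hred i s₁ h₁, hred j s₂ h₂, add_zero]
  obtain ⟨T, T', hT, hT', hTT⟩ := exists_near hg hij r hr s hc
  rw [hsum] at hTT
  set ρ' : ℝ := max ρ (max ‖T.y‖ ‖T'.y‖) with hρ'
  have hρρ' : ρ ≤ ρ' := le_max_left _ _
  have hTρ' : ‖T.y‖ ≤ ρ' := (le_max_left _ _).trans (le_max_right _ _)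
  have hTρ'' : ‖T'.y‖ ≤ ρ' := (le_max_right _ _).trans (le_max_right _ _)
  have hρ'0 : 0 ≤ ρ' := hρ0.trans hρρ'
  have hρ'1 : ρ' < 1 := max_lt hρ1 (max_lt (near_y_lt hg i T hT) (near_y_lt hg j T' hT'))
  have hzero : ((nslU hg i s₁ T).map fun P => v (some P)).sum +
      ((nslU hg j s₂ T').map fun P => v (some P)).sum = 0 := by
    rw [nslU_v, nslU_v]
    have : (s₁.map (dW hg i)).sum - dW hg i T + ((s₂.map (dW hg j)).sum - dW hg j T') =
      ((s₁.map (dW hg i)).sum + (s₂.map (dW hg j)).sum) - (dW hg i T + dW hg j T') := by abel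
    rw [this, hTT, sub_self]
  have ha1 := abel hg hij (nslU hg i s₁ T) (nslU hg j s₂ T')
    (nslU_near hg i s₁ T h₁ hT) (nslU_near hg j s₂ T' h₂ hT') (nslU_card hg i s₁ T)
    (nslU_card hg j s₂ T') ρ' hρ'0 hρ'1
    (nslU_y hg i s₁ T ρ' hρ'0 (fun P hP => (hy₁ P hP).trans hρρ') hTρ')
    (nslU_y hg j s₂ T' ρ' hρ'0 (fun P hP => (hy₂ P hP).trans hρρ') hTρ'') hzero
  have ha2 := abel hg hij.symm (nslU hg j s₂ T') (nslU hg i s₁ T)
    (nslU_near hg j s₂ T' h₂ hT') (nslU_near hg i s₁ T h₁ hT) (nslU_card hg j s₂ T')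
    (nslU_card hg i s₁ T) ρ' hρ'0 hρ'1
    (nslU_y hg j s₂ T' ρ' hρ'0 (fun P hP => (hy₂ P hP).trans hρρ') hTρ'')
    (nslU_y hg i s₁ T ρ' hρ'0 (fun P hP => (hy₁ P hP).trans hρρ') hTρ')
    (by rw [add_comm]; exact hzero)
  rw [nslU_ysum, norm_sub_rev] at ha1 ha2
  have hb1 : ‖T.y‖ ≤ max ρ (ρ' ^ 3) := by
    have h3 : T.y = (T.y - (s₁.map APt.y).sum) + (s₁.map APt.y).sum := by ring
    rw [h3]
    refine (IsUltrametricDist.norm_add_le_max _ _).trans (max_le ?_ ?_)
    · exact ha1.trans (le_max_right _ _)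
    · exact (nsl_norm_sum s₁ ρ hρ0 hy₁).trans (le_max_left _ _)
  have hb2 : ‖T'.y‖ ≤ max ρ (ρ' ^ 3) := by
    have h3 : T'.y = (T'.y - (s₂.map APt.y).sum) + (s₂.map APt.y).sum := by ring
    rw [h3]
    refine (IsUltrametricDist.norm_add_le_max _ _).trans (max_le ?_ ?_)
    · exact ha2.trans (le_max_right _ _)
    · exact (nsl_norm_sum s₂ ρ hρ0 hy₂).trans (le_max_left _ _)
  have hle : ρ' ≤ max ρ (ρ' ^ 3) := max_le (le_max_left _ _) (max_le hb1 hb2)
  have heq : ρ' = ρ := by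
    by_contra hne
    have hlt : ρ < ρ' := lt_of_le_of_ne hρρ' (Ne.symm hne)
    have h3 : ρ' ≤ ρ' ^ 3 := by
      rcases le_max_iff.1 hle with h | h
      · exact absurd h (not_le.2 hlt)
      · exact h
    have h4 : 0 < ρ' := lt_of_le_of_lt hρ0 hlt
    have h5 : ρ' ^ 3 < ρ' := by
      have h6 : ρ' ^ 2 < 1 := pow_lt_one₀ hρ'0 hρ'1 two_ne_zero
      calc ρ' ^ 3 = ρ' * ρ' ^ 2 := by ring
        _ < ρ' * 1 := mul_lt_mul_of_pos_left h6 h4
        _ = ρ' := mul_one _
    exact absurd h3 (not_le.2 h5)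
  rw [heq] at ha1 ha2 hTρ' hTρ''
  exact ⟨T, T', hT, hT', hTT, hTρ', hTρ'', ha1, ha2⟩

end G2
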